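import Mathlib

/-!
Linear independence of `d`-th powers of pairwise non-proportional polynomials
(generalised Mason theorem via Wronskians).
-/

open Polynomial Matrix

namespace R864.PolyPow

variable {K : Type*} [Field K] [CharZero K]

theorem prop_of_wronskian {p q : K[X]} (hq : q ≠ 0)
    (h : p * derivative q = derivative p * q) : ∃ c : K, p = C c * q := by
  classical
  obtain ⟨a, b, ha, hb, hab⟩ := extract_gcd p q
  set g := gcd p q with hg
  have hg0 : g ≠ 0 := by
    intro h0
    rw [h0, zero_mul] at hb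
    exact hq hb
  have hcop : IsCoprime a b := (gcd_isUnit_iff a b).1 hab
  have hw : wronskian a b = 0 := by
    have h1 : g * g * wronskian a b = 0 := by
      have h2 : p * derivative q - derivative p * q = 0 := by rw [h]; ring
      rw [ha, hb] at h2
      rw [derivative_mul, derivative_mul] at h2
      unfold wronskian
      linear_combination h2
    rcases mul_eq_zero.1 h1 with h3 | h3
    · exact absurd h3 (mul_ne_zero hg0 hg0)
    · exact h3
  obtain ⟨da, db⟩ := (hcop.wronskian_eq_zero_iff).1 hw
  have ha' := derivative_eq_zero.1 da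
  have hb' := derivative_eq_zero.1 db
  obtain ⟨α, hα⟩ := natDegree_eq_zero.1 ha'
  obtain ⟨β, hβ⟩ := natDegree_eq_zero.1 hb'
  have hβ0 : β ≠ 0 := by
    intro h0
    rw [← hβ, h0, C_0, mul_zero] at hb
    exact hq hb
  refine ⟨α / β, ?_⟩
  rw [ha, hb, ← hα, ← hβ]
  have : (C (α / β) : K[X]) * C β = C α := by
    rw [← C_mul, div_mul_cancel₀ _ hβ0]
  rw [mul_left_comm, this]

theorem wr_ne_zero : ∀ (r : ℕ) (F : Fin r → K[X]), LinearIndependent K F →
    (Matrix.of fun (i j : Fin r) => derivative^[(j : ℕ)] (F i)).det ≠ 0 := by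
  intro r
  induction r with
  | zero =>
    intro F _
    rw [Matrix.det_isEmpty]
    exact one_ne_zero
  | succ r ih =>
    intro F hF hdet
    have hF' : LinearIndependent K (fun i : Fin r => F i.castSucc) :=
      hF.comp Fin.castSucc (Fin.castSucc_injective r)
    have hne := ih _ hF'
    have hinj : ∀ a : Fin r → K[X],
        (∀ j : Fin r, ∑ i, a i * derivative^[(j : ℕ)] (F i.castSucc) = 0) → a = 0 := by
      intro a ha
      by_contra hane
      apply hne
      rw [← Matrix.exists_vecMul_eq_zero_iff]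
      refine ⟨a, hane, ?_⟩
      funext j
      simp only [Matrix.vecMul, dotProduct, Matrix.of_apply, Pi.zero_apply]
      exact ha j
    obtain ⟨v, hv0, hv⟩ := Matrix.exists_vecMul_eq_zero_iff.2 hdet
    have hv' : ∀ j : Fin (r + 1), ∑ i, v i * derivative^[(j : ℕ)] (F i) = 0 := by
      intro j
      have := congrFun hv j
      simpa only [Matrix.vecMul, dotProduct, Matrix.of_apply, Pi.zero_apply] using this
    have hd : ∀ j : Fin r, ∑ i, derivative (v i) * derivative^[(j : ℕ)] (F i) = 0 := by
      intro j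
      have h1 := congrArg derivative (hv' j.castSucc)
      have h2 := hv' j.succ
      rw [derivative_sum, derivative_zero] at h1
      simp only [derivative_mul, Fin.val_castSucc, Finset.sum_add_distrib] at h1
      simp only [Fin.val_succ, Function.iterate_succ_apply'] at h2
      rw [h2, add_zero] at h1
      exact h1
    have hlast : v (Fin.last r) ≠ 0 := by
      intro h0
      apply hv0
      have hz := hinj (fun i => v i.castSucc) (by
        intro j
        have := hv' j.castSucc
        rw [Fin.sum_univ_castSucc, h0, zero_mul, add_zero] at this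
        simpa using this)
      funext i
      refine Fin.lastCases ?_ ?_ i
      · exact h0
      · intro i
        exact congrFun hz i
    have hprop : ∀ i : Fin r, derivative (v (Fin.last r)) * v i.castSucc
        - v (Fin.last r) * derivative (v i.castSucc) = 0 := by
      have hz := hinj (fun i => derivative (v (Fin.last r)) * v i.castSucc
        - v (Fin.last r) * derivative (v i.castSucc)) (by
        intro j
        have h1 := hv' j.castSucc
        have h2 := hd j
        rw [Fin.sum_univ_castSucc] at h1 h2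
        simp only [Fin.val_castSucc] at h1
        have : ∑ i : Fin r, (derivative (v (Fin.last r)) * v i.castSucc
            - v (Fin.last r) * derivative (v i.castSucc)) * derivative^[(j : ℕ)] (F i.castSucc)
            = derivative (v (Fin.last r)) *
                ∑ i : Fin r, v i.castSucc * derivative^[(j : ℕ)] (F i.castSucc)
              - v (Fin.last r) * ∑ i : Fin r, derivative (v i.castSucc) *
                derivative^[(j : ℕ)] (F i.castSucc) := by
          rw [Finset.mul_sum, Finset.mul_sum, ← Finset.sum_sub_distrib]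
          refine Finset.sum_congr rfl fun i _ => ?_
          ring
        rw [this]
        linear_combination derivative (v (Fin.last r)) * h1 - v (Fin.last r) * h2)
      intro i
      exact congrFun hz i
    have hc : ∀ i : Fin (r + 1), ∃ c : K, v i = C c * v (Fin.last r) := by
      intro i
      refine Fin.lastCases ?_ ?_ i
      · exact ⟨1, by simp⟩
      · intro i
        apply prop_of_wronskian hlast
        linear_combination hprop i
    choose c hc using hc
    have hsum : ∑ i, c i • F i = 0 := by
      have h1 := hv' 0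
      simp only [Fin.val_zero, Function.iterate_zero, id_eq] at h1
      have h2 : v (Fin.last r) * ∑ i, c i • F i = 0 := by
        rw [Finset.mul_sum, ← h1]
        refine Finset.sum_congr rfl fun i _ => ?_
        rw [hc i, smul_eq_C_mul]
        ring
      rcases mul_eq_zero.1 h2 with h3 | h3
      · exact absurd h3 hlast
      · exact h3
    have hc0 := Fintype.linearIndependent_iff.1 hF c hsum (Fin.last r)
    have := hc (Fin.last r)
    rw [hc0, C_0, zero_mul] at this
    exact hlast this


omit [CharZero K] in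
theorem natDegree_det_le {r : ℕ} (A : Matrix (Fin r) (Fin r) K[X]) (D : Fin r → ℕ)
    (h : ∀ i j, (A i j).natDegree ≤ D i) : A.det.natDegree ≤ ∑ i, D i := by
  rw [Matrix.det_apply]
  refine natDegree_sum_le_of_forall_le _ _ fun σ _ => ?_
  have h1 : (Equiv.Perm.sign σ • ∏ i, A (σ i) i).natDegree ≤ (∏ i, A (σ i) i).natDegree := by
    rcases Int.units_eq_one_or (Equiv.Perm.sign σ) with h | h
    · rw [h, one_smul]
    · rw [h, Units.neg_smul, one_smul, natDegree_neg]
  refine h1.trans ((natDegree_prod_le _ _).trans ?_)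
  calc ∑ i, (A (σ i) i).natDegree ≤ ∑ i, D (σ i) := Finset.sum_le_sum fun i _ => h _ _
    _ = ∑ i, D i := Equiv.sum_comp σ D

omit [CharZero K] in
theorem cofactor_exists (r d : ℕ) (hr : r ≤ d + 1) (f : K[X]) (hf : f ≠ 0) (j : Fin r) :
    ∃ u : K[X], derivative^[(j : ℕ)] (f ^ d) = f ^ (d + 1 - r) * u ∧
      u.natDegree ≤ (r - 1) * f.natDegree := by
  have hj := j.2
  have h1 : f ^ (d + 1 - r) ∣ derivative^[(j : ℕ)] (f ^ d) :=
    (pow_dvd_pow f (by omega)).trans (pow_sub_dvd_iterate_derivative_pow f d j)
  obtain ⟨u, hu⟩ := h1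
  refine ⟨u, hu, ?_⟩
  by_cases hu0 : u = 0
  · simp [hu0]
  have h2 : (f ^ (d + 1 - r) * u).natDegree ≤ d * f.natDegree := by
    rw [← hu]
    refine (natDegree_iterate_derivative _ _).trans ?_
    rw [natDegree_pow]
    omega
  rw [natDegree_mul (pow_ne_zero _ hf) hu0, natDegree_pow] at h2
  have h3 : d * f.natDegree = (d + 1 - r) * f.natDegree + (r - 1) * f.natDegree := by
    rw [← add_mul]
    congr 1
    omega
  omega

/-- core step, coprime case -/
theorem key_coprime (r d : ℕ) (hr : 1 ≤ r) (hd : r ^ 2 ≤ d) (f : Fin r → K[X]) (f0 : K[X])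
    (b : Fin r → K) (hb : ∀ i, b i ≠ 0) (hli : LinearIndependent K (fun i => f i ^ d))
    (hrel : f0 ^ d = ∑ i, C (b i) * f i ^ d)
    (hcop : (1 : K[X]) ∈ Ideal.span (insert f0 (Set.range f))) :
    f0.natDegree = 0 ∧ ∀ i, (f i).natDegree = 0 := by
  classical
  have hd1 : d ≠ 0 := by
    have : 1 ≤ r ^ 2 := Nat.one_le_pow _ _ hr
    omega
  have hrd : r ≤ d + 1 := by nlinarith
  have hfne : ∀ i, f i ≠ 0 := by
    intro i h0
    have := hli.ne_zero i
    simp only [h0] at this
    exact this (zero_pow hd1)
  have hf0ne : f0 ≠ 0 := by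
    intro h0
    rw [h0, zero_pow hd1] at hrel
    have h1 := Fintype.linearIndependent_iff.1 hli b (by
      rw [hrel]
      refine Finset.sum_congr rfl fun i _ => ?_
      rw [smul_eq_C_mul]) ⟨0, hr⟩
    exact hb _ h1
  have hcof : ∀ (g : K[X]) (j : Fin r), ∃ u : K[X], g ≠ 0 →
      (derivative^[(j : ℕ)] (g ^ d) = g ^ (d + 1 - r) * u ∧
      u.natDegree ≤ (r - 1) * g.natDegree) := by
    intro g j
    by_cases hg : g = 0
    · exact ⟨0, fun h => absurd hg h⟩
    · obtain ⟨u, hu⟩ := cofactor_exists r d hrd g hg j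
      exact ⟨u, fun _ => hu⟩
  choose u hu using hcof
  set e := d + 1 - r with he
  -- reduced determinant
  set R : (Fin r → K[X]) → K[X] := fun g => (Matrix.of fun i j => u (g i) j).det with hR
  have hdetR : ∀ g : Fin r → K[X], (∀ i, g i ≠ 0) →
      (Matrix.of fun (i j : Fin r) => derivative^[(j : ℕ)] (g i ^ d)).det
        = (∏ i, g i ^ e) * R g := by
    intro g hg
    rw [hR]
    simp only
    rw [← Matrix.det_mul_column]
    congr 1
    ext1 i j
    simp only [Matrix.of_apply]
    exact (hu (g i) j (hg i)).1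
  have hRdeg : ∀ g : Fin r → K[X], (∀ i, g i ≠ 0) →
      (R g).natDegree ≤ ∑ i, (r - 1) * (g i).natDegree := by
    intro g hg
    exact natDegree_det_le _ _ fun i j => (hu (g i) j (hg i)).2
  have hRf : R f ≠ 0 := by
    intro h0
    have h1 := wr_ne_zero r (fun i => f i ^ d) hli
    rw [hdetR f hfne, h0, mul_zero] at h1
    exact h1 rfl
  -- replacement identity
  have hrep : ∀ j : Fin r, f0 ^ e * R (Function.update f j f0) = C (b j) * f j ^ e * R f := by
    intro j
    have hg : ∀ i, Function.update f j f0 i ≠ 0 := by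
      intro i
      by_cases hij : i = j
      · subst hij
        rw [Function.update_self]
        exact hf0ne
      · rw [Function.update_of_ne hij]
        exact hfne i
    have h1 := hdetR _ hg
    have h2 : (Matrix.of fun (i k : Fin r) =>
        derivative^[(k : ℕ)] (Function.update f j f0 i ^ d)) =
        (Matrix.of fun (i k : Fin r) => derivative^[(k : ℕ)] (f i ^ d)).updateRow j
          (∑ k, (C (b k) : K[X]) •
            (Matrix.of fun (i k : Fin r) => derivative^[(k : ℕ)] (f i ^ d)) k) := by
      ext1 i k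
      by_cases hij : i = j
      · subst hij
        rw [Matrix.updateRow_self]
        simp only [Matrix.of_apply, Function.update_self, Finset.sum_apply, Pi.smul_apply,
          smul_eq_mul]
        rw [hrel, Polynomial.iterate_derivative_sum]
        refine Finset.sum_congr rfl fun l _ => ?_
        rw [Polynomial.iterate_derivative_C_mul]
      · rw [Matrix.updateRow_ne hij]
        simp only [Matrix.of_apply, Function.update_of_ne hij]
    rw [h2, Matrix.det_updateRow_sum, hdetR f hfne] at h1
    rw [← Finset.mul_prod_erase Finset.univ _ (Finset.mem_univ j)] at h1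
    rw [← Finset.mul_prod_erase Finset.univ (fun i => Function.update f j f0 i ^ e)
      (Finset.mem_univ j)] at h1
    rw [Function.update_self] at h1
    have h3 : ∏ x ∈ Finset.univ.erase j, Function.update f j f0 x ^ e
        = ∏ x ∈ Finset.univ.erase j, f x ^ e := by
      refine Finset.prod_congr rfl fun x hx => ?_
      rw [Function.update_of_ne (Finset.ne_of_mem_erase hx)]
    rw [h3] at h1
    have h4 : ∏ x ∈ Finset.univ.erase j, f x ^ e ≠ 0 :=
      Finset.prod_ne_zero_iff.2 fun x _ => pow_ne_zero _ (hfne x)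
    apply mul_left_cancel₀ h4
    rw [smul_eq_mul] at h1
    linear_combination -h1
  -- f0^e divides R f
  have hdiv : f0 ^ e ∣ R f := by
    have hpow : Ideal.span ((fun x => x ^ e) '' (insert f0 (Set.range f))) = ⊤ :=
      Ideal.span_pow_eq_top _ ((Ideal.eq_top_iff_one _).2 hcop) e
    have hle : Ideal.span ((fun x => x ^ e) '' (insert f0 (Set.range f))) ≤
        Submodule.comap (LinearMap.toSpanSingleton K[X] K[X] (R f)) (Ideal.span {f0 ^ e}) := by
      rw [Ideal.span_le]
      rintro _ ⟨x, hx, rfl⟩
      simp only [SetLike.mem_coe, Submodule.mem_comap, LinearMap.toSpanSingleton_apply,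
        smul_eq_mul]
      rw [Ideal.mem_span_singleton]
      rcases hx with hx | ⟨i, hi⟩
      · subst hx
        exact Dvd.intro _ rfl
      · subst hi
        have h5 := hrep i
        have h6 : f i ^ e * R f = C (b i)⁻¹ * (f0 ^ e * R (Function.update f i f0)) := by
          rw [h5]
          have : (C (b i)⁻¹ : K[X]) * C (b i) = 1 := by
            rw [← C_mul, inv_mul_cancel₀ (hb i), C_1]
          linear_combination (-(f i ^ e * R f)) * this
        rw [h6]
        exact ⟨C (b i)⁻¹ * R (Function.update f i f0), by ring⟩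
    rw [hpow] at hle
    have h7 : (1 : K[X]) ∈ Submodule.comap (LinearMap.toSpanSingleton K[X] K[X] (R f))
      (Ideal.span {f0 ^ e}) := hle Submodule.mem_top
    simp only [Submodule.mem_comap, LinearMap.toSpanSingleton_apply, smul_eq_mul, one_mul] at h7
    exact Ideal.mem_span_singleton.1 h7
  obtain ⟨S, hS⟩ := hdiv
  have hS0 : S ≠ 0 := by
    intro h0
    rw [h0, mul_zero] at hS
    exact hRf hS
  have hS' : ∀ j, R (Function.update f j f0) = C (b j) * f j ^ e * S := by
    intro j
    have h1 := hrep j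
    rw [hS] at h1
    apply mul_left_cancel₀ (pow_ne_zero e hf0ne)
    linear_combination h1
  -- degree bound
  set D : ℕ := max f0.natDegree (Finset.univ.sup fun i => (f i).natDegree) with hD
  have hD0 : f0.natDegree ≤ D := le_max_left _ _
  have hDi : ∀ i, (f i).natDegree ≤ D := fun i =>
    (Finset.le_sup (f := fun i => (f i).natDegree) (Finset.mem_univ i)).trans (le_max_right _ _)
  have hsumle : ∀ g : Fin r → K[X], (∀ i, (g i).natDegree ≤ D) →
      ∑ i, (r - 1) * (g i).natDegree ≤ r * ((r - 1) * D) := by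
    intro g hg
    calc ∑ i, (r - 1) * (g i).natDegree ≤ ∑ _i : Fin r, (r - 1) * D :=
          Finset.sum_le_sum fun i _ => Nat.mul_le_mul_left _ (hg i)
      _ = r * ((r - 1) * D) := by simp
  have hb0 : e * f0.natDegree ≤ r * ((r - 1) * D) := by
    have h1 := (hRdeg f hfne).trans (hsumle f hDi)
    rw [hS, natDegree_mul (pow_ne_zero _ hf0ne) hS0, natDegree_pow] at h1
    omega
  have hbi : ∀ j, e * (f j).natDegree ≤ r * ((r - 1) * D) := by
    intro j
    have hg : ∀ i, Function.update f j f0 i ≠ 0 := by
      intro i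
      by_cases hij : i = j
      · subst hij
        rw [Function.update_self]
        exact hf0ne
      · rw [Function.update_of_ne hij]
        exact hfne i
    have hg' : ∀ i, (Function.update f j f0 i).natDegree ≤ D := by
      intro i
      by_cases hij : i = j
      · subst hij
        rw [Function.update_self]
        exact hD0
      · rw [Function.update_of_ne hij]
        exact hDi i
    have h1 := (hRdeg _ hg).trans (hsumle _ hg')
    have hCb : (C (b j) : K[X]) ≠ 0 := C_ne_zero.2 (hb j)
    rw [hS' j, natDegree_mul (mul_ne_zero hCb (pow_ne_zero _ (hfne j))) hS0,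
      natDegree_mul hCb (pow_ne_zero _ (hfne j)), natDegree_pow, natDegree_C] at h1
    omega
  have heD : e * D ≤ r * ((r - 1) * D) := by
    rcases le_total (Finset.univ.sup fun i => (f i).natDegree) f0.natDegree with h | h
    · have : D = f0.natDegree := by rw [hD]; exact max_eq_left h
      rw [this] at hb0 ⊢
      exact hb0
    · have hDD : D = Finset.univ.sup fun i => (f i).natDegree := by rw [hD]; exact max_eq_right h
      obtain ⟨i, _, hi⟩ := Finset.exists_mem_eq_sup (Finset.univ : Finset (Fin r))
        ⟨⟨0, hr⟩, Finset.mem_univ _⟩ (fun i => (f i).natDegree)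
      have h2 := hbi i
      rw [← hi, ← hDD] at h2
      exact h2
  have hDz : D = 0 := by
    by_contra hne
    have hpos : 0 < D := Nat.pos_of_ne_zero hne
    have h1 : e ≤ r * (r - 1) := by
      have : e * D ≤ (r * (r - 1)) * D := by
        rw [mul_assoc]
        exact heD
      exact Nat.le_of_mul_le_mul_right this hpos
    obtain ⟨s, rfl⟩ : ∃ s, r = s + 1 := ⟨r - 1, by omega⟩
    have h2 : e = d - s := by omega
    rw [h2] at h1
    simp only [Nat.add_sub_cancel] at h1
    have h3 : (s + 1) ^ 2 ≤ d := hd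
    have h4 : (s + 1) ^ 2 = (s + 1) * s + s + 1 := by ring
    omega
  refine ⟨by omega, fun i => by have := hDi i; omega⟩


omit [CharZero K] in
/-- factoring out the gcd of a finite family -/
theorem exists_gcd_family {r : ℕ} (f : Fin r → K[X]) (f0 : K[X]) (hf0 : f0 ≠ 0) :
    ∃ (G f0' : K[X]) (f' : Fin r → K[X]), G ≠ 0 ∧ f0 = G * f0' ∧ (∀ i, f i = G * f' i) ∧
      (1 : K[X]) ∈ Ideal.span (insert f0' (Set.range f')) := by
  classical
  obtain ⟨G, hG⟩ := (IsPrincipalIdealRing.principal
    (Ideal.span (insert f0 (Set.range f)))).principal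
  have hG' : Ideal.span (insert f0 (Set.range f)) = Ideal.span {G} := hG
  have h0 : f0 ∈ Ideal.span {G} := by
    rw [← hG']
    exact Ideal.subset_span (Set.mem_insert _ _)
  have hi : ∀ i, f i ∈ Ideal.span {G} := by
    intro i
    rw [← hG']
    exact Ideal.subset_span (Set.mem_insert_of_mem _ ⟨i, rfl⟩)
  obtain ⟨f0', hf0'⟩ := Ideal.mem_span_singleton.1 h0
  have hi' : ∀ i, ∃ x, f i = G * x := fun i => Ideal.mem_span_singleton.1 (hi i)
  choose f' hf' using hi'
  have hG0 : G ≠ 0 := by
    intro h
    rw [h, zero_mul] at hf0'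
    exact hf0 hf0'
  refine ⟨G, f0', f', hG0, hf0', hf', ?_⟩
  have hall : ∀ x ∈ Ideal.span (insert f0 (Set.range f)),
      ∃ y ∈ Ideal.span (insert f0' (Set.range f')), x = G * y := by
    intro x hx
    refine Submodule.span_induction ?_ ?_ ?_ ?_ hx
    · intro x hx
      rcases hx with hx | ⟨i, hx⟩
      · subst hx
        exact ⟨f0', Ideal.subset_span (Set.mem_insert _ _), hf0'⟩
      · subst hx
        exact ⟨f' i, Ideal.subset_span (Set.mem_insert_of_mem _ ⟨i, rfl⟩), hf' i⟩
    · exact ⟨0, Submodule.zero_mem _, by simp⟩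
    · rintro x y _ _ ⟨x', hx', rfl⟩ ⟨y', hy', rfl⟩
      exact ⟨x' + y', Submodule.add_mem _ hx' hy', by ring⟩
    · rintro a x _ ⟨x', hx', rfl⟩
      refine ⟨a * x', Ideal.mul_mem_left _ _ hx', ?_⟩
      rw [smul_eq_mul]
      ring
  have hGm : G ∈ Ideal.span (insert f0 (Set.range f)) := by
    rw [hG']
    exact Ideal.mem_span_singleton_self G
  obtain ⟨y, hy, hGy⟩ := hall G hGm
  have : y = 1 := by
    apply mul_left_cancel₀ hG0
    rw [mul_one]
    exact hGy.symm
  rw [← this]
  exact hy

/-- core step -/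
theorem key (r d : ℕ) (hr : 1 ≤ r) (hd : r ^ 2 ≤ d) (f : Fin r → K[X]) (f0 : K[X])
    (b : Fin r → K) (hb : ∀ i, b i ≠ 0) (hli : LinearIndependent K (fun i => f i ^ d))
    (hrel : f0 ^ d = ∑ i, C (b i) * f i ^ d) :
    ∀ i, ∃ γ : K, γ ≠ 0 ∧ f0 = C γ * f i := by
  classical
  have hd1 : d ≠ 0 := by
    have : 1 ≤ r ^ 2 := Nat.one_le_pow _ _ hr
    omega
  have hf0ne : f0 ≠ 0 := by
    intro h0
    rw [h0, zero_pow hd1] at hrel
    have h1 := Fintype.linearIndependent_iff.1 hli b (by
      rw [hrel]
      refine Finset.sum_congr rfl fun i _ => ?_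
      rw [smul_eq_C_mul]) ⟨0, hr⟩
    exact hb _ h1
  have hfne : ∀ i, f i ≠ 0 := by
    intro i h0
    have := hli.ne_zero i
    simp only [h0] at this
    exact this (zero_pow hd1)
  obtain ⟨G, f0', f', hG0, hf0', hf', hcop⟩ := exists_gcd_family f f0 hf0ne
  have hGd : G ^ d ≠ 0 := pow_ne_zero _ hG0
  have hli' : LinearIndependent K (fun i => f' i ^ d) := by
    rw [Fintype.linearIndependent_iff]
    intro c hc
    apply Fintype.linearIndependent_iff.1 hli c
    have : ∑ i, c i • f i ^ d = G ^ d * ∑ i, c i • f' i ^ d := by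
      rw [Finset.mul_sum]
      refine Finset.sum_congr rfl fun i _ => ?_
      rw [hf' i, mul_pow, mul_smul_comm]
    rw [this, hc, mul_zero]
  have hrel' : f0' ^ d = ∑ i, C (b i) * f' i ^ d := by
    apply mul_left_cancel₀ hGd
    rw [← mul_pow, ← hf0', hrel, Finset.mul_sum]
    refine Finset.sum_congr rfl fun i _ => ?_
    rw [hf' i, mul_pow]
    ring
  obtain ⟨h0, hi⟩ := key_coprime r d hr hd f' f0' b hb hli' hrel' hcop
  obtain ⟨a0, ha0⟩ := natDegree_eq_zero.1 h0
  intro i
  obtain ⟨ai, hai⟩ := natDegree_eq_zero.1 (hi i)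
  have ha0' : a0 ≠ 0 := by
    intro h
    rw [← ha0, h, C_0, mul_zero] at hf0'
    exact hf0ne hf0'
  have hai' : ai ≠ 0 := by
    intro h
    have := hf' i
    rw [← hai, h, C_0, mul_zero] at this
    exact hfne i this
  refine ⟨a0 / ai, div_ne_zero ha0' hai', ?_⟩
  rw [hf0', hf' i, ← ha0, ← hai]
  have : (C (a0 / ai) : K[X]) * C ai = C a0 := by
    rw [← C_mul, div_mul_cancel₀ _ hai']
  rw [mul_left_comm, this]

/-- If a linear combination of `d`-th powers vanishes (`d` at least the square of the number of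
terms), then each nonzero term with nonzero coefficient is proportional to another one. -/
theorem exists_proportional {ι : Type*} [DecidableEq ι] (s : Finset ι) (d : ℕ)
    (hd : s.card ^ 2 ≤ d) (hs : 1 ≤ d) (c : ι → K) (f : ι → K[X])
    (h : ∑ i ∈ s, C (c i) * f i ^ d = 0) (k0 : ι) (hk0 : k0 ∈ s) (hc : c k0 ≠ 0)
    (hf : f k0 ≠ 0) :
    ∃ k ∈ s, k ≠ k0 ∧ ∃ γ : K, γ ≠ 0 ∧ f k0 = C γ * f k := by
  classical
  -- the set of finsets representing
  let P : ℕ → Prop := fun m => ∃ T : Finset ι, T ⊆ s.erase k0 ∧ T.card = m ∧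
    ∃ b : ι → K, f k0 ^ d = ∑ k ∈ T, C (b k) * f k ^ d
  have hP : ∃ m, P m := by
    refine ⟨(s.erase k0).card, s.erase k0, Finset.Subset.refl _, rfl,
      fun k => -(c k / c k0), ?_⟩
    rw [← Finset.add_sum_erase s _ hk0] at h
    have h1 : ∑ k ∈ s.erase k0, C (-(c k / c k0)) * f k ^ d
        = -(C (c k0)⁻¹ * ∑ k ∈ s.erase k0, C (c k) * f k ^ d) := by
      rw [Finset.mul_sum, ← Finset.sum_neg_distrib]
      refine Finset.sum_congr rfl fun k _ => ?_
      rw [div_eq_mul_inv, C_neg, C_mul]
      ring
    rw [h1]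
    have h2 : (C (c k0)⁻¹ : K[X]) * C (c k0) = 1 := by
      rw [← C_mul, inv_mul_cancel₀ hc, C_1]
    linear_combination (C (c k0)⁻¹ : K[X]) * h - (f k0 ^ d) * h2
  obtain ⟨T, hTs, hTm, b, hb⟩ := Nat.find_spec hP
  have hmin : ∀ m, P m → Nat.find hP ≤ m := fun m hm => Nat.find_min' hP hm
  have hb0 : ∀ k ∈ T, b k ≠ 0 := by
    intro k hk h0
    have h1 : P (T.erase k).card := by
      refine ⟨T.erase k, (Finset.erase_subset _ _).trans hTs, rfl, b, ?_⟩
      rw [hb, ← Finset.add_sum_erase T _ hk, h0, C_0, zero_mul, zero_add]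
    have h2 := hmin _ h1
    rw [← hTm] at h2
    exact absurd (Finset.card_erase_lt_of_mem hk) (not_lt.2 h2)
  have hli : ∀ a : ι → K, ∑ k ∈ T, C (a k) * f k ^ d = 0 → ∀ k ∈ T, a k = 0 := by
    intro a ha k hk
    by_contra hak
    have h1 : P (T.erase k).card := by
      refine ⟨T.erase k, (Finset.erase_subset _ _).trans hTs, rfl,
        fun l => b l - b k / a k * a l, ?_⟩
      have h3 : ∑ l ∈ T.erase k, C (b l - b k / a k * a l) * f l ^ d
          = ∑ l ∈ T, C (b l - b k / a k * a l) * f l ^ d := by
        rw [← Finset.add_sum_erase T _ hk]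
        have : b k - b k / a k * a k = 0 := by
          rw [div_mul_cancel₀ _ hak, sub_self]
        rw [this, C_0, zero_mul, zero_add]
      rw [h3]
      have h4 : ∑ l ∈ T, C (b l - b k / a k * a l) * f l ^ d
          = ∑ l ∈ T, C (b l) * f l ^ d - C (b k / a k) * ∑ l ∈ T, C (a l) * f l ^ d := by
        rw [Finset.mul_sum, ← Finset.sum_sub_distrib]
        refine Finset.sum_congr rfl fun l _ => ?_
        rw [C_sub, C_mul]
        ring
      rw [h4, ha, mul_zero, sub_zero]
      exact hb
    have h2 := hmin _ h1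
    rw [← hTm] at h2
    exact absurd (Finset.card_erase_lt_of_mem hk) (not_lt.2 h2)
  have hd1 : d ≠ 0 := by omega
  have hTne : T.Nonempty := by
    rw [Finset.nonempty_iff_ne_empty]
    intro h0
    rw [h0, Finset.sum_empty] at hb
    exact hf (pow_eq_zero_iff hd1 |>.1 hb)
  have hTc : T.card ^ 2 ≤ d := by
    have h1 : T.card ≤ s.card := (Finset.card_le_card hTs).trans (Finset.card_erase_le)
    exact (Nat.pow_le_pow_left h1 2).trans hd
  -- reindex
  let ε := T.equivFin
  have hsumε : ∀ g : ι → K[X], ∑ k ∈ T, g k = ∑ i : Fin T.card, g (ε.symm i) := by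
    intro g
    rw [← Finset.sum_coe_sort T g]
    exact (Equiv.sum_comp ε.symm (fun k : T => g k)).symm
  have hli' : LinearIndependent K (fun i : Fin T.card => f (ε.symm i) ^ d) := by
    rw [Fintype.linearIndependent_iff]
    intro a ha i
    have h1 := hli (fun k => if hk : k ∈ T then a (ε ⟨k, hk⟩) else 0) (by
      rw [hsumε, ← ha]
      refine Finset.sum_congr rfl fun j _ => ?_
      have hj : (ε.symm j : ι) ∈ T := (ε.symm j).2
      rw [dif_pos hj, smul_eq_C_mul]
      simp) (ε.symm i) (ε.symm i).2
    rw [dif_pos (ε.symm i).2] at h1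
    simpa using h1
  have hrel' : f k0 ^ d = ∑ i : Fin T.card, C (b (ε.symm i)) * f (ε.symm i) ^ d := by
    rw [hb, hsumε]
  have hT1 : 1 ≤ T.card := Finset.card_pos.2 hTne
  have hfin := key T.card d hT1 hTc (fun i => f (ε.symm i)) (f k0) (fun i => b (ε.symm i))
    (fun i => hb0 _ (ε.symm i).2) hli' hrel' ⟨0, hT1⟩
  obtain ⟨γ, hγ, hγ'⟩ := hfin
  have hmem : (ε.symm ⟨0, hT1⟩ : ι) ∈ s.erase k0 := hTs (ε.symm ⟨0, hT1⟩).2
  exact ⟨_, Finset.mem_of_mem_erase hmem, Finset.ne_of_mem_erase hmem, γ, hγ, hγ'⟩

end R864.PolyPow
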