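import Mathlib

/-!
Locally nilpotent derivations, the modified Derksen invariant and general facts on cylinders.
-/

set_option autoImplicit false

open Polynomial

namespace Pool.Agent.R864.Cyl

universe u v

section General

variable (K : Type u) [Field K] (B : Type v) [CommRing B] [Algebra K B]

/-- `D` is locally nilpotent. -/
def IsLND {K : Type u} [Field K] {B : Type v} [CommRing B] [Algebra K B]
    (D : Derivation K B B) : Prop := ∀ b : B, ∃ n : ℕ, (⇑D)^[n] b = 0

/-- The modified Derksen invariant `HD^*(B)`: the `K`-subalgebra generated by the kernels of all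
locally nilpotent derivations of `B` having a slice. -/
def HDstar : Subalgebra K B :=
  Algebra.adjoin K {b : B | ∃ D : Derivation K B B, IsLND D ∧ (∃ s : B, D s = 1) ∧ D b = 0}

/-- The ideal generated by the images of all locally nilpotent derivations of `B`. -/
def imageIdeal : Ideal B :=
  Ideal.span {b : B | ∃ D : Derivation K B B, IsLND D ∧ ∃ f : B, D f = b}

end General

section

variable {K : Type u} [Field K] {B : Type v} [CommRing B] [Algebra K B]

theorem iterate_zero_of_le (D : Derivation K B B) {b : B} {m n : ℕ} (hmn : m ≤ n)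
    (h : (⇑D)^[m] b = 0) : (⇑D)^[n] b = 0 := by
  obtain ⟨k, rfl⟩ := Nat.exists_eq_add_of_le hmn
  rw [Nat.add_comm, Function.iterate_add_apply, h]
  have : ∀ k : ℕ, (⇑D)^[k] (0 : B) = 0 := by
    intro k
    induction k with
    | zero => rfl
    | succ k ih => rw [Function.iterate_succ_apply, map_zero, ih]
  exact this k

theorem iterate_add' (D : Derivation K B B) (n : ℕ) (a b : B) :
    (⇑D)^[n] (a + b) = (⇑D)^[n] a + (⇑D)^[n] b := by
  induction n generalizing a b with
  | zero => rfl
  | succ n ih => rw [Function.iterate_succ_apply, map_add, ih, Function.iterate_succ_apply,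
      Function.iterate_succ_apply]

theorem iterate_mul_zero (D : Derivation K B B) : ∀ (N m n : ℕ) (a b : B), m + n ≤ N →
    (⇑D)^[m] a = 0 → (⇑D)^[n] b = 0 → (⇑D)^[N] (a * b) = 0 := by
  intro N
  induction N with
  | zero =>
    intro m n a b h ha hb
    have : m = 0 := by omega
    subst this
    simp only [Function.iterate_zero, id_eq] at ha ⊢
    rw [ha, zero_mul]
  | succ N ih =>
    intro m n a b h ha hb
    rw [Function.iterate_succ_apply, D.leibniz, iterate_add', smul_eq_mul, smul_eq_mul]
    rcases m with _ | m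
    · simp only [Function.iterate_zero, id_eq] at ha
      rw [ha, map_zero, zero_mul, mul_zero, iterate_zero_of_le D (Nat.zero_le N) rfl, add_zero]
    rcases n with _ | n
    · simp only [Function.iterate_zero, id_eq] at hb
      rw [hb, map_zero, mul_zero, zero_mul, iterate_zero_of_le D (Nat.zero_le N) rfl, add_zero]
    rw [ih (m + 1) n a (D b) (by omega) ha hb, zero_add, mul_comm b]
    exact ih m (n + 1) (D a) b (by omega) ha hb

/-- the subalgebra of elements on which `D` is nilpotent -/
def nilSub (D : Derivation K B B) : Subalgebra K B where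
  carrier := {b | ∃ n : ℕ, (⇑D)^[n] b = 0}
  mul_mem' := by
    rintro a b ⟨m, hm⟩ ⟨n, hn⟩
    exact ⟨m + n, iterate_mul_zero D (m + n) m n a b le_rfl hm hn⟩
  add_mem' := by
    rintro a b ⟨m, hm⟩ ⟨n, hn⟩
    refine ⟨m + n, ?_⟩
    rw [iterate_add', iterate_zero_of_le D (Nat.le_add_right m n) hm,
      iterate_zero_of_le D (Nat.le_add_left n m) hn, add_zero]
  algebraMap_mem' := by
    intro r
    exact ⟨1, by simp⟩

theorem mem_nilSub_of {D : Derivation K B B} {b : B} (h : D b ∈ nilSub D) : b ∈ nilSub D := by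
  obtain ⟨n, hn⟩ := h
  exact ⟨n + 1, by rw [Function.iterate_succ_apply]; exact hn⟩

theorem isLND_of_nilSub {D : Derivation K B B} (h : nilSub D = ⊤) : IsLND D := by
  intro b
  have : b ∈ nilSub D := by rw [h]; trivial
  exact this

/-- conjugation of a derivation by an automorphism -/
def conj {C : Type*} [CommRing C] [Algebra K C] (θ : B ≃ₐ[K] C) (D : Derivation K B B) :
    Derivation K C C :=
  Derivation.mk' (θ.toLinearMap ∘ₗ D.toLinearMap ∘ₗ θ.symm.toLinearMap) (by
    intro a b
    simp only [LinearMap.coe_comp, Function.comp_apply, AlgEquiv.toLinearMap_apply, map_mul,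
      Derivation.coeFn_coe, Derivation.leibniz, smul_eq_mul, map_add, AlgEquiv.apply_symm_apply])

theorem conj_apply {C : Type*} [CommRing C] [Algebra K C] (θ : B ≃ₐ[K] C)
    (D : Derivation K B B) (b : C) : conj θ D b = θ (D (θ.symm b)) := rfl

theorem conj_iterate {C : Type*} [CommRing C] [Algebra K C] (θ : B ≃ₐ[K] C)
    (D : Derivation K B B) (n : ℕ) (b : C) :
    (⇑(conj θ D))^[n] b = θ ((⇑D)^[n] (θ.symm b)) := by
  induction n generalizing b with
  | zero => simp
  | succ n ih =>
    rw [Function.iterate_succ_apply, ih, conj_apply, AlgEquiv.symm_apply_apply,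
      Function.iterate_succ_apply]

theorem IsLND.conj {C : Type*} [CommRing C] [Algebra K C] {D : Derivation K B B} (h : IsLND D)
    (θ : B ≃ₐ[K] C) : IsLND (conj θ D) := by
  intro b
  obtain ⟨n, hn⟩ := h (θ.symm b)
  exact ⟨n, by rw [conj_iterate, hn, map_zero]⟩

/-- `HD^*` is stable under automorphisms -/
theorem HDstar_stable (θ : B ≃ₐ[K] B) {b : B} (hb : b ∈ HDstar K B) : θ b ∈ HDstar K B := by
  unfold HDstar at hb ⊢
  refine Algebra.adjoin_induction ?_ ?_ ?_ ?_ hb
  · rintro x ⟨D, hD, ⟨s, hs⟩, hx⟩
    apply Algebra.subset_adjoin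
    refine ⟨Cyl.conj θ D, hD.conj θ, ⟨θ s, ?_⟩, ?_⟩
    · rw [conj_apply, AlgEquiv.symm_apply_apply, hs, map_one]
    · rw [conj_apply, AlgEquiv.symm_apply_apply, hx, map_zero]
  · intro r
    rw [AlgEquiv.commutes]
    exact Subalgebra.algebraMap_mem _ r
  · intro x y _ _ hx hy
    rw [map_add]
    exact Subalgebra.add_mem _ hx hy
  · intro x y _ _ hx hy
    rw [map_mul]
    exact Subalgebra.mul_mem _ hx hy

end

section Cylinder

variable {K : Type u} [Field K] {A : Type v} [CommRing A] [Algebra K A]

/-- `d/du` on `A[u]` as a `K`-derivation -/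
noncomputable def ddu : Derivation K A[X] A[X] :=
  (Polynomial.derivative' (R := A)).restrictScalars K

theorem ddu_apply (f : A[X]) : (ddu : Derivation K A[X] A[X]) f = derivative f := rfl

theorem ddu_isLND : IsLND (ddu : Derivation K A[X] A[X]) := by
  intro f
  refine ⟨f.natDegree + 1, ?_⟩
  have : (⇑(ddu : Derivation K A[X] A[X])) = (fun f => derivative f) := by
    funext f
    rfl
  rw [this]
  exact Polynomial.iterate_derivative_eq_zero (Nat.lt_succ_self _)

theorem C_mem_HDstar (a : A) : (C a : A[X]) ∈ HDstar K A[X] := by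
  apply Algebra.subset_adjoin
  refine ⟨ddu, ddu_isLND, ⟨X, ?_⟩, ?_⟩
  · rw [ddu_apply, derivative_X]
  · rw [ddu_apply, derivative_C]

theorem HDstar_eq_top_of_X (h : (X : A[X]) ∈ HDstar K A[X]) : HDstar K A[X] = ⊤ := by
  rw [eq_top_iff]
  intro f _
  induction f using Polynomial.induction_on' with
  | add p q hp hq => exact Subalgebra.add_mem _ (hp trivial) (hq trivial)
  | monomial n a =>
    rw [← C_mul_X_pow_eq_monomial]
    exact Subalgebra.mul_mem _ (C_mem_HDstar a) (Subalgebra.pow_mem _ h n)

/-- an endomorphism of `A[u]` -/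
noncomputable def endo (g : A →ₐ[K] A[X]) (v : A[X]) : A[X] →ₐ[K] A[X] :=
  Polynomial.eval₂AlgHom g v (fun _ => Commute.all _ _)

@[simp] theorem endo_C (g : A →ₐ[K] A[X]) (v : A[X]) (a : A) : endo g v (C a) = g a := by
  unfold endo
  exact Polynomial.eval₂_C _ _

@[simp] theorem endo_X (g : A →ₐ[K] A[X]) (v : A[X]) : endo g v X = v := by
  unfold endo
  exact Polynomial.eval₂_X _ _

/-- the automorphism `u ↦ -u` -/
noncomputable def flip : A[X] ≃ₐ[K] A[X] :=
  AlgEquiv.ofAlgHom (endo (K := K) CAlgHom (-X)) (endo (K := K) CAlgHom (-X))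
    (by
      apply Polynomial.algHom_ext'
      · ext a
        simp
      · simp)
    (by
      apply Polynomial.algHom_ext'
      · ext a
        simp
      · simp)

@[simp] theorem flip_C (a : A) : (flip : A[X] ≃ₐ[K] A[X]) (C a) = C a := by
  change endo (K := K) CAlgHom (-X) (C a) = C a
  simp

@[simp] theorem flip_X : (flip : A[X] ≃ₐ[K] A[X]) X = -X := by
  change endo (K := K) CAlgHom (-X) X = -X
  simp

end Cylinder

end Pool.Agent.R864.Cyl
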