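import Pool.Agent.R864.FibPal

/-!
# Lower bound: a potential on positions that changes by at most one along palindromes
-/

namespace Pool.Agent.R864.FibWord

/-- letter of a state -/
def letL (q : ℕ) : Bool :=
  [true, false, true, true, false, false, true, true, true, false].getD q true
/-- state of the child `N m` -/
def d0 (q : ℕ) : ℕ := [0, 2, 3, 0, 6, 7, 8, 3, 7, 6].getD q 0
/-- state of the child `N m + 1` (when the letter is `a`) -/
def d1 (q : ℕ) : ℕ := [1, 0, 4, 5, 0, 0, 4, 9, 5, 0].getD q 0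
/-- increment of the potential at the child `N m + 1` -/
def i1 (q : ℕ) : ℤ := [1, 0, 1, 1, 0, 0, 0, 1, 0, 0].getD q 0
/-- difference of the odd and the even potential -/
def e01 (q : ℕ) : ℤ := [1, 0, 1, 0, 0, -1, 0, 0, -1, -1].getD q 0

def adjL : List (ℕ × ℕ × ℤ) := [(0,1,1), (1,2,0), (2,3,0), (3,4,1), (4,0,-1), (0,5,1), (5,6,0), (6,0,-1), (1,7,0), (7,8,0), (8,4,0), (3,9,1), (9,7,-1), (7,5,0), (6,3,-1)]

def RL : List ((ℕ × ℕ × ℤ) × (ℕ × ℕ × ℤ) × ℤ) := [
  ((0,1,1),(0,1,1),0), ((0,1,1),(1,2,0),1), ((0,1,1),(1,7,0),1), ((0,1,1),(3,4,1),0),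
  ((0,1,1),(3,4,1),1), ((0,1,1),(3,9,1),1), ((0,1,1),(5,6,0),0), ((0,1,1),(5,6,0),1),
  ((0,1,1),(5,6,0),2), ((0,1,1),(8,4,0),0), ((0,1,1),(8,4,0),1), ((0,1,1),(8,4,0),2),
  ((0,5,1),(0,1,1),0), ((0,5,1),(1,2,0),0), ((0,5,1),(1,2,0),1), ((0,5,1),(3,4,1),0),
  ((0,5,1),(3,9,1),0), ((0,5,1),(5,6,0),0), ((0,5,1),(5,6,0),1), ((0,5,1),(5,6,0),2),
  ((0,5,1),(8,4,0),0), ((0,5,1),(8,4,0),1), ((1,2,0),(0,1,1),-1), ((1,2,0),(0,5,1),-1),
  ((1,2,0),(0,5,1),0), ((1,2,0),(2,3,0),0), ((1,2,0),(7,5,0),-1), ((1,2,0),(7,5,0),0),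
  ((1,2,0),(7,5,0),1), ((1,2,0),(7,8,0),-1), ((1,2,0),(7,8,0),0), ((1,2,0),(7,8,0),1),
  ((1,7,0),(0,1,1),-1), ((1,7,0),(0,5,1),-1), ((1,7,0),(2,3,0),-1), ((1,7,0),(2,3,0),0),
  ((1,7,0),(7,5,0),-1), ((1,7,0),(7,5,0),0), ((1,7,0),(7,8,0),-1), ((1,7,0),(7,8,0),0),
  ((1,7,0),(7,8,0),1), ((2,3,0),(1,2,0),0), ((2,3,0),(1,7,0),0), ((2,3,0),(1,7,0),1),
  ((2,3,0),(3,4,1),0), ((2,3,0),(3,9,1),0), ((2,3,0),(4,0,-1),0), ((2,3,0),(4,0,-1),1),
  ((2,3,0),(9,7,-1),0), ((2,3,0),(9,7,-1),1), ((2,3,0),(9,7,-1),2), ((3,4,1),(0,1,1),-1),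
  ((3,4,1),(0,1,1),0), ((3,4,1),(3,4,1),0), ((3,4,1),(3,9,1),-1), ((3,4,1),(3,9,1),0),
  ((3,4,1),(3,9,1),1), ((3,4,1),(4,0,-1),1), ((3,4,1),(5,6,0),1), ((3,9,1),(0,1,1),-1),
  ((3,9,1),(0,1,1),0), ((3,9,1),(1,2,0),0), ((3,9,1),(3,4,1),-1), ((3,9,1),(3,4,1),0),
  ((3,9,1),(3,4,1),1), ((3,9,1),(3,9,1),-1), ((3,9,1),(3,9,1),0), ((3,9,1),(3,9,1),1),
  ((3,9,1),(5,6,0),0), ((3,9,1),(5,6,0),1), ((3,9,1),(8,4,0),0), ((3,9,1),(8,4,0),1),
  ((3,9,1),(9,7,-1),1), ((4,0,-1),(0,1,1),-1), ((4,0,-1),(0,5,1),-1), ((4,0,-1),(2,3,0),-1),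
  ((4,0,-1),(2,3,0),0), ((4,0,-1),(6,0,-1),-1), ((4,0,-1),(6,0,-1),0), ((4,0,-1),(6,0,-1),1),
  ((4,0,-1),(6,3,-1),-1), ((4,0,-1),(6,3,-1),0), ((4,0,-1),(6,3,-1),1), ((5,6,0),(0,1,1),-2),
  ((5,6,0),(0,1,1),-1), ((5,6,0),(0,1,1),0), ((5,6,0),(0,5,1),-2), ((5,6,0),(0,5,1),-1),
  ((5,6,0),(0,5,1),0), ((5,6,0),(2,3,0),-1), ((5,6,0),(2,3,0),0), ((5,6,0),(6,0,-1),0),
  ((5,6,0),(6,3,-1),0), ((5,6,0),(7,5,0),-1), ((5,6,0),(7,5,0),0), ((5,6,0),(7,8,0),-1),
  ((5,6,0),(7,8,0),0), ((6,0,-1),(0,1,1),-1), ((6,0,-1),(1,2,0),0), ((6,0,-1),(1,7,0),0),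
  ((6,0,-1),(4,0,-1),-1), ((6,0,-1),(4,0,-1),0), ((6,0,-1),(4,0,-1),1), ((6,3,-1),(1,2,0),-1),
  ((6,3,-1),(1,7,0),0), ((6,3,-1),(3,9,1),-1), ((6,3,-1),(4,0,-1),-1), ((6,3,-1),(4,0,-1),0),
  ((6,3,-1),(4,0,-1),1), ((6,3,-1),(9,7,-1),0), ((6,3,-1),(9,7,-1),1), ((7,5,0),(0,1,1),-1),
  ((7,5,0),(1,2,0),-1), ((7,5,0),(1,2,0),0), ((7,5,0),(1,2,0),1), ((7,5,0),(3,4,1),0),
  ((7,5,0),(5,6,0),0), ((7,5,0),(5,6,0),1), ((7,5,0),(8,4,0),0), ((7,8,0),(1,2,0),-1),
  ((7,8,0),(1,2,0),0), ((7,8,0),(1,2,0),1), ((7,8,0),(1,7,0),-1), ((7,8,0),(1,7,0),0),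
  ((7,8,0),(1,7,0),1), ((7,8,0),(4,0,-1),0), ((7,8,0),(4,0,-1),1), ((7,8,0),(8,4,0),0),
  ((7,8,0),(9,7,-1),0), ((7,8,0),(9,7,-1),1), ((8,4,0),(0,1,1),-2), ((8,4,0),(0,1,1),-1),
  ((8,4,0),(0,1,1),0), ((8,4,0),(1,2,0),0), ((8,4,0),(3,4,1),-1), ((8,4,0),(3,4,1),0),
  ((8,4,0),(3,9,1),-1), ((8,4,0),(3,9,1),0), ((8,4,0),(4,0,-1),0), ((8,4,0),(5,6,0),0),
  ((8,4,0),(8,4,0),0), ((9,7,-1),(0,1,1),-2), ((9,7,-1),(0,5,1),-1), ((9,7,-1),(2,3,0),-2),
  ((9,7,-1),(2,3,0),-1), ((9,7,-1),(2,3,0),0), ((9,7,-1),(6,0,-1),-1), ((9,7,-1),(6,0,-1),0),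
  ((9,7,-1),(6,3,-1),-1), ((9,7,-1),(6,3,-1),0), ((9,7,-1),(7,5,0),-1), ((9,7,-1),(7,8,0),-1),
  ((9,7,-1),(7,8,0),0)]

def A0 (t : ℕ × ℕ × ℤ) : ℕ × ℕ × ℤ :=
  if letL t.1 then (d0 t.1, d1 t.1, i1 t.1) else (d0 t.1, d0 t.2.1, t.2.2)
def A1 (t : ℕ × ℕ × ℤ) : ℕ × ℕ × ℤ :=
  if letL t.1 then (d1 t.1, d0 t.2.1, t.2.2 - i1 t.1) else (d0 t.2.1, d1 t.2.1, i1 t.2.1)
def v1 (t : ℕ × ℕ × ℤ) : ℤ := if letL t.1 then i1 t.1 else t.2.2

theorem adj_closed : ∀ t ∈ adjL, A0 t ∈ adjL ∧ A1 t ∈ adjL ∧ (A0 t, A1 t, v1 t) ∈ RL := by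
  decide +kernel

theorem RL_closed : ∀ r ∈ RL, (A0 r.1, A1 r.2.1, r.2.2 + v1 r.2.1) ∈ RL ∧
    (A1 r.1, A0 r.2.1, r.2.2 - v1 r.1) ∈ RL := by
  decide +kernel

theorem RL_bound : ∀ r ∈ RL, r.2.2 + e01 r.2.1.1 ≤ 1 ∧ r.2.2 - e01 r.1.1 ≤ 1 := by
  decide +kernel

theorem tab_check : ∀ q < 10, d0 q < 10 ∧ d1 q < 10 ∧ letL (d0 q) = true ∧
    (letL q = true → letL (d1 q) = false) := by
  decide

/-- the level-one ancestor of a position -/
noncomputable def par (x : ℕ) : ℕ := Nat.findGreatest (fun m => N m ≤ x) x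

theorem par_eq {m x : ℕ} (h1 : N m ≤ x) (h2 : x < N (m + 1)) : par x = m := by
  unfold par
  rw [Nat.findGreatest_eq_iff]
  refine ⟨(le_N m).trans h1, fun _ => h1, fun {n} hn _ => ?_⟩
  have := N_le (show m + 1 ≤ n by omega)
  omega

theorem par_lt {x : ℕ} (hx : x ≠ 0) : par x < x := by
  rcases cut_cases x with ⟨m, hm⟩ | ⟨m, hm, hf⟩
  · have h : par x = m := par_eq hm.ge (by rw [hm]; exact N_lt_succ m)
    rw [h]
    have h1 : 1 ≤ m := by
      rcases Nat.eq_zero_or_pos m with rfl | h1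
      · rw [N_zero] at hm; exact absurd hm hx
      · exact h1
    have := lt_N h1
    omega
  · have h : par x = m := par_eq (by omega) (by rw [N_succ_true hf]; omega)
    rw [h]
    have := le_N m
    omega

/-- state and (even) potential of a position -/
noncomputable def dat (x : ℕ) : ℕ × ℤ :=
  if _h : x = 0 then (0, 0)
  else
    if x = N (par x) then (d0 (dat (par x)).1, (dat (par x)).2)
    else (d1 (dat (par x)).1, (dat (par x)).2 + i1 (dat (par x)).1)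
termination_by x
decreasing_by all_goals exact par_lt _h

theorem dat_zero : dat 0 = (0, 0) := by rw [dat]; simp

theorem dat_N (m : ℕ) : dat (N m) = (d0 (dat m).1, (dat m).2) := by
  rcases Nat.eq_zero_or_pos m with rfl | hm
  · rw [N_zero, dat_zero]; rfl
  · have hp : par (N m) = m := par_eq le_rfl (N_lt_succ m)
    have h0 : N m ≠ 0 := by have := lt_N hm; omega
    rw [dat, dif_neg h0, hp, if_pos rfl]

theorem dat_N1 {m : ℕ} (hf : fib m = true) :
    dat (N m + 1) = (d1 (dat m).1, (dat m).2 + i1 (dat m).1) := by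
  have hp : par (N m + 1) = m := par_eq (by omega) (by rw [N_succ_true hf]; omega)
  rw [dat, dif_neg (by omega), hp, if_neg (by omega)]

theorem dat_let (x : ℕ) : (dat x).1 < 10 ∧ letL (dat x).1 = fib x := by
  induction x using Nat.strong_induction_on with
  | _ x ih =>
    rcases Nat.eq_zero_or_pos x with rfl | hx
    · rw [dat_zero, fib_zero]; decide
    · rcases cut_cases x with ⟨m, rfl⟩ | ⟨m, rfl, hf⟩
      · have hm : m < N m := lt_N (by
          rcases Nat.eq_zero_or_pos m with rfl | h1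
          · rw [N_zero] at hx; omega
          · exact h1)
        obtain ⟨h1, h2⟩ := ih m hm
        obtain ⟨c1, c2, c3, c4⟩ := tab_check _ h1
        rw [dat_N, fib_N]
        exact ⟨c1, c3⟩
      · have hm : m < N m + 1 := by have := le_N m; omega
        obtain ⟨h1, h2⟩ := ih m hm
        obtain ⟨c1, c2, c3, c4⟩ := tab_check _ h1
        rw [dat_N1 hf, fib_N_succ hf]
        exact ⟨c2, c4 (by rw [h2, hf])⟩

/-- states of `x` and `x + 1` and the difference of their potentials -/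
noncomputable def T (x : ℕ) : ℕ × ℕ × ℤ :=
  ((dat x).1, (dat (x + 1)).1, (dat (x + 1)).2 - (dat x).2)

theorem T_N (m : ℕ) : T (N m) = A0 (T m) := by
  unfold T A0
  simp only []
  rw [(dat_let m).2]
  by_cases hf : fib m = true
  · rw [if_pos hf, dat_N, dat_N1 hf]
    simp
  · have hf' : fib m = false := by simpa using hf
    rw [if_neg (by rw [hf']; decide), ← N_succ_false hf', dat_N, dat_N]

theorem T_N1 (m : ℕ) : T (N m + 1) = A1 (T m) := by
  unfold T A1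
  simp only []
  rw [(dat_let m).2]
  by_cases hf : fib m = true
  · have e : N m + 1 + 1 = N (m + 1) := by rw [N_succ_true hf]
    rw [if_pos hf, e, dat_N, dat_N1 hf]
    simp only [Prod.mk.injEq, true_and]
    ring
  · have hf' : fib m = false := by simpa using hf
    have hf2 := fib_succ_of_false hf'
    rw [if_neg (by rw [hf']; decide), ← N_succ_false hf', dat_N, dat_N1 hf2]
    simp

theorem L_N1 (m : ℕ) : (dat (N m + 1)).2 = (dat m).2 + v1 (T m) := by
  unfold T v1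
  simp only []
  rw [(dat_let m).2]
  by_cases hf : fib m = true
  · rw [if_pos hf, dat_N1 hf]
  · have hf' : fib m = false := by simpa using hf
    rw [if_neg (by rw [hf']; decide), ← N_succ_false hf', dat_N]
    simp

theorem T_adj (x : ℕ) : T x ∈ adjL := by
  induction x using Nat.strong_induction_on with
  | _ x ih =>
    rcases Nat.eq_zero_or_pos x with rfl | hx
    · have h1 : dat (0 + 1) = (1, 1) := by
        have := dat_N1 fib_zero
        rw [N_zero, dat_zero] at this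
        rw [this]; decide
      unfold T
      rw [dat_zero, h1]
      decide
    · rcases cut_cases x with ⟨m, rfl⟩ | ⟨m, rfl, hf⟩
      · have hm : m < N m := lt_N (by
          rcases Nat.eq_zero_or_pos m with rfl | h1
          · rw [N_zero] at hx; omega
          · exact h1)
        rw [T_N]
        exact (adj_closed _ (ih m hm)).1
      · have hm : m < N m + 1 := by have := le_N m; omega
        rw [T_N1]
        exact (adj_closed _ (ih m hm)).2.1

theorem pal_RL (y : ℕ) : ∀ x, Pal x y → x < y → (T x, T y, (dat y).2 - (dat x).2) ∈ RL := by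
  induction y using Nat.strong_induction_on with
  | _ y ih =>
    intro x hp hxy
    obtain ⟨i, j, hij, hc⟩ := hp.down hxy
    rcases hc with ⟨rfl, rfl⟩ | ⟨hlt, rfl, rfl⟩
    · rcases Nat.eq_or_lt_of_le hij.1 with rfl | hlt
      · have := (adj_closed _ (T_adj i)).2.2
        rw [T_N, T_N1, L_N1, dat_N]
        simpa using this
      · have hj : j < N j + 1 := by have := le_N j; omega
        have := (RL_closed _ (ih j hj i hij hlt)).1
        rw [T_N, T_N1, L_N1, dat_N]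
        have e : (dat j).2 + v1 (T j) - (dat i).2 = (dat j).2 - (dat i).2 + v1 (T j) := by ring
        simp only [] at this ⊢
        rw [e]
        exact this
    · have hj : j < N j := lt_N (by omega)
      have := (RL_closed _ (ih j hj i hij hlt)).2
      rw [T_N, T_N1, L_N1, dat_N]
      have e : (dat j).2 - ((dat i).2 + v1 (T i)) = (dat j).2 - (dat i).2 - v1 (T i) := by ring
      simp only [] at this ⊢
      rw [e]
      exact this

theorem pot_step {x y : ℕ} (hp : Pal x y) (hxy : x < y) :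
    (dat y).2 + e01 (dat y).1 ≤ (dat x).2 + 1 ∧ (dat y).2 ≤ (dat x).2 + e01 (dat x).1 + 1 := by
  have h := RL_bound _ (pal_RL y x hp hxy)
  simp only [T] at h
  constructor
  · linarith [h.1]
  · linarith [h.2]

theorem fac_lower {k n : ℕ} (h : Fac k n) :
    (k % 2 = 0 → (dat n).2 ≤ k) ∧ (k % 2 = 1 → (dat n).2 + e01 (dat n).1 ≤ k) := by
  induction h with
  | zero => rw [dat_zero]; simp
  | @step k x y _ hxy hp ih =>
    obtain ⟨h1, h2⟩ := pot_step hp hxy
    push_cast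
    constructor
    · intro hk
      have := ih.2 (by omega)
      linarith
    · intro hk
      have := ih.1 (by omega)
      linarith

/-- the positions with large prefix palindromic length -/
def sq : ℕ → ℕ
  | 0 => 3
  | k + 1 => N (N (N (sq k) + 1))

theorem dat_three : dat 3 = (3, 1) := by
  have h1 : dat 1 = (1, 1) := by
    have := dat_N1 fib_zero
    rw [N_zero, dat_zero] at this
    rw [show (1 : ℕ) = 0 + 1 from rfl, this]; decide
  have h2 : dat 2 = (2, 1) := by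
    have := dat_N 1
    rw [N_one, h1] at this
    rw [this]; decide
  have hf1 : fib 1 = false := by decide
  have h3 : N 2 = 3 := by
    have := N_succ_false hf1
    rw [N_one] at this
    exact this
  have := dat_N 2
  rw [h3, h2] at this
  rw [this]; decide

theorem dat_sq (k : ℕ) : dat (sq k) = (3, (k : ℤ) + 1) := by
  induction k with
  | zero => rw [sq, dat_three]; simp
  | succ k ih =>
    have hf : fib (sq k) = true := by
      have := (dat_let (sq k)).2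
      rw [ih] at this
      rw [← this]; rfl
    rw [sq, dat_N, dat_N, dat_N1 hf, ih]
    have e1 : d0 (d0 (d1 3)) = 3 := by decide
    have e2 : i1 3 = 1 := by decide
    simp only [e1, e2]
    push_cast
    rfl

theorem PPL_sq (k : ℕ) : k + 1 ≤ PPL (sq k) := by
  have h := fac_lower (PPL_fac (sq k))
  rw [dat_sq] at h
  have e : e01 3 = 0 := by decide
  simp only [e] at h
  rcases Nat.mod_two_eq_zero_or_one (PPL (sq k)) with h0 | h1
  · have := h.1 h0; omega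
  · have := h.2 h1; omega

theorem NN (m : ℕ) : N (N m) = N m + m := by
  induction m with
  | zero => rw [N_zero, N_zero]
  | succ m ih =>
    by_cases hf : fib m = true
    · rw [N_succ_true hf]
      have e1 : N (N m + 1) = N (N m) + 2 := N_succ_true (fib_N m)
      have e2 : N (N m + 1 + 1) = N (N m + 1) + 1 := N_succ_false (fib_N_succ hf)
      have e3 : N m + 2 = N m + 1 + 1 := rfl
      rw [e3, e2, e1, ih]; ring
    · have hf' : fib m = false := by simpa using hf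
      rw [N_succ_false hf']
      have e1 : N (N m + 1) = N (N m) + 2 := N_succ_true (fib_N m)
      rw [e1, ih]; ring

theorem N_fib (j : ℕ) : N (Nat.fib (j + 2)) = Nat.fib (j + 3) := by
  induction j with
  | zero => exact N_one
  | succ j ih =>
    have e : Nat.fib (j + 1 + 2) = N (Nat.fib (j + 2)) := ih.symm
    rw [e, NN, ih, Nat.fib_add_two (n := j + 2)]
    ring

theorem lt_fib_N {x j : ℕ} (h : x < Nat.fib (j + 2)) : N x < Nat.fib (j + 3) := by
  rw [← N_fib]; exact N_lt h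

theorem lt_fib_N1 {x j : ℕ} (h : x < Nat.fib (j + 2)) (hf : fib x = true) :
    N x + 1 < Nat.fib (j + 3) := by
  have h1 : N (x + 1) ≤ Nat.fib (j + 3) := by rw [← N_fib]; exact N_le h
  rw [N_succ_true hf] at h1
  omega

theorem sq_lt (k : ℕ) : sq k < Nat.fib (3 * k + 5) := by
  induction k with
  | zero => decide
  | succ k ih =>
    have hf : fib (sq k) = true := by
      have := (dat_let (sq k)).2
      rw [dat_sq] at this
      rw [← this]; rfl
    have h1 := lt_fib_N1 (j := 3 * k + 3) ih hf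
    have h2 := lt_fib_N (j := 3 * k + 4) h1
    have h3 := lt_fib_N (j := 3 * k + 5) h2
    exact h3

theorem sq_ge (k : ℕ) : k < sq k := by
  induction k with
  | zero => decide
  | succ k ih =>
    have h1 := le_N (sq k)
    have h2 := le_N (N (sq k) + 1)
    have h3 := le_N (N (N (sq k) + 1))
    rw [sq]; omega

end Pool.Agent.R864.FibWord
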