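import Pool.Agent.R864.FibWord

/-!
# Palindromic factors of the Fibonacci word, factorizations and walks
-/

namespace Pool.Agent.R864.FibWord

/-- the factor at positions `x, …, y-1` of the Fibonacci word is a palindrome -/
def Pal (x y : ℕ) : Prop := x ≤ y ∧ ∀ t, t < y - x → fib (x + t) = fib (y - 1 - t)

theorem Pal.refl (x : ℕ) : Pal x x := ⟨le_rfl, fun t ht => by omega⟩

theorem Pal.one (x : ℕ) : Pal x (x + 1) := by
  refine ⟨by omega, fun t ht => ?_⟩
  have : t = 0 := by omega
  subst this
  congr 1

theorem Pal.extend {x y : ℕ} (h : Pal (x + 1) y) (hf : fib x = fib y) : Pal x (y + 1) := by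
  obtain ⟨h1, h2⟩ := h
  refine ⟨by omega, fun t ht => ?_⟩
  rcases Nat.eq_zero_or_pos t with rfl | htp
  · simpa using hf
  · by_cases hlast : t = y - x
    · have e1 : x + t = y := by omega
      have e2 : y + 1 - 1 - t = x := by omega
      rw [e1, e2, hf]
    · have := h2 (t - 1) (by omega)
      have e1 : x + 1 + (t - 1) = x + t := by omega
      have e2 : y - 1 - (t - 1) = y + 1 - 1 - t := by omega
      rw [e1, e2] at this
      exact this

theorem Pal.shrink {x y : ℕ} (h : Pal x (y + 1)) (hxy : x + 1 ≤ y) :
    Pal (x + 1) y ∧ fib x = fib y := by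
  obtain ⟨h1, h2⟩ := h
  refine ⟨⟨hxy, fun t ht => ?_⟩, ?_⟩
  · have := h2 (t + 1) (by omega)
    have e1 : x + (t + 1) = x + 1 + t := by omega
    have e2 : y + 1 - 1 - (t + 1) = y - 1 - t := by omega
    rw [e1, e2] at this
    exact this
  · have := h2 0 (by omega)
    simpa using this

theorem pal_up_aux : ∀ n i j : ℕ, j - i = n → Pal i j →
    Pal (N i) (N j + 1) ∧ (i < j → Pal (N i + 1) (N j)) := by
  intro n
  induction n using Nat.strong_induction_on with
  | _ n ih =>
    intro i j hn hp
    have hij := hp.1
    have main : i < j → Pal (N i + 1) (N j) := by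
      intro hlt
      rcases Nat.lt_or_ge n 2 with hn2 | hn2
      · have hj : j = i + 1 := by omega
        subst hj
        rw [N_succ]
        split
        · exact Pal.one _
        · exact Pal.refl _
      · obtain ⟨j', rfl⟩ : ∃ j', j = j' + 1 := ⟨j - 1, by omega⟩
        obtain ⟨hp', hf⟩ := hp.shrink (by omega)
        have h := (ih (j' - (i + 1)) (by omega) (i + 1) j' rfl hp').1
        by_cases ha : fib i = true
        · have hb : fib j' = true := by rw [← hf]; exact ha
          rw [N_succ_true ha] at h
          rw [N_succ_true hb]
          exact Pal.extend (x := N i + 1) (y := N j' + 1) h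
            (by rw [fib_N_succ ha, fib_N_succ hb])
        · have ha' : fib i = false := by simpa using ha
          have hb : fib j' = false := by rw [← hf]; exact ha'
          rw [N_succ_false ha'] at h
          rw [N_succ_false hb]
          exact h
    refine ⟨?_, main⟩
    rcases Nat.lt_or_ge i j with hlt | hge
    · exact (main hlt).extend (by rw [fib_N, fib_N])
    · have : j = i := by omega
      subst this
      exact Pal.one _

theorem Pal.up {i j : ℕ} (h : Pal i j) : Pal (N i) (N j + 1) := (pal_up_aux _ i j rfl h).1

theorem Pal.up' {i j : ℕ} (h : Pal i j) (hij : i < j) : Pal (N i + 1) (N j) :=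
  (pal_up_aux _ i j rfl h).2 hij

theorem pal_down_aux : ∀ n x y : ℕ, y - x = n → Pal x y → x < y →
    ∃ i j, Pal i j ∧ ((x = N i ∧ y = N j + 1) ∨ (i < j ∧ x = N i + 1 ∧ y = N j)) := by
  intro n
  induction n using Nat.strong_induction_on with
  | _ n ih =>
    intro x y hn hp hxy
    obtain ⟨y', rfl⟩ : ∃ y', y = y' + 1 := ⟨y - 1, by omega⟩
    rcases Nat.lt_or_ge x y' with hlt | hge
    · -- length at least 2
      obtain ⟨hp', hf⟩ := hp.shrink (by omega)
      rcases Nat.lt_or_ge (x + 1) y' with hlt2 | hge2
      · obtain ⟨i', j', hpi, hcase⟩ := ih (y' - (x + 1)) (by omega) (x + 1) y' rfl hp' hlt2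
        rcases hcase with ⟨h1, h2⟩ | ⟨hij, h1, h2⟩
        · by_cases ha : fib x = true
          · obtain ⟨k, hk⟩ := cut_of_true ha
            have hkf : fib k = false := by
              by_contra hc
              have hc' : fib k = true := by simpa using hc
              have := fib_N_succ hc'
              rw [← hk, h1, fib_N] at this
              cases this
            have hNk : N (k + 1) = N i' := by rw [N_succ_false hkf]; omega
            have hki : k + 1 = i' := N_strictMono.injective hNk
            have hjf : fib j' = false := by
              by_contra hc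
              have hc' : fib j' = true := by simpa using hc
              have := fib_N_succ hc'
              rw [← h2, ← hf, ha] at this
              cases this
            refine ⟨k, j' + 1, ?_, Or.inl ⟨hk, ?_⟩⟩
            · subst hki
              exact hpi.extend (by rw [hkf, hjf])
            · rw [N_succ_false hjf]; omega
          · have ha' : fib x = false := by simpa using ha
            obtain ⟨k, hk, hkf⟩ := inner_of_false ha'
            have hNk : N (k + 1) = N i' := by rw [N_succ_true hkf]; omega
            have hki : k + 1 = i' := N_strictMono.injective hNk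
            have hjf : fib j' = true := by
              by_contra hc
              have hc' : fib j' = false := by simpa using hc
              have h3 : N (j' + 1) = y' := by rw [N_succ_false hc']; omega
              have := fib_N (j' + 1)
              rw [h3, ← hf, ha'] at this
              cases this
            refine ⟨k, j' + 1, ?_, Or.inr ⟨?_, hk, ?_⟩⟩
            · subst hki
              exact hpi.extend (by rw [hkf, hjf])
            · have := hpi.1; omega
            · rw [N_succ_true hjf]; omega
        · exact ⟨i', j', hpi, Or.inl ⟨by omega, by omega⟩⟩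
      · -- length exactly 2
        have hy' : y' = x + 1 := by omega
        subst hy'
        have ha : fib x = true := by
          by_contra hc
          have hc' : fib x = false := by simpa using hc
          have := fib_succ_of_false hc'
          rw [← hf, hc'] at this
          cases this
        obtain ⟨i, hi⟩ := cut_of_true ha
        have hif : fib i = false := by
          by_contra hc
          have hc' : fib i = true := by simpa using hc
          have := fib_N_succ hc'
          rw [← hi, ← hf, ha] at this
          cases this
        refine ⟨i, i + 1, Pal.one i, Or.inl ⟨hi, ?_⟩⟩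
        rw [N_succ_false hif]; omega
    · -- length 1
      have hy' : y' = x := by omega
      subst hy'
      rcases cut_cases y' with ⟨i, hi⟩ | ⟨i, hi, hf⟩
      · exact ⟨i, i, Pal.refl i, Or.inl ⟨hi, by omega⟩⟩
      · exact ⟨i, i + 1, Pal.one i, Or.inr ⟨by omega, hi, by rw [N_succ_true hf]; omega⟩⟩

theorem Pal.down {x y : ℕ} (h : Pal x y) (hxy : x < y) :
    ∃ i j, Pal i j ∧ ((x = N i ∧ y = N j + 1) ∨ (i < j ∧ x = N i + 1 ∧ y = N j)) :=
  pal_down_aux _ x y rfl h hxy

/-- `Fac k n`: the prefix of length `n` is a product of `k` nonempty palindromes -/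
inductive Fac : ℕ → ℕ → Prop
  | zero : Fac 0 0
  | step {k x y : ℕ} : Fac k x → x < y → Pal x y → Fac (k + 1) y

/-- a palindrome with a palindromic proper suffix: the remaining prefix is a product of two
palindromes -/
theorem split_two {z x y : ℕ} (h1 : Pal z y) (h2 : Pal x y) (hzx : z ≤ x) (hxy : x < y) :
    ∃ w, Pal z w ∧ Pal w x := by
  rcases Nat.eq_or_lt_of_le hzx with rfl | hlt
  · exact ⟨z, Pal.refl z, Pal.refl z⟩
  · obtain ⟨t, rfl⟩ : ∃ t, x = z + t := ⟨x - z, by omega⟩
    obtain ⟨n, rfl⟩ : ∃ n, y = z + n := ⟨y - z, by omega⟩
    have ht : 0 < t := by omega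
    have htn : t < n := by omega
    obtain ⟨-, g1⟩ := h1
    obtain ⟨-, g2⟩ := h2
    have per : ∀ i, i + t < n → fib (z + (i + t)) = fib (z + i) := by
      intro i hi
      have a1 := g1 i (by omega)
      have a2 := g2 i (by omega)
      have e : z + t + i = z + (i + t) := by omega
      rw [e] at a2
      rw [a2, a1]
    have perc : ∀ c i, i + c * t < n → fib (z + (i + c * t)) = fib (z + i) := by
      intro c
      induction c with
      | zero => intro i _; simp
      | succ c ih =>
        intro i hi
        have e : i + (c + 1) * t = (i + c * t) + t := by ring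
        rw [e] at hi ⊢
        rw [per _ hi, ih i (by omega)]
    have hdm := Nat.div_add_mod n t
    have hmod := Nat.mod_lt n ht
    set q := n % t with hq
    set c := n / t with hc
    have hc1 : 1 ≤ c := by
      rw [hc]; exact (Nat.one_le_div_iff ht).2 htn.le
    have hn : n = q + c * t := by rw [Nat.mul_comm c t]; omega
    refine ⟨z + q, ⟨by omega, fun i hi => ?_⟩, ⟨by omega, fun i hi => ?_⟩⟩
    · have hi' : i < q := by omega
      have a1 := g1 i (by omega)
      have e : z + n - 1 - i = z + ((q - 1 - i) + c * t) := by omega
      rw [e, perc c _ (by omega)] at a1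
      rw [a1]
      congr 1
      omega
    · have hi' : i < t - q := by omega
      have a1 := g1 (q + i) (by
        have : t ≤ c * t := Nat.le_mul_of_pos_left t (by omega)
        omega)
      obtain ⟨c', hc'⟩ : ∃ c', c = c' + 1 := ⟨c - 1, by omega⟩
      have e0 : (c' + 1) * t = c' * t + t := by ring
      have hn' : n = q + (c' * t + t) := by rw [← e0, ← hc']; exact hn
      have e : z + n - 1 - (q + i) = z + ((t - 1 - i) + c' * t) := by omega
      rw [e, perc c' _ (by omega)] at a1
      have e2 : z + q + i = z + (q + i) := by omega
      rw [e2, a1]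
      congr 1
      omega

theorem fac_append_two {k z w x : ℕ} (hk : Fac k z) (h1 : Pal z w) (h2 : Pal w x) :
    ∃ k', k' ≤ k + 2 ∧ Fac k' x := by
  rcases Nat.eq_or_lt_of_le h1.1 with rfl | hlt1
  · rcases Nat.eq_or_lt_of_le h2.1 with rfl | hlt2
    · exact ⟨k, by omega, hk⟩
    · exact ⟨k + 1, by omega, hk.step hlt2 h2⟩
  · rcases Nat.eq_or_lt_of_le h2.1 with rfl | hlt2
    · exact ⟨k + 1, by omega, hk.step hlt1 h1⟩
    · exact ⟨k + 2, by omega, (hk.step hlt1 h1).step hlt2 h2⟩

/-- removing a palindromic suffix costs at most one more palindrome -/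
theorem fac_back : ∀ y k x : ℕ, Fac k y → Pal x y → ∃ k', k' ≤ k + 1 ∧ Fac k' x := by
  intro y
  induction y using Nat.strong_induction_on with
  | _ y ih =>
    intro k x hk hp
    rcases Nat.eq_or_lt_of_le hp.1 with rfl | hxy
    · exact ⟨k, by omega, hk⟩
    · cases hk with
      | zero => omega
      | step hk' hzy hpz =>
        rename_i k' z
        rcases Nat.le_total z x with hzx | hxz
        · obtain ⟨w, hw1, hw2⟩ := split_two hpz hp hzx hxy
          obtain ⟨k2, h2, h3⟩ := fac_append_two hk' hw1 hw2
          exact ⟨k2, by omega, h3⟩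
        · obtain ⟨w, hw1, hw2⟩ := split_two hp hpz hxz hzy
          obtain ⟨k1, h1, h2⟩ := ih z hzy _ w hk' hw2
          obtain ⟨k3, h3, h4⟩ := ih w (lt_of_le_of_lt hw2.1 hzy) _ x h2 hw1
          exact ⟨k3, by omega, h4⟩

/-- `W r n`: there is a walk with exactly `r` palindromic moves (forward or backward) from `0`
to `n` -/
inductive W : ℕ → ℕ → Prop
  | zero : W 0 0
  | fwd {r x y : ℕ} : W r x → Pal x y → W (r + 1) y
  | bwd {r x y : ℕ} : W r x → Pal y x → W (r + 1) y

theorem W.fac {r n : ℕ} (h : W r n) : ∃ k, k ≤ r ∧ Fac k n := by
  induction h with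
  | zero => exact ⟨0, le_rfl, Fac.zero⟩
  | fwd _ hp ih =>
    obtain ⟨k, hk, hf⟩ := ih
    rcases Nat.eq_or_lt_of_le hp.1 with rfl | hlt
    · exact ⟨k, by omega, hf⟩
    · exact ⟨k + 1, by omega, hf.step hlt hp⟩
  | bwd _ hp ih =>
    obtain ⟨k, hk, hf⟩ := ih
    obtain ⟨k', hk', hf'⟩ := fac_back _ _ _ hf hp
    exact ⟨k', by omega, hf'⟩

/-- walks lift along the Fibonacci morphism -/
theorem W.lift {r m : ℕ} (h : W r m) :
    (r % 2 = 0 → W r (N m)) ∧ (r % 2 = 1 → W r (N m + 1)) := by
  induction h with
  | zero => exact ⟨fun _ => by rw [N_zero]; exact W.zero, fun h => by omega⟩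
  | @fwd r x y _ hp ih =>
    refine ⟨fun hr => ?_, fun hr => ?_⟩
    · have h := ih.2 (by omega)
      rcases Nat.eq_or_lt_of_le hp.1 with rfl | hlt
      · exact h.bwd (Pal.one _)
      · exact h.fwd (hp.up' hlt)
    · have h := ih.1 (by omega)
      exact h.fwd hp.up
  | @bwd r x y _ hp ih =>
    refine ⟨fun hr => ?_, fun hr => ?_⟩
    · have h := ih.2 (by omega)
      exact h.bwd hp.up
    · have h := ih.1 (by omega)
      rcases Nat.eq_or_lt_of_le hp.1 with rfl | hlt
      · exact h.fwd (Pal.one _)
      · exact h.bwd (hp.up' hlt)

/-- the factor at positions `x, …, x+k-1` -/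
def seg (x k : ℕ) : List Bool := (List.range k).map (fun i => fib (x + i))

theorem pre_add (x k : ℕ) : pre (x + k) = pre x ++ seg x k := by
  induction k with
  | zero => simp [seg]
  | succ k ih =>
    rw [← Nat.add_assoc, pre_succ, ih, seg, seg, List.range_succ, List.map_append,
      List.append_assoc]
    rfl

theorem seg_length (x k : ℕ) : (seg x k).length = k := by simp [seg]

theorem seg_pal_iff (x k : ℕ) : (seg x k).reverse = seg x k ↔ Pal x (x + k) := by
  constructor
  · intro h
    refine ⟨by omega, fun t ht => ?_⟩
    have ht' : t < k := by omega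
    have h1 : (seg x k)[t]'(by rw [seg_length]; exact ht') = fib (x + t) := by simp [seg]
    have h2 : (seg x k).reverse[t]'(by rw [List.length_reverse, seg_length]; exact ht')
        = fib (x + k - 1 - t) := by
      rw [List.getElem_reverse]
      simp only [seg, List.getElem_map, List.getElem_range, List.length_map, List.length_range]
      congr 1
      omega
    rw [← h1, ← h2]
    simp only [h]
  · intro h
    apply List.ext_getElem
    · simp
    · intro t h1 h2
      rw [seg_length] at h2
      rw [List.getElem_reverse]
      simp only [seg, List.getElem_map, List.getElem_range, List.length_map, List.length_range]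
      have := h.2 t (by omega)
      rw [this]
      congr 1
      omega

/-- nonempty palindrome -/
def IsPalW (w : List Bool) : Prop := w ≠ [] ∧ w.reverse = w

theorem fac_iff (k n : ℕ) :
    (∃ l : List (List Bool), l.length = k ∧ (∀ w ∈ l, IsPalW w) ∧ l.flatten = pre n)
      ↔ Fac k n := by
  constructor
  · induction k generalizing n with
    | zero =>
      rintro ⟨l, hl, -, hf⟩
      have : l = [] := List.length_eq_zero_iff.1 hl
      subst this
      have : n = 0 := by
        have := congrArg List.length hf
        rw [pre_length] at this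
        simpa using this.symm
      subst this
      exact Fac.zero
    | succ k ih =>
      rintro ⟨l, hl, hp, hf⟩
      rcases List.eq_nil_or_concat l with rfl | ⟨l', w, rfl⟩
      · simp at hl
      · have hl' : l'.length = k := by simpa using hl
        rw [List.concat_eq_append, List.flatten_append] at hf
        simp only [List.flatten_cons, List.flatten_nil, List.append_nil] at hf
        have hlen := congrArg List.length hf
        rw [List.length_append, pre_length] at hlen
        have hw := hp w (by simp)
        have hn : n = l'.flatten.length + w.length := hlen.symm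
        rw [hn, pre_add] at hf
        have hlen2 : l'.flatten.length = (pre l'.flatten.length).length := by rw [pre_length]
        obtain ⟨h1, h2⟩ := List.append_inj hf hlen2
        have hfac := ih l'.flatten.length ⟨l', hl', fun v hv => hp v (by simp [hv]), h1⟩
        rw [hn]
        refine hfac.step ?_ ?_
        · have : 0 < w.length := List.length_pos_iff.2 hw.1
          omega
        · rw [← seg_pal_iff, ← h2]
          exact hw.2
  · intro h
    induction h with
    | zero => exact ⟨[], rfl, by simp, by simp [pre]⟩
    | @step k x y _ hxy hp ih =>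
      obtain ⟨l, hl, hw, hf⟩ := ih
      obtain ⟨d, rfl⟩ : ∃ d, y = x + d := ⟨y - x, by omega⟩
      refine ⟨l ++ [seg x d], by simp [hl], ?_, ?_⟩
      · intro w hwm
        rw [List.mem_append, List.mem_singleton] at hwm
        rcases hwm with hwm | rfl
        · exact hw w hwm
        · refine ⟨?_, (seg_pal_iff x d).2 hp⟩
          intro he
          have := congrArg List.length he
          rw [seg_length] at this
          simp at this
          omega
      · rw [List.flatten_append, hf, pre_add]
        simp

/-- prefix palindromic length of the Fibonacci word -/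
noncomputable def PPL (n : ℕ) : ℕ :=
  sInf {k | ∃ l : List (List Bool), l.length = k ∧ (∀ w ∈ l, IsPalW w) ∧ l.flatten = pre n}

theorem fac_self (n : ℕ) : Fac n n := by
  induction n with
  | zero => exact Fac.zero
  | succ n ih => exact ih.step (by omega) (Pal.one n)

theorem PPL_fac (n : ℕ) : Fac (PPL n) n := by
  rw [← fac_iff]
  exact Nat.sInf_mem (s := {k | ∃ l : List (List Bool), l.length = k ∧ (∀ w ∈ l, IsPalW w) ∧
    l.flatten = pre n}) ⟨n, (fac_iff n n).2 (fac_self n)⟩

theorem PPL_le {k n : ℕ} (h : Fac k n) : PPL n ≤ k := Nat.sInf_le ((fac_iff k n).2 h)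

end Pool.Agent.R864.FibWord
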