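import Pool.Agent.R864.FibLower

/-!
# Upper bound: windows of seven consecutive positions
A window lists, for consecutive positions, the letter and upper bounds for the length of an even
and of an odd walk from `0` to the position (relative to a running constant).
-/

namespace Pool.Agent.R864.FibWord

abbrev Cell := Bool × ℕ × ℕ

def F0 : List (List (Bool × ℕ × ℕ)) := [
  [(true, 1, 1), (true, 0, 1), (false, 2, 1), (true, 1, 2), (true, 1, 0), (false, 1, 1), (true, 0, 2)],
  [(true, 1, 1), (true, 0, 1), (false, 2, 1), (true, 1, 1), (false, 2, 0), (true, 1, 1), (true, 0, 1)],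
  [(true, 1, 2), (true, 1, 0), (false, 1, 1), (true, 0, 1), (false, 1, 0), (true, 1, 1), (true, 0, 1)],
  [(true, 1, 2), (true, 1, 0), (false, 1, 1), (true, 0, 2), (false, 1, 1), (true, 1, 2), (true, 1, 0)],
  [(true, 1, 1), (false, 2, 0), (true, 1, 1), (true, 0, 1), (false, 2, 1), (true, 1, 2), (true, 1, 0)],
  [(true, 0, 1), (false, 2, 0), (true, 1, 1), (true, 0, 1), (false, 2, 1), (true, 1, 1), (false, 2, 0)],
  [(true, 0, 1), (false, 2, 1), (true, 1, 2), (true, 1, 0), (false, 1, 1), (true, 0, 2), (false, 1, 1)],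
  [(true, 0, 2), (false, 3, 1), (true, 1, 2), (true, 1, 0), (false, 1, 1), (true, 0, 1), (false, 1, 0)],
  [(true, 0, 1), (false, 2, 1), (true, 1, 1), (false, 2, 0), (true, 1, 1), (true, 0, 1), (false, 2, 1)],
  [(true, 1, 0), (false, 1, 1), (true, 0, 1), (false, 1, 0), (true, 1, 1), (true, 0, 1), (false, 2, 1)],
  [(true, 1, 0), (false, 1, 1), (true, 0, 2), (false, 1, 1), (true, 1, 2), (true, 1, 0), (false, 1, 1)],
  [(false, 2, 0), (true, 1, 1), (true, 0, 1), (false, 2, 1), (true, 1, 2), (true, 1, 0), (false, 1, 1)],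
  [(false, 2, 0), (true, 1, 1), (true, 0, 1), (false, 2, 1), (true, 1, 1), (false, 2, 0), (true, 1, 1)],
  [(false, 2, 1), (true, 1, 2), (true, 1, 0), (false, 1, 1), (true, 0, 2), (false, 1, 1), (true, 1, 2)],
  [(false, 3, 1), (true, 1, 2), (true, 1, 0), (false, 1, 1), (true, 0, 1), (false, 1, 0), (true, 1, 1)],
  [(false, 1, 1), (true, 0, 1), (false, 1, 0), (true, 1, 1), (true, 0, 1), (false, 2, 1), (true, 1, 3)],
  [(false, 1, 1), (true, 0, 2), (false, 1, 1), (true, 1, 2), (true, 1, 0), (false, 1, 1), (true, 0, 2)],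
  [(false, 2, 1), (true, 1, 1), (false, 2, 0), (true, 1, 1), (true, 0, 1), (false, 2, 1), (true, 1, 2)]]

def F1 : List (List (Bool × ℕ × ℕ)) := [
  [(true, 0, 0), (true, 0, 0), (false, 1, 0), (true, 0, 1), (true, 0, 0), (false, 1, 1), (true, 0, 2)],
  [(true, 1, 1), (true, 0, 0), (false, 1, 0), (true, 0, 1), (true, 0, 0), (false, 0, 0), (true, 0, 1)],
  [(true, 0, 1), (true, 0, 0), (false, 0, 0), (true, 0, 1), (false, 0, 0), (true, 1, 1), (true, 0, 0)],
  [(true, 1, 1), (true, 0, 0), (false, 1, 1), (true, 0, 0), (false, 1, 0), (true, 0, 0), (true, 0, 0)],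
  [(true, 0, 1), (false, 2, 0), (true, 1, 1), (true, 0, 0), (false, 1, 0), (true, 0, 1), (true, 0, 0)],
  [(true, 0, 0), (false, 1, 0), (true, 0, 1), (true, 0, 0), (false, 0, 0), (true, 0, 1), (false, 0, 0)],
  [(true, 0, 1), (false, 2, 0), (true, 1, 1), (true, 0, 0), (false, 1, 1), (true, 0, 0), (false, 1, 0)],
  [(true, 0, 0), (false, 0, 0), (true, 0, 1), (false, 0, 0), (true, 1, 1), (true, 0, 0), (false, 1, 1)],
  [(true, 0, 0), (false, 1, 1), (true, 0, 0), (false, 1, 0), (true, 0, 0), (true, 0, 0), (false, 1, 0)],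
  [(false, 1, 0), (true, 0, 0), (true, 0, 0), (false, 1, 0), (true, 0, 1), (true, 0, 0), (false, 1, 1)],
  [(false, 2, 0), (true, 1, 1), (true, 0, 0), (false, 1, 0), (true, 0, 1), (true, 0, 0), (false, 0, 0)],
  [(false, 1, 0), (true, 0, 1), (true, 0, 0), (false, 0, 0), (true, 0, 1), (false, 0, 0), (true, 1, 1)],
  [(false, 2, 0), (true, 1, 1), (true, 0, 0), (false, 1, 1), (true, 0, 0), (false, 1, 0), (true, 0, 0)],
  [(false, 0, 0), (true, 0, 1), (false, 0, 0), (true, 1, 1), (true, 0, 0), (false, 1, 1), (true, 0, 2)],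
  [(false, 1, 1), (true, 0, 0), (false, 1, 0), (true, 0, 0), (true, 0, 0), (false, 1, 0), (true, 0, 1)]]

def F2 : List (List (Bool × ℕ × ℕ)) := [
  [(true, 0, 1), (true, 0, 0), (false, 1, 1), (true, 0, 2), (true, 1, 0), (false, 1, 1), (true, 0, 2)],
  [(true, 1, 1), (true, 0, 1), (false, 2, 0), (true, 1, 1), (true, 0, 0), (false, 1, 0), (true, 0, 2)],
  [(true, 1, 2), (true, 1, 0), (false, 1, 1), (true, 0, 1), (false, 1, 0), (true, 1, 1), (true, 0, 1)],
  [(true, 0, 1), (false, 2, 0), (true, 0, 1), (true, 0, 0), (false, 1, 1), (true, 0, 2), (true, 1, 0)],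
  [(true, 0, 1), (false, 2, 0), (true, 1, 1), (true, 0, 1), (false, 2, 0), (true, 1, 1), (true, 0, 0)],
  [(true, 0, 0), (false, 1, 1), (true, 0, 2), (true, 1, 0), (false, 1, 1), (true, 0, 1), (false, 1, 0)],
  [(true, 0, 1), (false, 2, 0), (true, 1, 1), (true, 0, 0), (false, 1, 1), (true, 0, 1), (false, 1, 0)],
  [(true, 1, 0), (false, 1, 1), (true, 0, 1), (false, 1, 0), (true, 1, 1), (true, 0, 0), (false, 1, 1)],
  [(true, 1, 0), (false, 1, 1), (true, 0, 1), (false, 1, 0), (true, 1, 1), (true, 0, 1), (false, 2, 0)],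
  [(false, 2, 0), (true, 0, 1), (true, 0, 0), (false, 1, 1), (true, 0, 2), (true, 1, 0), (false, 1, 1)],
  [(false, 2, 0), (true, 1, 1), (true, 0, 1), (false, 2, 0), (true, 1, 1), (true, 0, 0), (false, 1, 0)],
  [(false, 1, 1), (true, 0, 2), (true, 1, 0), (false, 1, 1), (true, 0, 1), (false, 1, 0), (true, 1, 1)],
  [(false, 2, 0), (true, 1, 1), (true, 0, 0), (false, 1, 1), (true, 0, 1), (false, 1, 0), (true, 1, 1)],
  [(false, 1, 1), (true, 0, 1), (false, 1, 0), (true, 1, 1), (true, 0, 0), (false, 1, 1), (true, 0, 2)],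
  [(false, 1, 1), (true, 0, 1), (false, 1, 0), (true, 1, 1), (true, 0, 1), (false, 2, 0), (true, 1, 1)]]

def F3 : List (List (Bool × ℕ × ℕ)) := [
  [(true, 1, 1), (true, 0, 1), (false, 2, 1), (true, 1, 2), (true, 1, 0), (false, 1, 1), (true, 0, 2)],
  [(true, 1, 1), (true, 0, 1), (false, 2, 1), (true, 1, 1), (false, 2, 0), (true, 1, 1), (true, 0, 1)],
  [(true, 1, 2), (true, 1, 0), (false, 1, 1), (true, 0, 1), (false, 1, 0), (true, 1, 1), (true, 0, 1)],
  [(true, 1, 2), (true, 1, 0), (false, 1, 1), (true, 0, 2), (false, 1, 1), (true, 1, 2), (true, 1, 0)],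
  [(true, 1, 1), (false, 2, 0), (true, 1, 1), (true, 0, 1), (false, 2, 1), (true, 1, 2), (true, 1, 0)],
  [(true, 0, 1), (false, 2, 0), (true, 1, 1), (true, 0, 1), (false, 2, 1), (true, 1, 1), (false, 2, 0)],
  [(true, 0, 1), (false, 2, 1), (true, 1, 2), (true, 1, 0), (false, 1, 1), (true, 0, 2), (false, 1, 1)],
  [(true, 0, 2), (false, 3, 1), (true, 1, 2), (true, 1, 0), (false, 1, 1), (true, 0, 1), (false, 1, 0)],
  [(true, 0, 1), (false, 2, 1), (true, 1, 1), (false, 2, 0), (true, 1, 1), (true, 0, 1), (false, 2, 1)],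
  [(true, 1, 0), (false, 1, 1), (true, 0, 1), (false, 1, 0), (true, 1, 1), (true, 0, 1), (false, 2, 1)],
  [(true, 1, 0), (false, 1, 1), (true, 0, 2), (false, 1, 1), (true, 1, 2), (true, 1, 0), (false, 1, 1)],
  [(false, 2, 0), (true, 1, 1), (true, 0, 1), (false, 2, 1), (true, 1, 2), (true, 1, 0), (false, 1, 1)],
  [(false, 2, 0), (true, 1, 1), (true, 0, 1), (false, 2, 1), (true, 1, 1), (false, 2, 0), (true, 1, 1)],
  [(false, 2, 1), (true, 1, 2), (true, 1, 0), (false, 1, 1), (true, 0, 2), (false, 1, 1), (true, 1, 2)],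
  [(false, 3, 1), (true, 1, 2), (true, 1, 0), (false, 1, 1), (true, 0, 1), (false, 1, 0), (true, 1, 1)],
  [(false, 1, 1), (true, 0, 1), (false, 1, 0), (true, 1, 1), (true, 0, 1), (false, 2, 1), (true, 1, 3)],
  [(false, 1, 1), (true, 0, 2), (false, 1, 1), (true, 1, 2), (true, 1, 0), (false, 1, 1), (true, 0, 2)],
  [(false, 2, 1), (true, 1, 1), (false, 2, 0), (true, 1, 1), (true, 0, 1), (false, 2, 1), (true, 1, 2)]]

def F4 : List (List (Bool × ℕ × ℕ)) := [
  [(true, 0, 0), (true, 0, 0), (false, 1, 0), (true, 0, 1), (true, 0, 0), (false, 1, 1), (true, 0, 2)],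
  [(true, 1, 1), (true, 0, 0), (false, 1, 0), (true, 0, 1), (true, 0, 0), (false, 0, 0), (true, 0, 1)],
  [(true, 0, 1), (true, 0, 0), (false, 0, 0), (true, 0, 1), (false, 0, 0), (true, 1, 1), (true, 0, 0)],
  [(true, 1, 1), (true, 0, 0), (false, 1, 1), (true, 0, 0), (false, 1, 0), (true, 0, 0), (true, 0, 0)],
  [(true, 0, 1), (false, 2, 0), (true, 1, 1), (true, 0, 0), (false, 1, 0), (true, 0, 1), (true, 0, 0)],
  [(true, 0, 0), (false, 1, 0), (true, 0, 1), (true, 0, 0), (false, 0, 0), (true, 0, 1), (false, 0, 0)],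
  [(true, 0, 1), (false, 2, 0), (true, 1, 1), (true, 0, 0), (false, 1, 1), (true, 0, 0), (false, 1, 0)],
  [(true, 0, 0), (false, 0, 0), (true, 0, 1), (false, 0, 0), (true, 1, 1), (true, 0, 0), (false, 1, 1)],
  [(true, 0, 0), (false, 1, 1), (true, 0, 0), (false, 1, 0), (true, 0, 0), (true, 0, 0), (false, 1, 0)],
  [(false, 1, 0), (true, 0, 0), (true, 0, 0), (false, 1, 0), (true, 0, 1), (true, 0, 0), (false, 1, 1)],
  [(false, 2, 0), (true, 1, 1), (true, 0, 0), (false, 1, 0), (true, 0, 1), (true, 0, 0), (false, 0, 0)],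
  [(false, 1, 0), (true, 0, 1), (true, 0, 0), (false, 0, 0), (true, 0, 1), (false, 0, 0), (true, 1, 1)],
  [(false, 2, 0), (true, 1, 1), (true, 0, 0), (false, 1, 1), (true, 0, 0), (false, 1, 0), (true, 0, 0)],
  [(false, 0, 0), (true, 0, 1), (false, 0, 0), (true, 1, 1), (true, 0, 0), (false, 1, 1), (true, 0, 2)],
  [(false, 1, 1), (true, 0, 0), (false, 1, 0), (true, 0, 0), (true, 0, 0), (false, 1, 0), (true, 0, 1)]]

def F5 : List (List (Bool × ℕ × ℕ)) := [
  [(true, 0, 1), (true, 0, 0), (false, 1, 1), (true, 0, 2), (true, 1, 0), (false, 1, 1), (true, 0, 2)],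
  [(true, 1, 1), (true, 0, 1), (false, 2, 0), (true, 1, 1), (true, 0, 0), (false, 1, 0), (true, 0, 2)],
  [(true, 1, 2), (true, 1, 0), (false, 1, 1), (true, 0, 1), (false, 1, 0), (true, 1, 1), (true, 0, 1)],
  [(true, 0, 1), (false, 2, 0), (true, 0, 1), (true, 0, 0), (false, 1, 1), (true, 0, 2), (true, 1, 0)],
  [(true, 0, 1), (false, 2, 0), (true, 1, 1), (true, 0, 1), (false, 2, 0), (true, 1, 1), (true, 0, 0)],
  [(true, 0, 0), (false, 1, 1), (true, 0, 2), (true, 1, 0), (false, 1, 1), (true, 0, 1), (false, 1, 0)],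
  [(true, 0, 1), (false, 2, 0), (true, 1, 1), (true, 0, 0), (false, 1, 1), (true, 0, 1), (false, 1, 0)],
  [(true, 1, 0), (false, 1, 1), (true, 0, 1), (false, 1, 0), (true, 1, 1), (true, 0, 0), (false, 1, 1)],
  [(true, 1, 0), (false, 1, 1), (true, 0, 1), (false, 1, 0), (true, 1, 1), (true, 0, 1), (false, 2, 0)],
  [(false, 2, 0), (true, 0, 1), (true, 0, 0), (false, 1, 1), (true, 0, 2), (true, 1, 0), (false, 1, 1)],
  [(false, 2, 0), (true, 1, 1), (true, 0, 1), (false, 2, 0), (true, 1, 1), (true, 0, 0), (false, 1, 0)],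
  [(false, 1, 1), (true, 0, 2), (true, 1, 0), (false, 1, 1), (true, 0, 1), (false, 1, 0), (true, 1, 1)],
  [(false, 2, 0), (true, 1, 1), (true, 0, 0), (false, 1, 1), (true, 0, 1), (false, 1, 0), (true, 1, 1)],
  [(false, 1, 1), (true, 0, 1), (false, 1, 0), (true, 1, 1), (true, 0, 0), (false, 1, 1), (true, 0, 2)],
  [(false, 1, 1), (true, 0, 1), (false, 1, 0), (true, 1, 1), (true, 0, 1), (false, 2, 0), (true, 1, 1)]]


def F (r : ℕ) : List (List Cell) :=
  match r with
  | 0 => F0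
  | 1 => F1
  | 2 => F2
  | 3 => F3
  | 4 => F4
  | _ => F5

def inc (r : ℕ) : ℕ := if r = 0 ∨ r = 3 then 1 else 0

def gt (ws : List Cell) (j : ℕ) : Cell := ws.getD j (true, 99, 99)

def nbs (ws : List Cell) (j : ℕ) : List Cell :=
  (if 1 ≤ j then [gt ws (j - 1)] else []) ++
  (if j + 1 < ws.length then [gt ws (j + 1)] else []) ++
  (if 3 ≤ j ∧ (gt ws (j - 3)).1 = (gt ws (j - 1)).1 then [gt ws (j - 3)] else []) ++
  (if j + 3 < ws.length ∧ (gt ws j).1 = (gt ws (j + 2)).1 then [gt ws (j + 3)] else [])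

def relax1 (ws : List Cell) : List Cell :=
  (List.range ws.length).map fun j =>
    ((gt ws j).1, (nbs ws j).foldl (fun a n => min a (n.2.2 + 1)) (gt ws j).2.1,
      (nbs ws j).foldl (fun a n => min a (n.2.1 + 1)) (gt ws j).2.2)

def adjc (v : ℕ) : List Cell → List Cell
  | [] => []
  | x :: t => (x.1, x.2.1, min x.2.2 v) :: t

def expand : List Cell → List Cell
  | [] => []
  | (true, v0, v1) :: t => (true, v0, 99) :: (false, 99, v1) :: expand t
  | (false, v0, v1) :: t => (true, v0, 99) :: adjc v1 (expand t)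

def offs (ws : List Cell) : ℕ :=
  (if (gt ws 0).1 then 2 else 1) + (if (gt ws 1).1 then 2 else 1) +
    (if (gt ws 2).1 then 2 else 1)

def domi (i : ℕ) : List Cell → List Cell → Bool
  | [], [] => true
  | x :: t, y :: u => (x.1 == y.1) && decide (x.2.1 < 50) && decide (x.2.2 < 50) &&
      decide (x.2.1 ≤ y.2.1 + i) && decide (x.2.2 ≤ y.2.2 + i) && domi i t u
  | _, _ => false

def stepOK (r : ℕ) : Bool :=
  (F r).all fun w =>
    let E := relax1 (relax1 (expand w))
    (w.length == 7) && decide (offs w + 5 ≤ E.length) &&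
    ((F ((r + 1) % 6)).any fun w' => domi (inc r) ((E.drop (offs w - 3)).take 7) w') &&
    (!(gt w 3).1 || ((F ((r + 1) % 6)).any fun w' =>
      domi (inc r) ((E.drop (offs w - 2)).take 7) w'))

theorem step_all : ∀ r < 6, stepOK r = true := by decide +kernel

/-- there is a walk from `0` to `x` with at most `v` moves, of parity `e` -/
def Rch (e v x : ℕ) : Prop := ∃ r, r ≤ v ∧ r % 2 = e ∧ W r x

theorem Rch.mono {e v v' x : ℕ} (h : Rch e v x) (hv : v ≤ v') : Rch e v' x := by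
  obtain ⟨r, h1, h2, h3⟩ := h
  exact ⟨r, h1.trans hv, h2, h3⟩

theorem Rch.fwd01 {v x y : ℕ} (h : Rch 0 v x) (hp : Pal x y) : Rch 1 (v + 1) y := by
  obtain ⟨r, h1, h2, h3⟩ := h
  exact ⟨r + 1, by omega, by omega, h3.fwd hp⟩
theorem Rch.fwd10 {v x y : ℕ} (h : Rch 1 v x) (hp : Pal x y) : Rch 0 (v + 1) y := by
  obtain ⟨r, h1, h2, h3⟩ := h
  exact ⟨r + 1, by omega, by omega, h3.fwd hp⟩
theorem Rch.bwd01 {v x y : ℕ} (h : Rch 0 v x) (hp : Pal y x) : Rch 1 (v + 1) y := by
  obtain ⟨r, h1, h2, h3⟩ := h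
  exact ⟨r + 1, by omega, by omega, h3.bwd hp⟩
theorem Rch.bwd10 {v x y : ℕ} (h : Rch 1 v x) (hp : Pal y x) : Rch 0 (v + 1) y := by
  obtain ⟨r, h1, h2, h3⟩ := h
  exact ⟨r + 1, by omega, by omega, h3.bwd hp⟩
theorem Rch.lift0 {v x : ℕ} (h : Rch 0 v x) : Rch 0 v (N x) := by
  obtain ⟨r, h1, h2, h3⟩ := h
  exact ⟨r, h1, h2, h3.lift.1 h2⟩
theorem Rch.lift1 {v x : ℕ} (h : Rch 1 v x) : Rch 1 v (N x + 1) := by
  obtain ⟨r, h1, h2, h3⟩ := h
  exact ⟨r, h1, h2, h3.lift.2 h2⟩

/-- the claims of one cell -/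
def One (x : Cell) (p c : ℕ) : Prop :=
  fib p = x.1 ∧ (x.2.1 < 50 → Rch 0 (c + x.2.1) p) ∧ (x.2.2 < 50 → Rch 1 (c + x.2.2) p)

/-- the claims of a window based at `p` -/
def Sat : List Cell → ℕ → ℕ → Prop
  | [], _, _ => True
  | x :: t, p, c => One x p c ∧ Sat t (p + 1) c

theorem gt_zero (x : Cell) (t : List Cell) : gt (x :: t) 0 = x := rfl
theorem gt_succ (x : Cell) (t : List Cell) (j : ℕ) : gt (x :: t) (j + 1) = gt t j := rfl

theorem sat_iff (ws : List Cell) (p c : ℕ) :
    Sat ws p c ↔ ∀ j < ws.length, One (gt ws j) (p + j) c := by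
  induction ws generalizing p with
  | nil => simp [Sat]
  | cons x t ih =>
    rw [Sat, ih]
    constructor
    · rintro ⟨h1, h2⟩ j hj
      cases j with
      | zero => exact h1
      | succ j =>
        rw [gt_succ]
        have := h2 j (by simpa using hj)
        have e : p + 1 + j = p + (j + 1) := by omega
        rwa [e] at this
    · intro h
      refine ⟨h 0 (by simp), fun j hj => ?_⟩
      have := h (j + 1) (by simpa using hj)
      rw [gt_succ] at this
      have e : p + 1 + j = p + (j + 1) := by omega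
      rwa [e]

theorem sat_drop (ws : List Cell) (p c a : ℕ) (h : Sat ws p c) : Sat (ws.drop a) (p + a) c := by
  induction a generalizing ws p with
  | zero => simpa using h
  | succ a ih =>
    cases ws with
    | nil => simp [Sat]
    | cons x t =>
      have := ih t (p + 1) h.2
      have e : p + 1 + a = p + (a + 1) := by omega
      rw [e] at this
      exact this

theorem sat_take (ws : List Cell) (p c a : ℕ) (h : Sat ws p c) : Sat (ws.take a) p c := by
  induction a generalizing ws p with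
  | zero => simp [Sat]
  | succ a ih =>
    cases ws with
    | nil => simp [Sat]
    | cons x t => exact ⟨h.1, ih t (p + 1) h.2⟩

theorem foldmin (P : ℕ → Prop) (g : Cell → ℕ) (l : List Cell) (a : ℕ) (ha : P a)
    (hl : ∀ n ∈ l, P (g n)) : P (l.foldl (fun a n => min a (g n)) a) := by
  induction l generalizing a with
  | nil => exact ha
  | cons n l ih =>
    rw [List.foldl_cons]
    refine ih _ ?_ (fun m hm => hl m (List.mem_cons_of_mem _ hm))
    rcases le_total a (g n) with h | h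
    · rw [min_eq_left h]; exact ha
    · rw [min_eq_right h]; exact hl n List.mem_cons_self

theorem Pal.three {x : ℕ} (h : fib x = fib (x + 2)) : Pal x (x + 3) :=
  (Pal.one (x + 1)).extend (y := x + 2) h

theorem nbs_sound {ws : List Cell} {p c j : ℕ} (h : Sat ws p c) (hj : j < ws.length) :
    ∀ n ∈ nbs ws j, (n.2.2 + 1 < 50 → Rch 0 (c + (n.2.2 + 1)) (p + j)) ∧
      (n.2.1 + 1 < 50 → Rch 1 (c + (n.2.1 + 1)) (p + j)) := by
  rw [sat_iff] at h
  intro n hn
  unfold nbs at hn
  simp only [List.mem_append] at hn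
  rcases hn with ((hn | hn) | hn) | hn
  · split at hn
    · rename_i h1
      rw [List.mem_singleton] at hn
      subst hn
      obtain ⟨-, g0, g1⟩ := h (j - 1) (by omega)
      have e : p + j = p + (j - 1) + 1 := by omega
      rw [e]
      exact ⟨fun hv => (g1 (by omega)).fwd10 (Pal.one _), fun hv => (g0 (by omega)).fwd01 (Pal.one _)⟩
    · simp at hn
  · split at hn
    · rename_i h1
      rw [List.mem_singleton] at hn
      subst hn
      obtain ⟨-, g0, g1⟩ := h (j + 1) h1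
      have e : p + (j + 1) = p + j + 1 := by omega
      rw [e] at g0 g1
      exact ⟨fun hv => (g1 (by omega)).bwd10 (Pal.one _), fun hv => (g0 (by omega)).bwd01 (Pal.one _)⟩
    · simp at hn
  · split at hn
    · rename_i h1
      rw [List.mem_singleton] at hn
      subst hn
      obtain ⟨f3, g0, g1⟩ := h (j - 3) (by omega)
      obtain ⟨f1, -, -⟩ := h (j - 1) (by omega)
      have e : p + j = p + (j - 3) + 3 := by omega
      have e2 : p + (j - 1) = p + (j - 3) + 2 := by omega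
      rw [e2] at f1
      have hp : Pal (p + (j - 3)) (p + (j - 3) + 3) := Pal.three (by rw [f3, f1, h1.2])
      rw [e]
      exact ⟨fun hv => (g1 (by omega)).fwd10 hp, fun hv => (g0 (by omega)).fwd01 hp⟩
    · simp at hn
  · split at hn
    · rename_i h1
      rw [List.mem_singleton] at hn
      subst hn
      obtain ⟨f0, -, -⟩ := h j hj
      obtain ⟨f2, -, -⟩ := h (j + 2) (by omega)
      obtain ⟨-, g0, g1⟩ := h (j + 3) h1.1
      have e : p + (j + 3) = p + j + 3 := by omega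
      have e2 : p + (j + 2) = p + j + 2 := by omega
      rw [e] at g0 g1
      rw [e2] at f2
      have hp : Pal (p + j) (p + j + 3) := Pal.three (by rw [f0, f2, h1.2])
      exact ⟨fun hv => (g1 (by omega)).bwd10 hp, fun hv => (g0 (by omega)).bwd01 hp⟩
    · simp at hn

theorem relax1_length (ws : List Cell) : (relax1 ws).length = ws.length := by simp [relax1]

theorem gt_relax1 (ws : List Cell) (j : ℕ) (hj : j < ws.length) :
    gt (relax1 ws) j = ((gt ws j).1,
      (nbs ws j).foldl (fun a n => min a (n.2.2 + 1)) (gt ws j).2.1,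
      (nbs ws j).foldl (fun a n => min a (n.2.1 + 1)) (gt ws j).2.2) := by
  have h : j < (relax1 ws).length := by rw [relax1_length]; exact hj
  rw [gt, List.getD_eq_getElem _ _ h]
  simp [relax1]

theorem sat_relax1 {ws : List Cell} {p c : ℕ} (h : Sat ws p c) : Sat (relax1 ws) p c := by
  rw [sat_iff]
  intro j hj
  rw [relax1_length] at hj
  rw [gt_relax1 ws j hj]
  have hs := (sat_iff ws p c).1 h j hj
  have hn := nbs_sound h hj
  refine ⟨hs.1, ?_, ?_⟩
  · exact foldmin (fun v => v < 50 → Rch 0 (c + v) (p + j)) (fun n => n.2.2 + 1) _ _ hs.2.1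
      (fun n hnm => (hn n hnm).1)
  · exact foldmin (fun v => v < 50 → Rch 1 (c + v) (p + j)) (fun n => n.2.1 + 1) _ _ hs.2.2
      (fun n hnm => (hn n hnm).2)

theorem sat_adjc {l : List Cell} {p c v : ℕ} (h : Sat l p c) (hv : v < 50 → Rch 1 (c + v) p) :
    Sat (adjc v l) p c := by
  cases l with
  | nil => exact h
  | cons x t =>
    refine ⟨⟨h.1.1, h.1.2.1, ?_⟩, h.2⟩
    simp only []
    rcases le_total x.2.2 v with h1 | h1
    · rw [min_eq_left h1]; exact h.1.2.2
    · rw [min_eq_right h1]; exact hv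

theorem sat_expand (ws : List Cell) (p c : ℕ) (h : Sat ws p c) : Sat (expand ws) (N p) c := by
  induction ws generalizing p with
  | nil => simp [expand, Sat]
  | cons x t ih =>
    obtain ⟨l, v0, v1⟩ := x
    obtain ⟨⟨hl, h0, h1⟩, ht⟩ := h
    have iht := ih (p + 1) ht
    cases l with
    | true =>
      simp only [] at hl
      rw [N_succ_true hl] at iht
      refine ⟨⟨fib_N p, fun hv => (h0 hv).lift0, fun hv => absurd (show 99 < 50 from hv) (by decide)⟩,
        ⟨fib_N_succ hl, fun hv => absurd (show 99 < 50 from hv) (by decide),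
          fun hv => (h1 hv).lift1⟩, iht⟩
    | false =>
      simp only [] at hl
      rw [N_succ_false hl] at iht
      exact ⟨⟨fib_N p, fun hv => (h0 hv).lift0, fun hv => absurd (show 99 < 50 from hv) (by decide)⟩,
        sat_adjc iht (fun hv => (h1 hv).lift1)⟩

theorem sat_domi (i : ℕ) (x w : List Cell) (p c : ℕ) (hd : domi i x w = true) (h : Sat x p c) :
    Sat w p (c + i) := by
  induction x generalizing w p with
  | nil =>
    cases w with
    | nil => trivial
    | cons y u => simp [domi] at hd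
  | cons x t ih =>
    cases w with
    | nil => simp [domi] at hd
    | cons y u =>
      simp only [domi, Bool.and_eq_true, decide_eq_true_eq, beq_iff_eq] at hd
      obtain ⟨⟨⟨⟨⟨hl, h0⟩, h1⟩, h2⟩, h3⟩, hrest⟩ := hd
      obtain ⟨⟨g0, g1, g2⟩, ht⟩ := h
      refine ⟨⟨by rw [g0, hl], fun _ => (g1 h0).mono (by omega), fun _ => (g2 h1).mono (by omega)⟩,
        ih u (p + 1) hrest ht⟩

theorem offs_eq {w : List Cell} {p c : ℕ} (h : Sat w p c) (hl : w.length = 7) :
    N (p + 3) = N p + offs w := by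
  rw [sat_iff] at h
  have f0 := (h 0 (by omega)).1
  have f1 := (h 1 (by omega)).1
  have f2 := (h 2 (by omega)).1
  rw [Nat.add_zero] at f0
  unfold offs
  rw [← f0, ← f1, ← f2]
  have e1 := N_succ p
  have e2 := N_succ (p + 1)
  have e3 := N_succ (p + 2)
  rw [show p + 1 + 1 = p + 2 from rfl] at e2
  rw [show p + 2 + 1 = p + 3 from rfl] at e3
  omega

theorem offs_ge (w : List Cell) : 3 ≤ offs w := by
  unfold offs
  split_ifs <;> omega

def cc : ℕ → ℕ
  | 0 => 10
  | k + 1 => cc k + inc (k % 6)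

theorem window_step {r : ℕ} (hr : r < 6) {w : List Cell} (hw : w ∈ F r) {p c : ℕ}
    (h : Sat w p c) :
    (∃ w' ∈ F ((r + 1) % 6), Sat w' (N (p + 3) - 3) (c + inc r)) ∧
    (fib (p + 3) = true → ∃ w' ∈ F ((r + 1) % 6), Sat w' (N (p + 3) + 1 - 3) (c + inc r)) := by
  have hs := step_all r hr
  unfold stepOK at hs
  rw [List.all_eq_true] at hs
  have hs := hs w hw
  simp only [Bool.and_eq_true, Bool.or_eq_true, List.any_eq_true, beq_iff_eq,
    decide_eq_true_eq, Bool.not_eq_true'] at hs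
  obtain ⟨⟨⟨hlen, _⟩, hA⟩, hB⟩ := hs
  have hE : Sat (relax1 (relax1 (expand w))) (N p) c := sat_relax1 (sat_relax1 (sat_expand w p c h))
  have ho := offs_eq h hlen
  have ho3 := offs_ge w
  constructor
  · obtain ⟨w', hw', hd⟩ := hA
    refine ⟨w', hw', ?_⟩
    have := sat_domi (inc r) _ w' _ c hd (sat_take _ _ c 7 (sat_drop _ _ c (offs w - 3) hE))
    have e : N p + (offs w - 3) = N (p + 3) - 3 := by omega
    rwa [e] at this
  · intro hf
    have h3 : (gt w 3).1 = true := by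
      have := ((sat_iff w p c).1 h 3 (by omega)).1
      rw [← this]; exact hf
    rcases hB with hB | hB
    · rw [h3] at hB; cases hB
    · obtain ⟨w', hw', hd⟩ := hB
      refine ⟨w', hw', ?_⟩
      have := sat_domi (inc r) _ w' _ c hd (sat_take _ _ c 7 (sat_drop _ _ c (offs w - 2) hE))
      have e : N p + (offs w - 2) = N (p + 3) + 1 - 3 := by omega
      rwa [e] at this

theorem base_RL : ∀ p < 8, Rch 0 10 p ∧ Rch 1 10 p := by
  have p24 : Pal 2 4 := by
    refine ⟨by omega, fun t ht => ?_⟩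
    have f2 : fib 2 = true := by decide
    have f3 : fib 3 = true := by decide
    have : t = 0 ∨ t = 1 := by omega
    rcases this with rfl | rfl
    · rw [show 2 + 0 = 2 from rfl, show 4 - 1 - 0 = 3 from rfl, f2, f3]
    · rw [show 2 + 1 = 3 from rfl, show 4 - 1 - 1 = 2 from rfl, f2, f3]
  have a0 : Rch 0 0 0 := ⟨0, le_rfl, rfl, W.zero⟩
  have a1 : Rch 1 1 1 := a0.fwd01 (Pal.one 0)
  have a2 : Rch 0 2 2 := a1.fwd10 (Pal.one 1)
  have a3 : Rch 1 3 3 := a2.fwd01 (Pal.one 2)
  have a4 : Rch 0 4 4 := a3.fwd10 (Pal.one 3)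
  have a5 : Rch 1 5 5 := a4.fwd01 (Pal.one 4)
  have a6 : Rch 0 6 6 := a5.fwd10 (Pal.one 5)
  have a7 : Rch 1 7 7 := a6.fwd01 (Pal.one 6)
  have b4 : Rch 1 3 4 := a2.fwd01 p24
  have b5 : Rch 0 4 5 := b4.fwd10 (Pal.one 4)
  have b6 : Rch 1 5 6 := b5.fwd01 (Pal.one 5)
  have b7 : Rch 0 6 7 := b6.fwd10 (Pal.one 6)
  have b3 : Rch 0 4 3 := b4.bwd10 (Pal.one 3)
  have b2 : Rch 1 5 2 := b3.bwd01 (Pal.one 2)
  have b1 : Rch 0 6 1 := b2.bwd10 (Pal.one 1)
  have b0 : Rch 1 7 0 := b1.bwd01 (Pal.one 0)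
  intro p hp
  interval_cases p
  · exact ⟨a0.mono (by omega), b0.mono (by omega)⟩
  · exact ⟨b1.mono (by omega), a1.mono (by omega)⟩
  · exact ⟨a2.mono (by omega), b2.mono (by omega)⟩
  · exact ⟨b3.mono (by omega), a3.mono (by omega)⟩
  · exact ⟨a4.mono (by omega), b4.mono (by omega)⟩
  · exact ⟨b5.mono (by omega), a5.mono (by omega)⟩
  · exact ⟨a6.mono (by omega), b6.mono (by omega)⟩
  · exact ⟨b7.mono (by omega), a7.mono (by omega)⟩

theorem base_sat (p : ℕ) (hp : p < 2) (w : List Cell) (hl : w.length = 7)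
    (hw : ∀ i < 7, (gt w i).1 = fib (p + i)) : Sat w p 10 := by
  rw [sat_iff]
  intro j hj
  have h := base_RL (p + j) (by omega)
  exact ⟨(hw j (by omega)).symm, fun _ => h.1.mono (by omega), fun _ => h.2.mono (by omega)⟩

theorem base_exists : ∀ p < 2, ∃ w ∈ F 0, w.length = 7 ∧ ∀ i < 7, (gt w i).1 = fib (p + i) := by
  decide +kernel

theorem window_exists (k : ℕ) : ∀ x, Nat.fib (k + 4) ≤ x → x < Nat.fib (k + 5) →
    ∃ w ∈ F (k % 6), Sat w (x - 3) (cc k) := by
  induction k with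
  | zero =>
    intro x h1 h2
    have h1' : 3 ≤ x := h1
    have h2' : x < 5 := h2
    obtain ⟨w, hw, hl, hf⟩ := base_exists (x - 3) (by omega)
    exact ⟨w, hw, base_sat _ (by omega) w hl hf⟩
  | succ k ih =>
    intro x h1 h2
    have key : ∀ m, N m ≤ x → x < N (m + 1) → Nat.fib (k + 4) ≤ m ∧ m < Nat.fib (k + 5) := by
      intro m hm1 hm2
      constructor
      · by_contra hc
        have : N (m + 1) ≤ N (Nat.fib (k + 4)) := N_le (by omega)
        rw [show k + 4 = (k + 2) + 2 from rfl, N_fib] at this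
        have e : k + 2 + 3 = k + 1 + 4 := by omega
        rw [e] at this
        omega
      · by_contra hc
        have : N (Nat.fib (k + 5)) ≤ N m := N_le (by omega)
        rw [show k + 5 = (k + 3) + 2 from rfl, N_fib] at this
        have e : k + 3 + 3 = k + 1 + 5 := by omega
        rw [e] at this
        omega
    have h3 : 3 ≤ Nat.fib (k + 4) := by
      have : Nat.fib 4 ≤ Nat.fib (k + 4) := Nat.fib_mono (by omega)
      exact this
    have hmod : (k + 1) % 6 = (k % 6 + 1) % 6 := by omega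
    rw [hmod]
    show ∃ w ∈ F ((k % 6 + 1) % 6), Sat w (x - 3) (cc k + inc (k % 6))
    rcases cut_cases x with ⟨m, hm⟩ | ⟨m, hm, hf⟩
    · obtain ⟨hm1, hm2⟩ := key m hm.ge (by rw [hm]; exact N_lt_succ m)
      obtain ⟨w, hw, hs⟩ := ih m hm1 hm2
      have := (window_step (Nat.mod_lt _ (by omega)) hw hs).1
      have e : m - 3 + 3 = m := by omega
      rw [e, ← hm] at this
      exact this
    · obtain ⟨hm1, hm2⟩ := key m (by omega) (by rw [N_succ_true hf]; omega)
      obtain ⟨w, hw, hs⟩ := ih m hm1 hm2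
      have := (window_step (Nat.mod_lt _ (by omega)) hw hs).2
      have e : m - 3 + 3 = m := by omega
      rw [e, ← hm] at this
      exact this hf

theorem F_bound : ∀ r < 6, ∀ w ∈ F r, w.length = 7 ∧ (gt w 3).2.1 ≤ 3 := by decide +kernel

theorem cc_le (k : ℕ) : 3 * cc k ≤ k + 32 := by
  have h : ∀ q, cc (6 * q) = 10 + 2 * q ∧ cc (6 * q + 1) = 11 + 2 * q ∧
      cc (6 * q + 2) = 11 + 2 * q ∧ cc (6 * q + 3) = 11 + 2 * q ∧
      cc (6 * q + 4) = 12 + 2 * q ∧ cc (6 * q + 5) = 12 + 2 * q := by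
    intro q
    have base : cc (6 * q) = 10 + 2 * q := by
      induction q with
      | zero => rfl
      | succ q ih =>
        have e : 6 * (q + 1) = 6 * q + 5 + 1 := by ring
        rw [e]
        show cc (6 * q) + inc (6 * q % 6) + inc ((6 * q + 1) % 6) + inc ((6 * q + 2) % 6) +
          inc ((6 * q + 3) % 6) + inc ((6 * q + 4) % 6) + inc ((6 * q + 5) % 6) = _
        have m0 : 6 * q % 6 = 0 := by omega
        have m1 : (6 * q + 1) % 6 = 1 := by omega
        have m2 : (6 * q + 2) % 6 = 2 := by omega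
        have m3 : (6 * q + 3) % 6 = 3 := by omega
        have m4 : (6 * q + 4) % 6 = 4 := by omega
        have m5 : (6 * q + 5) % 6 = 5 := by omega
        rw [m0, m1, m2, m3, m4, m5, ih]
        have i0 : inc 0 = 1 := rfl
        have i1 : inc 1 = 0 := rfl
        have i2 : inc 2 = 0 := rfl
        have i3 : inc 3 = 1 := rfl
        have i4 : inc 4 = 0 := rfl
        have i5 : inc 5 = 0 := rfl
        rw [i0, i1, i2, i3, i4, i5]
        omega
    have m0 : 6 * q % 6 = 0 := by omega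
    have m1 : (6 * q + 1) % 6 = 1 := by omega
    have m2 : (6 * q + 2) % 6 = 2 := by omega
    have m3 : (6 * q + 3) % 6 = 3 := by omega
    have m4 : (6 * q + 4) % 6 = 4 := by omega
    have i0 : inc 0 = 1 := rfl
    have i1 : inc 1 = 0 := rfl
    have i2 : inc 2 = 0 := rfl
    have i3 : inc 3 = 1 := rfl
    have i4 : inc 4 = 0 := rfl
    have c1 : cc (6 * q + 1) = cc (6 * q) + inc (6 * q % 6) := rfl
    have c2 : cc (6 * q + 2) = cc (6 * q + 1) + inc ((6 * q + 1) % 6) := rfl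
    have c3 : cc (6 * q + 3) = cc (6 * q + 2) + inc ((6 * q + 2) % 6) := rfl
    have c4 : cc (6 * q + 4) = cc (6 * q + 3) + inc ((6 * q + 3) % 6) := rfl
    have c5 : cc (6 * q + 5) = cc (6 * q + 4) + inc ((6 * q + 4) % 6) := rfl
    rw [m0, i0] at c1
    rw [m1, i1] at c2
    rw [m2, i2] at c3
    rw [m3, i3] at c4
    rw [m4, i4] at c5
    refine ⟨base, ?_, ?_, ?_, ?_, ?_⟩ <;> omega
  obtain ⟨q, r, hr, rfl⟩ : ∃ q r, r < 6 ∧ k = 6 * q + r :=
    ⟨k / 6, k % 6, Nat.mod_lt _ (by omega), by omega⟩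
  obtain ⟨h0, h1, h2, h3, h4, h5⟩ := h q
  interval_cases r
  · rw [Nat.add_zero, h0]; omega
  · rw [h1]; omega
  · rw [h2]; omega
  · rw [h3]; omega
  · rw [h4]; omega
  · rw [h5]; omega

/-- the upper bound on the prefix palindromic length -/
theorem PPL_upper (k x : ℕ) (h1 : Nat.fib (k + 4) ≤ x) (h2 : x < Nat.fib (k + 5)) :
    3 * PPL x ≤ k + 41 := by
  obtain ⟨w, hw, hs⟩ := window_exists k x h1 h2
  obtain ⟨hl, hv⟩ := F_bound (k % 6) (Nat.mod_lt _ (by omega)) w hw
  have h3 : 3 ≤ Nat.fib (k + 4) := by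
    have : Nat.fib 4 ≤ Nat.fib (k + 4) := Nat.fib_mono (by omega)
    exact this
  obtain ⟨-, g0, -⟩ := (sat_iff w (x - 3) (cc k)).1 hs 3 (by omega)
  obtain ⟨r, hr1, -, hr3⟩ := g0 (by omega)
  have e : x - 3 + 3 = x := by omega
  rw [e] at hr3
  obtain ⟨k', hk', hf⟩ := hr3.fac
  have := PPL_le hf
  have := cc_le k
  omega

end Pool.Agent.R864.FibWord
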