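import Mathlib

/-!
# The Fibonacci word: definitions and basic facts
Letters are Booleans: `true` is `a`, `false` is `b`.
-/

namespace Pool.Agent.R864.FibWord

/-- the Fibonacci morphism `a ↦ ab`, `b ↦ a` on letters -/
def morph : Bool → List Bool
  | true => [true, false]
  | false => [true]

/-- `fw k = φ^k(a)` -/
def fw : ℕ → List Bool
  | 0 => [true]
  | k + 1 => (fw k).flatMap morph

/-- the `n`-th letter (from `0`) of the Fibonacci word: the `n`-th letter of `φ^n(a)` -/
def fib (n : ℕ) : Bool := (fw n).getD n true

/-- prefix of length `n` of the Fibonacci word -/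
def pre (n : ℕ) : List Bool := (List.range n).map fib

/-- length of the image of the prefix of length `m` under the morphism -/
def N (m : ℕ) : ℕ := ((pre m).flatMap morph).length

theorem fw_succ_prefix (k : ℕ) : fw k <+: fw (k + 1) := by
  induction k with
  | zero => exact ⟨[false], rfl⟩
  | succ k ih =>
    obtain ⟨t, ht⟩ := ih
    refine ⟨t.flatMap morph, ?_⟩
    show (fw k).flatMap morph ++ t.flatMap morph = (fw (k + 1)).flatMap morph
    rw [← List.flatMap_append, ht]

theorem fw_prefix {j k : ℕ} (h : j ≤ k) : fw j <+: fw k := by
  induction k, h using Nat.le_induction with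
  | base => exact List.prefix_rfl
  | succ k _ ih => exact ih.trans (fw_succ_prefix k)

theorem morph_length_pos (b : Bool) : 1 ≤ (morph b).length := by cases b <;> decide

theorem morph_get_zero (b : Bool) (h : 0 < (morph b).length) : (morph b)[0] = true := by
  cases b <;> rfl

theorem length_flatMap_ge (l : List Bool) : l.length ≤ (l.flatMap morph).length := by
  induction l with
  | nil => simp
  | cons b l ih =>
    rw [List.flatMap_cons, List.length_append, List.length_cons]
    have := morph_length_pos b
    omega

theorem fw_head (k : ℕ) : ∃ t, fw k = true :: t := by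
  induction k with
  | zero => exact ⟨[], rfl⟩
  | succ k ih =>
    obtain ⟨t, ht⟩ := ih
    refine ⟨false :: t.flatMap morph, ?_⟩
    show (fw k).flatMap morph = _
    rw [ht, List.flatMap_cons]; rfl

theorem fw_length (k : ℕ) : k < (fw k).length := by
  induction k with
  | zero => decide
  | succ k ih =>
    obtain ⟨t, ht⟩ := fw_head k
    show k + 1 < ((fw k).flatMap morph).length
    rw [ht, List.flatMap_cons, List.length_append]
    have h1 := length_flatMap_ge t
    rw [ht, List.length_cons] at ih
    have : (morph true).length = 2 := rfl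
    omega

/-- every `φ^k(a)` is a prefix of the Fibonacci word -/
theorem fw_get (k i : ℕ) (h : i < (fw k).length) : (fw k)[i] = fib i := by
  have hi := fw_length i
  rcases le_total i k with hik | hik
  · have hp := fw_prefix hik
    have := List.IsPrefix.getElem hp hi
    rw [fib, List.getD_eq_getElem _ _ hi, this]
  · have hp := fw_prefix hik
    have := List.IsPrefix.getElem hp h
    rw [fib, List.getD_eq_getElem _ _ hi, this]

theorem pre_length (n : ℕ) : (pre n).length = n := by simp [pre]

theorem pre_succ (n : ℕ) : pre (n + 1) = pre n ++ [fib n] := by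
  simp [pre, List.range_succ]

theorem pre_get (n i : ℕ) (h : i < (pre n).length) : (pre n)[i] = fib i := by
  simp [pre]

theorem pre_prefix_fw (n k : ℕ) (h : n ≤ (fw k).length) : pre n <+: fw k := by
  rw [List.prefix_iff_eq_take]
  apply List.ext_getElem
  · rw [pre_length, List.length_take]; omega
  · intro i h1 h2
    rw [pre_get, List.getElem_take, fw_get]

theorem prefix_fw_eq_pre (l : List Bool) (k : ℕ) (h : l <+: fw k) : l = pre l.length := by
  apply List.ext_getElem
  · rw [pre_length]
  · intro i h1 h2
    rw [pre_get, List.IsPrefix.getElem h h1, fw_get]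

theorem pre_N (m : ℕ) : pre (N m) = (pre m).flatMap morph := by
  have h1 : pre m <+: fw m := pre_prefix_fw m m (fw_length m).le
  obtain ⟨t, ht⟩ := h1
  have h2 : (pre m).flatMap morph <+: fw (m + 1) := by
    refine ⟨t.flatMap morph, ?_⟩
    show _ = (fw m).flatMap morph
    rw [← List.flatMap_append, ht]
  rw [prefix_fw_eq_pre _ _ h2]
  rfl

theorem N_zero : N 0 = 0 := by simp [N, pre]

theorem N_succ (m : ℕ) : N (m + 1) = N m + (if fib m then 2 else 1) := by
  unfold N
  rw [pre_succ, List.flatMap_append, List.length_append]
  cases fib m <;> simp [morph]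

theorem N_succ_true {m : ℕ} (h : fib m = true) : N (m + 1) = N m + 2 := by
  rw [N_succ, h]; rfl

theorem N_succ_false {m : ℕ} (h : fib m = false) : N (m + 1) = N m + 1 := by
  rw [N_succ, h]; rfl

theorem fib_N (m : ℕ) : fib (N m) = true := by
  have h : pre (N (m + 1)) = pre (N m) ++ morph (fib m) := by
    rw [pre_N, pre_N, pre_succ, List.flatMap_append]; simp
  have hl : N m < (pre (N (m + 1))).length := by
    rw [pre_length, N_succ]; split <;> omega
  have h1 := pre_get (N (m + 1)) (N m) hl
  have h2 : (pre (N m) ++ morph (fib m))[N m]'(by rw [← h]; exact hl) = true := by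
    rw [List.getElem_append_right (by rw [pre_length])]
    simp only [pre_length, Nat.sub_self]
    exact morph_get_zero _ _
  rw [← h1]
  simp only [h]
  exact h2

theorem fib_N_succ {m : ℕ} (hm : fib m = true) : fib (N m + 1) = false := by
  have h : pre (N (m + 1)) = pre (N m) ++ morph (fib m) := by
    rw [pre_N, pre_N, pre_succ, List.flatMap_append]; simp
  have hl : N m + 1 < (pre (N (m + 1))).length := by
    rw [pre_length, N_succ_true hm]; omega
  have h1 := pre_get (N (m + 1)) (N m + 1) hl
  have h2 : (pre (N m) ++ morph (fib m))[N m + 1]'(by rw [← h]; exact hl) = false := by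
    rw [List.getElem_append_right (by rw [pre_length]; omega)]
    simp only [pre_length, hm]
    have : N m + 1 - N m = 1 := by omega
    simp only [this]
    rfl
  rw [← h1]
  simp only [h]
  exact h2

theorem N_lt_succ (m : ℕ) : N m < N (m + 1) := by rw [N_succ]; split <;> omega

theorem N_strictMono : StrictMono N := strictMono_nat_of_lt_succ N_lt_succ

theorem N_mono : Monotone N := N_strictMono.monotone

theorem N_lt {i j : ℕ} (h : i < j) : N i < N j := N_strictMono h

theorem N_le {i j : ℕ} (h : i ≤ j) : N i ≤ N j := N_mono h

theorem fib_zero : fib 0 = true := by decide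

theorem N_one : N 1 = 2 := by
  have := N_succ_true fib_zero
  rw [N_zero] at this
  simpa using this

theorem lt_N {m : ℕ} (h : 1 ≤ m) : m < N m := by
  induction m, h using Nat.le_induction with
  | base => rw [N_one]; omega
  | succ m _ ih => have := N_lt_succ m; omega

theorem le_N (m : ℕ) : m ≤ N m := N_strictMono.le_apply

/-- every position is a cut `N m` or the inner point `N m + 1` of an image of `a` -/
theorem cut_cases (x : ℕ) : (∃ m, x = N m) ∨ ∃ m, x = N m + 1 ∧ fib m = true := by
  induction x with
  | zero => exact Or.inl ⟨0, N_zero.symm⟩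
  | succ x ih =>
    rcases ih with ⟨m, hm⟩ | ⟨m, hm, hf⟩
    · by_cases hf : fib m = true
      · exact Or.inr ⟨m, by omega, hf⟩
      · left
        refine ⟨m + 1, ?_⟩
        rw [N_succ_false (by simpa using hf)]; omega
    · left
      exact ⟨m + 1, by rw [N_succ_true hf]; omega⟩

theorem fib_succ_of_false {m : ℕ} (h : fib m = false) : fib (m + 1) = true := by
  rcases cut_cases m with ⟨i, hi⟩ | ⟨i, hi, hf⟩
  · rw [hi, fib_N] at h; cases h
  · have : m + 1 = N (i + 1) := by rw [N_succ_true hf]; omega
    rw [this, fib_N]

/-- a position carrying `a` is a cut -/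
theorem cut_of_true {x : ℕ} (h : fib x = true) : ∃ m, x = N m := by
  rcases cut_cases x with hx | ⟨m, hm, hf⟩
  · exact hx
  · rw [hm, fib_N_succ hf] at h; cases h

/-- a position carrying `b` is an inner point -/
theorem inner_of_false {x : ℕ} (h : fib x = false) : ∃ m, x = N m + 1 ∧ fib m = true := by
  rcases cut_cases x with ⟨m, hm⟩ | hx
  · rw [hm, fib_N] at h; cases h
  · exact hx

end Pool.Agent.R864.FibWord
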