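import Mathlib

/-!
Leading terms and Euler derivations of Hahn series.
-/

set_option autoImplicit false

set_option linter.unusedSectionVars false

namespace Pool.Agent.R864.LeadTerm

variable {Γ : Type*} [AddCommGroup Γ] [LinearOrder Γ] [IsOrderedAddMonoid Γ]
variable {K : Type*} [Field K]

open HahnSeries

/-- `f` has no terms below `γ`, and `c` is its coefficient (maybe zero) at `γ`. -/
def Lead (f : HahnSeries Γ K) (γ : Γ) (c : K) : Prop :=
  (∀ δ, δ < γ → f.coeff δ = 0) ∧ f.coeff γ = c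

theorem Lead.zero (γ : Γ) : Lead (0 : HahnSeries Γ K) γ 0 := by
  constructor
  · intro δ _
    simp
  · simp

theorem Lead.add {f g : HahnSeries Γ K} {γ : Γ} {c d : K} (hf : Lead f γ c) (hg : Lead g γ d) :
    Lead (f + g) γ (c + d) := by
  constructor
  · intro δ hδ
    rw [HahnSeries.coeff_add, hf.1 δ hδ, hg.1 δ hδ, add_zero]
  · rw [HahnSeries.coeff_add, hf.2, hg.2]

theorem Lead.neg {f : HahnSeries Γ K} {γ : Γ} {c : K} (hf : Lead f γ c) : Lead (-f) γ (-c) := by
  constructor
  · intro δ hδ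
    rw [HahnSeries.coeff_neg, hf.1 δ hδ, neg_zero]
  · rw [HahnSeries.coeff_neg, hf.2]

theorem Lead.sub {f g : HahnSeries Γ K} {γ : Γ} {c d : K} (hf : Lead f γ c) (hg : Lead g γ d) :
    Lead (f - g) γ (c - d) := by
  rw [sub_eq_add_neg, sub_eq_add_neg]
  exact hf.add hg.neg

theorem Lead.sum {ι : Type*} {s : Finset ι} {f : ι → HahnSeries Γ K} {γ : Γ} {c : ι → K}
    (h : ∀ i ∈ s, Lead (f i) γ (c i)) : Lead (∑ i ∈ s, f i) γ (∑ i ∈ s, c i) := by
  classical
  induction s using Finset.induction_on with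
  | empty => simpa using Lead.zero γ
  | insert a s ha ih =>
    rw [Finset.sum_insert ha, Finset.sum_insert ha]
    exact (h a (Finset.mem_insert_self a s)).add
      (ih fun i hi => h i (Finset.mem_insert_of_mem hi))

theorem Lead.of_lt {f : HahnSeries Γ K} {γ δ : Γ} {c : K} (hf : Lead f γ c) (h : δ < γ) :
    Lead f δ 0 :=
  ⟨fun ε hε => hf.1 ε (hε.trans h), hf.1 δ h⟩

theorem Lead.mul {f g : HahnSeries Γ K} {γ δ : Γ} {c d : K} (hf : Lead f γ c) (hg : Lead g δ d) :
    Lead (f * g) (γ + δ) (c * d) := by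
  classical
  constructor
  · intro ε hε
    rw [HahnSeries.coeff_mul]
    apply Finset.sum_eq_zero
    rintro ⟨i, j⟩ hij
    rw [Finset.mem_antidiagonal] at hij
    obtain ⟨_, _, hs⟩ := hij
    simp only at hs ⊢
    by_cases hi : i < γ
    · rw [hf.1 i hi, zero_mul]
    · have hj : j < δ := by
        by_contra hj
        push Not at hi hj
        exact absurd (add_le_add hi hj) (not_le.2 (hs ▸ hε))
      rw [hg.1 j hj, mul_zero]
  · rw [HahnSeries.coeff_mul]
    have hmain : ∀ ij ∈ Finset.antidiagonal f.isPWO_support g.isPWO_support (γ + δ),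
        ij ≠ (γ, δ) → f.coeff ij.1 * g.coeff ij.2 = 0 := by
      rintro ⟨i, j⟩ hij hne
      rw [Finset.mem_antidiagonal] at hij
      obtain ⟨_, _, hs⟩ := hij
      simp only at hs ⊢
      by_cases hi : i < γ
      · rw [hf.1 i hi, zero_mul]
      · by_cases hj : j < δ
        · rw [hg.1 j hj, mul_zero]
        · exfalso
          push Not at hi hj
          rcases hi.eq_or_lt with h1 | h1
          · subst h1
            apply hne
            have : j = δ := by simpa using hs
            rw [this]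
          · exact absurd hs (ne_of_gt (add_lt_add_of_lt_of_le h1 hj))
    rw [Finset.sum_eq_single (γ, δ) hmain]
    · rw [hf.2, hg.2]
    · intro hnot
      rw [Finset.mem_antidiagonal] at hnot
      by_cases hc : f.coeff γ = 0
      · rw [hc, zero_mul]
      · by_cases hd : g.coeff δ = 0
        · rw [hd, mul_zero]
        · exact absurd ⟨hc, hd, rfl⟩ hnot


theorem Lead.unique {f : HahnSeries Γ K} {γ δ : Γ} {c d : K} (hf : Lead f γ c) (hg : Lead f δ d)
    (hc : c ≠ 0) (hd : d ≠ 0) : γ = δ := by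
  rcases lt_trichotomy γ δ with h | h | h
  · exact absurd (hf.2.symm.trans (hg.1 γ h)) hc
  · exact h
  · exact absurd (hg.2.symm.trans (hf.1 δ h)) hd

theorem Lead.ne_zero {f : HahnSeries Γ K} {γ : Γ} {c : K} (hf : Lead f γ c) (hc : c ≠ 0) :
    f ≠ 0 := by
  intro h
  apply hc
  rw [← hf.2, h, HahnSeries.coeff_zero]

theorem lead_order {f : HahnSeries Γ K} (hf : f ≠ 0) :
    Lead f f.order (f.coeff f.order) ∧ f.coeff f.order ≠ 0 :=
  ⟨⟨fun _ hδ => HahnSeries.coeff_eq_zero_of_lt_order hδ, rfl⟩,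
    fun h => hf (HahnSeries.coeff_order_eq_zero.1 h)⟩

theorem lead_single (γ : Γ) (c : K) : Lead (HahnSeries.single γ c) γ c :=
  ⟨fun _ hδ => HahnSeries.coeff_single_of_ne (ne_of_lt hδ), HahnSeries.coeff_single_same γ c⟩

theorem lead_one : Lead (1 : HahnSeries Γ K) 0 1 := lead_single 0 1

theorem Lead.inv {f : HahnSeries Γ K} {γ : Γ} {c : K} (hf : Lead f γ c) (hc : c ≠ 0) :
    Lead f⁻¹ (-γ) c⁻¹ := by
  have hf0 := hf.ne_zero hc
  obtain ⟨h1, h2⟩ := lead_order (inv_ne_zero hf0)
  have h3 := hf.mul h1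
  rw [mul_inv_cancel₀ hf0] at h3
  have h4 := h3.unique lead_one (mul_ne_zero hc h2) one_ne_zero
  have h5 : (f⁻¹).order = -γ := (neg_eq_of_add_eq_zero_right h4).symm
  rw [h5] at h1 h3 h2
  have h6 : c * (f⁻¹).coeff (-γ) = 1 := by
    have := h3.2
    rw [add_neg_cancel] at this
    rw [← this]
    exact lead_one.2
  have h7 : (f⁻¹).coeff (-γ) = c⁻¹ := eq_inv_of_mul_eq_one_right h6
  rw [h7] at h1
  exact h1

theorem Lead.pow {f : HahnSeries Γ K} {γ : Γ} {c : K} (hf : Lead f γ c) (n : ℕ) :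
    Lead (f ^ n) (n • γ) (c ^ n) := by
  induction n with
  | zero => simpa using lead_one
  | succ n ih =>
    rw [pow_succ, pow_succ, succ_nsmul]
    exact ih.mul hf

/-- the Euler operator attached to an additive character -/
noncomputable def E (χ : Γ →+ K) (f : HahnSeries Γ K) : HahnSeries Γ K where
  coeff := fun γ => χ γ * f.coeff γ
  isPWO_support' := f.isPWO_support.mono (by
    intro γ hγ
    rw [Function.mem_support] at hγ
    intro h0
    apply hγ
    rw [h0, mul_zero])

theorem E_coeff (χ : Γ →+ K) (f : HahnSeries Γ K) (γ : Γ) :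
    (E χ f).coeff γ = χ γ * f.coeff γ := rfl

theorem E_support (χ : Γ →+ K) (f : HahnSeries Γ K) : (E χ f).support ⊆ f.support := by
  intro γ hγ
  rw [HahnSeries.mem_support, E_coeff] at hγ
  rw [HahnSeries.mem_support]
  exact right_ne_zero_of_mul hγ

theorem E_add (χ : Γ →+ K) (f g : HahnSeries Γ K) : E χ (f + g) = E χ f + E χ g := by
  ext γ
  rw [HahnSeries.coeff_add, E_coeff, E_coeff, E_coeff, HahnSeries.coeff_add, mul_add]

theorem E_mul (χ : Γ →+ K) (f g : HahnSeries Γ K) : E χ (f * g) = E χ f * g + f * E χ g := by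
  ext γ
  rw [HahnSeries.coeff_add, E_coeff, HahnSeries.coeff_mul_left' f.isPWO_support (E_support χ f),
    HahnSeries.coeff_mul_right' g.isPWO_support (E_support χ g), HahnSeries.coeff_mul,
    Finset.mul_sum, ← Finset.sum_add_distrib]
  refine Finset.sum_congr rfl fun ij hij => ?_
  rw [Finset.mem_antidiagonal] at hij
  rw [E_coeff, E_coeff, ← hij.2.2, map_add]
  ring

theorem E_single (χ : Γ →+ K) (γ : Γ) (c : K) :
    E χ (HahnSeries.single γ c) = HahnSeries.single γ (χ γ * c) := by
  ext δ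
  rw [E_coeff]
  by_cases h : δ = γ
  · subst h
    rw [HahnSeries.coeff_single_same, HahnSeries.coeff_single_same]
  · rw [HahnSeries.coeff_single_of_ne h, HahnSeries.coeff_single_of_ne h, mul_zero]

theorem E_const (χ : Γ →+ K) (c : K) : E χ (algebraMap K (HahnSeries Γ K) c) = 0 := by
  have : algebraMap K (HahnSeries Γ K) c = HahnSeries.single 0 c := by
    rw [HahnSeries.algebraMap_apply]
    rfl
  rw [this, E_single, map_zero, zero_mul, HahnSeries.single_eq_zero]

theorem Lead.E {f : HahnSeries Γ K} {γ : Γ} {c : K} (hf : Lead f γ c) (χ : Γ →+ K) :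
    Lead (LeadTerm.E χ f) γ (χ γ * c) := by
  constructor
  · intro δ hδ
    rw [E_coeff, hf.1 δ hδ, mul_zero]
  · rw [E_coeff, hf.2]

end Pool.Agent.R864.LeadTerm
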