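import Mathlib

/-!
A countable centreless group with finite double centralizers whose Markov topology differs from its
centralizer topology: the union of the groups `Sym(3^k)` acting on the first `k` coordinates of
`{0,1,2}^ℕ`.
-/

namespace Pool.Agent.R864.MT

open Topology

/-- The Markov topology: a set is open iff it is open in every Hausdorff group topology. -/
@[instance_reducible]
def markovTopology (G : Type) [Group G] : TopologicalSpace G :=
  sSup {t | @IsTopologicalGroup G t _ ∧ @T2Space G t}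

/-- The centralizer topology, generated by the sets `{x | x b x⁻¹ = a b a⁻¹}`. -/
@[instance_reducible]
def centralizerTopology (G : Type) [Group G] : TopologicalSpace G :=
  TopologicalSpace.generateFrom {S | ∃ a b : G, S = {x | x * b * x⁻¹ = a * b * a⁻¹}}

/-- Cantor space -/
abbrev X : Type := ℕ → Fin 3

theorem perm_apply_inv (g : Equiv.Perm X) (x : X) : g (g⁻¹ x) = x := g.apply_symm_apply x

theorem perm_inv_apply (g : Equiv.Perm X) (x : X) : g⁻¹ (g x) = x := g.symm_apply_apply x

/-- `g` changes only the first `k` coordinates, and the result depends only on these. -/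
def Lev (k : ℕ) (g : Equiv.Perm X) : Prop :=
  (∀ x i, k ≤ i → g x i = x i) ∧ ∀ x y : X, (∀ i < k, x i = y i) → ∀ i < k, g x i = g y i

theorem Lev.one (k : ℕ) : Lev k 1 := ⟨fun _ _ _ => rfl, fun _ _ h i hi => h i hi⟩

theorem Lev.mono {k l : ℕ} (h : k ≤ l) {g : Equiv.Perm X} (hg : Lev k g) : Lev l g := by
  refine ⟨fun x i hi => hg.1 x i (h.trans hi), fun x y hxy i hi => ?_⟩
  rcases lt_or_ge i k with hik | hik
  · exact hg.2 x y (fun j hj => hxy j (lt_of_lt_of_le hj h)) i hik
  · rw [hg.1 x i hik, hg.1 y i hik]; exact hxy i hi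

theorem Lev.mul {k : ℕ} {g h : Equiv.Perm X} (hg : Lev k g) (hh : Lev k h) : Lev k (g * h) := by
  refine ⟨fun x i hi => ?_, fun x y hxy i hi => ?_⟩
  · rw [Equiv.Perm.mul_apply, hg.1 _ i hi, hh.1 _ i hi]
  · rw [Equiv.Perm.mul_apply, Equiv.Perm.mul_apply]
    exact hg.2 _ _ (hh.2 x y hxy) i hi

theorem Lev.inv {k : ℕ} {g : Equiv.Perm X} (hg : Lev k g) : Lev k g⁻¹ := by
  have h1 : ∀ x i, k ≤ i → g⁻¹ x i = x i := by
    intro x i hi
    have := hg.1 (g⁻¹ x) i hi
    rw [perm_apply_inv] at this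
    exact this.symm
  refine ⟨h1, fun x y hxy i hi => ?_⟩
  set b' : X := fun j => if j < k then g⁻¹ y j else g⁻¹ x j with hb'
  have h2 : g b' = x := by
    funext j
    rcases lt_or_ge j k with hj | hj
    · rw [hg.2 b' (g⁻¹ y) (fun l hl => by simp [hb', hl]) j hj, perm_apply_inv]
      exact (hxy j hj).symm
    · rw [hg.1 b' j hj]
      simp only [hb', if_neg (not_lt.mpr hj)]
      exact h1 x j hj
  have h3 : g⁻¹ x = b' := by rw [← h2, perm_inv_apply]
  have : g⁻¹ x i = b' i := congrFun h3 i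
  rw [this]
  simp [hb', hi]

/-- The group of permutations of Cantor space of finite level. -/
def Gp : Subgroup (Equiv.Perm X) where
  carrier := {g | ∃ k, Lev k g}
  mul_mem' := by
    rintro g h ⟨k, hk⟩ ⟨l, hl⟩
    exact ⟨max k l, (hk.mono (le_max_left _ _)).mul (hl.mono (le_max_right _ _))⟩
  one_mem' := ⟨0, Lev.one 0⟩
  inv_mem' := by
    rintro g ⟨k, hk⟩
    exact ⟨k, hk.inv⟩

/-- coordinatewise permutation -/
def dp (σ : ℕ → Equiv.Perm (Fin 3)) : Equiv.Perm X := Equiv.piCongrRight σ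

@[simp] theorem dp_apply (σ : ℕ → Equiv.Perm (Fin 3)) (x : X) (i : ℕ) : dp σ x i = σ i (x i) := rfl

theorem dp_lev {σ : ℕ → Equiv.Perm (Fin 3)} {L : ℕ} (h : ∀ i, L ≤ i → σ i = 1) : Lev L (dp σ) :=
  ⟨fun x i hi => by rw [dp_apply, h i hi]; rfl, fun x y hxy i hi => by simp [hxy i hi]⟩

theorem dp_comm {k : ℕ} {f : Equiv.Perm X} (hf : Lev k f) {σ : ℕ → Equiv.Perm (Fin 3)}
    (hσ : ∀ i < k, σ i = 1) : dp σ * f = f * dp σ := by
  ext1 x
  funext i
  rw [Equiv.Perm.mul_apply, Equiv.Perm.mul_apply, dp_apply]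
  rcases lt_or_ge i k with hi | hi
  · rw [hσ i hi, Equiv.Perm.one_apply]
    exact hf.2 x (dp σ x) (fun j hj => by rw [dp_apply, hσ j hj]; rfl) i hi
  · rw [hf.1 _ i hi, hf.1 _ i hi, dp_apply]

theorem exists_fix : ∀ a : Fin 3, ∃ τ : Equiv.Perm (Fin 3), τ a = a ∧ ∀ c, τ c = c → c = a := by
  decide

/-- An element commuting with all coordinate permutations above level `k` has level `k`. -/
theorem lev_of_comm {k : ℕ} {y : Equiv.Perm X} (hy : ∃ L, Lev L y)
    (hc : ∀ σ : ℕ → Equiv.Perm (Fin 3), (∀ i < k, σ i = 1) → (∃ L, ∀ i, L ≤ i → σ i = 1) →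
      dp σ * y = y * dp σ) : Lev k y := by
  have h1 : ∀ x i, k ≤ i → y x i = x i := by
    intro x i hi
    obtain ⟨τ, hτ1, hτ2⟩ := exists_fix (x i)
    have hcomm := hc (fun j => if j = i then τ else 1)
      (fun j hj => by rw [if_neg (by omega)]) ⟨i + 1, fun j hj => by rw [if_neg (by omega)]⟩
    have hx : dp (fun j => if j = i then τ else 1) x = x := by
      funext j
      rw [dp_apply]
      split_ifs with h
      · rw [h, hτ1]
      · rfl
    have := congrFun (congrArg (fun g : Equiv.Perm X => g x) hcomm) i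
    simp only [Equiv.Perm.mul_apply] at this
    rw [hx, dp_apply, if_pos rfl] at this
    exact hτ2 _ this
  refine ⟨h1, fun x x' hxx i hi => ?_⟩
  obtain ⟨L, hL⟩ := hy
  set σ : ℕ → Equiv.Perm (Fin 3) := fun j =>
    if k ≤ j ∧ j < L then Equiv.swap (x j) (x' j) else 1 with hσ
  have hcomm := hc σ (fun j hj => by simp only [hσ]; rw [if_neg (by omega)])
    ⟨L, fun j hj => by simp only [hσ]; rw [if_neg (by omega)]⟩
  have hag : ∀ j < L, dp σ x j = x' j := by
    intro j hj
    rw [dp_apply]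
    simp only [hσ]
    split_ifs with h
    · exact Equiv.swap_apply_left _ _
    · exact hxx j (by omega)
  have h2 : y (dp σ x) i = y x i := by
    have := congrFun (congrArg (fun g : Equiv.Perm X => g x) hcomm) i
    simp only [Equiv.Perm.mul_apply] at this
    rw [← this, dp_apply]
    simp only [hσ]
    rw [if_neg (by omega)]
    rfl
  rcases lt_or_ge i L with hiL | hiL
  · rw [← h2]; exact hL.2 _ _ hag i hiL
  · rw [hL.1 _ i hiL, hL.1 _ i hiL]; exact hxx i hi

theorem finite_lev (k : ℕ) : {g : Gp | Lev k g.1}.Finite := by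
  let ext : (Fin k → Fin 3) → X := fun a i => if h : i < k then a ⟨i, h⟩ else 0
  let Φ : Gp → ((Fin k → Fin 3) → (Fin k → Fin 3)) := fun g a i => g.1 (ext a) i.1
  refine Set.Finite.of_finite_image (Set.toFinite (Φ '' _)) ?_
  intro g hg h hh hgh
  apply Subtype.ext
  ext1 x
  funext i
  rcases lt_or_ge i k with hi | hi
  · have hx : ∀ j < k, x j = ext (fun j => x j.1) j := by
      intro j hj
      simp [ext, hj]
    rw [hg.2 x _ hx i hi, hh.2 x _ hx i hi]
    exact congrFun (congrFun hgh (fun j => x j.1)) ⟨i, hi⟩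
  · rw [hg.1 x i hi, hh.1 x i hi]

instance : Countable Gp := by
  have h : (⋃ k : ℕ, {g : Gp | Lev k g.1}).Countable :=
    Set.countable_iUnion fun k => (finite_lev k).countable
  have h' : (⋃ k : ℕ, {g : Gp | Lev k g.1}) = Set.univ := by
    ext g
    simp only [Set.mem_iUnion, Set.mem_univ, iff_true]
    exact g.2
  rw [h'] at h
  exact Set.countable_univ_iff.mp h

theorem exists_level {F : Set Gp} (hF : F.Finite) : ∃ k, ∀ f ∈ F, Lev k f.1 := by
  induction F, hF using Set.Finite.induction_on with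
  | empty => exact ⟨0, fun f hf => absurd hf (Set.notMem_empty f)⟩
  | @insert a s _ _ ih =>
    obtain ⟨k, hk⟩ := ih
    obtain ⟨l, hl⟩ := a.2
    refine ⟨max k l, ?_⟩
    intro f hf
    rcases Set.mem_insert_iff.mp hf with rfl | hf
    · exact hl.mono (le_max_right _ _)
    · exact (hk f hf).mono (le_max_left _ _)

theorem double_centralizer {F : Set Gp} {k : ℕ} (hF : ∀ f ∈ F, Lev k f.1) {y : Gp}
    (hy : y ∈ Set.centralizer (Set.centralizer F)) : Lev k y.1 := by
  refine lev_of_comm y.2 ?_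
  intro σ h1 h2
  have h2' : dp σ ∈ Gp := by
    obtain ⟨L, hL⟩ := h2
    exact ⟨L, dp_lev hL⟩
  have hmem : (⟨dp σ, h2'⟩ : Gp) ∈ Set.centralizer F := by
    rw [Set.mem_centralizer_iff]
    intro f hf
    apply Subtype.ext
    exact (dp_comm (hF f hf) h1).symm
  exact congrArg Subtype.val (Set.mem_centralizer_iff.mp hy _ hmem)

theorem finite_double (F : Set Gp) (hF : F.Finite) :
    (Set.centralizer (Set.centralizer F)).Finite := by
  obtain ⟨k, hk⟩ := exists_level hF
  exact (finite_lev k).subset fun y hy => double_centralizer hk hy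

theorem center_bot : Subgroup.center Gp = ⊥ := by
  rw [eq_bot_iff]
  intro z hz
  have h : z ∈ Set.centralizer (Set.centralizer (∅ : Set Gp)) := by
    rw [Set.mem_centralizer_iff]
    intro m _
    exact Subgroup.mem_center_iff.mp hz m
  have h0 := double_centralizer (k := 0) (fun f hf => absurd hf (Set.notMem_empty f)) h
  rw [Subgroup.mem_bot]
  apply Subtype.ext
  ext1 x
  funext i
  exact h0.1 x i (Nat.zero_le i)

/-- The elements fixing the first `m` coordinates of every point. -/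
def U (m : ℕ) : Set Gp := {g | ∀ x, ∀ i < m, g.1 x i = x i}

theorem U_mono {m n : ℕ} (h : m ≤ n) : U n ⊆ U m :=
  fun _ hg x i hi => hg x i (lt_of_lt_of_le hi h)

open Pointwise in
/-- The filter basis of the uniform topology. -/
@[instance_reducible]
def basis : GroupFilterBasis Gp where
  sets := {V | ∃ m, V = U m}
  nonempty := ⟨U 0, 0, rfl⟩
  inter_sets := by
    rintro _ _ ⟨m, rfl⟩ ⟨n, rfl⟩
    exact ⟨U (max m n), ⟨_, rfl⟩, Set.subset_inter (U_mono (le_max_left _ _))
      (U_mono (le_max_right _ _))⟩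
  one' := by
    rintro _ ⟨m, rfl⟩ x i _
    rfl
  mul' := by
    rintro _ ⟨m, rfl⟩
    refine ⟨U m, ⟨m, rfl⟩, ?_⟩
    rintro _ ⟨g, hg, h, hh, rfl⟩ x i hi
    change g.1 (h.1 x) i = x i
    rw [hg _ i hi, hh _ i hi]
  inv' := by
    rintro _ ⟨m, rfl⟩
    refine ⟨U m, ⟨m, rfl⟩, ?_⟩
    intro g hg x i hi
    change g.1⁻¹ x i = x i
    have := hg (g.1⁻¹ x) i hi
    rw [perm_apply_inv] at this
    exact this.symm
  conj' := by
    rintro g _ ⟨m, rfl⟩
    obtain ⟨k, hk⟩ := g.2
    refine ⟨U (max m k), ⟨_, rfl⟩, ?_⟩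
    intro h hh x i hi
    change g.1 (h.1 (g.1⁻¹ x)) i = x i
    have hk' := hk.mono (le_max_right m k)
    rw [hk'.2 (h.1 (g.1⁻¹ x)) (g.1⁻¹ x) (fun j hj => hh _ j hj) i
      (lt_of_lt_of_le hi (le_max_left _ _)), perm_apply_inv]

theorem t2 : @T2Space Gp basis.topology := by
  let := basis.topology
  have := basis.isTopologicalGroup
  refine IsTopologicalGroup.t2Space_of_one_sep ?_
  intro g hg
  by_contra hcon
  push Not at hcon
  apply hg
  apply Subtype.ext
  ext1 x
  funext i
  exact hcon (U (i + 1)) (basis.mem_nhds_one ⟨i + 1, rfl⟩) x i (Nat.lt_succ_self i)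

/-- the element swapping `0` and `1` in the coordinate `0` -/
def b : Gp := ⟨dp (fun j => if j = 0 then Equiv.swap 0 1 else 1),
  1, dp_lev (fun i hi => if_neg (by omega))⟩

/-- swap `0` and `1` in the coordinate `m + 1` if the coordinate `0` is `0` -/
def cfun (m : ℕ) (x : X) : X := if x 0 = 0 then
  dp (fun j => if j = m + 1 then Equiv.swap 0 1 else 1) x else x

theorem cfun_zero (m : ℕ) (x : X) : cfun m x 0 = x 0 := by
  unfold cfun
  split_ifs with h
  · simp
  · rfl

theorem cfun_cfun (m : ℕ) (x : X) : cfun m (cfun m x) = x := by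
  by_cases h : x 0 = 0
  · have h1 : cfun m x = dp (fun j => if j = m + 1 then Equiv.swap 0 1 else 1) x := if_pos h
    have h2 : cfun m x 0 = 0 := by rw [cfun_zero]; exact h
    have h3 : cfun m (cfun m x) =
        dp (fun j => if j = m + 1 then Equiv.swap 0 1 else 1) (cfun m x) := if_pos h2
    rw [h3, h1]
    funext j
    simp only [dp_apply]
    split_ifs with hj
    · exact Equiv.swap_apply_self 0 1 (x j)
    · rfl
  · have h1 : cfun m x = x := if_neg h
    rw [h1, h1]

/-- the corresponding permutation -/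
def cperm (m : ℕ) : Equiv.Perm X := ⟨cfun m, cfun m, cfun_cfun m, cfun_cfun m⟩

theorem cperm_of_ne {m i : ℕ} (hi : i ≠ m + 1) (x : X) : cperm m x i = x i := by
  change cfun m x i = x i
  unfold cfun
  split_ifs with h
  · rw [dp_apply, if_neg hi]; rfl
  · rfl

theorem cperm_lev (m : ℕ) : Lev (m + 2) (cperm m) := by
  refine ⟨fun x i hi => cperm_of_ne (by omega) x, fun x y hxy i hi => ?_⟩
  by_cases him : i = m + 1
  · subst him
    change cfun m x (m + 1) = cfun m y (m + 1)
    unfold cfun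
    rw [← hxy 0 (by omega)]
    split_ifs with h
    · simp [hxy (m + 1) hi]
    · exact hxy _ hi
  · rw [cperm_of_ne him, cperm_of_ne him]
    exact hxy i hi

/-- as an element of the group -/
def c (m : ℕ) : Gp := ⟨cperm m, m + 2, cperm_lev m⟩

theorem c_mem (m : ℕ) : c m ∈ U m := fun x i hi => cperm_of_ne (by omega) x

theorem c_not_comm (m : ℕ) : c m * b ≠ b * c m := by
  intro h
  have h1 := congrFun (congrArg (fun g : Gp => g.1 (fun _ => 0)) h) (m + 1)
  change cfun m (b.1 (fun _ => 0)) (m + 1) = b.1 (cfun m (fun _ => 0)) (m + 1)  at h1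
  have h2 : b.1 (fun _ => (0 : Fin 3)) 0 = 1 := by
    simp [b]
  have h3 : cfun m (b.1 (fun _ => 0)) = b.1 (fun _ => 0) := by
    unfold cfun
    rw [if_neg (by rw [h2]; decide)]
  have h4 : cfun m (fun _ => (0 : Fin 3)) (m + 1) = 1 := by
    unfold cfun
    rw [if_pos rfl, dp_apply, if_pos rfl, Equiv.swap_apply_left]
  rw [h3] at h1
  simp only [b, dp_apply] at h1
  rw [if_neg (by omega), Equiv.Perm.one_apply, Equiv.Perm.one_apply, h4] at h1
  exact absurd h1 (by decide)

theorem markov_ne : markovTopology Gp ≠ centralizerTopology Gp := by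
  intro heq
  have h1 : IsOpen[centralizerTopology Gp] {x : Gp | x * b * x⁻¹ = 1 * b * 1⁻¹} :=
    TopologicalSpace.isOpen_generateFrom_of_mem ⟨1, b, rfl⟩
  rw [← heq, markovTopology, isOpen_sSup_iff] at h1
  have h2 := h1 basis.topology ⟨basis.isTopologicalGroup, t2⟩
  let := basis.topology
  have h3 : {x : Gp | x * b * x⁻¹ = 1 * b * 1⁻¹} ∈ 𝓝 (1 : Gp) :=
    h2.mem_nhds (by simp)
  rw [basis.nhds_one_hasBasis.mem_iff] at h3
  obtain ⟨V, ⟨m, rfl⟩, hV⟩ := h3
  have h4 := hV (c_mem m)
  simp only [Set.mem_ofPred_eq, one_mul, inv_one, mul_one] at h4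
  exact c_not_comm m (mul_inv_eq_iff_eq_mul.mp h4)

end Pool.Agent.R864.MT
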