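import Mathlib

set_option autoImplicit false

/-!
# Inversion pairs and self-inverting formal power series

Definitions, and the theorem that a self-inverting polynomial is Hessian nilpotent.
-/

namespace Pool.Agent.R864.SelfInv

open MvPowerSeries

variable {n : ℕ}

/-- The Hessian matrix of a formal power series in `n` variables. -/
noncomputable def hessian (P : MvPowerSeries (Fin n) ℂ) :
    Matrix (Fin n) (Fin n) (MvPowerSeries (Fin n) ℂ) :=
  Matrix.of fun i j => pderiv ℂ i (pderiv ℂ j P)

/-- `P` is Hessian nilpotent (HN). -/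
def IsHN (P : MvPowerSeries (Fin n) ℂ) : Prop := IsNilpotent (hessian P)

/-- `P` has order at least two and the matrix `(Hes P)(0)` of constant terms is nilpotent. -/
def Admissible (P : MvPowerSeries (Fin n) ℂ) : Prop :=
  2 ≤ P.order ∧ IsNilpotent ((hessian P).map (constantCoeff (σ := Fin n) (R := ℂ)))

/-- `Q` is the inversion pair of `P`: `Q` has order at least two and the formal maps
`F(z) = z - ∇P(z)` and `G(z) = z + ∇Q(z)` are inverse to each other, `F(G(z)) = z` and
`G(F(z)) = z`. -/
def IsInversionPair (P Q : MvPowerSeries (Fin n) ℂ) : Prop :=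
  2 ≤ Q.order ∧
  (∀ i, subst (fun j => X j + pderiv ℂ j Q) (X i - pderiv ℂ i P) =
    (X i : MvPowerSeries (Fin n) ℂ)) ∧
  (∀ i, subst (fun j => X j - pderiv ℂ j P) (X i + pderiv ℂ i Q) =
    (X i : MvPowerSeries (Fin n) ℂ))

/-- `P` is self-inverting: it is admissible and is its own inversion pair. -/
def SelfInverting (P : MvPowerSeries (Fin n) ℂ) : Prop := Admissible P ∧ IsInversionPair P P

theorem constCoeff_pderiv {P : MvPowerSeries (Fin n) ℂ} (hP : 2 ≤ P.order) (i : Fin n) :
    constantCoeff (pderiv ℂ i P) = 0 := by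
  rw [← coeff_zero_eq_constantCoeff_apply, coeff_pderiv]
  rw [coeff_of_lt_order]
  · simp
  · rw [zero_add, Finsupp.degree_single]
    exact lt_of_lt_of_le (by norm_num) hP

theorem hasSubst_lin {P : MvPowerSeries (Fin n) ℂ} (hP : 2 ≤ P.order) (t : ℂ) :
    HasSubst (fun j => X j + C t * pderiv ℂ j P) := by
  apply hasSubst_of_constantCoeff_zero
  intro j
  rw [map_add, map_mul, constCoeff_pderiv hP, mul_zero, constantCoeff_X, add_zero]

/-- a criterion: if the substitutions `z ↦ z ± ∇P(z)` fix the gradient of `P`, then `P` is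
self-inverting -/
theorem selfInverting_of (P : MvPowerSeries (Fin n) ℂ) (h : Admissible P)
    (h1 : ∀ t : ℂ, ∀ i, subst (fun j => X j + C t * pderiv ℂ j P) (pderiv ℂ i P) =
      pderiv ℂ i P) : SelfInverting P := by
  have e1 : (fun j => X j + pderiv ℂ j P) = fun j => X j + C 1 * pderiv ℂ j P := by
    funext j; rw [map_one, one_mul]
  have e2 : (fun j => X j - pderiv ℂ j P) = fun j => X j + C (-1) * pderiv ℂ j P := by
    funext j; rw [map_neg, map_one, neg_one_mul, sub_eq_add_neg]
  refine ⟨h, h.1, ?_, ?_⟩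
  · intro i
    rw [e1, subst_sub (hasSubst_lin h.1 1), subst_X (hasSubst_lin h.1 1), h1]
    rw [map_one, one_mul, add_sub_cancel_right]
  · intro i
    rw [e2, subst_add (hasSubst_lin h.1 (-1)), subst_X (hasSubst_lin h.1 (-1)), h1]
    rw [map_neg, map_one, neg_one_mul, neg_add_cancel_right]

/-! ### polynomials -/

section poly

/-- gradient component of a polynomial -/
noncomputable abbrev D (i : Fin n) (p : MvPolynomial (Fin n) ℂ) : MvPolynomial (Fin n) ℂ :=
  MvPolynomial.pderiv i p

/-- chain rule for polynomials -/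
theorem chain (l : Fin n) (g : Fin n → MvPolynomial (Fin n) ℂ) (f : MvPolynomial (Fin n) ℂ) :
    D l (MvPolynomial.aeval g f) = ∑ j, MvPolynomial.aeval g (D j f) * D l (g j) := by
  induction f using MvPolynomial.induction_on with
  | C a => simp [D]
  | add p q hp hq => simp only [D, map_add, Finset.sum_add_distrib, add_mul] at *; rw [hp, hq]
  | mul_X p i hp =>
    simp only [D, map_mul, MvPolynomial.pderiv_mul, map_add] at *
    rw [hp, MvPolynomial.aeval_X]
    simp only [MvPolynomial.pderiv_X, add_mul, Finset.sum_add_distrib]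
    congr 1
    · rw [Finset.sum_mul]
      exact Finset.sum_congr rfl fun j _ => by ring
    · rw [Finset.sum_eq_single i]
      · simp [mul_comm]
      · intro j _ hj
        simp [hj.symm]
      · simp

/-- polynomial Hessian -/
noncomputable def H (p : MvPolynomial (Fin n) ℂ) : Matrix (Fin n) (Fin n) (MvPolynomial (Fin n) ℂ) :=
  Matrix.of fun i j => D i (D j p)

theorem D_comm (a b : Fin n) (p : MvPolynomial (Fin n) ℂ) : D a (D b p) = D b (D a p) := by
  have h : ⁅MvPolynomial.pderiv (R := ℂ) a, MvPolynomial.pderiv (R := ℂ) b⁆ =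
      (0 : Derivation ℂ (MvPolynomial (Fin n) ℂ) (MvPolynomial (Fin n) ℂ)) := by
    apply MvPolynomial.derivation_ext
    intro i
    rw [Derivation.commutator_apply]
    classical
    simp only [MvPolynomial.pderiv_X, Pi.single_apply]
    split_ifs <;> simp
  have h2 := congrArg (fun D => D p) h
  simp only [Derivation.commutator_apply, Derivation.coe_zero, Pi.zero_apply] at h2
  exact sub_eq_zero.mp h2

/-- the substitution `z ↦ z + k ∇p(z)` -/
noncomputable def sub (p : MvPolynomial (Fin n) ℂ) (k : ℕ) :
    MvPolynomial (Fin n) ℂ →ₐ[ℂ] MvPolynomial (Fin n) ℂ :=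
  MvPolynomial.aeval (fun j => MvPolynomial.X j + (k : MvPolynomial (Fin n) ℂ) * D j p)

/-- the substitution `z ↦ z + t ∇p(z)` with an indeterminate `t` -/
noncomputable def gen (p : MvPolynomial (Fin n) ℂ) :
    MvPolynomial (Fin n) ℂ →+* Polynomial (MvPolynomial (Fin n) ℂ) :=
  MvPolynomial.eval₂Hom (Polynomial.C.comp MvPolynomial.C)
    (fun j => Polynomial.C (MvPolynomial.X j) + Polynomial.X * Polynomial.C (D j p))

theorem eval_gen (p : MvPolynomial (Fin n) ℂ) (k : ℕ) (f : MvPolynomial (Fin n) ℂ) :
    (gen p f).eval (k : MvPolynomial (Fin n) ℂ) = sub p k f := by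
  induction f using MvPolynomial.induction_on with
  | C a => simp [gen, sub]
  | add p q hp hq => simp only [map_add, Polynomial.eval_add, hp, hq]
  | mul_X f i hf =>
    rw [map_mul, Polynomial.eval_mul, hf, map_mul]
    congr 1
    simp only [gen, sub, MvPolynomial.coe_eval₂Hom, MvPolynomial.eval₂_X, Polynomial.eval_add,
      Polynomial.eval_mul, Polynomial.eval_X, Polynomial.eval_C, MvPolynomial.aeval_X]

theorem sub_fix (p : MvPolynomial (Fin n) ℂ) (h : ∀ i, sub p 1 (D i p) = D i p) (k : ℕ) :
    ∀ i, sub p k (D i p) = D i p := by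
  induction k with
  | zero => intro i; simp [sub]
  | succ k ih =>
    intro i
    have e : sub p (k + 1) = (sub p 1).comp (sub p k) := by
      apply MvPolynomial.algHom_ext
      intro j
      rw [AlgHom.comp_apply]
      conv_rhs => rw [show sub p k (MvPolynomial.X j) = MvPolynomial.X j +
        (k : MvPolynomial (Fin n) ℂ) * D j p from MvPolynomial.aeval_X _ _]
      rw [map_add, map_mul, map_natCast, h, show sub p 1 (MvPolynomial.X j) = MvPolynomial.X j +
        ((1 : ℕ) : MvPolynomial (Fin n) ℂ) * D j p from MvPolynomial.aeval_X _ _,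
        show sub p (k + 1) (MvPolynomial.X j) = MvPolynomial.X j +
        ((k + 1 : ℕ) : MvPolynomial (Fin n) ℂ) * D j p from MvPolynomial.aeval_X _ _]
      push_cast
      ring
    rw [e, AlgHom.comp_apply, ih, h]

/-- `Hes p (z + t ∇p(z)) (1 + t Hes p(z)) = Hes p(z)`, entrywise -/
theorem gen_eq (p : MvPolynomial (Fin n) ℂ) (h : ∀ i, sub p 1 (D i p) = D i p) (i l : Fin n) :
    gen p (H p i l) + Polynomial.X * ∑ j, gen p (H p i j) * Polynomial.C (H p j l) =
      Polynomial.C (H p i l) := by
  refine Polynomial.eq_of_infinite_eval_eq _ _ (Set.infinite_of_injective_forall_mem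
    (f := fun k : ℕ => (k : MvPolynomial (Fin n) ℂ)) Nat.cast_injective ?_)
  intro k
  change Polynomial.eval (k : MvPolynomial (Fin n) ℂ) _ =
    Polynomial.eval (k : MvPolynomial (Fin n) ℂ) _
  have h1 := congrArg (D l) (sub_fix p h k i)
  rw [sub, chain] at h1
  change ∑ j, sub p k (D j (D i p)) * _ = _ at h1
  have h2 : ∀ j, D l (MvPolynomial.X j + (k : MvPolynomial (Fin n) ℂ) * D j p) =
      (if j = l then 1 else 0) + (k : MvPolynomial (Fin n) ℂ) * H p j l := by
    intro j
    change MvPolynomial.pderiv l (MvPolynomial.X j + (k : MvPolynomial (Fin n) ℂ) * D j p) = _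
    rw [map_add, Derivation.leibniz, Derivation.map_natCast, smul_zero, add_zero, smul_eq_mul,
      MvPolynomial.pderiv_X, Pi.single_apply,
      show MvPolynomial.pderiv l (D j p) = H p j l from D_comm l j p]
  simp only [h2, mul_add, Finset.sum_add_distrib, mul_ite, mul_one, mul_zero,
    Finset.sum_ite_eq', Finset.mem_univ, if_true] at h1
  simp only [Polynomial.eval_add, Polynomial.eval_mul, Polynomial.eval_X, Polynomial.eval_C,
    Polynomial.eval_finsetSum, eval_gen]
  have h3 : ∀ a b, H p a b = D b (D a p) := fun a b => D_comm a b p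
  calc sub p k (H p i l) + (k : MvPolynomial (Fin n) ℂ) * ∑ j, sub p k (H p i j) * H p j l
      = sub p k (D l (D i p)) + ∑ j, sub p k (D j (D i p)) *
          ((k : MvPolynomial (Fin n) ℂ) * H p j l) := by
        rw [h3 i l, Finset.mul_sum]
        refine congrArg _ (Finset.sum_congr rfl fun j _ => ?_)
        rw [h3 i j]
        ring
    _ = D l (D i p) := h1
    _ = H p i l := (h3 i l).symm

/-- If the substitution `z ↦ z + ∇p(z)` fixes the gradient of the polynomial `p`, then the Hessian
of `p` is nilpotent. -/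
theorem nilpotent_of_fix (p : MvPolynomial (Fin n) ℂ) (h : ∀ i, sub p 1 (D i p) = D i p) :
    IsNilpotent (H p) := by
  have hB := gen_eq p h
  have h0 : ∀ i l, (gen p (H p i l)).coeff 0 = H p i l := by
    intro i l
    have := congrArg (fun q => Polynomial.coeff q 0) (hB i l)
    simpa using this
  have hs : ∀ k i l, (gen p (H p i l)).coeff (k + 1) =
      - ∑ j, (gen p (H p i j)).coeff k * H p j l := by
    intro k i l
    have := congrArg (fun q => Polynomial.coeff q (k + 1)) (hB i l)
    simp only [Polynomial.coeff_add, Polynomial.coeff_X_mul, Polynomial.finsetSum_coeff,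
      Polynomial.coeff_mul_C, Polynomial.coeff_C_succ] at this
    exact eq_neg_of_add_eq_zero_left this
  have hc : ∀ k, (Matrix.of fun i l => (gen p (H p i l)).coeff k) =
      ((-1 : ℤ) ^ k) • (H p) ^ (k + 1) := by
    intro k
    induction k with
    | zero =>
      ext1 i l
      simpa using h0 i l
    | succ k ih =>
      have h1 : (Matrix.of fun i l => (gen p (H p i l)).coeff (k + 1)) =
          - ((Matrix.of fun i l => (gen p (H p i l)).coeff k) * H p) := by
        ext1 i l
        rw [Matrix.neg_apply, Matrix.mul_apply, Matrix.of_apply, hs]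
        rfl
      rw [h1, ih, smul_mul_assoc, ← pow_succ, pow_succ (-1 : ℤ) k, mul_comm ((-1 : ℤ) ^ k) (-1),
        mul_smul, neg_one_smul]
  obtain ⟨N, hN⟩ : ∃ N, ∀ i l, (gen p (H p i l)).natDegree < N := by
    refine ⟨(∑ i, ∑ l, (gen p (H p i l)).natDegree) + 1, fun i l => ?_⟩
    have h1 : (gen p (H p i l)).natDegree ≤ ∑ l, (gen p (H p i l)).natDegree :=
      Finset.single_le_sum (f := fun l => (gen p (H p i l)).natDegree)
        (fun _ _ => Nat.zero_le _) (Finset.mem_univ l)
    have h2 : ∑ l, (gen p (H p i l)).natDegree ≤ ∑ i, ∑ l, (gen p (H p i l)).natDegree :=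
      Finset.single_le_sum (f := fun i => ∑ l, (gen p (H p i l)).natDegree)
        (fun _ _ => Nat.zero_le _) (Finset.mem_univ i)
    omega
  refine ⟨N + 1, ?_⟩
  have h1 := hc N
  have h2 : (Matrix.of fun i l => (gen p (H p i l)).coeff N) = 0 := by
    ext1 i l
    exact Polynomial.coeff_eq_zero_of_natDegree_lt (hN i l)
  rw [h2] at h1
  have h3 : ((-1 : ℤ) ^ N) • (((-1 : ℤ) ^ N) • (H p) ^ (N + 1)) = 0 := by rw [← h1, smul_zero]
  rw [smul_smul, ← mul_pow] at h3
  simpa using h3

/-- A polynomial which is its own inversion pair is Hessian nilpotent. -/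
theorem isHN_of_selfInverting (p : MvPolynomial (Fin n) ℂ)
    (h : SelfInverting (p : MvPowerSeries (Fin n) ℂ)) :
    IsHN (p : MvPowerSeries (Fin n) ℂ) := by
  obtain ⟨hadm, _, h1, _⟩ := h
  have hs : HasSubst (fun j => X j + pderiv ℂ j (p : MvPowerSeries (Fin n) ℂ)) := by
    have := hasSubst_lin hadm.1 1
    simpa using this
  have hfix : ∀ i, sub p 1 (D i p) = D i p := by
    intro i
    have h2 := h1 i
    rw [subst_sub hs, subst_X hs, pderiv_coe, subst_coe] at h2
    have h3 : MvPolynomial.aeval (fun j => X j + pderiv ℂ j (p : MvPowerSeries (Fin n) ℂ))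
        (D i p) = ((sub p 1 (D i p) : MvPolynomial (Fin n) ℂ) : MvPowerSeries (Fin n) ℂ) := by
      have : ∀ f : MvPolynomial (Fin n) ℂ,
          MvPolynomial.aeval (fun j => X j + pderiv ℂ j (p : MvPowerSeries (Fin n) ℂ)) f =
          ((sub p 1 f : MvPolynomial (Fin n) ℂ) : MvPowerSeries (Fin n) ℂ) := by
        intro f
        induction f using MvPolynomial.induction_on with
        | C a => simp [sub, MvPowerSeries.algebraMap_apply]
        | add f g hf hg => simp only [map_add, MvPolynomial.coe_add, hf, hg]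
        | mul_X f i hf =>
          rw [map_mul, map_mul, MvPolynomial.coe_mul, hf]
          congr 1
          simp [sub, pderiv_coe]
      exact this _
    have h4 : MvPolynomial.aeval (fun j => X j + pderiv ℂ j (p : MvPowerSeries (Fin n) ℂ))
        (D i p) = ((D i p : MvPolynomial (Fin n) ℂ) : MvPowerSeries (Fin n) ℂ) := by
      linear_combination -h2
    rw [h3] at h4
    exact MvPolynomial.coe_injective _ _ h4
  have hn := nilpotent_of_fix p hfix
  have hH : hessian (p : MvPowerSeries (Fin n) ℂ) =
      (MvPolynomial.coeToMvPowerSeries.ringHom (σ := Fin n) (R := ℂ)).mapMatrix (H p) := by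
    ext1 i j
    change pderiv ℂ i (pderiv ℂ j (p : MvPowerSeries (Fin n) ℂ)) = ((D i (D j p) :
      MvPolynomial (Fin n) ℂ) : MvPowerSeries (Fin n) ℂ)
    rw [pderiv_coe, pderiv_coe]
  rw [IsHN, hH]
  exact hn.map _

end poly

end Pool.Agent.R864.SelfInv
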