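import Mathlib
import Pool.Agent.R864.Cyl
import Pool.Agent.R864.Lead

/-!
The surfaces `p(x) y = z^2 + q(x)` and their locally nilpotent derivations.
-/

set_option autoImplicit false
set_option linter.unusedSectionVars false
set_option linter.unnecessarySeqFocus false
set_option linter.unusedVariables false

open Polynomial

namespace Pool.Agent.R864.Surf

open Cyl LeadTerm

universe u v

variable {K : Type u} [Field K]

/-- the relation -/
noncomputable def rel (p q : K[X]) : MvPolynomial (Fin 3) K :=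
  aeval (MvPolynomial.X 0) p * MvPolynomial.X 1 - MvPolynomial.X 2 ^ 2
    - aeval (MvPolynomial.X 0) q

/-- the coordinate ring `K[x,y,z]/(p(x) y - z^2 - q(x))` -/
def S (p q : K[X]) : Type u := MvPolynomial (Fin 3) K ⧸ Ideal.span {rel p q}

noncomputable instance (p q : K[X]) : CommRing (S p q) :=
  inferInstanceAs (CommRing (MvPolynomial (Fin 3) K ⧸ Ideal.span {rel p q}))

noncomputable instance (p q : K[X]) : Algebra K (S p q) :=
  inferInstanceAs (Algebra K (MvPolynomial (Fin 3) K ⧸ Ideal.span {rel p q}))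

/-- projection -/
noncomputable def proj (p q : K[X]) : MvPolynomial (Fin 3) K →ₐ[K] S p q :=
  Ideal.Quotient.mkₐ K (Ideal.span {rel p q})

theorem proj_surjective (p q : K[X]) : Function.Surjective (proj p q) :=
  Ideal.Quotient.mk_surjective

/-- coordinate `x` -/
noncomputable def x (p q : K[X]) : S p q := proj p q (MvPolynomial.X 0)
/-- coordinate `y` -/
noncomputable def y (p q : K[X]) : S p q := proj p q (MvPolynomial.X 1)
/-- coordinate `z` -/
noncomputable def z (p q : K[X]) : S p q := proj p q (MvPolynomial.X 2)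

theorem rel_eq (p q : K[X]) : aeval (x p q) p * y p q = z p q ^ 2 + aeval (x p q) q := by
  have h : proj p q (rel p q) = 0 :=
    Ideal.Quotient.eq_zero_iff_mem.2 (Ideal.mem_span_singleton_self _)
  unfold rel at h
  rw [map_sub, map_sub, map_mul, map_pow, ← aeval_algHom_apply, ← aeval_algHom_apply] at h
  change aeval (x p q) p * y p q - z p q ^ 2 - aeval (x p q) q = 0 at h
  linear_combination h

section lift

variable {B : Type v} [CommRing B] [Algebra K B]

/-- universal property -/
noncomputable def lift (p q : K[X]) (a b c : B) (h : aeval a p * b = c ^ 2 + aeval a q) :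
    S p q →ₐ[K] B :=
  Ideal.Quotient.liftₐ (Ideal.span {rel p q}) (MvPolynomial.aeval ![a, b, c]) (by
    intro r hr
    have hle : Ideal.span {rel p q} ≤ RingHom.ker (MvPolynomial.aeval ![a, b, c] :
        MvPolynomial (Fin 3) K →ₐ[K] B) := by
      rw [Ideal.span_le, Set.singleton_subset_iff, SetLike.mem_coe, RingHom.mem_ker]
      unfold rel
      rw [map_sub, map_sub, map_mul, map_pow, ← aeval_algHom_apply, ← aeval_algHom_apply]
      simp only [MvPolynomial.aeval_X]
      change aeval a p * b - c ^ 2 - aeval a q = 0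
      linear_combination h
    exact hle hr)

variable {p q : K[X]} {a b c : B} (h : aeval a p * b = c ^ 2 + aeval a q)

theorem lift_proj (r : MvPolynomial (Fin 3) K) :
    lift p q a b c h (proj p q r) = MvPolynomial.aeval ![a, b, c] r := rfl

@[simp] theorem lift_x : lift p q a b c h (x p q) = a := by
  unfold x
  rw [lift_proj]
  simp

@[simp] theorem lift_y : lift p q a b c h (y p q) = b := by
  unfold y
  rw [lift_proj]
  simp

@[simp] theorem lift_z : lift p q a b c h (z p q) = c := by
  unfold z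
  rw [lift_proj]
  simp

end lift

theorem sub_eq_top {p q : K[X]} (T : Subalgebra K (S p q)) (hx : x p q ∈ T) (hy : y p q ∈ T)
    (hz : z p q ∈ T) : T = ⊤ := by
  rw [eq_top_iff]
  rintro s -
  obtain ⟨r, rfl⟩ := proj_surjective p q s
  induction r using MvPolynomial.induction_on with
  | C a =>
    have : proj p q (MvPolynomial.C a) = algebraMap K _ a := (proj p q).commutes a
    rw [this]
    exact T.algebraMap_mem a
  | add f g hf hg =>
    rw [map_add]
    exact T.add_mem hf hg
  | mul_X f i hf =>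
    rw [map_mul]
    refine T.mul_mem hf ?_
    fin_cases i
    · exact hx
    · exact hy
    · exact hz

theorem hom_ext {p q : K[X]} {B : Type v} [CommRing B] [Algebra K B] {f g : S p q →ₐ[K] B}
    (hx : f (x p q) = g (x p q)) (hy : f (y p q) = g (y p q)) (hz : f (z p q) = g (z p q)) :
    f = g := by
  have : AlgHom.equalizer f g = ⊤ := sub_eq_top _ hx hy hz
  ext s
  have hs : s ∈ AlgHom.equalizer f g := by rw [this]; trivial
  exact hs

theorem adjoin_eq_top (p q : K[X]) :
    Algebra.adjoin K ({x p q, y p q, z p q} : Set (S p q)) = ⊤ := by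
  apply sub_eq_top
  · exact Algebra.subset_adjoin (by simp)
  · exact Algebra.subset_adjoin (by simp)
  · exact Algebra.subset_adjoin (by simp)

instance (p q : K[X]) : Algebra.FiniteType K (S p q) :=
  Algebra.FiniteType.of_surjective (proj p q) (proj_surjective p q)

/-- evaluation of `F(x, y)` -/
noncomputable def ev (p q : K[X]) : K[X][X] →+* S p q :=
  eval₂RingHom (aeval (x p q)).toRingHom (y p q)

theorem ev_C (p q : K[X]) (a : K[X]) : ev p q (C a) = aeval (x p q) a := by
  simp [ev]

theorem ev_X (p q : K[X]) : ev p q X = y p q := by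
  simp [ev]

/-- normal form `F(x, y) + G(x, y) z` -/
theorem normal_form (p q : K[X]) (s : S p q) : ∃ F G : K[X][X], s = ev p q F + ev p q G * z p q := by
  obtain ⟨r, rfl⟩ := proj_surjective p q s
  induction r using MvPolynomial.induction_on with
  | C a =>
    refine ⟨C (C a), 0, ?_⟩
    have : proj p q (MvPolynomial.C a) = algebraMap K _ a := (proj p q).commutes a
    rw [this, ev_C, aeval_C, map_zero, zero_mul, add_zero]
  | add f g hf hg =>
    obtain ⟨F1, G1, h1⟩ := hf
    obtain ⟨F2, G2, h2⟩ := hg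
    refine ⟨F1 + F2, G1 + G2, ?_⟩
    rw [map_add, h1, h2, map_add, map_add]
    ring
  | mul_X f i hf =>
    obtain ⟨F, G, h⟩ := hf
    rw [map_mul, h]
    fin_cases i
    · refine ⟨F * C X, G * C X, ?_⟩
      rw [map_mul, map_mul, ev_C, aeval_X]
      change (ev p q F + ev p q G * z p q) * x p q = _
      ring
    · refine ⟨F * X, G * X, ?_⟩
      rw [map_mul, map_mul, ev_X]
      change (ev p q F + ev p q G * z p q) * y p q = _
      ring
    · refine ⟨G * (C p * X - C q), F, ?_⟩
      rw [map_mul, map_sub, map_mul, ev_C, ev_C, ev_X, rel_eq]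
      change (ev p q F + ev p q G * z p q) * z p q = _
      ring

/-! ### embedding into Hahn series -/

/-- the value group -/
abbrev Γ : Type := ℤ ×ₗ ℤ

/-- abbreviation -/
def g (a b : ℤ) : Γ := toLex (a, b)

theorem g_add (a b c d : ℤ) : g a b + g c d = g (a + c) (b + d) := rfl

theorem g_neg (a b : ℤ) : -g a b = g (-a) (-b) := rfl

theorem g_zero : g 0 0 = 0 := rfl

theorem g_nsmul (n : ℕ) (a b : ℤ) : n • g a b = g (n * a) (n * b) := by
  induction n with
  | zero => simp [g_zero]
  | succ n ih =>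
    rw [succ_nsmul, ih, g_add]
    congr 1 <;> push_cast <;> ring

theorem g_lt_of_fst {a b c d : ℤ} (h : a < c) : g a b < g c d := by
  rw [g, g, Prod.Lex.toLex_lt_toLex]
  exact Or.inl h

theorem g_lt_of_snd {a b d : ℤ} (h : b < d) : g a b < g a d := by
  rw [g, g, Prod.Lex.toLex_lt_toLex]
  exact Or.inr ⟨rfl, h⟩

theorem g_lt_iff {a b c d : ℤ} : g a b < g c d ↔ a < c ∨ (a = c ∧ b < d) := by
  rw [g, g, Prod.Lex.toLex_lt_toLex]

theorem g_inj {a b c d : ℤ} (h : g a b = g c d) : a = c ∧ b = d := by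
  have := toLex.injective h
  simpa using this

theorem exists_g (γ : Γ) : ∃ a b, γ = g a b := ⟨(ofLex γ).1, (ofLex γ).2, rfl⟩

/-- the Hahn field -/
abbrev H (K : Type u) [Field K] : Type u := HahnSeries Γ K

/-- image of `x` -/
noncomputable def hx (K : Type u) [Field K] : H K := HahnSeries.single (g 0 (-1)) 1
/-- image of `z` -/
noncomputable def hz (K : Type u) [Field K] : H K := HahnSeries.single (g (-1) 0) 1

theorem lead_hx : Lead (hx K) (g 0 (-1)) 1 := lead_single _ _

theorem lead_hz : Lead (hz K) (g (-1) 0) 1 := lead_single _ _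

theorem hx_ne : hx K ≠ 0 := lead_hx.ne_zero one_ne_zero

theorem hz_ne : hz K ≠ 0 := lead_hz.ne_zero one_ne_zero

theorem lead_aeval (r : K[X]) : Lead (aeval (hx K) r) (g 0 (-r.natDegree)) r.leadingCoeff := by
  rw [aeval_eq_sum_range]
  have h1 : Lead (∑ i ∈ Finset.range (r.natDegree + 1), r.coeff i • hx K ^ i)
      (g 0 (-r.natDegree)) (∑ i ∈ Finset.range (r.natDegree + 1),
        if i = r.natDegree then r.leadingCoeff else 0) := by
    apply Lead.sum
    intro i hi
    have h2 : Lead (r.coeff i • hx K ^ i) (g 0 (-i)) (r.coeff i) := by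
      have h3 := (lead_hx (K := K)).pow i
      rw [g_nsmul, one_pow] at h3
      have h4 : g ((i : ℤ) * 0) ((i : ℤ) * (-1)) = g 0 (-i) := by
        congr 1 <;> ring
      rw [h4] at h3
      have h5 := (lead_single (K := K) (0 : Γ) (r.coeff i)).mul h3
      rw [zero_add, mul_one] at h5
      have h6 : r.coeff i • hx K ^ i = HahnSeries.single (0 : Γ) (r.coeff i) * hx K ^ i := by
        rw [Algebra.smul_def, HahnSeries.algebraMap_apply]
        rfl
      rw [h6]
      exact h5
    by_cases hin : i = r.natDegree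
    · rw [if_pos hin, hin]
      rw [hin] at h2
      exact h2
    · rw [if_neg hin]
      apply h2.of_lt
      apply g_lt_of_snd
      have := Finset.mem_range.1 hi
      omega
  rw [Finset.sum_ite_eq' ] at h1
  simpa using h1


/-- image of `y` -/
noncomputable def hy (p q : K[X]) : H K :=
  (hz K ^ 2 + aeval (hx K) q) * (aeval (hx K) p)⁻¹

section monic

variable {p q : K[X]}

theorem aeval_hx_ne {r : K[X]} (hr : r ≠ 0) : aeval (hx K) r ≠ 0 :=
  (lead_aeval r).ne_zero (leadingCoeff_ne_zero.2 hr)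

theorem h_rel (hp : p.Monic) : aeval (hx K) p * hy p q = hz K ^ 2 + aeval (hx K) q := by
  unfold hy
  rw [mul_comm, mul_assoc, inv_mul_cancel₀ (aeval_hx_ne hp.ne_zero), mul_one]

/-- the embedding -/
noncomputable def emb (hp : p.Monic) : S p q →ₐ[K] H K :=
  lift p q (hx K) (hy p q) (hz K) (h_rel hp)

theorem lead_hy (hp : p.Monic) : Lead (hy p q) (g (-2) p.natDegree) 1 := by
  have h1 : Lead (hz K ^ 2) (g (-2) 0) 1 := by
    have := (lead_hz (K := K)).pow 2
    rw [g_nsmul, one_pow] at this
    exact this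
  have h2 : Lead (aeval (hx K) q) (g (-2) 0) 0 :=
    (lead_aeval q).of_lt (g_lt_of_fst (by norm_num))
  have h3 := (lead_aeval p).inv (by rw [hp.leadingCoeff]; exact one_ne_zero)
  have h4 := (h1.add h2).mul h3
  rw [hp.leadingCoeff, g_neg, g_add] at h4
  unfold hy
  convert h4 using 1
  · congr 1
    ring
  · simp

/-- lead of `F(x, y)` -/
theorem lead_ev (hp : p.Monic) {F : K[X][X]} (hF : F ≠ 0) :
    Lead (emb (q := q) hp (ev p q F))
      (g (-2 * F.natDegree) (p.natDegree * F.natDegree - F.leadingCoeff.natDegree))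
      F.leadingCoeff.leadingCoeff := by
  have h0 : emb (q := q) hp (ev p q F) =
      ∑ k ∈ Finset.range (F.natDegree + 1), aeval (hx K) (F.coeff k) * hy p q ^ k := by
    have : ev p q F = ∑ k ∈ Finset.range (F.natDegree + 1),
        aeval (x p q) (F.coeff k) * y p q ^ k := by
      unfold ev
      rw [coe_eval₂RingHom, eval₂_eq_sum_range]
      rfl
    rw [this, map_sum]
    refine Finset.sum_congr rfl fun k _ => ?_
    rw [map_mul, map_pow, ← aeval_algHom_apply]
    simp only [emb, lift_x, lift_y]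
  rw [h0]
  have h1 : Lead (∑ k ∈ Finset.range (F.natDegree + 1), aeval (hx K) (F.coeff k) * hy p q ^ k)
      (g (-2 * F.natDegree) (p.natDegree * F.natDegree - F.leadingCoeff.natDegree))
      (∑ k ∈ Finset.range (F.natDegree + 1),
        if k = F.natDegree then F.leadingCoeff.leadingCoeff else 0) := by
    apply Lead.sum
    intro k hk
    have h2 : Lead (aeval (hx K) (F.coeff k) * hy p q ^ k)
        (g (-2 * k) (p.natDegree * k - (F.coeff k).natDegree)) (F.coeff k).leadingCoeff := by
      have h3 := (lead_aeval (F.coeff k)).mul ((lead_hy (q := q) hp).pow k)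
      rw [g_nsmul, g_add, one_pow, mul_one] at h3
      convert h3 using 1
      congr 1 <;> ring
    by_cases hkn : k = F.natDegree
    · rw [if_pos hkn]
      subst hkn
      exact h2
    · rw [if_neg hkn]
      apply h2.of_lt
      apply g_lt_of_fst
      have := Finset.mem_range.1 hk
      omega
  rw [Finset.sum_ite_eq'] at h1
  simpa using h1

/-- lead of `F(x, y) + G(x, y) z` -/
theorem lead_normal (hp : p.Monic) (F G : K[X][X]) (h : F ≠ 0 ∨ G ≠ 0) :
    ∃ (j m : ℤ) (c : K), c ≠ 0 ∧ Lead (emb (q := q) hp (ev p q F + ev p q G * z p q)) (g (-j) (-m)) c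
      ∧ 0 ≤ j ∧ (∀ s : ℤ, j = 2 * s → -(p.natDegree * s) ≤ m) ∧
      (∀ s : ℤ, j = 2 * s + 1 → -(p.natDegree * s) ≤ m) ∧
      (j = 0 → G = 0 ∧ F.natDegree = 0) := by
  rw [map_add, map_mul]
  have hzz : emb (q := q) hp (z p q) = hz K := by simp [emb]
  rw [hzz]
  have hF : F ≠ 0 → Lead (emb (q := q) hp (ev p q F))
      (g (-2 * F.natDegree) (p.natDegree * F.natDegree - F.leadingCoeff.natDegree))
      F.leadingCoeff.leadingCoeff := fun h => lead_ev hp h
  have hG : G ≠ 0 → Lead (emb (q := q) hp (ev p q G) * hz K)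
      (g (-2 * G.natDegree - 1) (p.natDegree * G.natDegree - G.leadingCoeff.natDegree))
      G.leadingCoeff.leadingCoeff := by
    intro h
    have h3 := (lead_ev (q := q) hp h).mul lead_hz
    rw [g_add, mul_one] at h3
    convert h3 using 1
    congr 1
    ring
  have cF : F ≠ 0 → F.leadingCoeff.leadingCoeff ≠ 0 := fun h =>
    leadingCoeff_ne_zero.2 (leadingCoeff_ne_zero.2 h)
  have cG : G ≠ 0 → G.leadingCoeff.leadingCoeff ≠ 0 := fun h =>
    leadingCoeff_ne_zero.2 (leadingCoeff_ne_zero.2 h)
  -- which term dominates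
  by_cases hcase : F ≠ 0 ∧ (G = 0 ∨ G.natDegree < F.natDegree)
  · obtain ⟨hF0, hGF⟩ := hcase
    have hG' : Lead (emb (q := q) hp (ev p q G) * hz K)
      (g (-2 * F.natDegree) (p.natDegree * F.natDegree - F.leadingCoeff.natDegree)) 0 := by
      by_cases hG0 : G = 0
      · rw [hG0, map_zero, map_zero, zero_mul]
        exact Lead.zero _
      · apply (hG hG0).of_lt
        apply g_lt_of_fst
        have := hGF.resolve_left hG0
        omega
    refine ⟨2 * F.natDegree, F.leadingCoeff.natDegree - p.natDegree * F.natDegree, _, cF hF0,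
      ?_, by positivity, ?_, ?_, ?_⟩
    · have h1 := (hF hF0).add hG'
      rw [add_zero] at h1
      convert h1 using 1
      congr 1 <;> ring
    · intro s hs
      have : s = F.natDegree := by omega
      rw [this]
      have : (0 : ℤ) ≤ F.leadingCoeff.natDegree := by positivity
      linarith
    · intro s hs
      omega
    · intro h0
      have hF00 : F.natDegree = 0 := by omega
      refine ⟨?_, hF00⟩
      rcases hGF with h1 | h1
      · exact h1
      · omega
  · have hG0 : G ≠ 0 := by
      intro hG0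
      rcases h with h | h
      · exact hcase ⟨h, Or.inl hG0⟩
      · exact h hG0
    have hF' : Lead (emb (q := q) hp (ev p q F))
      (g (-2 * G.natDegree - 1) (p.natDegree * G.natDegree - G.leadingCoeff.natDegree)) 0 := by
      by_cases hF0 : F = 0
      · rw [hF0, map_zero, map_zero]
        exact Lead.zero _
      · apply (hF hF0).of_lt
        apply g_lt_of_fst
        have : ¬ G.natDegree < F.natDegree := fun h1 => hcase ⟨hF0, Or.inr h1⟩
        omega
    refine ⟨2 * G.natDegree + 1, G.leadingCoeff.natDegree - p.natDegree * G.natDegree, _, cG hG0,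
      ?_, by positivity, ?_, ?_, ?_⟩
    · have h1 := hF'.add (hG hG0)
      rw [zero_add] at h1
      convert h1 using 1
      congr 1 <;> ring
    · intro s hs
      omega
    · intro s hs
      have : s = G.natDegree := by omega
      rw [this]
      have : (0 : ℤ) ≤ G.leadingCoeff.natDegree := by positivity
      linarith
    · intro h0
      omega

theorem normal_unique (hp : p.Monic) {F G : K[X][X]} (h : ev p q F + ev p q G * z p q = 0) :
    F = 0 ∧ G = 0 := by
  by_contra hne
  have hne' : F ≠ 0 ∨ G ≠ 0 := by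
    by_contra h1
    push Not at h1
    exact hne h1
  obtain ⟨j, m, c, hc, hl, -⟩ := lead_normal (q := q) hp F G hne'
  rw [h, map_zero] at hl
  exact hl.ne_zero hc rfl

theorem emb_injective (hp : p.Monic) : Function.Injective (emb (q := q) hp) := by
  rw [injective_iff_map_eq_zero]
  intro s hs
  obtain ⟨F, G, rfl⟩ := normal_form p q s
  by_contra hne
  have hne' : F ≠ 0 ∨ G ≠ 0 := by
    by_contra h1
    push Not at h1
    apply hne
    rw [h1.1, h1.2, map_zero, zero_mul, add_zero]
  obtain ⟨j, m, c, hc, hl, -⟩ := lead_normal (q := q) hp F G hne'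
  rw [hs] at hl
  exact hl.ne_zero hc rfl

theorem isDomain (hp : p.Monic) : IsDomain (S p q) :=
  (emb_injective (q := q) hp).isDomain (emb hp).toRingHom

end monic


/-! ### derivations of the Hahn field -/

/-- minus the second coordinate -/
noncomputable def χ1 : Γ →+ K where
  toFun := fun γ => -(((ofLex γ).2 : ℤ) : K)
  map_zero' := by simp
  map_add' := by
    intro a b
    simp only [ofLex_add, Prod.snd_add, Int.cast_add]
    ring

/-- minus the first coordinate -/
noncomputable def χ2 : Γ →+ K where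
  toFun := fun γ => -(((ofLex γ).1 : ℤ) : K)
  map_zero' := by simp
  map_add' := by
    intro a b
    simp only [ofLex_add, Prod.fst_add, Int.cast_add]
    ring

theorem χ1_g (a b : ℤ) : (χ1 : Γ →+ K) (g a b) = -(b : K) := rfl
theorem χ2_g (a b : ℤ) : (χ2 : Γ →+ K) (g a b) = -(a : K) := rfl

/-- Euler derivations of the Hahn field -/
noncomputable def EE (χ : Γ →+ K) : Derivation K (H K) (H K) :=
  Derivation.mk' { toFun := E χ
                   map_add' := E_add χ
                   map_smul' := by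
                    intro r f
                    ext γ
                    rw [E_coeff, RingHom.id_apply, HahnSeries.coeff_smul, HahnSeries.coeff_smul,
                      E_coeff, smul_eq_mul, smul_eq_mul]
                    ring } (by
    intro a b
    change E χ (a * b) = a • E χ b + b • E χ a
    rw [E_mul, smul_eq_mul, smul_eq_mul]
    ring)

theorem EE_apply (χ : Γ →+ K) (f : H K) : EE χ f = E χ f := rfl

/-- the derivation `P E₁ + Q E₂` -/
noncomputable def DPQ (P Q : H K) : Derivation K (H K) (H K) :=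
  P • EE χ1 + Q • EE χ2

theorem DPQ_apply (P Q f : H K) : DPQ P Q f = P * E χ1 f + Q * E χ2 f := rfl

theorem lead_step {P Q f : H K} {d γ : Γ} {c1 c2 c : K} (hP : Lead P d c1) (hQ : Lead Q d c2)
    (hf : Lead f γ c) :
    Lead (DPQ P Q f) (d + γ) ((c1 * χ1 γ + c2 * χ2 γ) * c) := by
  have h1 := (hP.mul (hf.E χ1)).add (hQ.mul (hf.E χ2))
  rw [DPQ_apply]
  convert h1 using 1
  ring

theorem lead_iter {P Q f : H K} {d γ : Γ} {c1 c2 c : K} (hP : Lead P d c1) (hQ : Lead Q d c2)
    (hf : Lead f γ c) (n : ℕ) :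
    Lead ((⇑(DPQ P Q))^[n] f) (n • d + γ)
      ((∏ k ∈ Finset.range n, ((c1 * χ1 γ + c2 * χ2 γ) + k * (c1 * χ1 d + c2 * χ2 d))) * c) := by
  induction n with
  | zero => simpa using hf
  | succ n ih =>
    rw [Function.iterate_succ_apply']
    have h1 := lead_step hP hQ ih
    convert h1 using 1
    · rw [succ_nsmul]
      abel
    · rw [Finset.prod_range_succ, map_add, map_add, map_nsmul, map_nsmul, nsmul_eq_mul,
        nsmul_eq_mul]
      ring

theorem exists_lead_pair (P Q : H K) (h : P ≠ 0 ∨ Q ≠ 0) :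
    ∃ (d : Γ) (c1 c2 : K), (c1 ≠ 0 ∨ c2 ≠ 0) ∧ Lead P d c1 ∧ Lead Q d c2 := by
  by_cases hP : P = 0
  · have hQ : Q ≠ 0 := by
      rcases h with h | h
      · exact absurd hP h
      · exact h
    obtain ⟨h1, h2⟩ := lead_order hQ
    exact ⟨_, 0, _, Or.inr h2, by rw [hP]; exact Lead.zero _, h1⟩
  · obtain ⟨h1, h2⟩ := lead_order hP
    by_cases hQ : Q = 0
    · exact ⟨_, _, 0, Or.inl h2, h1, by rw [hQ]; exact Lead.zero _⟩
    · obtain ⟨h3, h4⟩ := lead_order hQ
      rcases lt_trichotomy P.order Q.order with h5 | h5 | h5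
      · exact ⟨_, _, 0, Or.inl h2, h1, h3.of_lt h5⟩
      · rw [← h5] at h3
        exact ⟨_, _, _, Or.inl h2, h1, h3⟩
      · exact ⟨_, 0, _, Or.inr h4, h1.of_lt h5, h3⟩

section deriv

variable {p q : K[X]} (hp : p.Monic) (D : Derivation K (S p q) (S p q))

/-- extension of `D` to the Hahn field -/
noncomputable def DH : Derivation K (H K) (H K) :=
  DPQ (emb hp (D (x p q)) * (hx K)⁻¹) (emb hp (D (z p q)) * (hz K)⁻¹)

theorem E1_hx : E (χ1 : Γ →+ K) (hx K) = hx K := by
  unfold hx
  rw [E_single, χ1_g]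
  simp

theorem E2_hx : E (χ2 : Γ →+ K) (hx K) = 0 := by
  unfold hx
  rw [E_single, χ2_g]
  simp

theorem E1_hz : E (χ1 : Γ →+ K) (hz K) = 0 := by
  unfold hz
  rw [E_single, χ1_g]
  simp

theorem E2_hz : E (χ2 : Γ →+ K) (hz K) = hz K := by
  unfold hz
  rw [E_single, χ2_g]
  simp

theorem emb_x : emb hp (x p q) = hx K := by simp [emb]
theorem emb_y : emb hp (y p q) = hy p q := by simp [emb]
theorem emb_z : emb hp (z p q) = hz K := by simp [emb]

theorem DH_hx : DH hp D (hx K) = emb hp (D (x p q)) := by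
  change (emb hp (D (x p q)) * (hx K)⁻¹) * E χ1 (hx K) +
    (emb hp (D (z p q)) * (hz K)⁻¹) * E χ2 (hx K) = _
  rw [E1_hx, E2_hx, mul_zero, add_zero, mul_assoc, inv_mul_cancel₀ hx_ne, mul_one]

theorem DH_hz : DH hp D (hz K) = emb hp (D (z p q)) := by
  change (emb hp (D (x p q)) * (hx K)⁻¹) * E χ1 (hz K) +
    (emb hp (D (z p q)) * (hz K)⁻¹) * E χ2 (hz K) = _
  rw [E1_hz, E2_hz, mul_zero, zero_add, mul_assoc, inv_mul_cancel₀ hz_ne, mul_one]

/-- the differentiated relation -/
theorem D_rel : aeval (x p q) p * D (y p q) + y p q * (aeval (x p q) (derivative p) * D (x p q)) =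
    2 * z p q * D (z p q) + aeval (x p q) (derivative q) * D (x p q) := by
  have h := congrArg D (rel_eq p q)
  rw [Derivation.leibniz, map_add, Derivation.leibniz_pow, Derivation.map_aeval,
    Derivation.map_aeval] at h
  simp only [smul_eq_mul, nsmul_eq_mul] at h
  push_cast at h
  linear_combination h

theorem DH_emb (s : S p q) : DH hp D (emb hp s) = emb hp (D s) := by
  let T : Subalgebra K (S p q) :=
    { carrier := {s | DH hp D (emb hp s) = emb hp (D s)}
      mul_mem' := by
        intro a b ha hb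
        change DH hp D (emb hp a) = emb hp (D a) at ha
        change DH hp D (emb hp b) = emb hp (D b) at hb
        change DH hp D (emb hp (a * b)) = emb hp (D (a * b))
        rw [map_mul, Derivation.leibniz, Derivation.leibniz, ha, hb]
        simp only [smul_eq_mul, map_add, map_mul]
      add_mem' := by
        intro a b ha hb
        change DH hp D (emb hp a) = emb hp (D a) at ha
        change DH hp D (emb hp b) = emb hp (D b) at hb
        change DH hp D (emb hp (a + b)) = emb hp (D (a + b))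
        rw [map_add, map_add, map_add, map_add, ha, hb]
      algebraMap_mem' := by
        intro r
        change DH hp D (emb hp (algebraMap K _ r)) = emb hp (D (algebraMap K _ r))
        rw [AlgHom.commutes, Derivation.map_algebraMap, Derivation.map_algebraMap, map_zero] }
  have hT : T = ⊤ := by
    apply sub_eq_top
    · change DH hp D (emb hp (x p q)) = emb hp (D (x p q))
      rw [emb_x, DH_hx]
    · change DH hp D (emb hp (y p q)) = emb hp (D (y p q))
      rw [emb_y]
      have h1 := congrArg (DH hp D) (h_rel (q := q) hp)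
      rw [Derivation.leibniz, map_add, Derivation.leibniz_pow, Derivation.map_aeval,
        Derivation.map_aeval, DH_hx, DH_hz] at h1
      simp only [smul_eq_mul, nsmul_eq_mul] at h1
      push_cast at h1
      have h2 := congrArg (emb hp) (D_rel D)
      simp only [map_add, map_mul, ← aeval_algHom_apply, emb_x, emb_y, emb_z, map_ofNat] at h2
      have h3 : aeval (hx K) p * (DH hp D (hy p q) - emb hp (D (y p q))) = 0 := by
        linear_combination h1 - h2
      rcases mul_eq_zero.1 h3 with h4 | h4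
      · exact absurd h4 (aeval_hx_ne hp.ne_zero)
      · linear_combination h4
    · change DH hp D (emb hp (z p q)) = emb hp (D (z p q))
      rw [emb_z, DH_hz]
  have : s ∈ T := by rw [hT]; trivial
  exact this

theorem DH_iter (s : S p q) (n : ℕ) : (⇑(DH hp D))^[n] (emb hp s) = emb hp ((⇑D)^[n] s) := by
  induction n generalizing s with
  | zero => rfl
  | succ n ih => rw [Function.iterate_succ_apply, DH_emb, ih, Function.iterate_succ_apply]

end deriv


/-! ### the numerical argument -/

theorem numeric (N k1 k2 k3 a b : ℤ) (hN : 2 ≤ N) (h1 : 0 ≤ k1) (h2 : 0 ≤ k2) (h3 : 0 ≤ k3)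
    (hk : N * k1 + k3 = 2 * k2) (hab : k1 * a + k2 * b = -1) (hk1 : k1 ≠ 0) (hb : 0 ≤ b)
    (hP : ∀ s : ℤ, b = 2 * s + 1 → -(N * s) ≤ a + 1)
    (hQ : ∀ s : ℤ, b + 1 = 2 * s + 1 → -(N * s) ≤ a) : False := by
  have hk1' : 1 ≤ k1 := by omega
  rcases Int.even_or_odd' b with ⟨s, hs | hs⟩
  · have h4 := hQ s (by omega)
    have hs0 : 0 ≤ s := by omega
    subst hs
    have h5 : k1 * (-(N * s)) ≤ k1 * a := mul_le_mul_of_nonneg_left h4 h1
    have h6 : k2 * (2 * s) = (N * k1 + k3) * s := by rw [hk]; ring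
    have h7 : 0 ≤ k3 * s := mul_nonneg h3 hs0
    nlinarith
  · have h4 := hP s hs
    have hs0 : 0 ≤ s := by omega
    subst hs
    have h5 : k1 * (-(N * s) - 1) ≤ k1 * a := mul_le_mul_of_nonneg_left (by linarith) h1
    have h6 : k2 * (2 * s) = (N * k1 + k3) * s := by rw [hk]; ring
    have h7 : 0 ≤ k3 * s := mul_nonneg h3 hs0
    have h8 : k1 ≤ k2 := by nlinarith
    nlinarith

section classify

variable [CharZero K] {p q : K[X]} (hp : p.Monic) (D : Derivation K (S p q) (S p q))

/-- local nilpotency gives roots of the leading characters -/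
theorem exists_root {d γ : Γ} {c1 c2 c : K}
    (hP : Lead (emb hp (D (x p q)) * (hx K)⁻¹) d c1)
    (hQ : Lead (emb hp (D (z p q)) * (hz K)⁻¹) d c2) {s : S p q} (hs : Lead (emb hp s) γ c)
    (hc : c ≠ 0) (hD : ∃ n, (⇑D)^[n] s = 0) :
    ∃ k : ℕ, (c1 * χ1 γ + c2 * χ2 γ) + k * (c1 * χ1 d + c2 * χ2 d) = 0 := by
  obtain ⟨n, hn⟩ := hD
  have h1 := lead_iter hP hQ hs n
  have h2 : (⇑(DPQ (emb hp (D (x p q)) * (hx K)⁻¹) (emb hp (D (z p q)) * (hz K)⁻¹)))^[n]
      (emb hp s) = 0 := by
    have := DH_iter hp D s n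
    unfold DH at this
    rw [this, hn, map_zero]
  rw [h2] at h1
  have h3 := h1.2
  rw [HahnSeries.coeff_zero] at h3
  have h4 := (mul_eq_zero.1 h3.symm).resolve_right hc
  obtain ⟨k, _, hk⟩ := Finset.prod_eq_zero_iff.1 h4
  exact ⟨k, hk⟩

theorem exists_cond {s : S p q} (hs : s ≠ 0) :
    ∃ (j m : ℤ) (c : K), c ≠ 0 ∧ Lead (emb hp s) (g (-j) (-m)) c
      ∧ 0 ≤ j ∧ (∀ s : ℤ, j = 2 * s → -(p.natDegree * s) ≤ m) ∧
      (∀ s : ℤ, j = 2 * s + 1 → -(p.natDegree * s) ≤ m) ∧
      (j = 0 → ∃ h0 : K[X], s = aeval (x p q) h0) := by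
  obtain ⟨F, G, rfl⟩ := normal_form p q s
  have hne : F ≠ 0 ∨ G ≠ 0 := by
    by_contra h
    push Not at h
    apply hs
    rw [h.1, h.2, map_zero, zero_mul, add_zero]
  obtain ⟨j, m, c, hc, hl, hj, h1, h2, h3⟩ := lead_normal (q := q) hp F G hne
  refine ⟨j, m, c, hc, hl, hj, h1, h2, fun hj0 => ?_⟩
  obtain ⟨hG, hF⟩ := h3 hj0
  refine ⟨F.coeff 0, ?_⟩
  rw [hG, map_zero, zero_mul, add_zero]
  conv_lhs => rw [Polynomial.eq_C_of_natDegree_eq_zero hF]
  rw [ev_C]

include hp in
theorem ddz_of (h0 : K[X]) (hDx : D (x p q) = 0) (hDz : D (z p q) = aeval (x p q) h0) :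
    ∃ h : K[X], D (z p q) = aeval (x p q) (p * h) ∧
      D (y p q) = 2 * z p q * aeval (x p q) h := by
  haveI := isDomain (q := q) hp
  have h1 := D_rel D
  rw [hDx, hDz, mul_zero, mul_zero, mul_zero, add_zero, add_zero] at h1
  obtain ⟨F, G, hFG⟩ := normal_form p q (D (y p q))
  have h2 : ev p q (C p * F) + ev p q (C p * G - C (2 * h0)) * z p q = 0 := by
    rw [hFG] at h1
    rw [map_mul, map_sub, map_mul, ev_C, ev_C, map_mul, map_ofNat]
    linear_combination h1
  obtain ⟨h3, h4⟩ := normal_unique hp h2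
  have hp0 : p ≠ 0 := hp.ne_zero
  have hCp : (C p : K[X][X]) ≠ 0 := C_ne_zero.2 hp0
  have hF : F = 0 := (mul_eq_zero.1 h3).resolve_left hCp
  have hG : C p * G = C (2 * h0) := sub_eq_zero.1 h4
  have hG0 : G = C (G.coeff 0) := by
    apply Polynomial.eq_C_of_natDegree_eq_zero
    have h5 := congrArg natDegree hG
    rw [natDegree_C] at h5
    by_cases hGz : G = 0
    · rw [hGz, natDegree_zero]
    · rw [natDegree_mul hCp hGz, natDegree_C] at h5
      omega
  have h6 : p * G.coeff 0 = 2 * h0 := by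
    rw [hG0, ← C_mul] at hG
    exact C_injective hG
  have h2ne : (2 : K) ≠ 0 := two_ne_zero
  refine ⟨C (2⁻¹) * G.coeff 0, ?_, ?_⟩
  · rw [hDz]
    congr 1
    have h7 : (C (2⁻¹ : K) : K[X]) * 2 = 1 := by
      have : (2 : K[X]) = C 2 := rfl
      rw [this, ← C_mul, inv_mul_cancel₀ h2ne, C_1]
    calc h0 = (C (2⁻¹ : K) * 2) * h0 := by rw [h7, one_mul]
      _ = C (2⁻¹) * (2 * h0) := by ring
      _ = p * (C (2⁻¹) * G.coeff 0) := by rw [← h6]; ring
  · rw [hFG, hF, map_zero, zero_add]
    conv_lhs => rw [hG0]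
    rw [ev_C, map_mul, aeval_C]
    have h8 : (2 : S p q) * algebraMap K (S p q) 2⁻¹ = 1 := by
      have : (2 : S p q) = algebraMap K (S p q) 2 := by rw [map_ofNat]
      rw [this, ← map_mul, mul_inv_cancel₀ h2ne, map_one]
    linear_combination (-(aeval (x p q) (G.coeff 0) * z p q)) * h8

include hp in
/-- Classification: if `deg p ≥ 2`, every locally nilpotent derivation of
`K[x,y,z]/(p(x) y - z^2 - q(x))` is of the form `h(x) ∂`, `∂ x = 0`, `∂ z = p`, `∂ y = 2 z`. -/
theorem classify (hdeg : 2 ≤ p.natDegree) (hD : IsLND D) :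
    D (x p q) = 0 ∧ ∃ h : K[X], D (z p q) = aeval (x p q) (p * h) ∧
      D (y p q) = 2 * z p q * aeval (x p q) h := by
  haveI := isDomain (q := q) hp
  by_cases hzero : D (x p q) = 0 ∧ D (z p q) = 0
  · refine ⟨hzero.1, ddz_of hp D 0 hzero.1 (by rw [map_zero]; exact hzero.2)⟩
  have hembne : ∀ s : S p q, s ≠ 0 → emb hp s ≠ 0 := fun s hs h0 =>
    hs (emb_injective hp (by rw [h0, map_zero]))
  set P := emb hp (D (x p q)) * (hx K)⁻¹ with hPdef
  set Q := emb hp (D (z p q)) * (hz K)⁻¹ with hQdef
  have hPQ : P ≠ 0 ∨ Q ≠ 0 := by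
    by_contra h
    push Not at h
    apply hzero
    constructor
    · by_contra h1
      exact (mul_ne_zero (hembne _ h1) (inv_ne_zero hx_ne)) h.1
    · by_contra h1
      exact (mul_ne_zero (hembne _ h1) (inv_ne_zero hz_ne)) h.2
  obtain ⟨d, c1, c2, hc12, hP, hQ⟩ := exists_lead_pair P Q hPQ
  obtain ⟨b', a', rfl⟩ := exists_g d
  obtain ⟨b, rfl⟩ : ∃ b, b' = -b := ⟨-b', by ring⟩
  obtain ⟨a, rfl⟩ : ∃ a, a' = -a := ⟨-a', by ring⟩
  -- roots
  obtain ⟨k1, hk1⟩ := exists_root hp D hP hQ (s := x p q) (γ := g 0 (-1)) (c := 1)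
    (by rw [emb_x]; exact lead_hx) one_ne_zero (hD _)
  obtain ⟨k2, hk2⟩ := exists_root hp D hP hQ (s := z p q) (γ := g (-1) 0) (c := 1)
    (by rw [emb_z]; exact lead_hz) one_ne_zero (hD _)
  obtain ⟨k3, hk3⟩ := exists_root hp D hP hQ (s := y p q) (γ := g (-2) p.natDegree) (c := 1)
    (by rw [emb_y]; exact lead_hy hp) one_ne_zero (hD _)
  rw [χ1_g, χ2_g, χ1_g, χ2_g] at hk1 hk2 hk3
  push_cast at hk1 hk2 hk3
  set e : K := c1 * a + c2 * b with he
  have e1 : c1 = -(k1 * e) := by linear_combination hk1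
  have e2 : c2 = -(k2 * e) := by linear_combination hk2
  have e3 : -(p.natDegree * c1) + 2 * c2 = -(k3 * e) := by linear_combination hk3
  have he0 : e ≠ 0 := by
    intro h0
    rw [h0, mul_zero, neg_zero] at e1 e2
    rcases hc12 with h | h
    · exact h e1
    · exact h e2
  have hk : ((p.natDegree : ℤ) * k1 + k3 = 2 * k2) := by
    have h1 : ((p.natDegree : K) * k1 + k3 - 2 * k2) * e = 0 := by
      rw [e1, e2] at e3
      linear_combination e3
    have h2 := (mul_eq_zero.1 h1).resolve_right he0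
    have h3 : ((p.natDegree * k1 + k3 : ℕ) : K) = ((2 * k2 : ℕ) : K) := by
      push_cast
      linear_combination h2
    have h4 : p.natDegree * k1 + k3 = 2 * k2 := by exact_mod_cast h3
    exact_mod_cast h4
  have hab : (k1 : ℤ) * a + k2 * b = -1 := by
    have h1 : ((k1 : K) * a + k2 * b + 1) * e = 0 := by
      have h2 : e = c1 * a + c2 * b := he
      rw [e1, e2] at h2
      linear_combination h2
    have h2 := (mul_eq_zero.1 h1).resolve_right he0
    have h3 : (((k1 : ℤ) * a + k2 * b : ℤ) : K) = ((-1 : ℤ) : K) := by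
      push_cast
      linear_combination h2
    exact_mod_cast h3
  -- position information
  have hPpos : D (x p q) ≠ 0 → ∃ (j m : ℤ) (c : K), c ≠ 0 ∧ Lead P (g (-j) (1 - m)) c ∧ 0 ≤ j ∧
      (∀ s : ℤ, j = 2 * s + 1 → -(p.natDegree * s) ≤ m) := by
    intro h
    obtain ⟨j, m, c, hc, hl, hj, -, h2, -⟩ := exists_cond hp h
    have h3 := hl.mul ((lead_hx (K := K)).inv one_ne_zero)
    rw [inv_one, mul_one, g_neg, g_add] at h3
    refine ⟨j, m, c, hc, ?_, hj, h2⟩
    convert h3 using 1
    congr 1 <;> ring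
  have hQpos : D (z p q) ≠ 0 → ∃ (j m : ℤ) (c : K), c ≠ 0 ∧ Lead Q (g (1 - j) (-m)) c ∧ 0 ≤ j ∧
      (∀ s : ℤ, j = 2 * s + 1 → -(p.natDegree * s) ≤ m) ∧
      (j = 0 → ∃ h0 : K[X], D (z p q) = aeval (x p q) h0) := by
    intro h
    obtain ⟨j, m, c, hc, hl, hj, -, h2, h4⟩ := exists_cond hp h
    have h3 := hl.mul ((lead_hz (K := K)).inv one_ne_zero)
    rw [inv_one, mul_one, g_neg, g_add] at h3
    refine ⟨j, m, c, hc, ?_, hj, h2, h4⟩
    convert h3 using 1
    congr 1 <;> ring
  have hc1D : c1 ≠ 0 → D (x p q) ≠ 0 := by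
    intro h h0
    apply h
    rw [← hP.2, hPdef, h0, map_zero, zero_mul, HahnSeries.coeff_zero]
  have hc2D : c2 ≠ 0 → D (z p q) ≠ 0 := by
    intro h h0
    apply h
    rw [← hQ.2, hQdef, h0, map_zero, zero_mul, HahnSeries.coeff_zero]
  have hk1z : (k1 : ℤ) = 0 := by
    by_contra hne
    have hk1' : k1 ≠ 0 := by exact_mod_cast hne
    have hk2' : k2 ≠ 0 := by
      intro h0
      rw [h0] at hk
      have : 1 ≤ k1 := Nat.one_le_iff_ne_zero.2 hk1'
      push_cast at hk
      have h5 : (2 : ℤ) * 1 ≤ p.natDegree * k1 :=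
        mul_le_mul (by exact_mod_cast hdeg) (by exact_mod_cast this) (by norm_num) (by positivity)
      omega
    have hc1 : c1 ≠ 0 := by
      rw [e1]
      exact neg_ne_zero.2 (mul_ne_zero (by exact_mod_cast hk1') he0)
    have hc2 : c2 ≠ 0 := by
      rw [e2]
      exact neg_ne_zero.2 (mul_ne_zero (by exact_mod_cast hk2') he0)
    obtain ⟨j, m, c, hc, hl, hj, h2⟩ := hPpos (hc1D hc1)
    obtain ⟨j', m', c', hc', hl', hj', h2', -⟩ := hQpos (hc2D hc2)
    obtain ⟨i1, i2⟩ := g_inj (hl.unique hP hc hc1)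
    obtain ⟨i3, i4⟩ := g_inj (hl'.unique hQ hc' hc2)
    refine numeric p.natDegree k1 k2 k3 a b (by exact_mod_cast hdeg) (by positivity)
      (by positivity) (by positivity) hk hab hne (by omega) ?_ ?_
    · intro s hs
      have := h2 s (by omega)
      omega
    · intro s hs
      have := h2' s (by omega)
      omega
  have hc1 : c1 = 0 := by
    rw [e1]
    have : (k1 : K) = 0 := by exact_mod_cast hk1z
    rw [this, zero_mul, neg_zero]
  have hc2 : c2 ≠ 0 := hc12.resolve_left (fun h => h hc1)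
  rw [hk1z, zero_mul, zero_add] at hab
  have hb : b = -1 := by
    have h1 : IsUnit b := IsUnit.of_mul_eq_one (-(k2 : ℤ)) (by linear_combination -hab)
    rcases Int.isUnit_iff.1 h1 with h | h
    · rw [h] at hab
      omega
    · exact h
  have hDx : D (x p q) = 0 := by
    by_contra h
    obtain ⟨j, m, c, hc, hl, hj, -⟩ := hPpos h
    apply hc
    rw [← hl.2]
    apply hP.1
    apply g_lt_of_fst
    omega
  obtain ⟨j, m, c, hc, hl, hj, -, h4⟩ := hQpos (hc2D hc2)
  obtain ⟨i1, i2⟩ := g_inj (hl.unique hQ hc hc2)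
  obtain ⟨h0, hh0⟩ := h4 (by omega)
  exact ⟨hDx, ddz_of hp D h0 hDx hh0⟩

end classify

end Pool.Agent.R864.Surf
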