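import Mathlib
import Pool.Agent.R864.Surf

/-!
The basic derivation of `p(x) y = z^2 + q(x)`, automorphisms of the cylinder, singular points.
-/

set_option autoImplicit false
set_option linter.unusedSectionVars false

open Polynomial

namespace Pool.Agent.R864.Surf

open Cyl

universe u v

variable {K : Type u} [Field K]

section del

variable (p q : K[X])

theorem aeval_C (r : K[X]) : aeval (C (x p q) : (S p q)[X]) r = C (aeval (x p q) r) := by
  have := aeval_algHom_apply (CAlgHom : S p q →ₐ[K] (S p q)[X]) (x p q) r
  simpa using this

/-- exponential of the basic derivation, `z ↦ z + v p`, `y ↦ y + 2 z v + p v²` -/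
noncomputable def expv (v : (S p q)[X]) : S p q →ₐ[K] (S p q)[X] :=
  lift p q (C (x p q)) (C (y p q) + 2 * C (z p q) * v + C (aeval (x p q) p) * v ^ 2)
    (C (z p q) + C (aeval (x p q) p) * v) (by
      rw [aeval_C, aeval_C]
      have h := congrArg (C : S p q → (S p q)[X]) (rel_eq p q)
      rw [C_mul, C_add, C_pow] at h
      linear_combination h)

@[simp] theorem expv_x (v : (S p q)[X]) : expv p q v (x p q) = C (x p q) := by simp [expv]
@[simp] theorem expv_y (v : (S p q)[X]) : expv p q v (y p q) =
    C (y p q) + 2 * C (z p q) * v + C (aeval (x p q) p) * v ^ 2 := by simp [expv]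
@[simp] theorem expv_z (v : (S p q)[X]) : expv p q v (z p q) =
    C (z p q) + C (aeval (x p q) p) * v := by simp [expv]

theorem expv_coeff_zero (s : S p q) : (expv p q X s).coeff 0 = s := by
  have h : ((Polynomial.aeval (R := S p q) (0 : S p q)).restrictScalars K).comp (expv p q X)
      = AlgHom.id K (S p q) := by
    apply hom_ext
    · simp
    · simp
    · simp
  have h1 := DFunLike.congr_fun h s
  rw [coeff_zero_eq_eval_zero]
  simpa [Polynomial.aeval_def] using h1

/-- the basic derivation `∂ x = 0, ∂ z = p(x), ∂ y = 2 z` -/
noncomputable def del : Derivation K (S p q) (S p q) :=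
  Derivation.mk' { toFun := fun s => (expv p q X s).coeff 1
                   map_add' := by
                    intro a b
                    rw [map_add, coeff_add]
                   map_smul' := by
                    intro r a
                    rw [map_smul, coeff_smul, RingHom.id_apply] } (by
    intro a b
    change (expv p q X (a * b)).coeff 1 = a • (expv p q X b).coeff 1 + b • (expv p q X a).coeff 1
    rw [map_mul, mul_coeff_one, expv_coeff_zero, expv_coeff_zero, smul_eq_mul, smul_eq_mul]
    ring)

theorem del_apply (s : S p q) : del p q s = (expv p q X s).coeff 1 := rfl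

@[simp] theorem del_x : del p q (x p q) = 0 := by
  rw [del_apply, expv_x, coeff_C]
  simp

@[simp] theorem del_y : del p q (y p q) = 2 * z p q := by
  rw [del_apply, expv_y]
  have : (2 : (S p q)[X]) = C 2 := rfl
  rw [this, ← C_mul]
  simp [coeff_C, coeff_X_pow]

@[simp] theorem del_z : del p q (z p q) = aeval (x p q) p := by
  rw [del_apply, expv_z]
  simp [coeff_C]

theorem del_isLND : IsLND (del p q) := by
  apply isLND_of_nilSub
  have hx : x p q ∈ nilSub (del p q) := mem_nilSub_of (by rw [del_x]; exact zero_mem _)
  have hxp : ∀ r : K[X], aeval (x p q) r ∈ nilSub (del p q) := by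
    intro r
    have := (aeval (⟨x p q, hx⟩ : nilSub (del p q)) r).2
    rw [← Subalgebra.aeval_coe] at this
    exact this
  have hz : z p q ∈ nilSub (del p q) := mem_nilSub_of (by rw [del_z]; exact hxp p)
  apply sub_eq_top _ hx _ hz
  apply mem_nilSub_of
  rw [del_y, two_mul]
  exact add_mem hz hz

theorem del_ne_zero (hp : p.Monic) : del p q ≠ 0 := by
  intro h
  have h1 := del_z p q
  rw [h, Derivation.zero_apply] at h1
  have h2 := congrArg (emb (q := q) hp) h1
  rw [map_zero, ← aeval_algHom_apply, emb_x] at h2
  exact aeval_hx_ne hp.ne_zero h2.symm

end del

section image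

variable [CharZero K] {p q : K[X]}

/-- every LND is `h ∂` -/
theorem lnd_eq (hp : p.Monic) (hdeg : 2 ≤ p.natDegree) (D : Derivation K (S p q) (S p q))
    (hD : IsLND D) : ∃ h : K[X], ∀ s, D s = aeval (x p q) h * del p q s := by
  obtain ⟨h1, h, h2, h3⟩ := classify hp D hdeg hD
  refine ⟨h, ?_⟩
  have : D = aeval (x p q) h • del p q := by
    have hT : ∀ s : S p q, D s = (aeval (x p q) h • del p q) s := by
      let T : Subalgebra K (S p q) :=
        { carrier := {s | D s = (aeval (x p q) h • del p q) s}
          mul_mem' := by
            intro a b ha hb
            change D a = (aeval (x p q) h • del p q) a at ha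
            change D b = (aeval (x p q) h • del p q) b at hb
            change D (a * b) = (aeval (x p q) h • del p q) (a * b)
            rw [Derivation.leibniz, Derivation.leibniz, ha, hb]
          add_mem' := by
            intro a b ha hb
            change D a = (aeval (x p q) h • del p q) a at ha
            change D b = (aeval (x p q) h • del p q) b at hb
            change D (a + b) = (aeval (x p q) h • del p q) (a + b)
            rw [map_add, map_add, ha, hb]
          algebraMap_mem' := by
            intro r
            change D (algebraMap K _ r) = (aeval (x p q) h • del p q) (algebraMap K _ r)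
            rw [Derivation.map_algebraMap, Derivation.map_algebraMap] }
      have hT : T = ⊤ := by
        apply sub_eq_top
        · change D (x p q) = aeval (x p q) h * del p q (x p q)
          rw [h1, del_x, mul_zero]
        · change D (y p q) = aeval (x p q) h * del p q (y p q)
          rw [h3, del_y]
          ring
        · change D (z p q) = aeval (x p q) h * del p q (z p q)
          rw [h2, del_z, map_mul]
          ring
      intro s
      have : s ∈ T := by rw [hT]; trivial
      exact this
    ext s
    exact hT s
  intro s
  rw [this]
  rfl

theorem del_mem (s : S p q) : del p q s ∈ Ideal.span ({aeval (x p q) p, z p q} : Set (S p q)) := by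
  let J := Ideal.span ({aeval (x p q) p, z p q} : Set (S p q))
  let T : Subalgebra K (S p q) :=
    { carrier := {s | del p q s ∈ J}
      mul_mem' := by
        intro a b ha hb
        change del p q a ∈ J at ha
        change del p q b ∈ J at hb
        change del p q (a * b) ∈ J
        rw [Derivation.leibniz]
        exact J.add_mem (J.mul_mem_left _ hb) (J.mul_mem_left _ ha)
      add_mem' := by
        intro a b ha hb
        change del p q a ∈ J at ha
        change del p q b ∈ J at hb
        change del p q (a + b) ∈ J
        rw [map_add]
        exact J.add_mem ha hb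
      algebraMap_mem' := by
        intro r
        change del p q (algebraMap K _ r) ∈ J
        rw [Derivation.map_algebraMap]
        exact J.zero_mem }
  have hT : T = ⊤ := by
    apply sub_eq_top
    · change del p q (x p q) ∈ J
      rw [del_x]
      exact J.zero_mem
    · change del p q (y p q) ∈ J
      rw [del_y]
      exact J.mul_mem_left _ (Ideal.subset_span (by simp))
    · change del p q (z p q) ∈ J
      rw [del_z]
      exact Ideal.subset_span (by simp)
  have : s ∈ T := by rw [hT]; trivial
  exact this

theorem imageIdeal_le (hp : p.Monic) (hdeg : 2 ≤ p.natDegree) :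
    imageIdeal K (S p q) ≤ Ideal.span {aeval (x p q) p, z p q} := by
  unfold imageIdeal
  rw [Ideal.span_le]
  rintro b ⟨D, hD, f, rfl⟩
  obtain ⟨h, hh⟩ := lnd_eq hp hdeg D hD
  rw [hh f]
  exact Ideal.mul_mem_left _ _ (del_mem f)

end image

end Pool.Agent.R864.Surf
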