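import Mathlib
import Pool.Agent.R864.Surf2

/-!
Automorphisms of the cylinder over `p(x) y = z^2 + q(x)` and elements of `HD^*`.
-/

set_option autoImplicit false
set_option linter.unusedSectionVars false

open Polynomial

namespace Pool.Agent.R864.Surf

open Cyl

universe u v

variable {K : Type u} [Field K]

/-- homomorphisms out of the cylinder agree if they agree on `x, z, u` -/
theorem cyl_hom_ext {p q : K[X]} {B : Type v} [CommRing B] [IsDomain B] [Algebra K B]
    {f g : (S p q)[X] →ₐ[K] B} (hx : f (C (x p q)) = g (C (x p q)))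
    (hz : f (C (z p q)) = g (C (z p q))) (hX : f X = g X)
    (hne : f (C (aeval (x p q) p)) ≠ 0) : f = g := by
  apply Polynomial.algHom_ext'
  · have e1 : ∀ r : K[X], f (C (aeval (x p q) r)) = aeval (f (C (x p q))) r := by
      intro r
      exact (aeval_algHom_apply (f.comp CAlgHom) (x p q) r).symm
    have e2 : ∀ r : K[X], g (C (aeval (x p q) r)) = aeval (g (C (x p q))) r := by
      intro r
      exact (aeval_algHom_apply (g.comp CAlgHom) (x p q) r).symm
    apply hom_ext
    · exact hx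
    · change f (C (y p q)) = g (C (y p q))
      have h1 := congrArg (fun s => f (C s)) (rel_eq p q)
      have h2 := congrArg (fun s => g (C s)) (rel_eq p q)
      simp only [map_mul, map_add, map_pow] at h1 h2
      rw [e1 q, hx, hz] at h1
      rw [e2 q, ← h1] at h2
      have h3 : f (C (aeval (x p q) p)) = g (C (aeval (x p q) p)) := by rw [e1, e2, hx]
      rw [← h3] at h2
      exact (mul_left_cancel₀ hne h2).symm
    · exact hz
  · exact hX

section phi

variable (a b c : K[X])

/-- `p = a² b` -/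
noncomputable abbrev pp : K[X] := a ^ 2 * b
/-- `q = a c` -/
noncomputable abbrev qq : K[X] := a * c

/-- the ring for `a² b y = z² + a c` -/
abbrev R : Type u := S (a ^ 2 * b) (a * c)

/-- abbreviations for elements of the cylinder -/
noncomputable def Av : (R a b c)[X] := C (aeval (x (a ^ 2 * b) (a * c)) a)
/-- `b(x)` -/
noncomputable def Bv : (R a b c)[X] := C (aeval (x (a ^ 2 * b) (a * c)) b)
/-- `c(x)` -/
noncomputable def Cv : (R a b c)[X] := C (aeval (x (a ^ 2 * b) (a * c)) c)
/-- `y` -/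
noncomputable def Yv : (R a b c)[X] := C (y (a ^ 2 * b) (a * c))
/-- `z` -/
noncomputable def Zv : (R a b c)[X] := C (z (a ^ 2 * b) (a * c))

theorem rel_v : Av a b c ^ 2 * Bv a b c * Yv a b c = Zv a b c ^ 2 + Av a b c * Cv a b c := by
  have h := congrArg (C : R a b c → (R a b c)[X]) (rel_eq (a ^ 2 * b) (a * c))
  simp only [map_mul, map_add, map_pow] at h
  exact h

/-- `T = a y - 2 z u + a b u²` -/
noncomputable def Tv : (R a b c)[X] :=
  Av a b c * Yv a b c - 2 * Zv a b c * X + Av a b c * Bv a b c * X ^ 2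

/-- `W = 2 y z + 4 (c - a b y) u + 2 b z u²` -/
noncomputable def Wv : (R a b c)[X] :=
  2 * Yv a b c * Zv a b c + 4 * (Cv a b c - Av a b c * Bv a b c * Yv a b c) * X
    + 2 * Bv a b c * Zv a b c * X ^ 2

/-- the homomorphism on the base -/
noncomputable def phi0 (t : K) : R a b c →ₐ[K] (R a b c)[X] :=
  lift (a ^ 2 * b) (a * c) (C (x (a ^ 2 * b) (a * c)))
    (Yv a b c + C (algebraMap K _ t) * Wv a b c
      + C (algebraMap K _ t) ^ 2 * Bv a b c * Tv a b c ^ 2)
    (Zv a b c + C (algebraMap K _ t) * Av a b c * Bv a b c * Tv a b c) (by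
      rw [aeval_C, aeval_C]
      simp only [map_mul, map_pow]
      have h := rel_v a b c
      change Av a b c ^ 2 * Bv a b c * _ = _ + Av a b c * Cv a b c
      unfold Wv Tv
      generalize (C (algebraMap K (R a b c) t) : (R a b c)[X]) = τ
      linear_combination (1 - 4 * τ * Av a b c * Bv a b c * X) * h)

/-- the automorphism `exp(t δ)` of the cylinder, as a homomorphism -/
noncomputable def phi1 (t : K) : (R a b c)[X] →ₐ[K] (R a b c)[X] :=
  endo (phi0 a b c t) (X + C (algebraMap K _ t) * Tv a b c)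

@[simp] theorem phi1_x (t : K) : phi1 a b c t (C (x (a ^ 2 * b) (a * c))) =
    C (x (a ^ 2 * b) (a * c)) := by
  simp [phi1, phi0]

theorem phi1_ax (t : K) (r : K[X]) : phi1 a b c t (C (aeval (x (a ^ 2 * b) (a * c)) r)) =
    C (aeval (x (a ^ 2 * b) (a * c)) r) := by
  rw [← aeval_C, ← aeval_algHom_apply, phi1_x]

theorem phi1_A (t : K) : phi1 a b c t (Av a b c) = Av a b c := phi1_ax a b c t a
theorem phi1_B (t : K) : phi1 a b c t (Bv a b c) = Bv a b c := phi1_ax a b c t b
theorem phi1_C (t : K) : phi1 a b c t (Cv a b c) = Cv a b c := phi1_ax a b c t c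

theorem phi1_Y (t : K) : phi1 a b c t (Yv a b c) = Yv a b c + C (algebraMap K _ t) * Wv a b c
      + C (algebraMap K _ t) ^ 2 * Bv a b c * Tv a b c ^ 2 := by
  unfold phi1
  conv_lhs => rw [Yv, endo_C, phi0, lift_y]

theorem phi1_Z (t : K) : phi1 a b c t (Zv a b c) =
    Zv a b c + C (algebraMap K _ t) * Av a b c * Bv a b c * Tv a b c := by
  unfold phi1
  conv_lhs => rw [Zv, endo_C, phi0, lift_z]

theorem phi1_X (t : K) : phi1 a b c t X = X + C (algebraMap K _ t) * Tv a b c := by
  simp [phi1]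

theorem phi1_T (t : K) : phi1 a b c t (Tv a b c) = Tv a b c := by
  have h := rel_v a b c
  have h2 : phi1 a b c t (2 : (R a b c)[X]) = 2 := map_ofNat _ 2
  conv_lhs => rw [Tv]
  rw [map_add, map_sub, map_mul, map_mul, map_mul, map_mul, map_mul, map_pow, h2, phi1_A, phi1_B,
    phi1_Y, phi1_Z, phi1_X]
  unfold Wv Tv
  generalize (C (algebraMap K (R a b c) t) : (R a b c)[X]) = τ
  linear_combination (-4 * τ * X) * h

theorem phi1_const (t s : K) : phi1 a b c t (C (algebraMap K _ s)) = C (algebraMap K _ s) :=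
  (phi1 a b c t).commutes s

theorem phi1_comp (ha : (a ^ 2 * b).Monic) (t : K) :
    (phi1 a b c (-t)).comp (phi1 a b c t) = AlgHom.id K _ := by
  have := isDomain (q := a * c) ha
  apply cyl_hom_ext
  · rw [AlgHom.comp_apply, phi1_x, phi1_x]
    rfl
  · change phi1 a b c (-t) (phi1 a b c t (Zv a b c)) = Zv a b c
    rw [phi1_Z, map_add, map_mul, map_mul, map_mul, phi1_const, phi1_T, phi1_A, phi1_B, phi1_Z,
      map_neg, C_neg]
    ring
  · change phi1 a b c (-t) (phi1 a b c t X) = X
    rw [phi1_X, map_add, map_mul, phi1_const, phi1_T, phi1_X, map_neg, C_neg]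
    ring
  · rw [AlgHom.comp_apply, phi1_ax, phi1_ax]
    intro h0
    have h1 : aeval (x (a ^ 2 * b) (a * c)) (a ^ 2 * b) = 0 := C_eq_zero.1 h0
    have h2 := congrArg (emb (q := a * c) ha) h1
    rw [map_zero, ← aeval_algHom_apply, emb_x] at h2
    exact aeval_hx_ne ha.ne_zero h2

/-- the automorphism -/
noncomputable def phi (ha : (a ^ 2 * b).Monic) (t : K) : (R a b c)[X] ≃ₐ[K] (R a b c)[X] :=
  AlgEquiv.ofAlgHom (phi1 a b c t) (phi1 a b c (-t))
    (by
      have := phi1_comp a b c ha (-t)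
      rwa [neg_neg] at this)
    (phi1_comp a b c ha t)

theorem phi_apply (ha : (a ^ 2 * b).Monic) (t : K) (f : (R a b c)[X]) :
    phi a b c ha t f = phi1 a b c t f := rfl

variable [CharZero K]

theorem C_half {A : Type v} [CommRing A] [Algebra K A] (n : ℕ) (hn : n ≠ 0) {T : Subalgebra K A}
    {f : A} (h : (n : A) * f ∈ T) : f ∈ T := by
  have h1 : algebraMap K A ((n : K)⁻¹) * ((n : A) * f) ∈ T :=
    T.mul_mem (T.algebraMap_mem _) h
  have h2 : algebraMap K A ((n : K)⁻¹) * (n : A) = 1 := by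
    rw [← map_natCast (algebraMap K A) n, ← map_mul,
      inv_mul_cancel₀ (by exact_mod_cast hn), map_one]
  rwa [← mul_assoc, h2, one_mul] at h1

theorem W_mem (ha : (a ^ 2 * b).Monic) : Wv a b c ∈ HDstar K (R a b c)[X] := by
  have h1 := HDstar_stable (phi a b c ha 1) (C_mem_HDstar (K := K) (y (a ^ 2 * b) (a * c)))
  have h2 := HDstar_stable (phi a b c ha (-1)) (C_mem_HDstar (K := K) (y (a ^ 2 * b) (a * c)))
  have h3 := Subalgebra.sub_mem _ h1 h2
  change phi a b c ha 1 (Yv a b c) - phi a b c ha (-1) (Yv a b c) ∈ _ at h3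
  rw [phi_apply, phi_apply, phi1_Y, phi1_Y, map_neg, C_neg, map_one, C_1] at h3
  apply C_half (K := K) 2 two_ne_zero
  convert h3 using 1
  push_cast
  ring

/-- `(c(x) - a(x) b(x) y) u ∈ HD^*` -/
theorem cu_mem (ha : (a ^ 2 * b).Monic) :
    (Cv a b c - Av a b c * Bv a b c * Yv a b c) * X ∈ HDstar K (R a b c)[X] := by
  have h1 := W_mem a b c ha
  have h2 := HDstar_stable (flip (K := K) (A := R a b c)) h1
  have h3 := Subalgebra.sub_mem _ h1 h2
  have e1 : (flip (K := K) (A := R a b c)) (Av a b c) = Av a b c := flip_C _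
  have e2 : (flip (K := K) (A := R a b c)) (Bv a b c) = Bv a b c := flip_C _
  have e3 : (flip (K := K) (A := R a b c)) (Cv a b c) = Cv a b c := flip_C _
  have e4 : (flip (K := K) (A := R a b c)) (Yv a b c) = Yv a b c := flip_C _
  have e5 : (flip (K := K) (A := R a b c)) (Zv a b c) = Zv a b c := flip_C _
  have h4 : Wv a b c - (flip (K := K) (A := R a b c)) (Wv a b c)
      = ((8 : ℕ) : (R a b c)[X]) * ((Cv a b c - Av a b c * Bv a b c * Yv a b c) * X) := by
    conv_lhs => rw [Wv]
    simp only [map_add, map_mul, map_sub, map_pow, e1, e2, e3, e4, e5, flip_X, map_ofNat]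
    push_cast
    ring
  rw [h4] at h3
  exact C_half (K := K) 8 (by norm_num) h3

end phi

section psi

variable (p q : K[X])

/-- `exp(u^k ∂)` on the cylinder -/
noncomputable def psi1 (w : (S p q)[X]) : (S p q)[X] →ₐ[K] (S p q)[X] :=
  endo (expv p q w) X

theorem psi1_x (w : (S p q)[X]) : psi1 p q w (C (x p q)) = C (x p q) := by simp [psi1]
theorem psi1_z (w : (S p q)[X]) :
    psi1 p q w (C (z p q)) = C (z p q) + C (aeval (x p q) p) * w := by simp [psi1]
theorem psi1_X (w : (S p q)[X]) : psi1 p q w X = X := by simp [psi1]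

theorem psi1_ax (w : (S p q)[X]) (r : K[X]) : psi1 p q w (C (aeval (x p q) r)) =
    C (aeval (x p q) r) := by
  rw [← aeval_C, ← aeval_algHom_apply, psi1_x]

theorem psi1_comp (hp : p.Monic) (k : ℕ) (t : ℤ) :
    (psi1 p q (-(t : (S p q)[X]) * X ^ k)).comp (psi1 p q ((t : (S p q)[X]) * X ^ k))
      = AlgHom.id K _ := by
  have := isDomain (q := q) hp
  apply cyl_hom_ext
  · rw [AlgHom.comp_apply, psi1_x, psi1_x]
    rfl
  · rw [AlgHom.comp_apply, psi1_z, map_add, map_mul, psi1_ax, psi1_z, map_mul, map_intCast,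
      map_pow, psi1_X]
    change _ = C (z p q)
    ring
  · rw [AlgHom.comp_apply, psi1_X, psi1_X]
    rfl
  · rw [AlgHom.comp_apply, psi1_ax, psi1_ax]
    intro h0
    have h1 : aeval (x p q) p = 0 := C_eq_zero.1 h0
    have h2 := congrArg (emb (q := q) hp) h1
    rw [map_zero, ← aeval_algHom_apply, emb_x] at h2
    exact aeval_hx_ne hp.ne_zero h2

/-- the automorphism `exp(u^k ∂)` -/
noncomputable def psi (hp : p.Monic) (k : ℕ) : (S p q)[X] ≃ₐ[K] (S p q)[X] :=
  AlgEquiv.ofAlgHom (psi1 p q (((1 : ℤ) : (S p q)[X]) * X ^ k))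
    (psi1 p q (-((1 : ℤ) : (S p q)[X]) * X ^ k))
    (by
      have := psi1_comp p q hp k (-1)
      convert this using 3
      · push_cast
        ring
      · push_cast
        ring)
    (psi1_comp p q hp k 1)

theorem pX_mem (hp : p.Monic) (k : ℕ) :
    C (aeval (x p q) p) * X ^ k ∈ HDstar K (S p q)[X] := by
  have h1 := HDstar_stable (psi p q hp k) (C_mem_HDstar (K := K) (z p q))
  have h2 := Subalgebra.sub_mem _ h1 (C_mem_HDstar (K := K) (z p q))
  change psi1 p q (((1 : ℤ) : (S p q)[X]) * X ^ k) (C (z p q)) - C (z p q) ∈ _ at h2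
  rw [psi1_z] at h2
  convert h2 using 1
  push_cast
  ring

end psi

end Pool.Agent.R864.Surf
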