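import Mathlib
import Pool.Agent.R864.Surf3

/-!
The isolated singular point of `(x-1) (p₁(x) y - q₁(x)) = z²` and its consequences.
-/

set_option autoImplicit false
set_option linter.unusedSectionVars false

open Polynomial

namespace Pool.Agent.R864.Surf

open Cyl

universe u v

variable {K : Type u} [Field K] [CharZero K]

section sing

variable (p1 q1 : K[X])

/-- `p = (X - 1) p₁` -/
noncomputable abbrev P : K[X] := (X - 1) * p1

/-- the point `(1, 1, 0)` -/
noncomputable def pt : S ((X - 1) * p1) ((X - 1) * q1) →ₐ[K] K :=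
  lift ((X - 1) * p1) ((X - 1) * q1) 1 1 0 (by simp)

/-- evaluation on the line `{(1,1,0)} × 𝔸¹` -/
noncomputable def e0 : (S ((X - 1) * p1) ((X - 1) * q1))[X] →ₐ[K] K[X] :=
  Polynomial.mapAlgHom (pt p1 q1)

theorem e0_C (s : S ((X - 1) * p1) ((X - 1) * q1)) : e0 p1 q1 (C s) = C (pt p1 q1 s) := by
  simp [e0]

theorem e0_X : e0 p1 q1 X = X := by
  simp [e0]

/-- the ring of dual numbers over `K[u]` -/
abbrev DN (K : Type u) [Field K] : Type u := DualNumber K[X]

/-- a homomorphism to the dual numbers, from tangent data -/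
noncomputable def tau (a b c : DN K)
    (h : aeval a ((X - 1) * p1) * b = c ^ 2 + aeval a ((X - 1) * q1)) :
    (S ((X - 1) * p1) ((X - 1) * q1))[X] →ₐ[K] DN K :=
  Polynomial.eval₂AlgHom (lift _ _ a b c h) (TrivSqZeroExt.inl X) (fun _ => Commute.all _ _)

variable {p1 q1}

theorem tau_C (a b c : DN K) (h : aeval a ((X - 1) * p1) * b = c ^ 2 + aeval a ((X - 1) * q1))
    (s : S ((X - 1) * p1) ((X - 1) * q1)) :
    tau p1 q1 a b c h (C s) = lift _ _ a b c h s := Polynomial.eval₂_C _ _

theorem tau_X (a b c : DN K) (h : aeval a ((X - 1) * p1) * b = c ^ 2 + aeval a ((X - 1) * q1)) :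
    tau p1 q1 a b c h X = TrivSqZeroExt.inl X := Polynomial.eval₂_X _ _

/-- first component as a `K`-algebra homomorphism -/
noncomputable def fstK (K : Type u) [Field K] : DN K →ₐ[K] K[X] :=
  TrivSqZeroExt.fstHom K K[X] K[X]

theorem fstK_apply (w : DN K) : fstK K w = w.fst := rfl

theorem fst_tau (a b c : DN K) (h : aeval a ((X - 1) * p1) * b = c ^ 2 + aeval a ((X - 1) * q1))
    (ha : a.fst = 1) (hb : b.fst = 1) (hc : c.fst = 0) (f : (S ((X - 1) * p1) ((X - 1) * q1))[X]) :
    (tau p1 q1 a b c h f).fst = e0 p1 q1 f := by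
  have : (fstK K).comp (tau p1 q1 a b c h) = e0 p1 q1 := by
    apply Polynomial.algHom_ext'
    · apply hom_ext
      · change (tau p1 q1 a b c h (C (x _ _))).fst = e0 p1 q1 (C (x _ _))
        rw [tau_C, lift_x, ha, e0_C]
        simp [pt]
      · change (tau p1 q1 a b c h (C (y _ _))).fst = e0 p1 q1 (C (y _ _))
        rw [tau_C, lift_y, hb, e0_C]
        simp [pt]
      · change (tau p1 q1 a b c h (C (z _ _))).fst = e0 p1 q1 (C (z _ _))
        rw [tau_C, lift_z, hc, e0_C]
        simp [pt]
    · change (tau p1 q1 a b c h X).fst = e0 p1 q1 X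
      rw [tau_X, e0_X]
      rfl
  exact DFunLike.congr_fun this f

/-- product of two dual numbers with vanishing first component -/
theorem mul_fst_zero {a b : DN K} (ha : a.fst = 0) (hb : b.fst = 0) : a * b = 0 := by
  ext
  · simp [ha]
  · simp [ha, hb]

theorem eps_mul_eq_zero {a : DN K} (h : (DualNumber.eps : DN K) * a = 0) : a.fst = 0 := by
  have := congrArg TrivSqZeroExt.snd h
  simpa using this

theorem aeval_one_fst (r : K[X]) (a : DN K) (ha : a.fst = 1) : (aeval a r).fst = C (r.eval 1) := by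
  have h1 : fstK K (aeval a r) = aeval (fstK K a) r := (aeval_algHom_apply (fstK K) a r).symm
  rw [fstK_apply, fstK_apply, ha] at h1
  rw [h1]
  have : aeval (1 : K[X]) r = aeval (algebraMap K K[X] 1) r := by rw [map_one]
  rw [this, aeval_algebraMap_apply]
  simp

/-- the singular line is invariant under all derivations of the cylinder -/
theorem e0_D (h1 : p1.eval 1 = q1.eval 1) (h2 : p1.eval 1 ≠ 0)
    (D : Derivation K (S ((X - 1) * p1) ((X - 1) * q1))[X] (S ((X - 1) * p1) ((X - 1) * q1))[X])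
    (s : S ((X - 1) * p1) ((X - 1) * q1)) : e0 p1 q1 (D (C s)) = 0 := by
  -- the relation `a' b' = c'²`
  have hrel : (C (x ((X - 1) * p1) ((X - 1) * q1)) - 1) * (C (aeval (x ((X - 1) * p1) ((X - 1) * q1)) p1) * C (y ((X - 1) * p1) ((X - 1) * q1)) - C (aeval (x ((X - 1) * p1) ((X - 1) * q1)) q1))
      = (C (z ((X - 1) * p1) ((X - 1) * q1)) : (S ((X - 1) * p1) ((X - 1) * q1))[X]) ^ 2 := by
    have h := congrArg (C : S ((X - 1) * p1) ((X - 1) * q1) → (S ((X - 1) * p1) ((X - 1) * q1))[X]) (rel_eq ((X - 1) * p1) ((X - 1) * q1))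
    simp only [map_mul, map_add, map_pow, map_sub, aeval_X, map_one] at h
    linear_combination h
  set a' : (S ((X - 1) * p1) ((X - 1) * q1))[X] := C (x ((X - 1) * p1) ((X - 1) * q1)) - 1 with ha'
  set b' : (S ((X - 1) * p1) ((X - 1) * q1))[X] := C (aeval (x ((X - 1) * p1) ((X - 1) * q1)) p1) * C (y ((X - 1) * p1) ((X - 1) * q1)) - C (aeval (x ((X - 1) * p1) ((X - 1) * q1)) q1) with hb'
  set c' : (S ((X - 1) * p1) ((X - 1) * q1))[X] := C (z ((X - 1) * p1) ((X - 1) * q1)) with hc'
  have hD : a' * D b' + b' * D a' = 2 * c' * D c' := by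
    have h := congrArg D hrel
    rw [Derivation.leibniz, Derivation.leibniz_pow] at h
    simp only [smul_eq_mul, nsmul_eq_mul] at h
    push_cast at h
    linear_combination h
  -- three tangent directions
  have ev1 : ∀ r : K[X], aeval (1 : DN K) r = TrivSqZeroExt.inl (C (r.eval 1)) := by
    intro r
    have : aeval (1 : DN K) r = aeval (algebraMap K (DN K) 1) r := by rw [map_one]
    rw [this, aeval_algebraMap_apply]
    rfl
  -- direction z
  have hz0 : e0 p1 q1 (D c') = 0 := by
    have hh : aeval (1 : DN K) ((X - 1) * p1) * 1 = DualNumber.eps ^ 2 +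
        aeval (1 : DN K) ((X - 1) * q1) := by
      simp [pow_two]
    have t1 : tau p1 q1 1 1 DualNumber.eps hh a' = 0 := by
      rw [ha', map_sub, tau_C, lift_x, map_one, sub_self]
    have t2 : tau p1 q1 1 1 DualNumber.eps hh b' = 0 := by
      rw [hb', map_sub, map_mul, tau_C, tau_C, tau_C, lift_y, ← aeval_algHom_apply,
        ← aeval_algHom_apply, lift_x, ev1, ev1, h1, mul_one, sub_self]
    have t3 : tau p1 q1 1 1 DualNumber.eps hh c' = DualNumber.eps := by
      rw [hc', tau_C, lift_z]
    have h3 := congrArg (tau p1 q1 1 1 DualNumber.eps hh) hD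
    rw [map_add, map_mul, map_mul, t1, t2, map_mul, map_mul, t3, zero_mul, zero_mul, add_zero,
      map_ofNat, mul_assoc] at h3
    have h4 : (DualNumber.eps : DN K) * tau p1 q1 1 1 DualNumber.eps hh (D c') = 0 := by
      rcases eq_or_ne ((DualNumber.eps : DN K) * tau p1 q1 1 1 DualNumber.eps hh (D c')) 0 with h | h
      · exact h
      · exfalso
        apply h
        have : (2 : DN K) = algebraMap K (DN K) 2 := by rw [map_ofNat]
        rw [this, ← Algebra.smul_def] at h3
        exact (smul_eq_zero_iff_right (two_ne_zero (α := K))).1 h3.symm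
    have h5 := eps_mul_eq_zero h4
    rwa [fst_tau 1 1 DualNumber.eps hh rfl rfl (by simp)] at h5
  -- direction y
  have hx0 : e0 p1 q1 (D a') = 0 := by
    have hh : aeval (1 : DN K) ((X - 1) * p1) * (1 + DualNumber.eps) = 0 ^ 2 +
        aeval (1 : DN K) ((X - 1) * q1) := by
      simp
    have t1 : tau p1 q1 1 (1 + DualNumber.eps) 0 hh a' = 0 := by
      rw [ha', map_sub, tau_C, lift_x, map_one, sub_self]
    have t3 : tau p1 q1 1 (1 + DualNumber.eps) 0 hh c' = 0 := by
      rw [hc', tau_C, lift_z]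
    have t2 : tau p1 q1 1 (1 + DualNumber.eps) 0 hh b' =
        algebraMap K (DN K) (p1.eval 1) * DualNumber.eps := by
      rw [hb', map_sub, map_mul, tau_C, tau_C, tau_C, lift_y, ← aeval_algHom_apply,
        ← aeval_algHom_apply, lift_x, ev1, ev1, h1]
      have : (algebraMap K (DN K) (q1.eval 1)) = TrivSqZeroExt.inl (C (q1.eval 1)) := rfl
      rw [this]
      ring
    have h3 := congrArg (tau p1 q1 1 (1 + DualNumber.eps) 0 hh) hD
    rw [map_add, map_mul, map_mul, t1, t2, map_mul, map_mul, t3, zero_mul, mul_zero, zero_mul,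
      zero_add, mul_assoc, ← Algebra.smul_def] at h3
    have h4 := (smul_eq_zero_iff_right h2).1 h3
    have h5 := eps_mul_eq_zero h4
    rwa [fst_tau 1 (1 + DualNumber.eps) 0 hh rfl (by simp) rfl] at h5
  -- direction x
  have hb0 : e0 p1 q1 (D b') = 0 := by
    have hfst : (1 + DualNumber.eps : DN K).fst = 1 := by simp
    have hsub : (aeval (1 + DualNumber.eps : DN K) (p1 - q1)).fst = 0 := by
      rw [aeval_one_fst _ _ hfst, eval_sub, h1, sub_self, C_0]
    have hh : aeval (1 + DualNumber.eps : DN K) ((X - 1) * p1) * 1 = 0 ^ 2 +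
        aeval (1 + DualNumber.eps : DN K) ((X - 1) * q1) := by
      have h3 : (DualNumber.eps : DN K) * aeval (1 + DualNumber.eps : DN K) (p1 - q1) = 0 :=
        mul_fst_zero (by simp) hsub
      rw [map_sub] at h3
      simp only [map_mul, map_sub, aeval_X, map_one]
      linear_combination h3
    have t1 : tau p1 q1 (1 + DualNumber.eps) 1 0 hh a' = DualNumber.eps := by
      rw [ha', map_sub, tau_C, lift_x, map_one]
      ring
    have t3 : tau p1 q1 (1 + DualNumber.eps) 1 0 hh c' = 0 := by
      rw [hc', tau_C, lift_z]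
    have t2 : (tau p1 q1 (1 + DualNumber.eps) 1 0 hh b').fst = 0 := by
      rw [hb', map_sub, map_mul, tau_C, tau_C, tau_C, lift_y, ← aeval_algHom_apply,
        ← aeval_algHom_apply, lift_x, mul_one, ← map_sub]
      exact hsub
    have t4 : (tau p1 q1 (1 + DualNumber.eps) 1 0 hh (D a')).fst = 0 := by
      rw [fst_tau (1 + DualNumber.eps) 1 0 hh hfst rfl rfl]
      exact hx0
    have h3 := congrArg (tau p1 q1 (1 + DualNumber.eps) 1 0 hh) hD
    rw [map_add, map_mul, map_mul, t1, map_mul, map_mul, t3, mul_zero, zero_mul,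
      mul_fst_zero t2 t4, add_zero] at h3
    have h5 := eps_mul_eq_zero h3
    rwa [fst_tau (1 + DualNumber.eps) 1 0 hh hfst rfl rfl] at h5
  -- derivatives of the generators
  have hDx : e0 p1 q1 (D (C (x ((X - 1) * p1) ((X - 1) * q1)))) = 0 := by
    rw [ha', map_sub, Derivation.map_one_eq_zero, sub_zero] at hx0
    exact hx0
  have hDaev : ∀ r : K[X], e0 p1 q1 (D (C (aeval (x ((X - 1) * p1) ((X - 1) * q1)) r))) = 0 := by
    intro r
    have h3 : (C (aeval (x ((X - 1) * p1) ((X - 1) * q1)) r) : (S ((X - 1) * p1) ((X - 1) * q1))[X]) = aeval (C (x ((X - 1) * p1) ((X - 1) * q1))) r := (aeval_C ((X - 1) * p1) ((X - 1) * q1) r).symm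
    rw [h3, Derivation.map_aeval, smul_eq_mul, map_mul, hDx, mul_zero]
  have hDy : e0 p1 q1 (D (C (y ((X - 1) * p1) ((X - 1) * q1)))) = 0 := by
    rw [hb', map_sub, Derivation.leibniz, smul_eq_mul, smul_eq_mul, map_sub, map_add, map_mul,
      map_mul, hDaev, hDaev, mul_zero, add_zero, sub_zero] at hb0
    rcases mul_eq_zero.1 hb0 with h3 | h3
    · exfalso
      rw [e0_C, C_eq_zero, ← aeval_algHom_apply] at h3
      apply h2
      have : pt p1 q1 (x ((X - 1) * p1) ((X - 1) * q1)) = 1 := by simp [pt]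
      rw [this] at h3
      simpa using h3
    · exact h3
  let T : Subalgebra K (S ((X - 1) * p1) ((X - 1) * q1)) :=
    { carrier := {s | e0 p1 q1 (D (C s)) = 0}
      mul_mem' := by
        intro a b ha hb
        change e0 p1 q1 (D (C a)) = 0 at ha
        change e0 p1 q1 (D (C b)) = 0 at hb
        change e0 p1 q1 (D (C (a * b))) = 0
        rw [C_mul, Derivation.leibniz, smul_eq_mul, smul_eq_mul, map_add, map_mul, map_mul, ha, hb,
          mul_zero, mul_zero, add_zero]
      add_mem' := by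
        intro a b ha hb
        change e0 p1 q1 (D (C a)) = 0 at ha
        change e0 p1 q1 (D (C b)) = 0 at hb
        change e0 p1 q1 (D (C (a + b))) = 0
        rw [C_add, map_add, map_add, ha, hb, add_zero]
      algebraMap_mem' := by
        intro r
        change e0 p1 q1 (D (algebraMap K (S ((X - 1) * p1) ((X - 1) * q1))[X] r)) = 0
        rw [Derivation.map_algebraMap, map_zero] }
  have hT : T = ⊤ := sub_eq_top T hDx hDy hz0
  have : s ∈ T := by rw [hT]; trivial
  exact this

theorem e0_D_eq (h1 : p1.eval 1 = q1.eval 1) (h2 : p1.eval 1 ≠ 0)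
    (D : Derivation K (S ((X - 1) * p1) ((X - 1) * q1))[X] (S ((X - 1) * p1) ((X - 1) * q1))[X])
    (f : (S ((X - 1) * p1) ((X - 1) * q1))[X]) :
    e0 p1 q1 (D f) = derivative (e0 p1 q1 f) * e0 p1 q1 (D X) := by
  induction f using Polynomial.induction_on' with
  | add f g hf hg => rw [map_add, map_add, hf, hg, map_add, derivative_add, add_mul]
  | monomial n a =>
    rw [← C_mul_X_pow_eq_monomial, Derivation.leibniz, Derivation.leibniz_pow, smul_eq_mul,
      smul_eq_mul, smul_eq_mul, nsmul_eq_mul, map_add, map_mul (e0 p1 q1) (X ^ n), e0_D h1 h2,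
      mul_zero, add_zero, map_mul, map_mul, map_mul, map_mul, map_pow, map_pow, map_natCast,
      e0_X, e0_C, derivative_C_mul, derivative_X_pow]
    simp only [map_natCast]
    ring

/-- elements of `HD^*` are constant on the singular line -/
theorem HD_const (h1 : p1.eval 1 = q1.eval 1) (h2 : p1.eval 1 ≠ 0)
    {f : (S ((X - 1) * p1) ((X - 1) * q1))[X]}
    (hf : f ∈ HDstar K (S ((X - 1) * p1) ((X - 1) * q1))[X]) :
    derivative (e0 p1 q1 f) = 0 := by
  unfold HDstar at hf
  refine Algebra.adjoin_induction ?_ ?_ ?_ ?_ hf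
  · rintro b ⟨D, _, ⟨s, hs⟩, hb⟩
    have h3 := e0_D_eq h1 h2 D s
    rw [hs, map_one] at h3
    have h4 := e0_D_eq h1 h2 D b
    rw [hb, map_zero] at h4
    rcases mul_eq_zero.1 h4.symm with h5 | h5
    · exact h5
    · rw [h5, mul_zero] at h3
      exact absurd h3 one_ne_zero
  · intro r
    rw [AlgHom.commutes]
    exact derivative_C
  · intro a b _ _ ha hb
    rw [map_add, derivative_add, ha, hb, add_zero]
  · intro a b _ _ ha hb
    rw [map_mul, derivative_mul, ha, hb, mul_zero, zero_mul, add_zero]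

theorem HD_ne_top (h1 : p1.eval 1 = q1.eval 1) (h2 : p1.eval 1 ≠ 0) :
    HDstar K (S ((X - 1) * p1) ((X - 1) * q1))[X] ≠ ⊤ := by
  intro h
  have hX : (X : (S ((X - 1) * p1) ((X - 1) * q1))[X]) ∈
      HDstar K (S ((X - 1) * p1) ((X - 1) * q1))[X] := by
    rw [h]
    trivial
  have h3 := HD_const h1 h2 hX
  rw [e0_X, derivative_X] at h3
  exact one_ne_zero h3

end sing

end Pool.Agent.R864.Surf
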