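import Mathlib
import Pool.Agent.R864.Surf4

/-!
Plinth ideal, non-isomorphism, and infinite generation of `HD^*`.
-/

set_option autoImplicit false
set_option linter.unusedSectionVars false

open Polynomial

namespace Pool.Agent.R864.Surf

open Cyl

universe u v

variable {K : Type u} [Field K] [CharZero K]

section plinth

variable {p q : K[X]}

theorem del_aeval (r : K[X]) : del p q (aeval (x p q) r) = 0 := by
  rw [Derivation.map_aeval, del_x, smul_zero]

theorem del_ev (F : K[X][X]) : del p q (ev p q F) = ev p q (derivative F) * (2 * z p q) := by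
  induction F using Polynomial.induction_on' with
  | add f g hf hg => rw [map_add, map_add, hf, hg, derivative_add, map_add, add_mul]
  | monomial n a =>
    rw [← C_mul_X_pow_eq_monomial, map_mul, map_pow, ev_C, ev_X, Derivation.leibniz,
      Derivation.leibniz_pow, del_aeval, del_y, smul_zero, add_zero, derivative_C_mul,
      derivative_X_pow, map_mul, map_mul, map_pow, ev_C, ev_X, smul_eq_mul, smul_eq_mul,
      nsmul_eq_mul, map_natCast, map_natCast]
    ring

theorem del_normal (F G : K[X][X]) : del p q (ev p q F + ev p q G * z p q) =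
    ev p q (2 * derivative G * (C p * X - C q) + G * C p) + ev p q (2 * derivative F) * z p q := by
  rw [map_add, Derivation.leibniz, del_ev, del_ev, del_z, smul_eq_mul, smul_eq_mul]
  simp only [map_mul, map_add, map_sub, ev_C, ev_X, map_ofNat]
  linear_combination (-2 * ev p q (derivative G)) * rel_eq p q

/-- if `∂ s ∈ K[x]` then `∂ s` is divisible by `p` -/
theorem plinth (hp : p.Monic) {s : S p q} {r0 : K[X]} (h : del p q s = aeval (x p q) r0) :
    ∃ r f : K[X], r0 = p * r ∧ s = aeval (x p q) f + aeval (x p q) r * z p q := by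
  obtain ⟨F, G, rfl⟩ := normal_form p q s
  rw [del_normal, ← ev_C] at h
  have h1 : ev p q (2 * derivative G * (C p * X - C q) + G * C p - C r0) +
      ev p q (2 * derivative F) * z p q = 0 := by
    rw [map_sub]
    linear_combination h
  obtain ⟨h2, h3⟩ := normal_unique hp h1
  have hF : derivative F = 0 := by
    rcases mul_eq_zero.1 h3 with h4 | h4
    · exact absurd h4 two_ne_zero
    · exact h4
  have hF0 : F = C (F.coeff 0) := eq_C_of_natDegree_eq_zero (derivative_eq_zero.1 hF)
  have hG0 : G.natDegree = 0 := by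
    by_contra hne
    obtain ⟨k, hk⟩ : ∃ k, G.natDegree = k + 1 := ⟨G.natDegree - 1, by omega⟩
    have h4 := congrArg (fun f => Polynomial.coeff f (k + 1)) h2
    have e1 : (2 * derivative G * (C p * X - C q) + G * C p - C r0 : K[X][X]) =
        C (2 * p) * (derivative G * X) - C (2 * q) * derivative G + C p * G - C r0 := by
      rw [C_mul, C_mul]
      have : (C 2 : K[X][X]) = 2 := rfl
      rw [this]
      ring
    simp only [e1, coeff_sub, coeff_add, coeff_C_mul, coeff_mul_X, coeff_derivative, coeff_zero,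
      coeff_C_succ, sub_zero] at h4
    have h5 : G.coeff (k + 1 + 1) = 0 := coeff_eq_zero_of_natDegree_lt (by omega)
    rw [h5, zero_mul, mul_zero, sub_zero] at h4
    have h6 : p * G.coeff (k + 1) * (2 * (k : K[X]) + 3) = 0 := by
      linear_combination h4
    have h7 : (2 * (k : K[X]) + 3) ≠ 0 := by
      have : (2 * (k : K[X]) + 3) = ((2 * k + 3 : ℕ) : K[X]) := by push_cast; ring
      rw [this]
      exact_mod_cast (by omega : 2 * k + 3 ≠ 0)
    have h8 := (mul_eq_zero.1 h6).resolve_right h7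
    have h9 := (mul_eq_zero.1 h8).resolve_left hp.ne_zero
    have h10 : G.leadingCoeff = 0 := by
      rw [leadingCoeff, hk]
      exact h9
    rw [leadingCoeff_eq_zero] at h10
    rw [h10, natDegree_zero] at hk
    omega
  have hG1 : G = C (G.coeff 0) := eq_C_of_natDegree_eq_zero hG0
  refine ⟨G.coeff 0, F.coeff 0, ?_, ?_⟩
  · rw [hG1, derivative_C, mul_zero, zero_mul, zero_add, ← C_mul, sub_eq_zero] at h2
    have h4 := C_injective h2
    rw [← h4]
    ring
  · conv_lhs => rw [hF0, hG1]
    rw [ev_C, ev_C]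

theorem ker_del (hp : p.Monic) {s : S p q} (h : del p q s = 0) :
    ∃ f : K[X], s = aeval (x p q) f := by
  obtain ⟨r, f, h1, h2⟩ := plinth (r0 := 0) hp (by rw [h, map_zero])
  have h3 := (mul_eq_zero.1 h1.symm).resolve_left hp.ne_zero
  exact ⟨f, by rw [h2, h3, map_zero, zero_mul, add_zero]⟩

theorem aeval_x_injective (hp : p.Monic) {r s : K[X]} (h : aeval (x p q) r = aeval (x p q) s) :
    r = s := by
  by_contra hne
  have h1 := congrArg (emb (q := q) hp) h
  rw [← aeval_algHom_apply, ← aeval_algHom_apply, emb_x] at h1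
  have h2 : aeval (hx K) (r - s) = 0 := by rw [map_sub, h1, sub_self]
  exact aeval_hx_ne (sub_ne_zero.2 hne) h2

end plinth

section noniso

variable {p1 q1 p2 q2 : K[X]}

theorem conj_ne_zero {A B : Type u} [CommRing A] [CommRing B] [Algebra K A] [Algebra K B]
    (θ : A ≃ₐ[K] B) {D : Derivation K A A} (h : D ≠ 0) : conj θ D ≠ 0 := by
  intro h0
  apply h
  ext s
  have h1 : conj θ D (θ s) = 0 := by rw [h0]; rfl
  rw [conj_apply, AlgEquiv.symm_apply_apply] at h1
  have h2 := congrArg θ.symm h1
  rw [AlgEquiv.symm_apply_apply, map_zero] at h2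
  rw [h2]
  rfl

theorem iso_x (hp1 : p1.Monic) (hp2 : p2.Monic) (hd2 : 2 ≤ p2.natDegree)
    (θ : S p1 q1 ≃ₐ[K] S p2 q2) : ∃ h r : K[X], h ≠ 0 ∧ θ (x p1 q1) = aeval (x p2 q2) r ∧
      ∀ s, conj θ (del p1 q1) s = aeval (x p2 q2) h * del p2 q2 s := by
  have := isDomain (q := q2) hp2
  obtain ⟨h, hh⟩ := lnd_eq hp2 hd2 (conj θ (del p1 q1)) ((del_isLND p1 q1).conj θ)
  have hh0 : h ≠ 0 := by
    intro h0
    apply conj_ne_zero θ (del_ne_zero p1 q1 hp1)
    ext s
    rw [hh s, h0, map_zero, zero_mul]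
    rfl
  have h1 := hh (θ (x p1 q1))
  rw [conj_apply, AlgEquiv.symm_apply_apply, del_x, map_zero] at h1
  have h2 : aeval (x p2 q2) h ≠ 0 := by
    intro h0
    exact hh0 (aeval_x_injective (q := q2) hp2 (by rw [h0, map_zero]))
  have h3 := (mul_eq_zero.1 h1.symm).resolve_left h2
  obtain ⟨r, hr⟩ := ker_del hp2 h3
  exact ⟨h, r, hh0, hr, hh⟩

theorem iso_degree_le (hp1 : p1.Monic) (hp2 : p2.Monic) (hd1 : 2 ≤ p1.natDegree)
    (hd2 : 2 ≤ p2.natDegree) (θ : S p1 q1 ≃ₐ[K] S p2 q2) : p2.natDegree ≤ p1.natDegree := by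
  have := isDomain (q := q2) hp2
  obtain ⟨h, r, hh0, hr, hh⟩ := iso_x hp1 hp2 hd2 θ
  obtain ⟨h', r', -, hr', -⟩ := iso_x hp2 hp1 hd1 θ.symm
  have hcomp : r'.comp r = X := by
    apply aeval_x_injective (q := q2) hp2
    rw [aeval_comp, ← hr, aeval_algHom_apply, ← hr', AlgEquiv.apply_symm_apply, aeval_X]
  have hrdeg : r.natDegree = 1 := by
    have h1 := congrArg natDegree hcomp
    rw [natDegree_comp, natDegree_X] at h1
    exact Nat.eq_one_of_mul_eq_one_left h1
  -- the value on `z`
  have h1 := hh (θ (z p1 q1))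
  rw [conj_apply, AlgEquiv.symm_apply_apply, del_z, ← aeval_algHom_apply, hr, ← aeval_comp] at h1
  have h2 : aeval (x p2 q2) h ≠ 0 := by
    intro h0
    exact hh0 (aeval_x_injective (q := q2) hp2 (by rw [h0, map_zero]))
  have h3 : del p2 q2 (del p2 q2 (θ (z p1 q1))) = 0 := by
    have h4 := congrArg (del p2 q2) h1
    rw [del_aeval, Derivation.leibniz, del_aeval, smul_zero, add_zero, smul_eq_mul] at h4
    exact (mul_eq_zero.1 h4.symm).resolve_left h2
  obtain ⟨r0, hr0⟩ := ker_del hp2 h3
  obtain ⟨g, f, hg, -⟩ := plinth hp2 hr0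
  rw [hr0, hg, ← map_mul] at h1
  have h5 := aeval_x_injective (q := q2) hp2 h1
  have h6 : p1.comp r ≠ 0 := by
    intro h0
    have h7 := congrArg natDegree h0
    rw [natDegree_comp, hrdeg, natDegree_zero] at h7
    omega
  have h7 : p2 ∣ p1.comp r := ⟨h * g, by rw [h5]; ring⟩
  have h8 := natDegree_le_of_dvd h7 h6
  rwa [natDegree_comp, hrdeg, mul_one] at h8

/-- surfaces with `deg p₁ ≠ deg p₂` are not isomorphic -/
theorem not_iso (hp1 : p1.Monic) (hp2 : p2.Monic) (hd1 : 2 ≤ p1.natDegree)
    (hd2 : 2 ≤ p2.natDegree) (hne : p1.natDegree ≠ p2.natDegree) :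
    IsEmpty (S p1 q1 ≃ₐ[K] S p2 q2) := by
  constructor
  intro θ
  exact hne (le_antisymm (iso_degree_le hp2 hp1 hd2 hd1 θ.symm)
    (iso_degree_le hp1 hp2 hd1 hd2 θ))

end noniso

section nonfg

variable {p1 q1 : K[X]}

/-- elements of `HD^*` have positive coefficients in the maximal ideal of the singular point -/
theorem HD_coeff (h1 : p1.eval 1 = q1.eval 1) (h2 : p1.eval 1 ≠ 0)
    {f : (S ((X - 1) * p1) ((X - 1) * q1))[X]}
    (hf : f ∈ HDstar K (S ((X - 1) * p1) ((X - 1) * q1))[X]) {k : ℕ} (hk : k ≠ 0) :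
    f.coeff k ∈ RingHom.ker (pt p1 q1) := by
  have h3 := HD_const h1 h2 hf
  have h4 := derivative_eq_zero.1 h3
  have h5 : (e0 p1 q1 f).coeff k = 0 := coeff_eq_zero_of_natDegree_lt (by omega)
  rw [RingHom.mem_ker, ← h5]
  simp [e0]

/-- an ideal-adic filtration subalgebra -/
def filt {A : Type u} [CommRing A] [Algebra K A] (m : Ideal A) (N : ℕ) (hN : 0 < N) :
    Subalgebra K A[X] where
  carrier := {f | ∀ k l : ℕ, N * l < k + N → f.coeff k ∈ m ^ l}
  mul_mem' := by
    intro f g hf hg k l hkl
    rw [coeff_mul]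
    apply Ideal.sum_mem
    rintro ⟨i, j⟩ hij
    rw [Finset.HasAntidiagonal.mem_antidiagonal] at hij
    simp only at hij ⊢
    have e1 : N * ((i + N - 1) / N) < i + N := by
      have := Nat.mul_div_le (i + N - 1) N
      omega
    have e2 : N * ((j + N - 1) / N) < j + N := by
      have := Nat.mul_div_le (j + N - 1) N
      omega
    have e3 : i ≤ N * ((i + N - 1) / N) := by
      have := Nat.lt_mul_div_succ (i + N - 1) hN
      rw [Nat.mul_add, Nat.mul_one] at this
      omega
    have e4 : j ≤ N * ((j + N - 1) / N) := by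
      have := Nat.lt_mul_div_succ (j + N - 1) hN
      rw [Nat.mul_add, Nat.mul_one] at this
      omega
    have e5 : l ≤ (i + N - 1) / N + (j + N - 1) / N := by
      by_contra hlt
      push Not at hlt
      have : N * ((i + N - 1) / N + (j + N - 1) / N + 1) ≤ N * l := Nat.mul_le_mul_left N hlt
      rw [Nat.mul_add, Nat.mul_add, Nat.mul_one] at this
      omega
    have h3 := Ideal.mul_mem_mul (hf i _ e1) (hg j _ e2)
    rw [← pow_add] at h3
    exact Ideal.pow_le_pow_right e5 h3
  add_mem' := by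
    intro f g hf hg k l hkl
    rw [coeff_add]
    exact Ideal.add_mem _ (hf k l hkl) (hg k l hkl)
  algebraMap_mem' := by
    intro r k l hkl
    rw [Polynomial.algebraMap_apply, coeff_C]
    by_cases hk : k = 0
    · subst hk
      have : l = 0 := by
        by_contra hl
        have : N * 1 ≤ N * l := Nat.mul_le_mul_left N (Nat.one_le_iff_ne_zero.2 hl)
        omega
      rw [this, pow_zero, Ideal.one_eq_top]
      trivial
    · rw [if_neg hk]
      exact Ideal.zero_mem _

theorem HD_not_fg (hp1 : ((X - 1) * p1).Monic) (h1 : p1.eval 1 = q1.eval 1)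
    (h2 : p1.eval 1 ≠ 0) :
    ¬ (HDstar K (S ((X - 1) * p1) ((X - 1) * q1))[X]).FG := by
  classical
  rintro ⟨s, hs⟩
  have := isDomain (q := (X - 1) * q1) hp1
  have hnoeth : IsNoetherianRing (S ((X - 1) * p1) ((X - 1) * q1)) :=
    Algebra.FiniteType.isNoetherianRing K _
  set m : Ideal (S ((X - 1) * p1) ((X - 1) * q1)) := RingHom.ker (pt p1 q1) with hm
  set N : ℕ := s.sup natDegree + 1 with hN
  have hN0 : 0 < N := Nat.succ_pos _
  have hle : HDstar K (S ((X - 1) * p1) ((X - 1) * q1))[X] ≤ filt m N hN0 := by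
    rw [← hs]
    apply Algebra.adjoin_le
    intro f hf k l hkl
    have hfHD : f ∈ HDstar K (S ((X - 1) * p1) ((X - 1) * q1))[X] := by
      rw [← hs]
      exact Algebra.subset_adjoin hf
    have hdeg : f.natDegree < N := by
      have := Finset.le_sup (f := natDegree) (Finset.mem_coe.1 hf)
      omega
    by_cases hk : k = 0
    · subst hk
      have : l = 0 := by
        by_contra hl
        have : N * 1 ≤ N * l := Nat.mul_le_mul_left N (Nat.one_le_iff_ne_zero.2 hl)
        omega
      rw [this, pow_zero, Ideal.one_eq_top]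
      trivial
    · by_cases hkN : N < k
      · rw [coeff_eq_zero_of_natDegree_lt (by omega)]
        exact Ideal.zero_mem _
      · have hl : l ≤ 1 := by
          by_contra hl
          push Not at hl
          have : N * 2 ≤ N * l := Nat.mul_le_mul_left N hl
          omega
        have h3 : f.coeff k ∈ m ^ 1 := by
          rw [pow_one]
          exact HD_coeff h1 h2 hfHD hk
        exact Ideal.pow_le_pow_right hl h3
  have hall : ∀ l : ℕ, aeval (x ((X - 1) * p1) ((X - 1) * q1)) ((X - 1) * p1) ∈ m ^ l := by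
    intro l
    have h3 := hle (pX_mem ((X - 1) * p1) ((X - 1) * q1) hp1 (N * l))
    have h4 := h3 (N * l) l (by omega)
    rwa [coeff_C_mul, coeff_X_pow_self, mul_one] at h4
  have hmne : m ≠ ⊤ := by
    intro h
    have h3 : (1 : S ((X - 1) * p1) ((X - 1) * q1)) ∈ m := by rw [h]; trivial
    rw [hm, RingHom.mem_ker, map_one] at h3
    exact one_ne_zero h3
  have hkrull := Ideal.iInf_pow_eq_bot_of_isDomain m hmne
  have h5 : aeval (x ((X - 1) * p1) ((X - 1) * q1)) ((X - 1) * p1) ∈ (⨅ i, m ^ i : Ideal _) := by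
    rw [Ideal.mem_iInf]
    exact hall
  rw [hkrull, Ideal.mem_bot] at h5
  exact hp1.ne_zero (aeval_x_injective (q := (X - 1) * q1) hp1 (by rw [h5, map_zero]))

end nonfg

end Pool.Agent.R864.Surf
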