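import Mathlib

/-!
Counting double transversals: the abstract counting lemma.
-/

namespace Pool.Agent.R864.TP

open scoped Nat

section Abstract

variable {E X Y Q : Type}

/-- Sets meeting every fibre of `α` and every fibre of `β` in exactly one element. -/
def DTa (α : E → X) (β : E → Y) : Set (Set E) :=
  {T | (∀ x, ∃! t, t ∈ T ∧ α t = x) ∧ ∀ y, ∃! t, t ∈ T ∧ β t = y}

/-- The set attached to a matching with choices. -/
def toDT (α : E → X) (β : E → Y)
    (p : Σ π : X ≃ Y, ∀ x, {e : E // α e = x ∧ β e = π x}) : DTa α β :=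
  ⟨Set.range (fun x => (p.2 x).1), by
    constructor
    · intro x
      refine ⟨(p.2 x).1, ⟨⟨x, rfl⟩, (p.2 x).2.1⟩, ?_⟩
      rintro t ⟨⟨x', rfl⟩, h⟩
      have : x' = x := by rw [← h]; exact ((p.2 x').2.1).symm
      subst this; rfl
    · intro y
      refine ⟨(p.2 (p.1.symm y)).1, ⟨⟨_, rfl⟩, by rw [(p.2 (p.1.symm y)).2.2]; simp⟩, ?_⟩
      rintro t ⟨⟨x', rfl⟩, h⟩
      have : x' = p.1.symm y := by
        rw [← h]; simp only; rw [(p.2 x').2.2]; simp
      subst this; rfl⟩

theorem toDT_bij (α : E → X) (β : E → Y) : Function.Bijective (toDT α β) := by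
  constructor
  · rintro ⟨π, f⟩ ⟨π', f'⟩ h
    have h' : Set.range (fun x => (f x).1) = Set.range (fun x => (f' x).1) :=
      congrArg Subtype.val h
    have hf : ∀ x, (f x).1 = (f' x).1 := by
      intro x
      have : (f x).1 ∈ Set.range (fun x => (f' x).1) := by rw [← h']; exact ⟨x, rfl⟩
      obtain ⟨x', hx'⟩ := this
      have : x' = x := by
        rw [← (f' x').2.1, ← (f x).2.1]; simp only at hx'; rw [hx', (f x).2.1]
      subst this
      exact hx'.symm
    have hπ : π = π' := by
      ext x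
      rw [← (f x).2.2, hf x, (f' x).2.2]
    subst hπ
    congr 1
    funext x
    exact Subtype.ext (hf x)
  · rintro ⟨T, hT1, hT2⟩
    have hT1' := hT1
    have hT2' := hT2
    choose s hs1 hs2 using hT1'
    choose r hr1 hr2 using hT2'
    have hsr : ∀ x, r (β (s x)) = s x := fun x => (hr2 _ _ ⟨(hs1 x).1, rfl⟩).symm
    have hrs : ∀ y, s (α (r y)) = r y := fun y => (hs2 _ _ ⟨(hr1 y).1, rfl⟩).symm
    let π : X ≃ Y :=
      { toFun := fun x => β (s x)
        invFun := fun y => α (r y)
        left_inv := fun x => by simp only; rw [hsr]; exact (hs1 x).2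
        right_inv := fun y => by simp only; rw [hrs]; exact (hr1 y).2 }
    refine ⟨⟨π, fun x => ⟨s x, (hs1 x).2, rfl⟩⟩, ?_⟩
    apply Subtype.ext
    ext t
    simp only [toDT, Set.mem_range]
    constructor
    · rintro ⟨x, rfl⟩; exact (hs1 x).1
    · intro ht
      exact ⟨α t, (hs2 _ _ ⟨ht, rfl⟩).symm⟩

variable [Fintype E] [Fintype X] [Fintype Y] [Fintype Q]

open Classical in
theorem card_DTa (α : E → X) (β : E → Y) :
    Nat.card (DTa α β) = ∑ π : X ≃ Y, ∏ x, Nat.card {e : E // α e = x ∧ β e = π x} := by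
  rw [← Nat.card_eq_of_bijective _ (toDT_bij α β), Nat.card_sigma]
  refine Finset.sum_congr rfl fun π _ => ?_
  rw [Nat.card_pi]

open Classical in
/-- Main counting formula. -/
theorem card_DTa_eq (α : E → X) (β : E → Y) (δ : X → Q) (δ' : Y → Q)
    (hδ : ∀ e, δ (α e) = δ' (β e)) (k : X → ℕ)
    (hk : ∀ x y, δ x = δ' y → Nat.card {e : E // α e = x ∧ β e = y} = k x)
    (hc : ∀ q, Nat.card {x // δ x = q} = Nat.card {y // δ' y = q}) :
    Nat.card (DTa α β) = (∏ q, (Nat.card {x // δ x = q})!) * ∏ x, k x := by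
  have e : ∀ q, Nonempty ({x // δ x = q} ≃ {y // δ' y = q}) := by
    intro q
    exact ⟨Fintype.equivOfCardEq (by simpa [Nat.card_eq_fintype_card] using hc q)⟩
  have e' : ∀ q, ({x // δ x = q} ≃ {y // δ' y = q}) := fun q => (e q).some
  let π₀ : X ≃ Y := (Equiv.sigmaFiberEquiv δ).symm.trans
    ((Equiv.sigmaCongrRight e').trans (Equiv.sigmaFiberEquiv δ'))
  have hπ₀ : ∀ x, δ' (π₀ x) = δ x := by
    intro x
    exact (e' (δ x) ⟨x, rfl⟩).2
  rw [card_DTa]
  have h1 : ∀ π : X ≃ Y, ∏ x, Nat.card {e : E // α e = x ∧ β e = π x} =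
      if (∀ x, δ' (π x) = δ x) then ∏ x, k x else 0 := by
    intro π
    split_ifs with h
    · exact Finset.prod_congr rfl fun x _ => hk x (π x) (h x).symm
    · push Not at h
      obtain ⟨x, hx⟩ := h
      apply Finset.prod_eq_zero (Finset.mem_univ x)
      rw [Nat.card_eq_zero]
      left
      constructor
      rintro ⟨e, he1, he2⟩
      apply hx
      rw [← he1, ← he2] at *
      rw [← he2, hδ]
  rw [Finset.sum_congr rfl (fun π _ => h1 π), ← Finset.sum_filter, Finset.sum_const, smul_eq_mul]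
  congr 1
  have h2 : (Finset.univ.filter (fun π : X ≃ Y => ∀ x, δ' (π x) = δ x)).card =
      Fintype.card {g : Equiv.Perm X // δ ∘ g = δ} := by
    rw [Fintype.card_subtype]
    refine Finset.card_bij' (fun π _ => π.trans π₀.symm) (fun g _ => g.trans π₀) ?_ ?_ ?_ ?_
    · intro π hπ
      simp only [Finset.mem_filter, Finset.mem_univ, true_and] at hπ ⊢
      funext x
      simp only [Function.comp, Equiv.trans_apply]
      rw [← hπ₀, Equiv.apply_symm_apply, hπ]
    · intro g hg
      simp only [Finset.mem_filter, Finset.mem_univ, true_and] at hg ⊢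
      intro x
      simp only [Equiv.trans_apply]
      rw [hπ₀]
      exact congrFun hg x
    · intro π _; ext x; simp
    · intro g _; ext x; simp
  rw [h2, DomMulAct.stabilizer_card]
  refine Finset.prod_congr rfl fun q _ => ?_
  rw [Nat.card_eq_fintype_card]

end Abstract

end Pool.Agent.R864.TP
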