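import Pool.Agent.R864.TPGroup

/-!
The group `C₁₆ ⋊ C₄` and the lower bound.
-/

namespace Pool.Agent.R864.TP

open scoped Nat

/-- Underlying set of the group `C₁₆ ⋊ C₄`. -/
def W : Type := ZMod 16 × ZMod 4

instance : DecidableEq W := (inferInstance : DecidableEq (ZMod 16 × ZMod 4))
instance : Fintype W := (inferInstance : Fintype (ZMod 16 × ZMod 4))

/-- the powers of `5` modulo `16` -/
def u (j : ZMod 4) : ZMod 16 := 5 ^ j.val

theorem u_add : ∀ j k : ZMod 4, u (j + k) = u j * u k := by decide

theorem u_zero : u 0 = 1 := by decide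

/-- `(i, j) (i', j') = (i + 5^j i', j + j')` -/
instance : Mul W := ⟨fun x y => (x.1 + u x.2 * y.1, x.2 + y.2)⟩
instance : One W := ⟨((0 : ZMod 16), (0 : ZMod 4))⟩
instance : Inv W := ⟨fun x => (-(u (-x.2) * x.1), -x.2)⟩

theorem W.mul_def (x y : W) : x * y = ((x.1 + u x.2 * y.1, x.2 + y.2) : ZMod 16 × ZMod 4) := rfl
theorem W.one_def : (1 : W) = ((0, 0) : ZMod 16 × ZMod 4) := rfl
theorem W.inv_def (x : W) : x⁻¹ = ((-(u (-x.2) * x.1), -x.2) : ZMod 16 × ZMod 4) := rfl

instance : Group W := Group.ofLeftAxioms
  (by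
    intro a b c
    apply Prod.ext
    · change a.1 + u a.2 * b.1 + u (a.2 + b.2) * c.1 = a.1 + u a.2 * (b.1 + u b.2 * c.1)
      rw [u_add]; ring
    · change a.2 + b.2 + c.2 = a.2 + (b.2 + c.2)
      ring)
  (by
    intro a
    apply Prod.ext
    · change 0 + u 0 * a.1 = a.1
      rw [u_zero]; ring
    · change 0 + a.2 = a.2
      ring)
  (by
    intro a
    apply Prod.ext
    · change -(u (-a.2) * a.1) + u (-a.2) * a.1 = 0
      ring
    · change -a.2 + a.2 = 0
      ring)

/-- The subgroup `{(0, j)}`. -/
def H₀ : Subgroup W where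
  carrier := {x | x.1 = 0}
  mul_mem' := by
    intro a b ha hb
    change a.1 + u a.2 * b.1 = 0
    rw [Set.mem_ofPred_eq] at ha hb
    rw [ha, hb]; ring
  one_mem' := rfl
  inv_mem' := by
    intro a ha
    change -(u (-a.2) * a.1) = 0
    rw [Set.mem_ofPred_eq] at ha
    rw [ha]; ring

instance : DecidablePred (· ∈ H₀) := fun x => (inferInstance : Decidable (x.1 = 0))

theorem card_H₀ : Nat.card H₀ = 4 := by
  rw [Nat.card_eq_fintype_card]
  decide +kernel

/-- the values of `s` -/
def sv (i : ZMod 16) : ℕ := if i.val % 2 = 1 then 1 else if i.val % 4 = 2 then 2 else 4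

theorem s_H₀ (g : W) : s H₀ g = sv g.1 := by
  unfold s
  rw [Nat.card_eq_fintype_card]
  revert g
  decide +kernel

theorem F_one : F 1 = 1 := by norm_num [F]
theorem F_two : F 2 = 1 / 2 := by norm_num [F]
theorem F_four : F 4 = 3 / 32 := by norm_num [F, Nat.factorial]

theorem P_H₀_pow : P H₀ ^ 16 = (9 / 4096 : ℝ) ^ 16 := by
  have h := P_pow H₀
  rw [card_H₀] at h
  norm_num only at h
  rw [h]
  have h1 : ∏ g : W, F (4 / s H₀ g) ^ s H₀ g = ∏ g : ZMod 16 × ZMod 4, F (4 / sv g.1) ^ sv g.1 := by
    refine Finset.prod_congr rfl fun g _ => ?_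
    rw [s_H₀]
  rw [h1, Fintype.prod_prod_type]
  simp only [Finset.prod_const, Finset.card_univ, ZMod.card]
  have h2 : ∀ x : ZMod 16, F (4 / sv x) ^ sv x ^ 1 =
      if sv x = 1 then 3 / 32 else if sv x = 2 then 1 / 4 else 1 := by
    intro x
    have : sv x = 1 ∨ sv x = 2 ∨ sv x = 4 := by revert x; decide
    rcases this with h | h | h <;> rw [h] <;> norm_num [F_one, F_two, F_four]
  simp only [pow_one] at h2
  rw [Finset.prod_congr rfl (fun x _ => by rw [h2 x])]
  rw [Finset.prod_pow]
  rw [Finset.prod_ite, Finset.prod_ite, Finset.prod_const, Finset.prod_const, Finset.prod_const,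
    Finset.filter_filter, Finset.filter_filter]
  have e1 : (Finset.univ.filter (fun x : ZMod 16 => sv x = 1)).card = 8 := by decide
  have e2 : (Finset.univ.filter (fun x : ZMod 16 => ¬ sv x = 1 ∧ sv x = 2)).card = 4 := by decide
  rw [e1, e2]
  norm_num

theorem P_H₀ : P H₀ = 9 / 4096 := by
  have h := P_H₀_pow
  have h0 := P_nonneg H₀
  exact (pow_left_inj₀ h0 (by norm_num) (by norm_num)).mp h

open Classical in
/-- Lower bound for subgroups of index at most 2 over the core. -/
theorem P_lower {G : Type} [Group G] [Fintype G] (H : Subgroup G)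
    (hs : ∀ g, s H g = Nat.card H ∨ 2 * s H g = Nat.card H)
    (hc : (Finset.univ.filter (fun g => s H g ≠ Nat.card H)).card ≤ 16 * Nat.card H) :
    1 / 256 ≤ P H := by
  have hH : 0 < Nat.card H := Nat.card_pos
  have h := P_pow H
  have h1 : (P H ^ (Nat.card H ^ 2)) ^ 2 =
      ∏ g : G, (if s H g ≠ Nat.card H then (1 / 2 : ℝ) ^ Nat.card H else 1) := by
    rw [h, ← Finset.prod_pow]
    refine Finset.prod_congr rfl fun g _ => ?_
    rcases hs g with hg | hg
    · rw [if_neg (by simpa using hg), hg, Nat.div_self hH, F_one]; simp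
    · have hpos : 0 < s H g := by omega
      rw [if_pos (by omega), ← hg, Nat.mul_div_cancel _ hpos, F_two, ← pow_mul, mul_comm]
  have h2 : (P H ^ (Nat.card H ^ 2)) ^ 2 =
      ((1 / 2 : ℝ) ^ Nat.card H) ^ (Finset.univ.filter (fun g => s H g ≠ Nat.card H)).card := by
    rw [h1, Finset.prod_ite, Finset.prod_const, Finset.prod_const_one, mul_one]
  have h3 : ((1 / 256 : ℝ)) ^ (Nat.card H ^ 2 * 2) ≤ P H ^ (Nat.card H ^ 2 * 2) := by
    rw [pow_mul (P H), h2, ← pow_mul]
    have : (1 / 256 : ℝ) ^ (Nat.card H ^ 2 * 2) = (1 / 2 : ℝ) ^ (Nat.card H * (16 * Nat.card H)) := by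
      rw [show (1 / 256 : ℝ) = (1 / 2) ^ 8 by norm_num, ← pow_mul]
      congr 1
      ring
    rw [this]
    apply pow_le_pow_of_le_one (by norm_num) (by norm_num)
    exact Nat.mul_le_mul_left _ hc
  exact le_of_pow_le_pow_left₀ (by positivity) (P_nonneg H) h3

theorem s_mul {G : Type} [Group G] [Finite G] (H : Subgroup G) (g : G) :
    ∃ m, m * s H g = Nat.card H := ⟨_, by rw [s_eq]; exact card_orb H _⟩

theorem core_le_s {G : Type} [Group G] [Finite G] (H : Subgroup G) (g : G) :
    Nat.card H.normalCore ≤ s H g := by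
  unfold s
  refine Nat.card_le_card_of_injective
    (fun n : H.normalCore => (⟨⟨n.1, H.normalCore_le n.2⟩, ?_⟩ : {h : H // g⁻¹ * h * g ∈ H})) ?_
  · apply H.normalCore_le
    have := (inferInstance : H.normalCore.Normal).conj_mem n.1 n.2 g⁻¹
    simpa using this
  · intro a b hab
    apply Subtype.ext
    exact congrArg (fun z => z.1.1) hab

theorem hs_of_core {G : Type} [Group G] [Finite G] (H : Subgroup G)
    (h2 : H.normalCore.relIndex H ≤ 2) (g : G) :
    s H g = Nat.card H ∨ 2 * s H g = Nat.card H := by
  obtain ⟨m, hm⟩ := s_mul H g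
  have h1 := core_le_s H g
  have h3 : H.normalCore.relIndex H * Nat.card H.normalCore = Nat.card H := by
    have := (H.normalCore.subgroupOf H).index_mul_card
    rw [Subgroup.relIndex, ← this]
    congr 1
    exact (Nat.card_congr (Subgroup.subgroupOfEquivOfLe H.normalCore_le).toEquiv).symm
  have h4 : Nat.card H ≤ 2 * s H g := by
    calc Nat.card H = H.normalCore.relIndex H * Nat.card H.normalCore := h3.symm
      _ ≤ 2 * s H g := Nat.mul_le_mul h2 h1
  have h5 : 0 < Nat.card H := Nat.card_pos
  have h6 : 0 < s H g := by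
    rcases Nat.eq_zero_or_pos (s H g) with h | h
    · rw [h] at hm; omega
    · exact h
  have h7 : m ≤ 2 := by
    by_contra hlt
    push Not at hlt
    have : 3 * s H g ≤ m * s H g := Nat.mul_le_mul_right _ hlt
    omega
  interval_cases m
  · omega
  · left; omega
  · right; omega

theorem involution_count : ∀ t : W, t * t = 1 →
    (Finset.univ.filter (fun g : W => g⁻¹ * t * g ≠ t)).card ≤ 32 := by
  decide +kernel

theorem card_W : Nat.card W = 64 := by
  rw [Nat.card_eq_fintype_card]
  decide +kernel

open Classical in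
theorem count_W (H : Subgroup W) (hs : ∀ g, s H g = Nat.card H ∨ 2 * s H g = Nat.card H) :
    (Finset.univ.filter (fun g => s H g ≠ Nat.card H)).card ≤ 16 * Nat.card H := by
  have hd : Nat.card H ∣ 64 := by rw [← card_W]; exact H.card_subgroup_dvd_card
  have h0 : 0 < Nat.card H := Nat.card_pos
  rcases Nat.lt_or_ge (Nat.card H) 4 with h | h
  · have : Nat.card H = 1 ∨ Nat.card H = 2 := by
      interval_cases Nat.card H
      · left; rfl
      · right; rfl
      · omega
    rcases this with h1 | h1
    · have : (Finset.univ.filter (fun g => s H g ≠ Nat.card H)) = ∅ := by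
        rw [Finset.filter_eq_empty_iff]
        intro g _
        rcases hs g with h | h
        · simpa using h
        · omega
      rw [this]; simp
    · obtain ⟨t, ht⟩ : ∃ t : H, t ≠ 1 := by
        have : Nontrivial H := Finite.one_lt_card_iff_nontrivial.mp (by omega)
        exact exists_ne 1
      have ht2 : (t : W) * t = 1 := by
        have : t ^ 2 = 1 := by rw [← h1]; exact pow_card_eq_one'
        rw [sq] at this
        exact congrArg Subtype.val this
      have hH : ∀ h : H, h = 1 ∨ h = t := by
        intro h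
        by_contra hcon
        push Not at hcon
        have : ({1, t, h} : Finset H).card ≤ Nat.card H := by
          rw [Nat.card_eq_fintype_card]; exact Finset.card_le_univ _
        rw [h1, Finset.card_insert_of_notMem, Finset.card_insert_of_notMem,
          Finset.card_singleton] at this
        · omega
        · simpa using hcon.2.symm
        · simp only [Finset.mem_insert, Finset.mem_singleton, not_or]
          exact ⟨ht.symm, hcon.1.symm⟩
      refine le_trans (Finset.card_le_card ?_) ((involution_count t ht2).trans (by omega))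
      intro g
      simp only [Finset.mem_filter, Finset.mem_univ, true_and]
      intro hg hcon
      apply hg
      unfold s
      apply Nat.card_congr
      refine Equiv.subtypeUnivEquiv fun h => ?_
      rcases hH h with rfl | rfl
      · simp
      · rw [hcon]; exact h.2
  · refine (Finset.card_le_univ _).trans ?_
    rw [← Nat.card_eq_fintype_card, card_W]; omega

theorem P_lower_W (H : Subgroup W) (h2 : H.normalCore.relIndex H ≤ 2) : 1 / 256 ≤ P H :=
  P_lower H (hs_of_core H h2) (count_W H (hs_of_core H h2))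

end Pool.Agent.R864.TP
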