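import Pool.Agent.R864.TPCount

/-!
The probability `P_G(H)` and its evaluation.
-/

namespace Pool.Agent.R864.TP

open scoped Nat

variable {G : Type} [Group G]

/-- `T` contains exactly one element of each left coset `g H`. -/
def IsLeftTransversal (H : Subgroup G) (T : Set G) : Prop :=
  ∀ g : G, ∃! t, t ∈ T ∧ g⁻¹ * t ∈ H

/-- `T` contains exactly one element of each right coset `H g`. -/
def IsRightTransversal (H : Subgroup G) (T : Set G) : Prop :=
  ∀ g : G, ∃! t, t ∈ T ∧ t * g⁻¹ ∈ H

/-- The set of double transversals of `H` in `G`. -/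
def DT (H : Subgroup G) : Set (Set G) :=
  {T | IsLeftTransversal H T ∧ IsRightTransversal H T}

/-- `P_G(H) = |DT_G(H)| / |H|^(G:H)`. -/
noncomputable def P (H : Subgroup G) : ℝ :=
  (Nat.card (DT H) : ℝ) / (Nat.card H : ℝ) ^ H.index

/-- The transversal probability: the infimum (a minimum for a finite group) of `P_G(H)` over all
subgroups `H` of `G`. -/
noncomputable def tp (G : Type) [Group G] : ℝ := ⨅ H : Subgroup G, P H

theorem P_nonneg (H : Subgroup G) : 0 ≤ P H := by unfold P; positivity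

theorem tp_le (H : Subgroup G) : tp G ≤ P H :=
  ciInf_le ⟨0, by rintro _ ⟨K, rfl⟩; exact P_nonneg K⟩ H

/-- the left coset map -/
def lc (H : Subgroup G) (g : G) : G ⧸ H := (g : G ⧸ H)

/-- the right coset map -/
def rc (H : Subgroup G) (g : G) : Quotient (QuotientGroup.rightRel H) :=
  Quotient.mk _ g

theorem lc_eq (H : Subgroup G) (g t : G) : lc H t = lc H g ↔ g⁻¹ * t ∈ H := by
  unfold lc
  rw [eq_comm, QuotientGroup.eq]

theorem rc_eq (H : Subgroup G) (g t : G) : rc H t = rc H g ↔ t * g⁻¹ ∈ H := by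
  unfold rc
  rw [eq_comm, Quotient.eq, QuotientGroup.rightRel_apply]

theorem DT_eq (H : Subgroup G) : DT H = DTa (lc H) (rc H) := by
  ext T
  simp only [DT, DTa, IsLeftTransversal, IsRightTransversal, Set.mem_ofPred_eq]
  constructor
  · rintro ⟨h1, h2⟩
    constructor
    · intro x
      obtain ⟨g, rfl⟩ := QuotientGroup.mk_surjective x
      have := h1 g
      simp only [← lc_eq] at this
      exact this
    · intro y
      obtain ⟨g, rfl⟩ := Quotient.mk_surjective y
      have := h2 g
      simp only [← rc_eq] at this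
      exact this
  · rintro ⟨h1, h2⟩
    constructor
    · intro g
      simp only [← lc_eq]
      exact h1 _
    · intro g
      simp only [← rc_eq]
      exact h2 _

/-- orbit map on left cosets -/
def dl (H : Subgroup G) (x : G ⧸ H) : MulAction.orbitRel.Quotient H (G ⧸ H) :=
  Quotient.mk _ x

theorem dl_eq (H : Subgroup G) (x y : G ⧸ H) : dl H x = dl H y ↔ x ∈ MulAction.orbit H y := by
  unfold dl
  rw [Quotient.eq]
  exact MulAction.orbitRel_apply

/-- orbit map on right cosets -/
def dr (H : Subgroup G) : Quotient (QuotientGroup.rightRel H) →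
    MulAction.orbitRel.Quotient H (G ⧸ H) :=
  Quotient.lift (fun g => dl H (lc H g)) (by
    intro a b hab
    have hab' : b * a⁻¹ ∈ H := QuotientGroup.rightRel_apply.mp hab
    rw [dl_eq]
    refine ⟨⟨b * a⁻¹, hab'⟩⁻¹, ?_⟩
    rw [inv_smul_eq_iff]
    change lc H b = ((b * a⁻¹ * a : G) : G ⧸ H)
    simp [lc])

theorem dr_rc (H : Subgroup G) (g : G) : dl H (lc H g) = dr H (rc H g) := rfl

/-- stabiliser size -/
noncomputable def st (H : Subgroup G) (x : G ⧸ H) : ℕ := Nat.card (MulAction.stabilizer H x)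

variable [Finite G]

theorem card_inter (H : Subgroup G) (x : G ⧸ H) (y : Quotient (QuotientGroup.rightRel H))
    (h : dl H x = dr H y) : Nat.card {e : G // lc H e = x ∧ rc H e = y} = st H x := by
  obtain ⟨g₁, rfl⟩ := Quotient.mk_surjective y
  have h' : dl H x = dl H (lc H g₁) := h
  rw [dl_eq] at h'
  obtain ⟨a, ha⟩ := h'
  have ha' : lc H (a * g₁) = x := ha
  have hb : rc H (a * g₁) = Quotient.mk _ g₁ := by
    change _ = rc H g₁
    rw [rc_eq]; simp
  generalize (a * g₁ : G) = e₀ at ha' hb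
  clear h ha
  subst ha'
  refine Nat.card_congr ⟨fun e => ⟨⟨e.1 * e₀⁻¹, ?_⟩, ?_⟩, fun s => ⟨s.1.1 * e₀, ?_, ?_⟩, ?_, ?_⟩
  · rw [← rc_eq, e.2.2, hb]
  · rw [MulAction.mem_stabilizer_iff]
    change ((e.1 * e₀⁻¹ * e₀ : G) : G ⧸ H) = _
    rw [inv_mul_cancel_right]
    exact e.2.1
  · have := s.2
    rw [MulAction.mem_stabilizer_iff] at this
    exact this
  · rw [← hb, rc_eq]
    simp
  · intro e; apply Subtype.ext; simp
  · intro s; apply Subtype.ext; apply Subtype.ext; simp

theorem card_orb (H : Subgroup G) (x : G ⧸ H) :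
    Nat.card {x' // dl H x' = dl H x} * st H x = Nat.card H := by
  classical
  have := Fintype.ofFinite G
  have e : {x' // dl H x' = dl H x} ≃ MulAction.orbit H x :=
    Equiv.subtypeEquivRight (fun x' => dl_eq H x' x)
  rw [Nat.card_congr e]
  have := Fintype.ofFinite H
  have := Fintype.ofFinite (MulAction.orbit H x)
  have := Fintype.ofFinite (MulAction.stabilizer H x)
  have := MulAction.card_orbit_mul_card_stabilizer_eq_card_group H x
  unfold st
  rw [Nat.card_eq_fintype_card, Nat.card_eq_fintype_card, Nat.card_eq_fintype_card]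
  convert this

theorem st_pos (H : Subgroup G) (x : G ⧸ H) : 0 < st H x := Nat.card_pos

theorem card_lc (H : Subgroup G) (x : G ⧸ H) : Nat.card {e : G // lc H e = x} = Nat.card H := by
  obtain ⟨g, rfl⟩ := QuotientGroup.mk_surjective x
  refine Nat.card_congr ⟨fun e => ⟨g⁻¹ * e.1, ?_⟩, fun h => ⟨g * h.1, ?_⟩, ?_, ?_⟩
  · rw [← lc_eq]; exact e.2
  · change lc H _ = lc H g
    rw [lc_eq]; simp
  · intro e; apply Subtype.ext; simp
  · intro h; apply Subtype.ext; simp

theorem card_dr (H : Subgroup G) (q) :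
    Nat.card {x // dl H x = q} = Nat.card {y // dr H y = q} := by
  classical
  obtain ⟨x₀, rfl⟩ := Quotient.mk_surjective q
  change Nat.card {x // dl H x = dl H x₀} = Nat.card {y // dr H y = dl H x₀}
  have h1 := card_orb H x₀
  have h2 := card_lc H x₀
  have e : {e : G // lc H e = x₀} ≃
      Σ y : {y // dr H y = dl H x₀}, {e : G // lc H e = x₀ ∧ rc H e = y.1} :=
    { toFun := fun e => ⟨⟨rc H e.1, by rw [← dr_rc, e.2]⟩, ⟨e.1, e.2, rfl⟩⟩
      invFun := fun p => ⟨p.2.1, p.2.2.1⟩
      left_inv := fun e => rfl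
      right_inv := by
        rintro ⟨⟨y, hy⟩, ⟨e, he1, he2⟩⟩
        simp only at he2
        subst he2
        rfl }
  have := Fintype.ofFinite {y // dr H y = dl H x₀}
  rw [Nat.card_congr e, Nat.card_sigma] at h2
  have h3 : ∀ y : {y // dr H y = dl H x₀},
      Nat.card {e : G // lc H e = x₀ ∧ rc H e = y.1} = st H x₀ :=
    fun y => card_inter H x₀ y.1 y.2.symm
  rw [Finset.sum_congr rfl (fun y _ => h3 y), Finset.sum_const, smul_eq_mul, Finset.card_univ] at h2
  rw [Nat.card_eq_fintype_card (α := {y // dr H y = dl H x₀})]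
  exact Nat.eq_of_mul_eq_mul_right (st_pos H x₀) (h1.trans h2.symm)

open Classical in
theorem card_DT (H : Subgroup G) [Fintype (G ⧸ H)]
    [Fintype (MulAction.orbitRel.Quotient H (G ⧸ H))] :
    Nat.card (DT H) = (∏ q, (Nat.card {x // dl H x = q})!) * ∏ x, st H x := by
  have := Fintype.ofFinite G
  have := Fintype.ofFinite (Quotient (QuotientGroup.rightRel H))
  rw [DT_eq]
  exact card_DTa_eq (lc H) (rc H) (dl H) (dr H) (fun e => rfl) (st H)
    (fun x y h => card_inter H x y h) (card_dr H)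

/-- `F(m) = m!/m^m` -/
noncomputable def F (m : ℕ) : ℝ := (m ! : ℝ) / (m : ℝ) ^ m

open Classical in
theorem prod_comp_eq {A B : Type*} [Fintype A] [Fintype B] (f : A → B) (Φ : B → ℝ) :
    ∏ a, Φ (f a) = ∏ b, Φ b ^ Nat.card {a // f a = b} := by
  rw [← Fintype.prod_fiberwise f (fun a => Φ (f a))]
  refine Finset.prod_congr rfl fun b _ => ?_
  rw [Finset.prod_congr rfl (fun (i : {a // f a = b}) _ => by rw [i.2]), Finset.prod_const,
    Finset.card_univ, Nat.card_eq_fintype_card]

open Classical in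
theorem P_eq (H : Subgroup G) [Fintype (MulAction.orbitRel.Quotient H (G ⧸ H))] :
    P H = ∏ q : MulAction.orbitRel.Quotient H (G ⧸ H), F (Nat.card {x // dl H x = q}) := by
  have := Fintype.ofFinite (G ⧸ H)
  unfold P
  rw [card_DT H]
  have h1 : ((Nat.card H : ℝ)) ^ H.index =
      (∏ x : G ⧸ H, (Nat.card {x' // dl H x' = dl H x} : ℝ)) * ∏ x : G ⧸ H, (st H x : ℝ) := by
    rw [← Finset.prod_mul_distrib]
    rw [Finset.prod_congr rfl (fun x _ => by rw [← Nat.cast_mul, card_orb H x]),
      Finset.prod_const, Finset.card_univ, Subgroup.index, Nat.card_eq_fintype_card (α := G ⧸ H)]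
  have h2 : (∏ x : G ⧸ H, (Nat.card {x' // dl H x' = dl H x} : ℝ)) =
      ∏ q : MulAction.orbitRel.Quotient H (G ⧸ H),
        (Nat.card {x // dl H x = q} : ℝ) ^ Nat.card {x // dl H x = q} :=
    prod_comp_eq (dl H) (fun q => (Nat.card {x' // dl H x' = q} : ℝ))
  have h3 : (∏ x : G ⧸ H, (st H x : ℝ)) ≠ 0 :=
    Finset.prod_ne_zero_iff.mpr (fun x _ => by have := st_pos H x; positivity)
  rw [h1, h2]
  push_cast
  rw [mul_div_mul_right _ _ h3, ← Finset.prod_div_distrib]
  rfl

/-- number of `h ∈ H` with `g⁻¹ h g ∈ H` -/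
noncomputable def s (H : Subgroup G) (g : G) : ℕ := Nat.card {h : H // g⁻¹ * h * g ∈ H}

theorem s_eq (H : Subgroup G) (g : G) : s H g = st H (lc H g) := by
  unfold s st
  refine Nat.card_congr (Equiv.subtypeEquivRight fun h => ?_)
  rw [MulAction.mem_stabilizer_iff]
  change _ ↔ lc H (h * g) = lc H g
  rw [lc_eq, mul_assoc]

open Classical in
/-- The probability in terms of the numbers `s(g)`. -/
theorem P_pow (H : Subgroup G) [Fintype G] :
    P H ^ (Nat.card H ^ 2) = ∏ g : G, F (Nat.card H / s H g) ^ s H g := by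
  have := Fintype.ofFinite (G ⧸ H)
  have := Fintype.ofFinite (MulAction.orbitRel.Quotient H (G ⧸ H))
  have h1 : ∏ g : G, F (Nat.card H / s H g) ^ s H g =
      ∏ x : G ⧸ H, (F (Nat.card H / st H x) ^ st H x) ^ Nat.card H := by
    simp only [s_eq]
    rw [prod_comp_eq (lc H) (fun x => F (Nat.card H / st H x) ^ st H x)]
    exact Finset.prod_congr rfl fun x _ => by rw [card_lc]
  have h2 : ∀ x : G ⧸ H, (F (Nat.card H / st H x) ^ st H x) ^ Nat.card H =
      F (Nat.card {x' // dl H x' = dl H x}) ^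
        (Nat.card H / Nat.card {x' // dl H x' = dl H x} * Nat.card H) := by
    intro x
    have h := card_orb H x
    have hs := st_pos H x
    have ho : 0 < Nat.card {x' // dl H x' = dl H x} :=
      Nat.pos_of_ne_zero (by
        intro h0; rw [h0, zero_mul] at h
        exact absurd h (ne_of_lt (Nat.card_pos (α := H))))
    rw [← pow_mul]
    congr 2
    · rw [← h, Nat.mul_div_cancel _ hs]
    · rw [← h, Nat.mul_div_cancel_left _ ho]
  rw [h1, Finset.prod_congr rfl (fun x _ => h2 x),
    prod_comp_eq (dl H) (fun q => F (Nat.card {x' // dl H x' = q}) ^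
        (Nat.card H / Nat.card {x' // dl H x' = q} * Nat.card H)), P_eq, ← Finset.prod_pow]
  refine Finset.prod_congr rfl fun q _ => ?_
  rw [← pow_mul]
  congr 1
  obtain ⟨x₀, rfl⟩ := Quotient.mk_surjective q
  change _ = Nat.card H / Nat.card {x' // dl H x' = dl H x₀} * Nat.card H *
    Nat.card {x' // dl H x' = dl H x₀}
  have h := card_orb H x₀
  have : Nat.card H / Nat.card {x' // dl H x' = dl H x₀} *
    Nat.card {x' // dl H x' = dl H x₀} = Nat.card H :=
    Nat.div_mul_cancel ⟨_, h.symm⟩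
  rw [mul_right_comm, this, sq]

end Pool.Agent.R864.TP
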