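import Mathlib
import Pool.Agent.R864.Surf5

/-!
MP_340332_ag, Q1: there is an affine variety of type B which is not a rigid factor.
`Y : z² = (x-1)(x y - 1)` and `Z : z² = (x-1)(x² y - 1)` are not isomorphic, have isomorphic
cylinders, and are of type B.
-/

set_option autoImplicit false
set_option linter.unusedSectionVars false

open Polynomial

namespace Pool.Agent.R864.TypeBNotRigidFactor

open Pool.Agent.R864.Cyl Pool.Agent.R864.Surf

universe u

/-- A variety with coordinate ring `A` is rigid if `0` is its only locally nilpotent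
derivation. -/
def Rigid (K : Type u) [Field K] (A : Type u) [CommRing A] [Algebra K A] : Prop :=
  ∀ D : Derivation K A A, IsLND D → D = 0

/-- A variety with coordinate ring `A` is of type B if `HD^*(A[u])` is a proper subalgebra of
`A[u]` which is not finitely generated. -/
def TypeB (K : Type u) [Field K] (A : Type u) [CommRing A] [Algebra K A] : Prop :=
  HDstar K A[X] ≠ ⊤ ∧ ¬ (HDstar K A[X]).FG

section iso

variable (K : Type u) [Field K] [CharZero K]

/-- coordinate ring of `(x-1) x y = z² + (x-1)` -/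
abbrev A1 : Type u := S ((X - 1 : K[X]) * X) ((X - 1 : K[X]) * 1)
/-- coordinate ring of `(x-1) x² y = z² + (x-1)` -/
abbrev A2 : Type u := S ((X - 1 : K[X]) * X ^ 2) ((X - 1 : K[X]) * 1)

/-- `x` on the first cylinder -/
noncomputable def x1 : (A1 K)[X] := C (x _ _)
/-- `y` on the first cylinder -/
noncomputable def y1 : (A1 K)[X] := C (y _ _)
/-- `z` on the first cylinder -/
noncomputable def z1 : (A1 K)[X] := C (z _ _)
/-- `x` on the second cylinder -/
noncomputable def x2 : (A2 K)[X] := C (x _ _)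
/-- `y` on the second cylinder -/
noncomputable def y2 : (A2 K)[X] := C (y _ _)
/-- `z` on the second cylinder -/
noncomputable def z2 : (A2 K)[X] := C (z _ _)

theorem r1 : (x1 K - 1) * x1 K * y1 K = z1 K ^ 2 + (x1 K - 1) := by
  have h := congrArg (C : A1 K → (A1 K)[X]) (rel_eq ((X - 1 : K[X]) * X) ((X - 1 : K[X]) * 1))
  simp only [map_mul, map_add, map_pow, map_sub, aeval_X, map_one] at h
  unfold x1 y1 z1
  linear_combination h

theorem r2 : (x2 K - 1) * x2 K ^ 2 * y2 K = z2 K ^ 2 + (x2 K - 1) := by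
  have h := congrArg (C : A2 K → (A2 K)[X])
    (rel_eq ((X - 1 : K[X]) * X ^ 2) ((X - 1 : K[X]) * 1))
  simp only [map_mul, map_add, map_pow, map_sub, aeval_X, map_one] at h
  unfold x2 y2 z2
  linear_combination h

/-- `1/2` -/
noncomputable def half (B : Type u) [CommRing B] [Algebra K B] : B := algebraMap K B 2⁻¹

theorem two_half (B : Type u) [CommRing B] [Algebra K B] : 2 * half K B = 1 := by
  have : (2 : B) = algebraMap K B 2 := by rw [map_ofNat]
  unfold half
  rw [this, ← map_mul, mul_inv_cancel₀ two_ne_zero, map_one]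

/-- image of `z₁` -/
noncomputable def Z1 : (A2 K)[X] := z2 K - x2 K * (x2 K - 1) * X
/-- image of `y₁` -/
noncomputable def Y1 : (A2 K)[X] :=
  x2 K * y2 K - 2 * X * z2 K + x2 K * (x2 K - 1) * X ^ 2
/-- image of `v` -/
noncomputable def V : (A2 K)[X] :=
  X + half K (A2 K)[X] * (y2 K * z2 K - 3 * x2 K * (x2 K - 1) * y2 K * X
    + 3 * (x2 K - 1) * X ^ 2 * z2 K - x2 K * (x2 K - 1) ^ 2 * X ^ 3)
/-- image of `u` -/
noncomputable def U : (A1 K)[X] := x1 K * X - half K (A1 K)[X] * (y1 K * z1 K)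
/-- image of `z₂` -/
noncomputable def Z2 : (A1 K)[X] := z1 K + x1 K * (x1 K - 1) * U K
/-- image of `y₂` -/
noncomputable def Y2 : (A1 K)[X] :=
  y1 K * (1 - (x1 K - 1) * y1 K) + 2 * X * z1 K + (x1 K - 1) * U K ^ 2

theorem hY1 : (x2 K - 1) * x2 K * Y1 K = Z1 K ^ 2 + (x2 K - 1) := by
  unfold Y1 Z1
  linear_combination r2 K

theorem hY2 : (x1 K - 1) * x1 K ^ 2 * Y2 K = Z2 K ^ 2 + (x1 K - 1) := by
  have h := two_half K (A1 K)[X]
  unfold Y2 Z2 U
  linear_combination (1 - x1 K * (x1 K - 1) * y1 K) * r1 K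
    + (x1 K * (x1 K - 1) * y1 K * z1 K ^ 2) * h

theorem hV : x2 K * V K = X + half K (A2 K)[X] * (Y1 K * Z1 K) := by
  have h := two_half K (A2 K)[X]
  unfold V Y1 Z1
  linear_combination (-2 * half K (A2 K)[X] * X) * r2 K - (x2 K - 1) * X * h

theorem rel12 : aeval (x2 K) ((X - 1 : K[X]) * X) * Y1 K =
    Z1 K ^ 2 + aeval (x2 K) ((X - 1 : K[X]) * 1) := by
  simp only [map_mul, map_sub, aeval_X, map_one]
  linear_combination hY1 K

theorem rel21 : aeval (x1 K) ((X - 1 : K[X]) * X ^ 2) * Y2 K =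
    Z2 K ^ 2 + aeval (x1 K) ((X - 1 : K[X]) * 1) := by
  simp only [map_mul, map_sub, aeval_X, map_one, map_pow]
  linear_combination hY2 K

/-- first homomorphism -/
noncomputable def f12 : (A1 K)[X] →ₐ[K] (A2 K)[X] :=
  Polynomial.eval₂AlgHom (lift _ _ (x2 K) (Y1 K) (Z1 K) (rel12 K)) (V K)
    (fun _ => Commute.all _ _)

/-- second homomorphism -/
noncomputable def f21 : (A2 K)[X] →ₐ[K] (A1 K)[X] :=
  Polynomial.eval₂AlgHom (lift _ _ (x1 K) (Y2 K) (Z2 K) (rel21 K)) (U K)
    (fun _ => Commute.all _ _)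

theorem f12_x : f12 K (x1 K) = x2 K := by
  unfold f12 x1
  exact (Polynomial.eval₂_C _ _).trans (lift_x (rel12 K))
theorem f12_y : f12 K (y1 K) = Y1 K := by
  unfold f12 y1
  exact (Polynomial.eval₂_C _ _).trans (lift_y (rel12 K))
theorem f12_z : f12 K (z1 K) = Z1 K := by
  unfold f12 z1
  exact (Polynomial.eval₂_C _ _).trans (lift_z (rel12 K))
theorem f12_X : f12 K X = V K := Polynomial.eval₂_X _ _
theorem f21_x : f21 K (x2 K) = x1 K := by
  unfold f21 x2
  exact (Polynomial.eval₂_C _ _).trans (lift_x (rel21 K))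
theorem f21_y : f21 K (y2 K) = Y2 K := by
  unfold f21 y2
  exact (Polynomial.eval₂_C _ _).trans (lift_y (rel21 K))
theorem f21_z : f21 K (z2 K) = Z2 K := by
  unfold f21 z2
  exact (Polynomial.eval₂_C _ _).trans (lift_z (rel21 K))
theorem f21_X : f21 K X = U K := Polynomial.eval₂_X _ _

theorem half_map {B C : Type u} [CommRing B] [CommRing C] [Algebra K B] [Algebra K C]
    (f : B →ₐ[K] C) : f (half K B) = half K C := f.commutes _

theorem m1 : ((X - 1 : K[X]) * X).Monic := by
  have : (X - 1 : K[X]).Monic := by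
    have := monic_X_sub_C (1 : K)
    rwa [C_1] at this
  exact this.mul monic_X

theorem m2 : ((X - 1 : K[X]) * X ^ 2).Monic := by
  have : (X - 1 : K[X]).Monic := by
    have := monic_X_sub_C (1 : K)
    rwa [C_1] at this
  exact this.mul (monic_X_pow 2)

theorem d1 : ((X - 1 : K[X]) * X).natDegree = 2 := by
  have h1 : (X - 1 : K[X]) = X - C 1 := by rw [C_1]
  rw [h1, natDegree_mul (X_sub_C_ne_zero 1) X_ne_zero, natDegree_X_sub_C, natDegree_X]

theorem d2 : ((X - 1 : K[X]) * X ^ 2).natDegree = 3 := by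
  have h1 : (X - 1 : K[X]) = X - C 1 := by rw [C_1]
  rw [h1, natDegree_mul (X_sub_C_ne_zero 1) (pow_ne_zero 2 X_ne_zero), natDegree_X_sub_C,
    natDegree_X_pow]

theorem x1_ne : x1 K ≠ 0 := by
  intro h
  have h1 : x ((X - 1 : K[X]) * X) ((X - 1 : K[X]) * 1) = 0 := C_eq_zero.1 h
  have h2 : (X : K[X]) = 0 := aeval_x_injective (q := (X - 1 : K[X]) * 1) (m1 K) (by
    rw [aeval_X, h1, map_zero])
  exact X_ne_zero h2

theorem comp21_12 : (f12 K).comp (f21 K) = AlgHom.id K _ := by
  have := isDomain (q := (X - 1 : K[X]) * 1) (m2 K)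
  apply cyl_hom_ext
  · change f12 K (f21 K (x2 K)) = x2 K
    rw [f21_x, f12_x]
  · change f12 K (f21 K (z2 K)) = z2 K
    rw [f21_z, Z2, U]
    simp only [map_add, map_mul, map_sub, map_one, f12_x, f12_z, f12_y, f12_X, half_map]
    have h := hV K
    unfold Z1 at h ⊢
    linear_combination (x2 K * (x2 K - 1)) * h
  · change f12 K (f21 K X) = X
    rw [f21_X, U]
    simp only [map_mul, map_sub, f12_x, f12_z, f12_y, f12_X, half_map]
    linear_combination hV K
  · rw [AlgHom.comp_apply]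
    have h1 : (C (aeval (x ((X - 1 : K[X]) * X ^ 2) ((X - 1 : K[X]) * 1))
        ((X - 1 : K[X]) * X ^ 2)) : (A2 K)[X]) = (x2 K - 1) * x2 K ^ 2 := by
      simp only [map_mul, map_sub, aeval_X, map_one, map_pow]
      rfl
    rw [h1]
    simp only [map_mul, map_sub, map_one, map_pow, f21_x, f12_x]
    rw [← h1]
    intro h0
    have h2 := C_eq_zero.1 h0
    exact (m2 K).ne_zero (aeval_x_injective (q := (X - 1 : K[X]) * 1) (m2 K) (by
      rw [h2, map_zero]))

theorem comp12_21 : (f21 K).comp (f12 K) = AlgHom.id K _ := by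
  have := isDomain (q := (X - 1 : K[X]) * 1) (m1 K)
  have hz : f21 K (f12 K (z1 K)) = z1 K := by
    rw [f12_z, Z1]
    simp only [map_mul, map_sub, map_one, f21_x, f21_z, f21_X]
    unfold Z2
    ring
  have hy : f21 K (f12 K (y1 K)) = y1 K := by
    rw [f12_y, Y1]
    simp only [map_add, map_mul, map_sub, map_one, map_pow, map_ofNat, f21_x, f21_z, f21_X, f21_y]
    have h := two_half K (A1 K)[X]
    unfold Y2 Z2 U
    linear_combination (-y1 K) * r1 K + (y1 K * z1 K ^ 2) * h
  have hX : f21 K (f12 K X) = X := by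
    have h1 := congrArg (f21 K) (hV K)
    rw [map_mul, map_add, map_mul, map_mul, half_map, f21_X, f21_x, ← f12_X, ← f12_y, ← f12_z,
      hy, hz, U] at h1
    apply mul_left_cancel₀ (x1_ne K)
    linear_combination h1
  apply cyl_hom_ext
  · change f21 K (f12 K (x1 K)) = x1 K
    rw [f12_x, f21_x]
  · exact hz
  · exact hX
  · rw [AlgHom.comp_apply]
    have h1 : (C (aeval (x ((X - 1 : K[X]) * X) ((X - 1 : K[X]) * 1))
        ((X - 1 : K[X]) * X)) : (A1 K)[X]) = (x1 K - 1) * x1 K := by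
      simp only [map_mul, map_sub, aeval_X, map_one]
      rfl
    rw [h1]
    simp only [map_mul, map_sub, map_one, f21_x, f12_x]
    rw [← h1]
    intro h0
    have h2 := C_eq_zero.1 h0
    exact (m1 K).ne_zero (aeval_x_injective (q := (X - 1 : K[X]) * 1) (m1 K) (by
      rw [h2, map_zero]))

/-- the cylinders are isomorphic -/
noncomputable def cylIso : (A1 K)[X] ≃ₐ[K] (A2 K)[X] :=
  AlgEquiv.ofAlgHom (f12 K) (f21 K) (comp21_12 K) (comp12_21 K)

end iso

/-- For every field `K` of characteristic `0` there are finitely generated `K`-domains `A, B`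
(coordinate rings of `z² = (x-1)(x y - 1)` and of `z² = (x-1)(x² y - 1)`) such that
`Y = Spec A` is not rigid and of type B, `A[u] ≅ B[u]`, and `A ≇ B`.  Thus `Y` is a variety of
type B that is not a rigid factor. -/
theorem result (K : Type u) [Field K] [CharZero K] :
    ∃ (A : Type u) (_ : CommRing A) (_ : IsDomain A) (_ : Algebra K A)
      (_ : Algebra.FiniteType K A)
      (B : Type u) (_ : CommRing B) (_ : IsDomain B) (_ : Algebra K B)
      (_ : Algebra.FiniteType K B),
      ¬ Rigid K A ∧ TypeB K A ∧ Nonempty (A[X] ≃ₐ[K] B[X]) ∧ IsEmpty (A ≃ₐ[K] B) := by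
  have hdom1 : IsDomain (A1 K) := isDomain (m1 K)
  have hdom2 : IsDomain (A2 K) := isDomain (m2 K)
  refine ⟨A1 K, inferInstance, hdom1, inferInstance, inferInstance,
    A2 K, inferInstance, hdom2, inferInstance, inferInstance, ?_, ⟨?_, ?_⟩, ⟨cylIso K⟩, ?_⟩
  · intro hr
    exact del_ne_zero _ _ (m1 K) (hr (del _ _) (del_isLND _ _))
  · apply HD_ne_top
    · simp
    · simp
  · apply HD_not_fg (m1 K)
    · simp
    · simp
  · apply not_iso (m1 K) (m2 K)
    · rw [d1]
    · rw [d2]; norm_num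
    · rw [d1, d2]; norm_num

end Pool.Agent.R864.TypeBNotRigidFactor
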