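import Pool.Agent.R864.WittDefs

/-!
# A differential operator `T` with `[Δ_m, T] = T ^ m` is a function

If `Δ_0, Δ_1, Δ_2, Δ_3` are derivations of `R`, `T` is a differential operator and
`[Δ_m, T] = T ^ m`, then `T` is the multiplication by some `τ ∈ R` with `Δ_m τ = τ ^ m`.
-/

noncomputable section

namespace Pool.Agent.R864.WittW

section Leib

variable {B : Type*} [Ring B]

theorem iter_mul (δ : B →+ B) (hδ : ∀ a b, δ (a * b) = δ a * b + a * δ b) (n : ℕ) :
    ∀ (d e : ℕ) (a b : B), d + e = n → δ^[d + 1] a = 0 → δ^[e + 1] b = 0 →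
      ∃ c : ℕ, 0 < c ∧ δ^[n] (a * b) = c • (δ^[d] a * δ^[e] b) := by
  induction n with
  | zero =>
    intro d e a b h _ _
    obtain ⟨rfl, rfl⟩ : d = 0 ∧ e = 0 := by omega
    exact ⟨1, one_pos, by simp⟩
  | succ n ih =>
    intro d e a b h ha hb
    have h0 : ∀ k : ℕ, δ^[k] (0 : B) = 0 := fun k => Function.iterate_fixed (map_zero δ) k
    rcases d with _ | d
    · have ha' : δ a = 0 := by simpa using ha
      obtain ⟨e, rfl⟩ : ∃ e', e = e' + 1 := ⟨e - 1, by omega⟩
      obtain ⟨c, hc, h1⟩ := ih 0 e a (δ b) (by omega) (by simpa using ha')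
        (by rw [← Function.iterate_succ_apply]; exact hb)
      refine ⟨c, hc, ?_⟩
      rw [Function.iterate_succ_apply, hδ, ha', zero_mul, zero_add, h1,
        ← Function.iterate_succ_apply]
    · rcases e with _ | e
      · have hb' : δ b = 0 := by simpa using hb
        obtain ⟨c, hc, h1⟩ := ih d 0 (δ a) b (by omega)
          (by rw [← Function.iterate_succ_apply]; exact ha) (by simpa using hb')
        refine ⟨c, hc, ?_⟩
        rw [Function.iterate_succ_apply, hδ, hb', mul_zero, add_zero, h1,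
          ← Function.iterate_succ_apply]
      · obtain ⟨c, hc, h1⟩ := ih d (e + 1) (δ a) b (by omega)
          (by rw [← Function.iterate_succ_apply]; exact ha) hb
        obtain ⟨c', hc', h1'⟩ := ih (d + 1) e a (δ b) (by omega) ha
          (by rw [← Function.iterate_succ_apply]; exact hb)
        refine ⟨c + c', by omega, ?_⟩
        rw [Function.iterate_succ_apply, hδ, iterate_map_add, h1, h1',
          ← Function.iterate_succ_apply, ← Function.iterate_succ_apply, ← add_smul]

theorem iter_mul_zero (δ : B →+ B) (hδ : ∀ a b, δ (a * b) = δ a * b + a * δ b)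
    (d e : ℕ) (a b : B) (ha : δ^[d + 1] a = 0) (hb : δ^[e + 1] b = 0) :
    δ^[d + e + 1] (a * b) = 0 := by
  obtain ⟨c, hc, h⟩ := iter_mul δ hδ (d + e) d e a b rfl ha hb
  rw [Function.iterate_succ_apply', h, map_nsmul, hδ, ← Function.iterate_succ_apply' δ,
    ← Function.iterate_succ_apply' δ, ha, hb]
  simp

theorem iter_cube (δ : B →+ B) (hδ : ∀ a b, δ (a * b) = δ a * b + a * δ b)
    (d : ℕ) (a : B) (ha : δ^[d + 1] a = 0) :
    ∃ c : ℕ, 0 < c ∧ δ^[3 * d] (a * a * a) = c • (δ^[d] a * δ^[d] a * δ^[d] a) := by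
  obtain ⟨c, hc, h⟩ := iter_mul δ hδ (d + d) d d a a rfl ha ha
  have h' := iter_mul_zero δ hδ d d a a ha ha
  obtain ⟨c', hc', h2⟩ := iter_mul δ hδ (d + d + d) (d + d) d (a * a) a rfl h' ha
  refine ⟨c' * c, Nat.mul_pos hc' hc, ?_⟩
  have e : 3 * d = d + d + d := by ring
  rw [e, h2, h, smul_mul_assoc, smul_smul]

theorem exists_top (δ : B →+ B) {a : B} (ha : a ≠ 0) (h : ∃ N, δ^[N] a = 0) :
    ∃ d, δ^[d] a ≠ 0 ∧ δ^[d + 1] a = 0 := by
  classical
  have h1 : Nat.find h ≠ 0 := by
    intro h0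
    have := Nat.find_spec h
    rw [h0] at this
    exact ha (by simpa using this)
  refine ⟨Nat.find h - 1, Nat.find_min h (by omega), ?_⟩
  have : Nat.find h - 1 + 1 = Nat.find h := by omega
  rw [this]
  exact Nat.find_spec h

end Leib

section Ad

variable {R : Type} [CommRing R] [Algebra ℂ R]

/-- The commutator `L ↦ [L, x]` with the multiplication by `x`. -/
def adx (x : R) : Module.End ℂ R →+ Module.End ℂ R where
  toFun L := L * LinearMap.mulLeft ℂ x - LinearMap.mulLeft ℂ x * L
  map_zero' := by simp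
  map_add' a b := by noncomm_ring

theorem adx_apply (x : R) (L : Module.End ℂ R) :
    adx x L = L * LinearMap.mulLeft ℂ x - LinearMap.mulLeft ℂ x * L := rfl

theorem adx_apply_apply (x : R) (L : Module.End ℂ R) (r : R) :
    adx x L r = L (x * r) - x * L r := rfl

theorem adx_leib (x : R) (a b : Module.End ℂ R) : adx x (a * b) = adx x a * b + a * adx x b := by
  simp only [adx_apply, sub_mul, mul_sub, mul_assoc]
  abel

theorem adx_comm (x y : R) (a : Module.End ℂ R) : adx x (adx y a) = adx y (adx x a) := by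
  ext r
  simp only [adx_apply_apply]
  rw [mul_left_comm x y r]
  ring

theorem adx_iter_comm (x y : R) (n : ℕ) (a : Module.End ℂ R) :
    (adx x)^[n] (adx y a) = adx y ((adx x)^[n] a) := by
  induction n with
  | zero => rfl
  | succ n ih => rw [Function.iterate_succ_apply', Function.iterate_succ_apply', ih, adx_comm]

theorem adx_iter_iter_comm (x y : R) (n m : ℕ) (a : Module.End ℂ R) :
    (adx x)^[n] ((adx y)^[m] a) = (adx y)^[m] ((adx x)^[n] a) := by
  induction m with
  | zero => rfl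
  | succ m ih => rw [Function.iterate_succ_apply', Function.iterate_succ_apply', adx_iter_comm, ih]

theorem adx_mulLeft (x y : R) : adx x (LinearMap.mulLeft ℂ y) = 0 := by
  ext r
  simp only [adx_apply_apply, LinearMap.mulLeft_apply, LinearMap.zero_apply]
  ring

theorem adx_der (x : R) (Δ : Derivation ℂ R R) :
    adx x (Δ : R →ₗ[ℂ] R) = LinearMap.mulLeft ℂ (Δ x) := by
  ext r
  simp only [adx_apply_apply, Derivation.coeFn_coe, Derivation.leibniz, smul_eq_mul,
    LinearMap.mulLeft_apply]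
  ring

theorem adx_nil {k : ℕ} (D : Fin k → Derivation ℂ R R) (x : R) {L : Module.End ℂ R}
    (hL : L ∈ DiffOp R D) : ∃ N, (adx x)^[N] L = 0 := by
  have h0 : ∀ k : ℕ, (adx x)^[k] (0 : Module.End ℂ R) = 0 :=
    fun k => Function.iterate_fixed (map_zero (adx x)) k
  unfold DiffOp at hL
  induction hL using Algebra.adjoin_induction with
  | mem y hy =>
    rcases hy with ⟨r, rfl⟩ | ⟨j, rfl⟩
    · exact ⟨1, adx_mulLeft x r⟩
    · refine ⟨2, ?_⟩
      rw [Function.iterate_succ_apply, Function.iterate_one]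
      erw [adx_der]
      exact adx_mulLeft _ _
  | algebraMap c =>
    refine ⟨1, ?_⟩
    rw [Function.iterate_one]
    ext r
    simp only [adx_apply_apply, Module.algebraMap_end_apply, LinearMap.zero_apply]
    rw [mul_smul_comm, sub_self]
  | add a b _ _ ha hb =>
    obtain ⟨N, hN⟩ := ha
    obtain ⟨M, hM⟩ := hb
    refine ⟨N + M, ?_⟩
    rw [iterate_map_add]
    nth_rewrite 1 [add_comm N M]
    rw [Function.iterate_add_apply, hN, h0, Function.iterate_add_apply, hM, h0, add_zero]
  | mul a b _ _ ha hb =>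
    obtain ⟨N, hN⟩ := ha
    obtain ⟨M, hM⟩ := hb
    refine ⟨N + M + 1, iter_mul_zero (adx x) (adx_leib x) N M a b ?_ ?_⟩
    · rw [Function.iterate_succ_apply', hN, map_zero]
    · rw [Function.iterate_succ_apply', hM, map_zero]

theorem adx_mem {k : ℕ} (D : Fin k → Derivation ℂ R R) (x : R) {L : Module.End ℂ R}
    (hL : L ∈ DiffOp R D) : adx x L ∈ DiffOp R D := by
  have hx : LinearMap.mulLeft ℂ x ∈ DiffOp R D := Algebra.subset_adjoin (Or.inl ⟨x, rfl⟩)
  exact sub_mem (mul_mem hL hx) (mul_mem hx hL)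

theorem adx_iter_mem {k : ℕ} (D : Fin k → Derivation ℂ R R) (x : R) (n : ℕ) {L : Module.End ℂ R}
    (hL : L ∈ DiffOp R D) : (adx x)^[n] L ∈ DiffOp R D := by
  induction n with
  | zero => exact hL
  | succ n ih => rw [Function.iterate_succ_apply']; exact adx_mem D x ih

theorem nsmul_end_eq_zero {c : ℕ} (hc : 0 < c) {L : Module.End ℂ R} (h : c • L = 0) : L = 0 := by
  have h1 : ((c : ℂ)) • L = 0 := by
    rw [Nat.cast_smul_eq_nsmul]; exact h
  have h2 : (c : ℂ) ≠ 0 := by exact_mod_cast hc.ne'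
  have h3 := congrArg (fun X => ((c : ℂ))⁻¹ • X) h1
  simpa [smul_smul, inv_mul_cancel₀ h2] using h3

variable [IsDomain R]

theorem cube_ne_zero {k : ℕ} (D : Fin k → Derivation ℂ R R) (s p : R)
    (hgen : ∀ L : Module.End ℂ R, adx s L = 0 → adx p L = 0 → ∀ r, L r = r * L 1)
    {L : Module.End ℂ R} (hL : L ∈ DiffOp R D) (h0 : L ≠ 0) : L * L * L ≠ 0 := by
  intro h3
  obtain ⟨d, hd1, hd2⟩ := exists_top (adx s) h0 (adx_nil D s hL)
  set U := (adx s)^[d] L with hU
  have hUs : adx s U = 0 := by rw [hU, ← Function.iterate_succ_apply' (adx s)]; exact hd2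
  obtain ⟨c, hc, hc3⟩ := iter_cube (adx s) (adx_leib s) d L hd2
  have hU3 : U * U * U = 0 := by
    apply nsmul_end_eq_zero hc
    rw [← hc3, h3]
    exact Function.iterate_fixed (map_zero (adx s)) _
  obtain ⟨e, he1, he2⟩ := exists_top (adx p) hd1 (adx_nil D p (adx_iter_mem D s d hL))
  set V := (adx p)^[e] U with hV
  have hVp : adx p V = 0 := by rw [hV, ← Function.iterate_succ_apply' (adx p)]; exact he2
  have hVs : adx s V = 0 := by
    rw [hV, ← adx_iter_comm, hUs]
    exact Function.iterate_fixed (map_zero (adx p)) _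
  obtain ⟨c', hc', hc3'⟩ := iter_cube (adx p) (adx_leib p) e U he2
  have hV3 : V * V * V = 0 := by
    apply nsmul_end_eq_zero hc'
    rw [← hc3', hU3]
    exact Function.iterate_fixed (map_zero (adx p)) _
  have hVr := hgen V hVs hVp
  have hv : V 1 ≠ 0 := by
    intro hv
    apply he1
    ext r
    show V r = 0
    rw [hVr r, hv, mul_zero]
  have := congrArg (fun X : Module.End ℂ R => X 1) hV3
  simp only [Module.End.mul_apply, LinearMap.zero_apply] at this
  rw [hVr (V (V 1)), hVr (V 1)] at this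
  exact hv (by
    rcases mul_eq_zero.mp this with h | h
    · rcases mul_eq_zero.mp h with h | h <;> exact h
    · exact h)

omit [IsDomain R] in
theorem adx_comm_der (x : R) (Δ : Derivation ℂ R R) (k : ℕ) : ∀ T : Module.End ℂ R,
    (adx x)^[k] T = 0 →
    (adx x)^[k + 1] ((Δ : R →ₗ[ℂ] R) * T - T * (Δ : R →ₗ[ℂ] R) : Module.End ℂ R) = 0 := by
  have h0 : ∀ k : ℕ, (adx x)^[k] (0 : Module.End ℂ R) = 0 :=
    fun k => Function.iterate_fixed (map_zero (adx x)) k
  have hh : ∀ (j : ℕ) (h : R) (T : Module.End ℂ R),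
      (adx x)^[j] (LinearMap.mulLeft ℂ h * T - T * LinearMap.mulLeft ℂ h) =
      LinearMap.mulLeft ℂ h * (adx x)^[j] T - (adx x)^[j] T * LinearMap.mulLeft ℂ h := by
    intro j
    induction j with
    | zero => intro h T; rfl
    | succ j ih =>
      intro h T
      rw [Function.iterate_succ_apply, map_sub, adx_leib, adx_leib, adx_mulLeft, zero_mul,
        zero_add, mul_zero, add_zero, ih, Function.iterate_succ_apply]
  induction k with
  | zero =>
    intro T hT
    have : T = 0 := by simpa using hT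
    rw [this, mul_zero, zero_mul, sub_self]
    exact h0 _
  | succ k ih =>
    intro T hT
    rw [Function.iterate_succ_apply, map_sub, adx_leib, adx_leib]
    have e : adx x (Δ : R →ₗ[ℂ] R) * T + (Δ : R →ₗ[ℂ] R) * adx x T -
        (adx x T * (Δ : R →ₗ[ℂ] R) + T * adx x (Δ : R →ₗ[ℂ] R)) =
        ((Δ : R →ₗ[ℂ] R) * adx x T - adx x T * (Δ : R →ₗ[ℂ] R)) +
        (LinearMap.mulLeft ℂ (Δ x) * T - T * LinearMap.mulLeft ℂ (Δ x)) := by
      rw [adx_der]
      abel
    rw [e, iterate_map_add, ih (adx x T) (by rw [← Function.iterate_succ_apply]; exact hT), hh, hT]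
    simp

theorem commutes_all {k : ℕ} (D : Fin k → Derivation ℂ R R) (s p : R)
    (hgen : ∀ L : Module.End ℂ R, adx s L = 0 → adx p L = 0 → ∀ r, L r = r * L 1)
    {T : Module.End ℂ R} (hT : T ∈ DiffOp R D) (Δ : Derivation ℂ R R)
    (h3 : (Δ : R →ₗ[ℂ] R) * T - T * (Δ : R →ₗ[ℂ] R) = T * T * T) (x : R) : adx x T = 0 := by
  by_contra hne
  have hT0 : T ≠ 0 := by
    rintro rfl
    exact hne (map_zero _)
  obtain ⟨d, hd1, hd2⟩ := exists_top (adx x) hT0 (adx_nil D x hT)
  have hd0 : 1 ≤ d := by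
    by_contra h
    have : d = 0 := by omega
    subst this
    exact hne hd2
  obtain ⟨c, hc, hc3⟩ := iter_cube (adx x) (adx_leib x) d T hd2
  have h := adx_comm_der x Δ (d + 1) T hd2
  have h' : (adx x)^[3 * d] (T * T * T) = 0 := by
    rw [← h3]
    have e : 3 * d = (2 * d - 2) + (d + 1 + 1) := by omega
    rw [e, Function.iterate_add_apply, h]
    exact Function.iterate_fixed (map_zero (adx x)) _
  rw [h'] at hc3
  exact cube_ne_zero D s p hgen (adx_iter_mem D x d hT) hd1 (nsmul_end_eq_zero hc hc3.symm)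

/-- The main step. -/
theorem exists_root {k : ℕ} (D : Fin k → Derivation ℂ R R) (s p : R)
    (hgen : ∀ L : Module.End ℂ R, adx s L = 0 → adx p L = 0 → ∀ r, L r = r * L 1)
    {T : Module.End ℂ R} (hT : T ∈ DiffOp R D) (Δ : ℕ → Derivation ℂ R R)
    (hΔ : ∀ m, ((Δ m : Derivation ℂ R R) : R →ₗ[ℂ] R) * T -
      T * ((Δ m : Derivation ℂ R R) : R →ₗ[ℂ] R) = T ^ m)
    (hrel : ∀ r, Δ 2 r = s * Δ 1 r - p * Δ 0 r) : ∃ τ : R, τ * τ = s * τ - p := by
  have hcomm := commutes_all D s p hgen hT (Δ 3) (by rw [hΔ 3]; noncomm_ring)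
  have hTr : ∀ r, T r = r * T 1 := by
    intro r
    have := congrArg (fun X : Module.End ℂ R => X 1) (hcomm r)
    simp only [adx_apply_apply, mul_one, LinearMap.zero_apply] at this
    exact sub_eq_zero.mp this
  refine ⟨T 1, ?_⟩
  have e : ∀ m, Δ m (T 1) = (T ^ m) 1 := by
    intro m
    rw [← hΔ m]
    simp
  have e0 := e 0
  have e1 := e 1
  have e2 := e 2
  rw [pow_zero, Module.End.one_apply] at e0
  rw [pow_one] at e1
  rw [pow_two, Module.End.mul_apply, hTr (T 1)] at e2
  rw [← e2, hrel, e1, e0, mul_one]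

end Ad

section NoRoot

open RatFunc

theorem ratfunc_no_root (τ : RatFunc ℂ) (h : τ * τ = 2 * τ - (1 - RatFunc.X)) : False := by
  have h1 : (τ - 1) * (τ - 1) = RatFunc.X := by
    linear_combination h
  have h0 : τ - 1 ≠ 0 := by
    intro h0
    rw [h0, mul_zero] at h1
    exact RatFunc.X_ne_zero h1.symm
  have h2 := congrArg RatFunc.intDegree h1
  rw [RatFunc.intDegree_mul h0 h0, RatFunc.intDegree_X] at h2
  omega

theorem no_root {R : Type} [CommRing R] (e : R →+* RatFunc ℂ) (s p : R) (hs : e s = 2)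
    (hp : e p = 1 - RatFunc.X) : ¬ ∃ τ : R, τ * τ = s * τ - p := by
  rintro ⟨τ, hτ⟩
  apply ratfunc_no_root (e τ)
  rw [← map_mul, hτ, map_sub, map_mul, hs, hp]

end NoRoot

end Pool.Agent.R864.WittW
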