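import Mathlib

/-!
# Witt type Lie algebras, differential operators and the maps `Ψ_n`

* `VF S d` is the Lie algebra `S d` of vector fields `f d`, `f ∈ S`, with the bracket
  `[f d, g d] = (f g' - f' g) d`;
* `Wm = ℂ[t]∂`, `gq n = W_{≥ 0} / W_{≥ n}`, `gsum n = ⨁_a gq (n a)`;
* `DiffOp R D` is the algebra of operators on `R` generated by the multiplications and by the
  derivations `D_j`;
* `Psi` is the algebra homomorphism `Ψ_n` from `U(S d)`.
-/

open scoped TensorProduct DirectSum Polynomial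

noncomputable section

namespace Pool.Agent.R864.WittW

/-! ### Generic constructions

Short names for the constructions of Mathlib that are used below. -/

section Generic

/-- The tensor product of two algebras. -/
def TP (A B : Type) [Ring A] [Algebra ℂ A] [Ring B] [Algebra ℂ B] : Type := A ⊗[ℂ] B

section

variable (A B : Type) [Ring A] [Algebra ℂ A] [Ring B] [Algebra ℂ B]

instance : Ring (TP A B) := (inferInstance : Ring (A ⊗[ℂ] B))
instance : Algebra ℂ (TP A B) := (inferInstance : Algebra ℂ (A ⊗[ℂ] B))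

variable {A B}

/-- The element `x ⊗ y`. -/
def TP.tm (x : A) (y : B) : TP A B := x ⊗ₜ[ℂ] y

theorem TP.tm_mul (x x' : A) (y y' : B) :
    TP.tm x y * TP.tm x' y' = TP.tm (x * x') (y * y') :=
  Algebra.TensorProduct.tmul_mul_tmul x x' y y'

theorem TP.tm_add (x x' : A) (y : B) :
    TP.tm (x + x') y = TP.tm x y + TP.tm x' y :=
  TensorProduct.add_tmul x x' y

theorem TP.tm_sub (x : A) (y y' : B) :
    TP.tm x (y - y') = TP.tm x y - TP.tm x y' :=
  TensorProduct.tmul_sub x y y'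

theorem TP.tm_smul (z : ℂ) (x : A) (y : B) :
    TP.tm x (z • y) = z • TP.tm x y :=
  TensorProduct.tmul_smul z x y

theorem TP.tm_zero (x : A) : TP.tm x (0 : B) = 0 := TensorProduct.tmul_zero _ x

theorem TP.zero_tm (y : B) : TP.tm (0 : A) y = 0 := TensorProduct.zero_tmul _ y

variable (A B) in
/-- `x ↦ x ⊗ 1` -/
def TP.incl : A →ₐ[ℂ] TP A B :=
  (Algebra.TensorProduct.includeLeft (R := ℂ) (S := ℂ) (A := A) (B := B))

end

/-- The universal enveloping algebra. -/
def UU (L : Type) [LieRing L] [LieAlgebra ℂ L] : Type := UniversalEnvelopingAlgebra ℂ L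

instance (L : Type) [LieRing L] [LieAlgebra ℂ L] : Ring (UU L) :=
  (inferInstance : Ring (UniversalEnvelopingAlgebra ℂ L))
instance (L : Type) [LieRing L] [LieAlgebra ℂ L] : Algebra ℂ (UU L) :=
  (inferInstance : Algebra ℂ (UniversalEnvelopingAlgebra ℂ L))

/-- The quotient of a Lie algebra by an ideal. -/
def LQ (L : Type) [LieRing L] [LieAlgebra ℂ L] (I : LieIdeal ℂ L) : Type := L ⧸ I

instance (L : Type) [LieRing L] [LieAlgebra ℂ L] (I : LieIdeal ℂ L) : LieRing (LQ L I) :=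
  (inferInstance : LieRing (L ⧸ I))
instance (L : Type) [LieRing L] [LieAlgebra ℂ L] (I : LieIdeal ℂ L) : LieAlgebra ℂ (LQ L I) :=
  (inferInstance : LieAlgebra ℂ (L ⧸ I))

/-- The class of an element in the quotient Lie algebra. -/
def LQ.mk {L : Type} [LieRing L] [LieAlgebra ℂ L] (I : LieIdeal ℂ L) (x : L) : LQ L I :=
  (LieSubmodule.Quotient.mk x : L ⧸ I)

/-- The subalgebra of all operators on a vector space, as a type. -/
def OpSub (V : Type) [AddCommGroup V] [Module ℂ V] (A : Subalgebra ℂ (Module.End ℂ V)) : Type := A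

instance (V : Type) [AddCommGroup V] [Module ℂ V] (A : Subalgebra ℂ (Module.End ℂ V)) :
    Ring (OpSub V A) := (inferInstance : Ring A)
instance (V : Type) [AddCommGroup V] [Module ℂ V] (A : Subalgebra ℂ (Module.End ℂ V)) :
    Algebra ℂ (OpSub V A) := (inferInstance : Algebra ℂ A)

/-- The direct sum of a finite family of Lie algebras. -/
def DS (ℓ : ℕ) (g : Fin ℓ → Type) [∀ a, LieRing (g a)] [∀ a, LieAlgebra ℂ (g a)] : Type :=
  ⨁ a : Fin ℓ, g a

section

variable (ℓ : ℕ) (g : Fin ℓ → Type) [∀ a, LieRing (g a)] [∀ a, LieAlgebra ℂ (g a)]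

instance : LieRing (DS ℓ g) := (inferInstance : LieRing (⨁ a : Fin ℓ, g a))
instance : LieAlgebra ℂ (DS ℓ g) := (inferInstance : LieAlgebra ℂ (⨁ a : Fin ℓ, g a))

/-- the inclusion of a summand -/
def DS.of (a : Fin ℓ) (x : g a) : DS ℓ g := DirectSum.of g a x

end

end Generic

/-! ### Vector fields -/

section VF

variable {S : Type} [CommRing S] [Algebra ℂ S]

/-- The Lie algebra `S d` of all `f d`, `f ∈ S`; the underlying vector space is `S`. -/
structure VF (d : Derivation ℂ S S) : Type where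
  /-- the coefficient `f` of the vector field `f d` -/
  coe : S

variable (d : Derivation ℂ S S)

/-- the underlying equivalence of `VF d` with `S` -/
def VF.equiv : VF d ≃ S where
  toFun := VF.coe
  invFun := VF.mk
  left_inv _ := rfl
  right_inv _ := rfl

instance : AddCommGroup (VF d) := (VF.equiv d).addCommGroup
instance : Module ℂ (VF d) := (VF.equiv d).module ℂ

/-- the linear equivalence of `VF d` with `S` -/
def VF.lin : VF d ≃ₗ[ℂ] S := (VF.equiv d).linearEquiv ℂ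

variable {d}

@[ext] theorem VF.ext' {x y : VF d} (h : x.coe = y.coe) : x = y := by
  cases x; cases y; simp_all

@[simp] theorem VF.coe_add (x y : VF d) : (x + y).coe = x.coe + y.coe := rfl
@[simp] theorem VF.coe_neg (x : VF d) : (-x).coe = -x.coe := rfl
@[simp] theorem VF.coe_sub (x y : VF d) : (x - y).coe = x.coe - y.coe := rfl
@[simp] theorem VF.coe_zero : (0 : VF d).coe = 0 := rfl
@[simp] theorem VF.coe_smul (c : ℂ) (x : VF d) : (c • x).coe = c • x.coe := rfl
@[simp] theorem VF.lin_apply (x : VF d) : VF.lin d x = x.coe := rfl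

instance : Bracket (VF d) (VF d) := ⟨fun x y => ⟨x.coe * d y.coe - d x.coe * y.coe⟩⟩

@[simp] theorem VF.coe_lie (x y : VF d) :
    (⁅x, y⁆ : VF d).coe = x.coe * d y.coe - d x.coe * y.coe := rfl

instance : LieRing (VF d) where
  add_lie x y z := by ext; simp; ring
  lie_add x y z := by ext; simp; ring
  lie_self x := by ext; simp; ring
  leibniz_lie x y z := by ext; simp; ring

instance : LieAlgebra ℂ (VF d) where
  lie_smul c x y := by ext; simp [smul_sub]

end VF

/-! ### The Lie algebras `g_n` -/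

/-- `W_{-1} = ℂ[t]∂`. -/
abbrev Wm : Type := VF (Polynomial.derivative' (R := ℂ))

/-- `W_{≥ 0}`: the `f∂` with `f` divisible by `t`. -/
def W0 : LieSubalgebra ℂ Wm where
  carrier := {x | (Polynomial.X : ℂ[X]) ∣ x.coe}
  add_mem' := by
    intro a b ha hb
    exact dvd_add ha hb
  zero_mem' := dvd_zero _
  smul_mem' := by
    intro c x hx
    exact dvd_smul_of_dvd c hx
  lie_mem' := by
    intro x y hx hy
    exact dvd_sub (Dvd.dvd.mul_right hx _) (Dvd.dvd.mul_left hy _)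

/-- `W_{≥ n}`: the `f∂` with `f` divisible by `t^{n+1}`, an ideal of `W_{≥ 0}`. -/
def Wge (n : ℕ) : LieIdeal ℂ W0 where
  carrier := {x | (Polynomial.X : ℂ[X]) ^ (n + 1) ∣ x.1.coe}
  add_mem' := by
    intro a b ha hb
    exact dvd_add ha hb
  zero_mem' := dvd_zero _
  smul_mem' := by
    intro c x hx
    exact dvd_smul_of_dvd c hx
  lie_mem := by
    intro x y hy
    obtain ⟨f, hf⟩ := x.2
    obtain ⟨g, hg⟩ : (Polynomial.X : ℂ[X]) ^ (n + 1) ∣ y.1.coe := hy
    show (Polynomial.X : ℂ[X]) ^ (n + 1) ∣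
      x.1.coe * Polynomial.derivative' y.1.coe - Polynomial.derivative' x.1.coe * y.1.coe
    refine dvd_sub ?_ (Dvd.dvd.mul_left ⟨g, hg⟩ _)
    rw [hf, hg]
    simp only [Derivation.leibniz, Polynomial.derivative'_apply, Polynomial.derivative_X_pow,
      smul_eq_mul]
    refine ⟨f * (Polynomial.X * Polynomial.derivative g + Polynomial.C ((n : ℂ) + 1) * g), ?_⟩
    simp only [Nat.add_sub_cancel, Nat.cast_add, Nat.cast_one]
    ring

/-- `g_n = W_{≥ 0} / W_{≥ n}`. -/
abbrev gq (n : ℕ) : Type := LQ W0 (Wge n)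

/-- `e_i = t^{i+1}∂` as an element of `W_{≥ 0}` -/
def ee (i : ℕ) : W0 := ⟨⟨Polynomial.X ^ (i + 1)⟩, dvd_pow_self _ (Nat.succ_ne_zero i)⟩

/-- `v_i = e_i + W_{≥ n}`, where `e_i = t^{i+1}∂`. -/
def vv (n i : ℕ) : gq n := LQ.mk (Wge n) (ee i)

/-- `g_{(n_1, …, n_ℓ)}`, the direct sum of the `g_{n_a}`. -/
def gsum {ℓ : ℕ} (n : Fin ℓ → ℕ) : Type := DS ℓ (fun a => gq (n a))

instance {ℓ : ℕ} (n : Fin ℓ → ℕ) : LieRing (gsum n) :=
  (inferInstance : LieRing (DS ℓ (fun a => gq (n a))))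
instance {ℓ : ℕ} (n : Fin ℓ → ℕ) : LieAlgebra ℂ (gsum n) :=
  (inferInstance : LieAlgebra ℂ (DS ℓ (fun a => gq (n a))))

/-- `v_i` in the `a`-th summand -/
def vs {ℓ : ℕ} (n : Fin ℓ → ℕ) (a : Fin ℓ) (i : ℕ) : gsum n :=
  DS.of ℓ (fun a => gq (n a)) a (vv (n a) i)

theorem vv_eq_zero {n i : ℕ} (h : n ≤ i) : vv n i = 0 := by
  show (LieSubmodule.Quotient.mk (ee i) : W0 ⧸ Wge n) = 0
  rw [LieSubmodule.Quotient.mk_eq_zero']
  exact pow_dvd_pow _ (by omega)

theorem vv_lie (n i j : ℕ) : ⁅vv n i, vv n j⁆ = ((j : ℂ) - i) • vv n (i + j) := by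
  show ⁅(LieSubmodule.Quotient.mk (ee i) : W0 ⧸ Wge n), LieSubmodule.Quotient.mk (ee j)⁆ =
    ((j : ℂ) - i) • (LieSubmodule.Quotient.mk (ee (i + j)) : W0 ⧸ Wge n)
  rw [← LieSubmodule.Quotient.mk_bracket]
  have : ∀ (c : ℂ) (x : W0), c • (LieSubmodule.Quotient.mk x : W0 ⧸ Wge n) =
    LieSubmodule.Quotient.mk (c • x) := fun c x => rfl
  rw [this]
  congr 1
  apply Subtype.ext
  apply VF.ext'
  show (Polynomial.X : ℂ[X]) ^ (i + 1) * Polynomial.derivative' (Polynomial.X ^ (j + 1)) -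
    Polynomial.derivative' (Polynomial.X ^ (i + 1)) * Polynomial.X ^ (j + 1) =
    ((j : ℂ) - i) • Polynomial.X ^ (i + j + 1)
  simp only [Polynomial.derivative'_apply, Polynomial.derivative_X_pow, Nat.add_sub_cancel,
    Polynomial.smul_eq_C_mul, Polynomial.C_sub, Nat.cast_add, Nat.cast_one,
    Polynomial.C_add, Polynomial.C_1, map_natCast]
  ring

theorem vs_eq_zero {ℓ : ℕ} {n : Fin ℓ → ℕ} {a : Fin ℓ} {i : ℕ} (h : n a ≤ i) : vs n a i = 0 := by
  unfold vs
  rw [vv_eq_zero h]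
  exact map_zero (DirectSum.of (fun a => gq (n a)) a)

theorem vs_lie_same {ℓ : ℕ} (n : Fin ℓ → ℕ) (a : Fin ℓ) (i j : ℕ) :
    ⁅vs n a i, vs n a j⁆ = ((j : ℂ) - i) • vs n a (i + j) := by
  have h := DirectSum.lie_of_same (fun a => gq (n a)) (vv (n a) i) (vv (n a) j)
  rw [vv_lie] at h
  exact h.trans ((DirectSum.lof ℂ _ (fun a => gq (n a)) a).map_smul _ _)

theorem vs_lie_ne {ℓ : ℕ} (n : Fin ℓ → ℕ) {a b : Fin ℓ} (h : a ≠ b) (i j : ℕ) :
    ⁅vs n a i, vs n b j⁆ = 0 :=
  DirectSum.lie_of_of_ne (fun a => gq (n a)) h (vv (n a) i) (vv (n b) j)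

/-- The enveloping algebra `U(g_{(n_1, …, n_ℓ)})`. -/
def Ug {ℓ : ℕ} (n : Fin ℓ → ℕ) : Type := UU (gsum n)

instance {ℓ : ℕ} (n : Fin ℓ → ℕ) : Ring (Ug n) := (inferInstance : Ring (UU (gsum n)))
instance {ℓ : ℕ} (n : Fin ℓ → ℕ) : Algebra ℂ (Ug n) := (inferInstance : Algebra ℂ (UU (gsum n)))

/-- `v_i^{(a)}` as an element of the enveloping algebra -/
def ug {ℓ : ℕ} (n : Fin ℓ → ℕ) (a : Fin ℓ) (i : ℕ) : Ug n :=
  (UniversalEnvelopingAlgebra.ι ℂ (vs n a i) : UniversalEnvelopingAlgebra ℂ (gsum n))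

theorem ug_eq_zero {ℓ : ℕ} {n : Fin ℓ → ℕ} {a : Fin ℓ} {i : ℕ} (h : n a ≤ i) : ug n a i = 0 := by
  unfold ug
  rw [vs_eq_zero h, map_zero]
  rfl

section
attribute [local instance 100] LieRing.ofAssociativeRing

theorem ug_lie_same {ℓ : ℕ} (n : Fin ℓ → ℕ) (a : Fin ℓ) (i j : ℕ) :
    ug n a i * ug n a j - ug n a j * ug n a i = ((j : ℂ) - i) • ug n a (i + j) := by
  show (UniversalEnvelopingAlgebra.ι ℂ (vs n a i) : UniversalEnvelopingAlgebra ℂ (gsum n)) *
    UniversalEnvelopingAlgebra.ι ℂ (vs n a j) -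
    UniversalEnvelopingAlgebra.ι ℂ (vs n a j) * UniversalEnvelopingAlgebra.ι ℂ (vs n a i) =
    ((j : ℂ) - i) • UniversalEnvelopingAlgebra.ι ℂ (vs n a (i + j))
  rw [← LieRing.of_associative_ring_bracket, ← LieHom.map_lie, vs_lie_same, map_smul]

theorem ug_lie_ne {ℓ : ℕ} (n : Fin ℓ → ℕ) {a b : Fin ℓ} (h : a ≠ b) (i j : ℕ) :
    ug n a i * ug n b j = ug n b j * ug n a i := by
  rw [← sub_eq_zero]
  show (UniversalEnvelopingAlgebra.ι ℂ (vs n a i) : UniversalEnvelopingAlgebra ℂ (gsum n)) *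
    UniversalEnvelopingAlgebra.ι ℂ (vs n b j) -
    UniversalEnvelopingAlgebra.ι ℂ (vs n b j) * UniversalEnvelopingAlgebra.ι ℂ (vs n a i) = 0
  rw [← LieRing.of_associative_ring_bracket, ← LieHom.map_lie, vs_lie_ne n h, map_zero]

end

/-! ### Differential operators -/

/-- The algebra of operators on `R` generated by all multiplications by elements of `R` and by the
derivations `D_j`. -/
def DiffOp (R : Type) [CommRing R] [Algebra ℂ R] {k : ℕ} (D : Fin k → Derivation ℂ R R) :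
    Subalgebra ℂ (Module.End ℂ R) :=
  Algebra.adjoin ℂ (Set.range (fun r : R => LinearMap.mulLeft ℂ r) ∪
    Set.range (fun j => ((D j : Derivation ℂ R R) : R →ₗ[ℂ] R)))

/-- The ring `DiffOp R D` as a type. -/
abbrev DOp (R : Type) [CommRing R] [Algebra ℂ R] {k : ℕ} (D : Fin k → Derivation ℂ R R) : Type :=
  OpSub R (DiffOp R D)

section

variable {R : Type} [CommRing R] [Algebra ℂ R] {k : ℕ} (D : Fin k → Derivation ℂ R R)

/-- the inclusion of `DiffOp R D` in the ring of all operators on `R` -/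
def toEnd : DOp R D →ₐ[ℂ] Module.End ℂ R := (DiffOp R D).val

/-- multiplication by `r` as an element of `DiffOp R D` -/
def mulOp (r : R) : DOp R D :=
  ⟨LinearMap.mulLeft ℂ r, Algebra.subset_adjoin (Or.inl ⟨r, rfl⟩)⟩

/-- the derivation `D_j` as an element of `DiffOp R D` -/
def dOp (j : Fin k) : DOp R D :=
  ⟨((D j : Derivation ℂ R R) : R →ₗ[ℂ] R), Algebra.subset_adjoin (Or.inr ⟨j, rfl⟩)⟩

variable {D}

theorem toEnd_injective : Function.Injective (toEnd D) := Subtype.val_injective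

theorem diffOp_ext {x y : DOp R D} (h : ∀ r, toEnd D x r = toEnd D y r) : x = y :=
  toEnd_injective (LinearMap.ext h)

@[simp] theorem mulOp_apply (r x : R) : toEnd D (mulOp D r) x = r * x := rfl
@[simp] theorem dOp_apply (j : Fin k) (x : R) : toEnd D (dOp D j) x = D j x := rfl

theorem mulOp_mul (r s : R) : mulOp D (r * s) = mulOp D r * mulOp D s := by
  apply diffOp_ext; intro x; simp [mul_assoc]

theorem mulOp_add (r s : R) : mulOp D (r + s) = mulOp D r + mulOp D s := by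
  apply diffOp_ext; intro x; simp [add_mul]

theorem mulOp_smul (c : ℂ) (s : R) : mulOp D (c • s) = c • mulOp D s := by
  apply diffOp_ext; intro x; simp

theorem mulOp_one : mulOp D (1 : R) = 1 := by
  apply diffOp_ext; intro x; simp

/-- `mulOp` as an algebra homomorphism -/
def mulHom (D : Fin k → Derivation ℂ R R) : R →ₐ[ℂ] DOp R D :=
  AlgHom.ofLinearMap
    { toFun := mulOp D
      map_add' := mulOp_add
      map_smul' := mulOp_smul } mulOp_one mulOp_mul

@[simp] theorem mulHom_apply (r : R) : mulHom D r = mulOp D r := rfl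

theorem dOp_mulOp (j : Fin k) (r : R) : dOp D j * mulOp D r = mulOp D r * dOp D j +
    mulOp D (D j r) := by
  apply diffOp_ext; intro x; simp; ring

end

/-! ### The maps `Ψ_n` -/

section hd

variable {S : Type} [CommRing S] [Algebra ℂ S] (d : Derivation ℂ S S)

/-- The divided derivative `f ↦ f^{(m)} / m!`. -/
def hd (m : ℕ) : S →ₗ[ℂ] S := ((m.factorial : ℂ)⁻¹) • ((d : S →ₗ[ℂ] S) ^ m)

variable {d}

@[simp] theorem hd_zero (f : S) : hd d 0 f = f := by simp [hd]

theorem d_hd (m : ℕ) (f : S) : d (hd d m f) = ((m : ℂ) + 1) • hd d (m + 1) f := by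
  have h1 : ((m.factorial : ℂ)) ≠ 0 := by exact_mod_cast m.factorial_ne_zero
  have h2 : ((m : ℂ) + 1) ≠ 0 := by exact_mod_cast m.succ_ne_zero
  simp only [hd, LinearMap.smul_apply, Derivation.map_smul, smul_smul, Nat.factorial_succ,
    pow_succ', Module.End.mul_apply, Derivation.coeFn_coe]
  congr 1
  push_cast
  field_simp

theorem hd_d (m : ℕ) (f : S) : hd d m (d f) = ((m : ℂ) + 1) • hd d (m + 1) f := by
  have h1 : ((m.factorial : ℂ)) ≠ 0 := by exact_mod_cast m.factorial_ne_zero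
  have h2 : ((m : ℂ) + 1) ≠ 0 := by exact_mod_cast m.succ_ne_zero
  simp only [hd, LinearMap.smul_apply, smul_smul, Nat.factorial_succ,
    pow_succ, Module.End.mul_apply, Derivation.coeFn_coe]
  congr 1
  push_cast
  field_simp

open Finset in
theorem hd_mul (m : ℕ) (f g : S) :
    hd d m (f * g) = ∑ ij ∈ antidiagonal m, hd d ij.1 f * hd d ij.2 g := by
  induction m with
  | zero => simp
  | succ m ih =>
    have h2 : ((m : ℂ) + 1) ≠ 0 := by exact_mod_cast m.succ_ne_zero
    have key : ((m : ℂ) + 1) • hd d (m + 1) (f * g) =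
        ((m : ℂ) + 1) • ∑ ij ∈ antidiagonal (m + 1), hd d ij.1 f * hd d ij.2 g := by
      rw [← d_hd, ih, map_sum, Finset.smul_sum]
      have e1 : ∀ ij ∈ antidiagonal (m + 1),
          ((m : ℂ) + 1) • (hd d ij.1 f * hd d ij.2 g) =
          (ij.1 : ℂ) • (hd d ij.1 f * hd d ij.2 g) + (ij.2 : ℂ) • (hd d ij.1 f * hd d ij.2 g) := by
        intro ij hij
        rw [← add_smul]
        congr 1
        rw [Finset.HasAntidiagonal.mem_antidiagonal] at hij
        exact_mod_cast hij.symm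
      rw [Finset.sum_congr rfl e1, Finset.sum_add_distrib, Finset.Nat.sum_antidiagonal_succ,
        Finset.Nat.sum_antidiagonal_succ' (f := fun ij => (ij.2 : ℂ) • (hd d ij.1 f * hd d ij.2 g))]
      simp only [Nat.cast_zero, zero_smul, zero_add, Derivation.leibniz, d_hd, smul_eq_mul,
        Nat.cast_add, Nat.cast_one, Finset.sum_add_distrib]
      rw [add_comm]
      congr 1
      · apply Finset.sum_congr rfl
        intro ij _
        rw [mul_smul_comm, mul_comm]
      · apply Finset.sum_congr rfl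
        intro ij _
        rw [mul_smul_comm]
    exact smul_right_injective S h2 key

open Finset in
theorem hd_lie (k : ℕ) (f g : S) :
    hd d (k + 1) (f * d g - d f * g) = f * d (hd d (k + 1) g) - g * d (hd d (k + 1) f) +
      ∑ ij ∈ antidiagonal k,
        ((ij.2 : ℂ) - ij.1) • (hd d (ij.1 + 1) f * hd d (ij.2 + 1) g) := by
  rw [map_sub, hd_mul, hd_mul, Finset.Nat.sum_antidiagonal_succ,
    Finset.Nat.sum_antidiagonal_succ' (f := fun ij => hd d ij.1 (d f) * hd d ij.2 g)]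
  simp only [hd_d, d_hd, hd_zero, sub_smul, Finset.sum_sub_distrib]
  have e1 : ∀ ij ∈ antidiagonal k, hd d (ij.1 + 1) f * ((ij.2 : ℂ) + 1) • hd d (ij.2 + 1) g =
      (ij.2 : ℂ) • (hd d (ij.1 + 1) f * hd d (ij.2 + 1) g) +
        hd d (ij.1 + 1) f * hd d (ij.2 + 1) g := by
    intro ij _
    rw [mul_smul_comm, add_smul, one_smul]
  have e2 : ∀ ij ∈ antidiagonal k, ((ij.1 : ℂ) + 1) • hd d (ij.1 + 1) f * hd d (ij.2 + 1) g =
      (ij.1 : ℂ) • (hd d (ij.1 + 1) f * hd d (ij.2 + 1) g) +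
        hd d (ij.1 + 1) f * hd d (ij.2 + 1) g := by
    intro ij _
    rw [smul_mul_assoc, add_smul, one_smul]
  rw [Finset.sum_congr rfl e1, Finset.sum_congr rfl e2, Finset.sum_add_distrib,
    Finset.sum_add_distrib]
  simp only [mul_comm (_ • _) g]
  abel

end hd

open Finset in
theorem sum_square {B : Type*} [AddCommMonoid B] (n : ℕ) (c : ℕ → ℕ → B)
    (hc : ∀ i j, n ≤ i + j → c i j = 0) :
    ∑ i ∈ range n, ∑ j ∈ range n, c i j =
      ∑ k ∈ range n, ∑ ij ∈ antidiagonal k, c ij.1 ij.2 := by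
  have e1 : ∀ k, ∑ ij ∈ antidiagonal k, c ij.1 ij.2 = ∑ i ∈ range (k + 1), c i (k - i) := by
    intro k
    exact Finset.Nat.sum_antidiagonal_eq_sum_range_succ_mk _ _
  simp only [e1]
  rw [Finset.sum_range_diag_flip]
  apply Finset.sum_congr rfl
  intro i _
  symm
  apply Finset.sum_subset
  · intro j hj
    rw [mem_range] at hj ⊢
    omega
  · intro j hj hj'
    rw [mem_range] at hj hj'
    exact hc i j (by omega)

section key

variable {S : Type} [CommRing S] [Algebra ℂ S] {d : Derivation ℂ S S}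
variable {B : Type} [Ring B] [Algebra ℂ B]

open Finset in
theorem key_mul (m : S →ₐ[ℂ] B) (Dl : B) (V : ℕ → B) (n : ℕ)
    (h1 : ∀ f, Dl * m f = m f * Dl + m (d f)) (h2 : ∀ i f, V i * m f = m f * V i)
    (h3 : ∀ i, V i * Dl = Dl * V i) (F G : ℕ → S) (f g : S) :
    (m f * Dl + ∑ i ∈ range n, m (F i) * V i) * (m g * Dl + ∑ i ∈ range n, m (G i) * V i) =
      m (f * g) * Dl * Dl + m (f * d g) * Dl + ∑ i ∈ range n, m (f * G i) * Dl * V i +
        ∑ i ∈ range n, m (f * d (G i)) * V i + ∑ i ∈ range n, m (g * F i) * Dl * V i +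
        ∑ i ∈ range n, ∑ j ∈ range n, m (F i * G j) * (V i * V j) := by
  rw [add_mul, mul_add, mul_add]
  have a1 : m f * Dl * (m g * Dl) = m (f * g) * Dl * Dl + m (f * d g) * Dl := by
    calc m f * Dl * (m g * Dl) = m f * (Dl * m g) * Dl := by noncomm_ring
      _ = _ := by rw [h1, map_mul, map_mul]; noncomm_ring
  have a2 : m f * Dl * ∑ i ∈ range n, m (G i) * V i = ∑ i ∈ range n, m (f * G i) * Dl * V i +
      ∑ i ∈ range n, m (f * d (G i)) * V i := by
    rw [Finset.mul_sum, ← Finset.sum_add_distrib]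
    apply Finset.sum_congr rfl
    intro i _
    calc m f * Dl * (m (G i) * V i) = m f * (Dl * m (G i)) * V i := by noncomm_ring
      _ = _ := by rw [h1, map_mul, map_mul]; noncomm_ring
  have a3 : (∑ i ∈ range n, m (F i) * V i) * (m g * Dl) =
      ∑ i ∈ range n, m (g * F i) * Dl * V i := by
    rw [Finset.sum_mul]
    apply Finset.sum_congr rfl
    intro i _
    calc m (F i) * V i * (m g * Dl) = m (F i) * (V i * m g) * Dl := by noncomm_ring
      _ = m (F i) * m g * (V i * Dl) := by rw [h2]; noncomm_ring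
      _ = _ := by rw [h3, ← map_mul, mul_comm (F i) g]; noncomm_ring
  have a4 : (∑ i ∈ range n, m (F i) * V i) * ∑ i ∈ range n, m (G i) * V i =
      ∑ i ∈ range n, ∑ j ∈ range n, m (F i * G j) * (V i * V j) := by
    rw [Finset.sum_mul_sum]
    apply Finset.sum_congr rfl
    intro i _
    apply Finset.sum_congr rfl
    intro j _
    calc m (F i) * V i * (m (G j) * V j) = m (F i) * (V i * m (G j)) * V j := by noncomm_ring
      _ = _ := by rw [h2, map_mul]; noncomm_ring
  rw [a1, a2, a3, a4]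
  abel

open Finset in
theorem key_lie (m : S →ₐ[ℂ] B) (Dl : B) (V : ℕ → B) (n : ℕ)
    (h1 : ∀ f, Dl * m f = m f * Dl + m (d f)) (h2 : ∀ i f, V i * m f = m f * V i)
    (h3 : ∀ i, V i * Dl = Dl * V i)
    (h4 : ∀ i j, V i * V j - V j * V i = ((j : ℂ) - i) • V (i + j))
    (h5 : ∀ i, n ≤ i → V i = 0) (f g : S) :
    (m f * Dl + ∑ i ∈ range n, m (hd d (i + 1) f) * V i) *
        (m g * Dl + ∑ i ∈ range n, m (hd d (i + 1) g) * V i) -
      (m g * Dl + ∑ i ∈ range n, m (hd d (i + 1) g) * V i) *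
        (m f * Dl + ∑ i ∈ range n, m (hd d (i + 1) f) * V i) =
      m (f * d g - d f * g) * Dl +
        ∑ i ∈ range n, m (hd d (i + 1) (f * d g - d f * g)) * V i := by
  rw [key_mul m Dl V n h1 h2 h3, key_mul m Dl V n h1 h2 h3]
  have e1 : ∑ i ∈ range n, ∑ j ∈ range n, m (hd d (i + 1) g * hd d (j + 1) f) * (V i * V j) =
      ∑ i ∈ range n, ∑ j ∈ range n, m (hd d (i + 1) f * hd d (j + 1) g) * (V j * V i) := by
    rw [Finset.sum_comm]
    apply Finset.sum_congr rfl
    intro i _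
    apply Finset.sum_congr rfl
    intro j _
    rw [mul_comm]
  have e2 : ∑ i ∈ range n, ∑ j ∈ range n, m (hd d (i + 1) f * hd d (j + 1) g) * (V i * V j) -
      ∑ i ∈ range n, ∑ j ∈ range n, m (hd d (i + 1) f * hd d (j + 1) g) * (V j * V i) =
      ∑ k ∈ range n, m (∑ ij ∈ antidiagonal k,
        ((ij.2 : ℂ) - ij.1) • (hd d (ij.1 + 1) f * hd d (ij.2 + 1) g)) * V k := by
    rw [← Finset.sum_sub_distrib]
    have : ∀ i, ∑ j ∈ range n, m (hd d (i + 1) f * hd d (j + 1) g) * (V i * V j) -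
        ∑ j ∈ range n, m (hd d (i + 1) f * hd d (j + 1) g) * (V j * V i) =
        ∑ j ∈ range n, m (((j : ℂ) - i) • (hd d (i + 1) f * hd d (j + 1) g)) * V (i + j) := by
      intro i
      rw [← Finset.sum_sub_distrib]
      apply Finset.sum_congr rfl
      intro j _
      rw [← mul_sub, h4, map_smul, smul_mul_assoc, mul_smul_comm]
    simp only [this]
    rw [sum_square n (fun i j => m (((j : ℂ) - i) • (hd d (i + 1) f * hd d (j + 1) g)) * V (i + j))]
    · apply Finset.sum_congr rfl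
      intro k _
      rw [map_sum, Finset.sum_mul]
      apply Finset.sum_congr rfl
      intro ij hij
      rw [Finset.HasAntidiagonal.mem_antidiagonal] at hij
      rw [hij]
    · intro i j hij
      rw [h5 _ hij, mul_zero]
  have e3 : ∑ i ∈ range n, m (hd d (i + 1) (f * d g - d f * g)) * V i =
      ∑ i ∈ range n, m (f * d (hd d (i + 1) g)) * V i -
        ∑ i ∈ range n, m (g * d (hd d (i + 1) f)) * V i +
      ∑ k ∈ range n, m (∑ ij ∈ antidiagonal k,
        ((ij.2 : ℂ) - ij.1) • (hd d (ij.1 + 1) f * hd d (ij.2 + 1) g)) * V k := by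
    rw [← Finset.sum_sub_distrib, ← Finset.sum_add_distrib]
    apply Finset.sum_congr rfl
    intro i _
    rw [hd_lie, map_add, map_sub]
    noncomm_ring
  rw [e3, e1, ← e2, map_sub, mul_comm (d f) g, mul_comm g f]
  noncomm_ring

end key


section aux

variable {B : Type*} [Ring B] {ι : Type*}

theorem sum_comm_aux [Fintype ι] (x y z : ι → B)
    (h1 : ∀ a, x a * y a - y a * x a = z a) (h2 : ∀ a b, a ≠ b → x a * y b = y b * x a) :
    (∑ a, x a) * (∑ a, y a) - (∑ a, y a) * (∑ a, x a) = ∑ a, z a := by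
  classical
  rw [Finset.sum_mul_sum, Finset.sum_mul_sum,
    Finset.sum_comm (f := fun i j => y i * x j), ← Finset.sum_sub_distrib]
  apply Finset.sum_congr rfl
  intro a _
  rw [← Finset.sum_sub_distrib, Finset.sum_eq_single a]
  · rw [h1]
  · intro b _ hb
    rw [h2 a b hb.symm, sub_self]
  · intro h
    exact absurd (Finset.mem_univ a) h

theorem sum_comm_aux2 {s : Finset ι} (u : B) (x : ι → B) (t z : B) (_ : Unit)
    (h1 : u * t - t * u = z) (h2 : ∀ b, x b * t = t * x b) :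
    (u + ∑ b ∈ s, x b) * t - t * (u + ∑ b ∈ s, x b) = z := by
  rw [add_mul, mul_add, Finset.sum_mul, Finset.mul_sum, Finset.sum_congr rfl (fun b _ => h2 b),
    ← h1]
  abel

theorem sum_comm_aux3 [Fintype ι] (x : ι → B) (t z : B) (a : ι)
    (h1 : x a * t - t * x a = z) (h2 : ∀ b, b ≠ a → x b * t = t * x b) :
    (∑ b, x b) * t - t * (∑ b, x b) = z := by
  rw [Finset.sum_mul, Finset.mul_sum, ← Finset.sum_sub_distrib, Finset.sum_eq_single a]
  · exact h1
  · intro b _ hb
    rw [h2 b hb, sub_self]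
  · intro h
    exact absurd (Finset.mem_univ a) h

end aux

section Psi

/-- The data with which `Ψ_n` is formed: commuting derivations `D_a` of `R` and
substitutions `ev_a : f ↦ f(t_a)`. -/
structure Chart {S : Type} [CommRing S] [Algebra ℂ S] (d : Derivation ℂ S S)
    (R : Type) [CommRing R] [Algebra ℂ R] (ℓ : ℕ) where
  /-- the partial derivatives `∂_a` -/
  D : Fin ℓ → Derivation ℂ R R
  /-- the substitutions `f ↦ f(t_a)` -/
  ev : Fin ℓ → S →ₐ[ℂ] R
  D_ev : ∀ a b f, D a (ev b f) = if a = b then ev b (d f) else 0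
  D_comm : ∀ a b r, D a (D b r) = D b (D a r)

variable {S : Type} [CommRing S] [Algebra ℂ S] {d : Derivation ℂ S S}
variable {R : Type} [CommRing R] [Algebra ℂ R] {ℓ : ℕ} (c : Chart d R ℓ) (n : Fin ℓ → ℕ)

/-- The algebra `A_ℓ ⊗ U(g_n)` -/
abbrev Chart.Target : Type := TP (DOp R c.D) (Ug n)

/-- The element `x ⊗ y`. -/
abbrev Chart.tm (x : DOp R c.D) (y : Ug n) : c.Target n := TP.tm x y

/-- The element `f(t_a)∂_a ⊗ 1 + ∑_{i < n_a} f^{(i+1)}(t_a)/(i+1)! ⊗ v_i^{(a)}`. -/
def Chart.xOp (a : Fin ℓ) (f : S) : c.Target n :=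
  c.tm n (mulOp c.D (c.ev a f) * dOp c.D a) 1 +
    ∑ i ∈ Finset.range (n a), c.tm n (mulOp c.D (c.ev a (hd d (i + 1) f))) (ug n a i)

/-- `f(t_a) ⊗ 1` -/
def Chart.mHom (a : Fin ℓ) : S →ₐ[ℂ] c.Target n :=
  (TP.incl (DOp R c.D) (Ug n)).comp ((mulHom c.D).comp (c.ev a))

theorem Chart.mHom_apply (a : Fin ℓ) (f : S) :
    c.mHom n a f = c.tm n (mulOp c.D (c.ev a f)) 1 := rfl

/-- `∂_a ⊗ 1` -/
def Chart.DD (a : Fin ℓ) : c.Target n := c.tm n (dOp c.D a) 1

/-- `1 ⊗ v_i^{(a)}` -/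
def Chart.VV (a : Fin ℓ) (i : ℕ) : c.Target n := c.tm n 1 (ug n a i)

theorem Chart.xOp_eq (a : Fin ℓ) (f : S) : c.xOp n a f = c.mHom n a f * c.DD n a +
    ∑ i ∈ Finset.range (n a), c.mHom n a (hd d (i + 1) f) * c.VV n a i := by
  simp only [Chart.xOp, Chart.mHom_apply, Chart.DD, Chart.VV, TP.tm_mul, mul_one, one_mul]

theorem Chart.DD_mHom (a b : Fin ℓ) (f : S) : c.DD n a * c.mHom n b f =
    c.mHom n b f * c.DD n a + if a = b then c.mHom n b (d f) else 0 := by
  simp only [Chart.mHom_apply, Chart.DD, TP.tm_mul, mul_one]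
  rw [dOp_mulOp, TP.tm_add, c.D_ev]
  congr 1
  split_ifs with h
  · rfl
  · have : mulOp c.D (0 : R) = 0 := by apply diffOp_ext; intro x; simp
    rw [this, TP.zero_tm]

theorem Chart.DD_comm (a b : Fin ℓ) : c.DD n a * c.DD n b = c.DD n b * c.DD n a := by
  simp only [Chart.DD, TP.tm_mul, mul_one]
  congr 1
  apply diffOp_ext
  intro x
  simp only [map_mul, Module.End.mul_apply, dOp_apply]
  exact c.D_comm a b x

theorem Chart.mHom_comm (a b : Fin ℓ) (f g : S) :
    c.mHom n a f * c.mHom n b g = c.mHom n b g * c.mHom n a f := by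
  simp only [Chart.mHom_apply, TP.tm_mul, mul_one, ← mulOp_mul]
  rw [mul_comm]

theorem Chart.VV_mHom (a b : Fin ℓ) (i : ℕ) (f : S) :
    c.VV n a i * c.mHom n b f = c.mHom n b f * c.VV n a i := by
  simp only [Chart.mHom_apply, Chart.VV, TP.tm_mul, mul_one, one_mul]

theorem Chart.VV_DD (a b : Fin ℓ) (i : ℕ) : c.VV n a i * c.DD n b = c.DD n b * c.VV n a i := by
  simp only [Chart.DD, Chart.VV, TP.tm_mul, mul_one, one_mul]

theorem Chart.VV_same (a : Fin ℓ) (i j : ℕ) : c.VV n a i * c.VV n a j - c.VV n a j * c.VV n a i =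
    ((j : ℂ) - i) • c.VV n a (i + j) := by
  simp only [Chart.VV, TP.tm_mul, mul_one]
  rw [← TP.tm_sub, ug_lie_same, TP.tm_smul]

theorem Chart.VV_ne {a b : Fin ℓ} (h : a ≠ b) (i j : ℕ) :
    c.VV n a i * c.VV n b j = c.VV n b j * c.VV n a i := by
  simp only [Chart.VV, TP.tm_mul, mul_one]
  rw [ug_lie_ne n h]

theorem Chart.VV_zero (a : Fin ℓ) (i : ℕ) (h : n a ≤ i) : c.VV n a i = 0 := by
  simp only [Chart.VV, ug_eq_zero h, TP.tm_zero]

theorem Chart.xOp_lie_same (a : Fin ℓ) (f g : S) :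
    c.xOp n a f * c.xOp n a g - c.xOp n a g * c.xOp n a f = c.xOp n a (f * d g - d f * g) := by
  simp only [Chart.xOp_eq]
  exact key_lie (c.mHom n a) (c.DD n a) (c.VV n a) (n a)
    (fun f => by rw [Chart.DD_mHom, if_pos rfl]) (fun i f => c.VV_mHom n a a i f)
    (fun i => c.VV_DD n a a i) (c.VV_same n a) (c.VV_zero n a) f g

theorem Chart.xOp_comm {a b : Fin ℓ} (h : a ≠ b) (f g : S) :
    Commute (c.xOp n a f) (c.xOp n b g) := by
  simp only [Chart.xOp_eq]
  have m1 : ∀ f g, Commute (c.mHom n a f) (c.mHom n b g) := fun f g => c.mHom_comm n a b f g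
  have m2 : ∀ f, Commute (c.mHom n a f) (c.DD n b) := by
    intro f
    have := c.DD_mHom n b a f
    rw [if_neg h.symm, add_zero] at this
    exact this.symm
  have m3 : ∀ f, Commute (c.DD n a) (c.mHom n b f) := by
    intro f
    have := c.DD_mHom n a b f
    rw [if_neg h, add_zero] at this
    exact this
  have m4 : Commute (c.DD n a) (c.DD n b) := c.DD_comm n a b
  have m5 : ∀ i f, Commute (c.VV n a i) (c.mHom n b f) := fun i f => c.VV_mHom n a b i f
  have m6 : ∀ i f, Commute (c.mHom n a f) (c.VV n b i) := fun i f => (c.VV_mHom n b a i f).symm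
  have m7 : ∀ i, Commute (c.VV n a i) (c.DD n b) := fun i => c.VV_DD n a b i
  have m8 : ∀ i, Commute (c.DD n a) (c.VV n b i) := fun i => (c.VV_DD n b a i).symm
  have m9 : ∀ i j, Commute (c.VV n a i) (c.VV n b j) := fun i j => c.VV_ne n h i j
  refine Commute.add_left (Commute.add_right ?_ ?_) (Commute.add_right ?_ ?_)
  · exact ((m1 _ _).mul_right (m2 _)).mul_left ((m3 _).mul_right m4)
  · exact Commute.sum_right _ _ _ fun i _ =>
      ((m1 _ _).mul_right (m6 _ _)).mul_left ((m3 _).mul_right (m8 _))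
  · exact Commute.sum_left _ _ _ fun i _ =>
      ((m1 _ _).mul_right (m2 _)).mul_left ((m5 _ _).mul_right (m7 _))
  · exact Commute.sum_left _ _ _ fun i _ => Commute.sum_right _ _ _ fun j _ =>
      ((m1 _ _).mul_right (m6 _ _)).mul_left ((m5 _ _).mul_right (m9 _ _))

theorem Chart.xOp_add (a : Fin ℓ) (f g : S) :
    c.xOp n a (f + g) = c.xOp n a f + c.xOp n a g := by
  simp only [Chart.xOp_eq, map_add, add_mul, Finset.sum_add_distrib]
  exact add_add_add_comm _ _ _ _

theorem Chart.xOp_smul (a : Fin ℓ) (z : ℂ) (f : S) :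
    c.xOp n a (z • f) = z • c.xOp n a f := by
  simp only [Chart.xOp_eq, map_smul, smul_mul_assoc, smul_add, Finset.smul_sum]

theorem Chart.sum_xOp_comm (f g : S) :
    (∑ a, c.xOp n a f) * (∑ a, c.xOp n a g) - (∑ a, c.xOp n a g) * (∑ a, c.xOp n a f) =
      ∑ a, c.xOp n a (f * d g - d f * g) :=
  sum_comm_aux _ _ _ (fun a => c.xOp_lie_same n a f g) (fun a b hab => (c.xOp_comm n hab f g).eq)

theorem Chart.xOp_mHom (a b : Fin ℓ) (f t : S) (ht : d t = 1) :
    c.xOp n b f * c.mHom n a t - c.mHom n a t * c.xOp n b f =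
      if b = a then c.mHom n a f else 0 := by
  rw [Chart.xOp_eq]
  refine sum_comm_aux2 _ (fun i => c.mHom n b (hd d (i + 1) f) * c.VV n b i) _ _ ⟨⟩ ?_ ?_
  · have h1 := c.DD_mHom n b a t
    rw [ht, map_one] at h1
    rw [mul_assoc, h1, mul_add, ← mul_assoc, ← mul_assoc, c.mHom_comm n b a f t]
    split_ifs with h
    · subst h
      rw [mul_one, add_sub_cancel_left]
    · rw [mul_zero, add_zero, sub_self]
  · intro i
    show c.mHom n b (hd d (i + 1) f) * c.VV n b i * c.mHom n a t =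
        c.mHom n a t * (c.mHom n b (hd d (i + 1) f) * c.VV n b i)
    rw [mul_assoc, c.VV_mHom, ← mul_assoc, c.mHom_comm, mul_assoc]

/-- The commutator of `Ψ_n(f∂)` with `t_a`. -/
theorem Chart.Psi_comm (a : Fin ℓ) (f t : S) (ht : d t = 1) :
    (∑ b, c.xOp n b f) * c.mHom n a t - c.mHom n a t * (∑ b, c.xOp n b f) = c.mHom n a f := by
  refine sum_comm_aux3 _ _ _ a ?_ ?_
  · rw [c.xOp_mHom n a a f t ht, if_pos rfl]
  · intro b hb
    rw [← sub_eq_zero, c.xOp_mHom n a b f t ht, if_neg hb]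

/-- The linear map
`f∂ ↦ ∑_a (f(t_a)∂_a ⊗ 1 + ∑_{i < n_a} f^{(i+1)}(t_a)/(i+1)! ⊗ v_i^{(a)})`. -/
def Chart.psiLin : VF d →ₗ[ℂ] c.Target n where
  toFun x := ∑ a, c.xOp n a x.coe
  map_add' x y := by simp only [VF.coe_add, Chart.xOp_add, Finset.sum_add_distrib]
  map_smul' z x := by
    simp only [VF.coe_smul, Chart.xOp_smul, Finset.smul_sum, RingHom.id_apply]

end Psi

section PsiLie

attribute [local instance 100] LieRing.ofAssociativeRing

/-- The homomorphism `U(L) → A` given by a linear map `L → A` that respects the bracket. -/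
def uuLift (L : Type) [LieRing L] [LieAlgebra ℂ L] (A : Type) [Ring A] [Algebra ℂ A]
    (f : L →ₗ[ℂ] A) (hf : ∀ x y, f ⁅x, y⁆ = f x * f y - f y * f x) : UU L →ₐ[ℂ] A :=
  UniversalEnvelopingAlgebra.lift ℂ { f with map_lie' := fun {x y} => hf x y }

/-- the canonical map `L → U(L)` -/
def uuι (L : Type) [LieRing L] [LieAlgebra ℂ L] (x : L) : UU L :=
  (UniversalEnvelopingAlgebra.ι ℂ x : UniversalEnvelopingAlgebra ℂ L)

theorem uuLift_ι (L : Type) [LieRing L] [LieAlgebra ℂ L] (A : Type) [Ring A] [Algebra ℂ A]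
    (f : L →ₗ[ℂ] A) (hf : ∀ x y, f ⁅x, y⁆ = f x * f y - f y * f x) (x : L) :
    uuLift L A f hf (uuι L x) = f x :=
  UniversalEnvelopingAlgebra.lift_ι_apply ℂ _ x

end PsiLie

section Psi

variable {S : Type} [CommRing S] [Algebra ℂ S] {d : Derivation ℂ S S}
variable {R : Type} [CommRing R] [Algebra ℂ R] {ℓ : ℕ} (c : Chart d R ℓ) (n : Fin ℓ → ℕ)

/-- The algebra homomorphism `Ψ_n : U(S d) → A_ℓ ⊗ U(g_n)`. -/
def Chart.Psi : UU (VF d) →ₐ[ℂ] c.Target n :=
  uuLift (VF d) (c.Target n) (c.psiLin n) (fun x y => (c.sum_xOp_comm n x.coe y.coe).symm)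

/-- `Ψ_n` as a ring homomorphism. -/
def Chart.PsiR : UU (VF d) →+* c.Target n := (c.Psi n).toRingHom

theorem Chart.Psi_ι (x : VF d) :
    c.Psi n (uuι (VF d) x) = ∑ a, c.xOp n a x.coe :=
  uuLift_ι (VF d) (c.Target n) (c.psiLin n) _ x

end Psi

end Pool.Agent.R864.WittW
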