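import Pool.Agent.R864.WittSym

/-!
# The polynomial and the Laurent polynomial case
-/

noncomputable section

namespace Pool.Agent.R864.WittW

open Matrix Polynomial

/-! ### Polynomials -/

theorem pderiv_comm {ℓ : ℕ} (a b : Fin ℓ) (r : MvPolynomial (Fin ℓ) ℂ) :
    MvPolynomial.pderiv a (MvPolynomial.pderiv b r) =
      MvPolynomial.pderiv b (MvPolynomial.pderiv a r) := by
  have h : ⁅(MvPolynomial.pderiv a : Derivation ℂ (MvPolynomial (Fin ℓ) ℂ)
      (MvPolynomial (Fin ℓ) ℂ)), (MvPolynomial.pderiv b : Derivation ℂ (MvPolynomial (Fin ℓ) ℂ)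
      (MvPolynomial (Fin ℓ) ℂ))⁆ = 0 := by
    apply MvPolynomial.derivation_ext
    intro i
    rw [Derivation.commutator_apply, MvPolynomial.pderiv_X, MvPolynomial.pderiv_X,
      Derivation.zero_apply]
    by_cases h1 : b = i
    · by_cases h2 : a = i
      · subst h1; subst h2; simp
      · subst h1
        rw [Pi.single_eq_same, Pi.single_eq_of_ne (Ne.symm h2)]
        simp
    · rw [Pi.single_eq_of_ne (Ne.symm h1), map_zero]
      by_cases h2 : a = i
      · subst h2; rw [Pi.single_eq_same]; simp
      · rw [Pi.single_eq_of_ne (Ne.symm h2)]; simp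
  have h' := congrArg (fun D : Derivation ℂ (MvPolynomial (Fin ℓ) ℂ)
    (MvPolynomial (Fin ℓ) ℂ) => D r) h
  simp only [Derivation.commutator_apply, Derivation.zero_apply] at h'
  exact sub_eq_zero.mp h'

/-- The Weyl algebra `A_ℓ` with the substitutions `f ↦ f(t_a)`. -/
def polyChart (ℓ : ℕ) :
    Chart (Polynomial.derivative' (R := ℂ)) (MvPolynomial (Fin ℓ) ℂ) ℓ where
  D a := MvPolynomial.pderiv a
  ev a := Polynomial.aeval (MvPolynomial.X a)
  D_ev a b f := by
    rw [Polynomial.derivative'_apply, Derivation.map_aeval, MvPolynomial.pderiv_X, smul_eq_mul]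
    split_ifs with h
    · subst h; rw [Pi.single_eq_same, mul_one]
    · rw [Pi.single_eq_of_ne (Ne.symm h), mul_zero]
  D_comm a b r := pderiv_comm a b r

/-- The symmetric square of the line. -/
def polySym : SymData (Polynomial.derivative' (R := ℂ)) (MvPolynomial (Fin 2) ℂ) where
  t := Polynomial.X
  d_t := by rw [Polynomial.derivative'_apply, Polynomial.derivative_X]
  D a := MvPolynomial.pderiv a
  D_comm r := pderiv_comm 0 1 r
  s := MvPolynomial.X 0
  p := MvPolynomial.X 1
  D0s := MvPolynomial.pderiv_X_self 0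
  D0p := MvPolynomial.pderiv_X_of_ne (by decide)
  D1s := MvPolynomial.pderiv_X_of_ne (by decide)
  D1p := MvPolynomial.pderiv_X_self 1
  α := Polynomial.aeval (comp (MvPolynomial.X 0) (MvPolynomial.X 1))
  α_t := Polynomial.aeval_X _
  G := {Polynomial.X}
  G_top := Polynomial.adjoin_X
  G_t g hg := Or.inl hg

theorem poly_gen (L : Module.End ℂ (MvPolynomial (Fin 2) ℂ))
    (hs : adx (MvPolynomial.X 0) L = 0) (hp : adx (MvPolynomial.X 1) L = 0)
    (r : MvPolynomial (Fin 2) ℂ) : L r = r * L 1 := by
  have h : ∀ (i : Fin 2) (r : MvPolynomial (Fin 2) ℂ),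
      L (MvPolynomial.X i * r) = MvPolynomial.X i * L r := by
    intro i r
    fin_cases i
    · exact sub_eq_zero.mp (congrArg (fun X : Module.End ℂ (MvPolynomial (Fin 2) ℂ) => X r) hs)
    · exact sub_eq_zero.mp (congrArg (fun X : Module.End ℂ (MvPolynomial (Fin 2) ℂ) => X r) hp)
  induction r using MvPolynomial.induction_on with
  | C a =>
    have : (MvPolynomial.C a : MvPolynomial (Fin 2) ℂ) = a • 1 := by
      rw [MvPolynomial.smul_eq_C_mul, mul_one]
    rw [this, map_smul, smul_mul_assoc, one_mul]
  | add p q hp hq => rw [map_add, hp, hq, add_mul]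
  | mul_X p i hp => rw [mul_comm, h, hp, mul_assoc]

theorem poly_root : ¬ ∃ τ : MvPolynomial (Fin 2) ℂ,
    τ * τ = MvPolynomial.X 0 * τ - MvPolynomial.X 1 := by
  refine no_root ((MvPolynomial.aeval (R := ℂ) ![(2 : RatFunc ℂ), 1 - RatFunc.X]).toRingHom) _ _
    ?_ ?_
  · simp
  · simp

/-! ### Laurent polynomials -/

/-- The ring of Laurent polynomials in `ℓ` variables. -/
abbrev Laur (ℓ : ℕ) : Type := AddMonoidAlgebra ℂ (Fin ℓ → ℤ)

section euler

variable {M : Type} [AddCommMonoid M]

/-- The Euler derivation `t^m ↦ λ(m) t^m` as a linear map. -/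
def eulerLin (l : M →+ ℂ) : AddMonoidAlgebra ℂ M →ₗ[ℂ] AddMonoidAlgebra ℂ M :=
  (AddMonoidAlgebra.basis M ℂ).constr ℂ (fun m => l m • AddMonoidAlgebra.single m 1)

theorem eulerLin_single (l : M →+ ℂ) (m : M) (z : ℂ) :
    eulerLin l (.single m z) = .single m (l m * z) := by
  have h : (AddMonoidAlgebra.single m z : AddMonoidAlgebra ℂ M) =
      z • AddMonoidAlgebra.basis M ℂ m := by simp
  rw [h, map_smul, eulerLin, Module.Basis.constr_basis]
  simp [mul_comm]

theorem eulerLin_mul (l : M →+ ℂ) (f g : AddMonoidAlgebra ℂ M) :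
    eulerLin l (f * g) = f * eulerLin l g + g * eulerLin l f := by
  induction f using AddMonoidAlgebra.induction_linear with
  | zero => simp
  | add f1 f2 h1 h2 => rw [add_mul, map_add, h1, h2, map_add]; ring
  | single m z =>
    induction g using AddMonoidAlgebra.induction_linear with
    | zero => simp
    | add g1 g2 h1 h2 => rw [mul_add, map_add, h1, h2, map_add]; ring
    | single m' z' =>
      simp only [eulerLin_single, AddMonoidAlgebra.single_mul_single, map_add]
      rw [add_comm m' m, ← AddMonoidAlgebra.single_add]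
      congr 1
      ring

/-- The Euler derivation `t^m ↦ λ(m) t^m`. -/
def euler (l : M →+ ℂ) : Derivation ℂ (AddMonoidAlgebra ℂ M) (AddMonoidAlgebra ℂ M) :=
  Derivation.mk' (eulerLin l) (eulerLin_mul l)

theorem euler_single (l : M →+ ℂ) (m : M) (z : ℂ) :
    euler l (.single m z) = .single m (l m * z) := eulerLin_single l m z

end euler

/-- The derivation `∂` of `ℂ[t, t⁻¹]`. -/
def dL : Derivation ℂ (LaurentPolynomial ℂ) (LaurentPolynomial ℂ) :=
  (LaurentPolynomial.T (-1) : LaurentPolynomial ℂ) • euler (Int.castAddHom ℂ)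

/-- The derivation `∂_a` of the ring of Laurent polynomials. -/
def dLaur {ℓ : ℕ} (a : Fin ℓ) : Derivation ℂ (Laur ℓ) (Laur ℓ) :=
  (AddMonoidAlgebra.single (-(Pi.single a 1)) 1 : Laur ℓ) •
    euler ((Int.castAddHom ℂ).comp (Pi.evalAddMonoidHom (fun _ => ℤ) a))

theorem dL_single (m : ℤ) (z : ℂ) :
    dL (AddMonoidAlgebra.single m z) = AddMonoidAlgebra.single (m - 1) ((m : ℂ) * z) := by
  show (LaurentPolynomial.T (-1) : LaurentPolynomial ℂ) *
    euler (Int.castAddHom ℂ) (AddMonoidAlgebra.single m z) = _
  rw [euler_single, LaurentPolynomial.T, AddMonoidAlgebra.single_mul_single, one_mul]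
  congr 1
  ring

theorem dLaur_single {ℓ : ℕ} (a : Fin ℓ) (m : Fin ℓ → ℤ) (z : ℂ) :
    dLaur a (AddMonoidAlgebra.single m z) =
      AddMonoidAlgebra.single (m - Pi.single a 1) ((m a : ℂ) * z) := by
  show (AddMonoidAlgebra.single (-(Pi.single a 1)) 1 : Laur ℓ) *
    euler ((Int.castAddHom ℂ).comp (Pi.evalAddMonoidHom (fun _ => ℤ) a))
      (AddMonoidAlgebra.single m z) = _
  rw [euler_single, AddMonoidAlgebra.single_mul_single, one_mul, neg_add_eq_sub]
  rfl

/-- The substitution `f ↦ f(t_a)`. -/
def evLaur {ℓ : ℕ} (a : Fin ℓ) : LaurentPolynomial ℂ →ₐ[ℂ] Laur ℓ :=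
  AddMonoidAlgebra.mapDomainAlgHom ℂ ℂ (AddMonoidHom.single (fun _ => ℤ) a)

theorem evLaur_single {ℓ : ℕ} (a : Fin ℓ) (m : ℤ) (z : ℂ) :
    evLaur a (AddMonoidAlgebra.single m z) = AddMonoidAlgebra.single (Pi.single a m) z := by
  rw [evLaur, AddMonoidAlgebra.mapDomainAlgHom_apply, AddMonoidAlgebra.mapDomain_single]
  rfl

/-- The localised Weyl algebra `Ã_ℓ` with the substitutions `f ↦ f(t_a)`. -/
def laurChart (ℓ : ℕ) : Chart dL (Laur ℓ) ℓ where
  D a := dLaur a
  ev a := evLaur a
  D_ev a b f := by
    induction f using AddMonoidAlgebra.induction_linear with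
    | zero => simp
    | add f g hf hg =>
      rw [map_add, map_add, hf, hg, map_add]
      split_ifs with h
      · rw [map_add]
      · rw [add_zero]
    | single m z =>
      rw [evLaur_single, dLaur_single, dL_single, evLaur_single]
      split_ifs with h
      · subst h
        rw [Pi.single_eq_same, Pi.single_sub]
      · rw [Pi.single_eq_of_ne h]
        simp
  D_comm a b r := by
    induction r using AddMonoidAlgebra.induction_linear with
    | zero => simp
    | add f g hf hg => simp only [map_add, hf, hg]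
    | single m z =>
      simp only [dLaur_single]
      by_cases h : a = b
      · subst h; rfl
      · rw [Pi.sub_apply, Pi.sub_apply, Pi.single_eq_of_ne h, Pi.single_eq_of_ne (Ne.symm h)]
        congr 1
        · abel
        · push_cast; ring

theorem adjoin_T : Algebra.adjoin ℂ ({LaurentPolynomial.T 1, LaurentPolynomial.T (-1)} :
    Set (LaurentPolynomial ℂ)) = ⊤ := by
  rw [eq_top_iff]
  intro f _
  have h1 : (LaurentPolynomial.T 1 : LaurentPolynomial ℂ) ∈ Algebra.adjoin ℂ
      ({LaurentPolynomial.T 1, LaurentPolynomial.T (-1)} : Set (LaurentPolynomial ℂ)) :=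
    Algebra.subset_adjoin (Or.inl rfl)
  have h2 : (LaurentPolynomial.T (-1) : LaurentPolynomial ℂ) ∈ Algebra.adjoin ℂ
      ({LaurentPolynomial.T 1, LaurentPolynomial.T (-1)} : Set (LaurentPolynomial ℂ)) :=
    Algebra.subset_adjoin (Or.inr rfl)
  have h3 : ∀ n : ℤ, (LaurentPolynomial.T n : LaurentPolynomial ℂ) ∈ Algebra.adjoin ℂ
      ({LaurentPolynomial.T 1, LaurentPolynomial.T (-1)} : Set (LaurentPolynomial ℂ)) := by
    intro n
    induction n using Int.induction_on with
    | zero => rw [LaurentPolynomial.T_zero]; exact one_mem _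
    | succ n ih => rw [LaurentPolynomial.T_add]; exact mul_mem ih h1
    | pred n ih => rw [sub_eq_add_neg, LaurentPolynomial.T_add]; exact mul_mem ih h2
  induction f using AddMonoidAlgebra.induction_linear with
  | zero => exact zero_mem _
  | add f g hf hg => exact add_mem (hf trivial) (hg trivial)
  | single m z =>
    have : (AddMonoidAlgebra.single m z : LaurentPolynomial ℂ) = z • LaurentPolynomial.T m := by
      rw [LaurentPolynomial.T, AddMonoidAlgebra.smul_single, smul_eq_mul, mul_one]
    rw [this]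
    exact Subalgebra.smul_mem _ (h3 m) z

/-- The companion matrix as a unit, for Laurent polynomials. -/
def compUnit : (Matrix (Fin 2) (Fin 2) (Laur 2))ˣ where
  val := comp (.single (Pi.single 0 1) 1) (.single (Pi.single 1 1) 1)
  inv := (AddMonoidAlgebra.single (Pi.single 1 (-1)) 1 : Laur 2) •
    !![.single (Pi.single 0 1) 1, .single (Pi.single 1 1) 1; -1, 0]
  val_inv := by
    have h : (AddMonoidAlgebra.single (Pi.single 1 (-1)) 1 : Laur 2) *
      .single (Pi.single 1 1) 1 = 1 := by
      rw [AddMonoidAlgebra.single_mul_single, ← Pi.single_add]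
      simp [AddMonoidAlgebra.one_def]
    rw [comp, Matrix.mul_smul]
    ext i j
    fin_cases i <;> fin_cases j <;>
    simp [Matrix.mul_apply, Fin.sum_univ_two, h, mul_comm]
  inv_val := by
    have h : (AddMonoidAlgebra.single (Pi.single 1 (-1)) 1 : Laur 2) *
      .single (Pi.single 1 1) 1 = 1 := by
      rw [AddMonoidAlgebra.single_mul_single, ← Pi.single_add]
      simp [AddMonoidAlgebra.one_def]
    rw [comp, Matrix.smul_mul]
    ext i j
    fin_cases i <;> fin_cases j <;>
    simp [Matrix.mul_apply, Fin.sum_univ_two, h, mul_comm]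

/-- The symmetric square of the punctured line. -/
def laurSym : SymData dL (Laur 2) where
  t := LaurentPolynomial.T 1
  d_t := by
    rw [LaurentPolynomial.T, dL_single, Int.cast_one, one_mul, sub_self]
    rfl
  D a := dLaur a
  D_comm r := (laurChart 2).D_comm 0 1 r
  s := .single (Pi.single 0 1) 1
  p := .single (Pi.single 1 1) 1
  D0s := by rw [dLaur_single]; simp [AddMonoidAlgebra.one_def]
  D0p := by rw [dLaur_single]; simp
  D1s := by rw [dLaur_single]; simp
  D1p := by rw [dLaur_single]; simp [AddMonoidAlgebra.one_def]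
  α := AddMonoidAlgebra.lift ℂ _ ℤ ((Units.coeHom _).comp (zpowersHom _ compUnit))
  α_t := by
    rw [LaurentPolynomial.T, AddMonoidAlgebra.lift_single]
    simp [compUnit]
  G := {LaurentPolynomial.T 1, LaurentPolynomial.T (-1)}
  G_top := adjoin_T
  G_t g hg := by
    rcases hg with rfl | rfl
    · exact Or.inl rfl
    · right
      rw [← LaurentPolynomial.T_add]
      simp

theorem laur_gen (L : Module.End ℂ (Laur 2))
    (hs : adx (.single (Pi.single 0 1) 1) L = 0) (hp : adx (.single (Pi.single 1 1) 1) L = 0)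
    (r : Laur 2) : L r = r * L 1 := by
  have h : ∀ (i : Fin 2) (r : Laur 2),
      L ((.single (Pi.single i 1) 1 : Laur 2) * r) = (.single (Pi.single i 1) 1 : Laur 2) * L r := by
    intro i r
    fin_cases i
    · exact sub_eq_zero.mp (congrArg (fun X : Module.End ℂ (Laur 2) => X r) hs)
    · exact sub_eq_zero.mp (congrArg (fun X : Module.End ℂ (Laur 2) => X r) hp)
  have h' : ∀ (i : Fin 2) (r : Laur 2),
      L ((.single (Pi.single i (-1)) 1 : Laur 2) * r) =
        (.single (Pi.single i (-1)) 1 : Laur 2) * L r := by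
    intro i r
    have e : (.single (Pi.single i (-1)) 1 : Laur 2) * .single (Pi.single i 1) 1 = 1 := by
      rw [AddMonoidAlgebra.single_mul_single, ← Pi.single_add]
      simp [AddMonoidAlgebra.one_def]
    calc L ((.single (Pi.single i (-1)) 1 : Laur 2) * r)
        = (.single (Pi.single i (-1)) 1 : Laur 2) * (.single (Pi.single i 1) 1 : Laur 2) *
          L ((.single (Pi.single i (-1)) 1 : Laur 2) * r) := by rw [e, one_mul]
      _ = (.single (Pi.single i (-1)) 1 : Laur 2) *
          L (((.single (Pi.single i (-1)) 1 : Laur 2) * (.single (Pi.single i 1) 1 : Laur 2)) * r)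
          := by rw [mul_assoc, ← h]; congr 2; ring
      _ = _ := by rw [e, one_mul]
  have h3 : ∀ (i : Fin 2) (n : ℤ) (r : Laur 2),
      L ((.single (Pi.single i n) 1 : Laur 2) * r) = (.single (Pi.single i n) 1 : Laur 2) * L r := by
    intro i n
    induction n using Int.induction_on with
    | zero =>
      intro r
      have : (.single (Pi.single i 0) 1 : Laur 2) = 1 := by simp [AddMonoidAlgebra.one_def]
      rw [this, one_mul, one_mul]
    | succ n ih =>
      intro r
      have : (.single (Pi.single i ((n : ℤ) + 1)) 1 : Laur 2) =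
          .single (Pi.single i (n : ℤ)) 1 * .single (Pi.single i 1) 1 := by
        rw [AddMonoidAlgebra.single_mul_single, ← Pi.single_add, one_mul]
      rw [this, mul_assoc, ih, h, mul_assoc]
    | pred n ih =>
      intro r
      have : (.single (Pi.single i (-(n : ℤ) - 1)) 1 : Laur 2) =
          .single (Pi.single i (-(n : ℤ))) 1 * .single (Pi.single i (-1)) 1 := by
        rw [AddMonoidAlgebra.single_mul_single, ← Pi.single_add, one_mul, sub_eq_add_neg]
      rw [this, mul_assoc, ih, h', mul_assoc]
  induction r using AddMonoidAlgebra.induction_linear with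
  | zero => simp
  | add f g hf hg => rw [map_add, hf, hg, add_mul]
  | single m z =>
    have e : (.single m z : Laur 2) = z • ((.single (Pi.single 0 (m 0)) 1 : Laur 2) *
        ((.single (Pi.single 1 (m 1)) 1 : Laur 2) * 1)) := by
      rw [mul_one, AddMonoidAlgebra.single_mul_single]
      simp only [mul_one, AddMonoidAlgebra.smul_single, smul_eq_mul]
      congr 1
      ext i
      fin_cases i <;> simp
    rw [e, map_smul, h3, h3, smul_mul_assoc]
    ring_nf

/-- a ring homomorphism from the Laurent polynomials to the rational functions. -/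
def laurEv : Laur 2 →ₐ[ℂ] RatFunc ℂ :=
  AddMonoidAlgebra.lift ℂ _ _
    { toFun := fun m => (2 : RatFunc ℂ) ^ (m.toAdd 0) * (1 - RatFunc.X) ^ (m.toAdd 1)
      map_one' := by simp
      map_mul' := by
        intro a b
        have h1 : (1 - RatFunc.X : RatFunc ℂ) ≠ 0 := by
          intro h
          have h2 : (RatFunc.X : RatFunc ℂ) = 1 := (sub_eq_zero.mp h).symm
          have h3 := congrArg RatFunc.intDegree h2
          rw [RatFunc.intDegree_X, RatFunc.intDegree_one] at h3
          exact one_ne_zero h3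
        simp only [toAdd_mul, Pi.add_apply]
        rw [zpow_add₀ two_ne_zero, zpow_add₀ h1]
        ring }

theorem laur_root : ¬ ∃ τ : Laur 2,
    τ * τ = (.single (Pi.single 0 1) 1 : Laur 2) * τ - (.single (Pi.single 1 1) 1 : Laur 2) := by
  refine no_root laurEv.toRingHom _ _ ?_ ?_
  · simp [laurEv, AddMonoidAlgebra.lift_single]
  · simp [laurEv, AddMonoidAlgebra.lift_single]

end Pool.Agent.R864.WittW
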