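import Pool.Agent.R864.WittCore

/-!
# The action of `W_{-1}` and `W` on the symmetric square

`R` is a ring with coordinates `s, p`; `α : S → M_2(R)` is the homomorphism which sends `t` to the
companion matrix of `X² - s X + p`.  For `f ∈ S` put `P_f = tr α(f)` and `Q_f = s P_f - P_{tf}`.
Then `f∂ ↦ P_f ∂_s + Q_f ∂_p` is a homomorphism of Lie algebras.
-/

noncomputable section

namespace Pool.Agent.R864.WittW

open Matrix

section Sym

variable {S : Type} [CommRing S] [Algebra ℂ S] {d : Derivation ℂ S S}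
variable {R : Type} [CommRing R] [Algebra ℂ R]

/-- The companion matrix of `X² - s X + p`. -/
def comp (s p : R) : Matrix (Fin 2) (Fin 2) R := !![0, -p; 1, s]

/-- Data for the symmetric square. -/
structure SymData (d : Derivation ℂ S S) (R : Type) [CommRing R] [Algebra ℂ R] where
  /-- the coordinate `t` -/
  t : S
  d_t : d t = 1
  /-- the partial derivatives with respect to `s` and `p` -/
  D : Fin 2 → Derivation ℂ R R
  D_comm : ∀ r, D 0 (D 1 r) = D 1 (D 0 r)
  /-- `s = x₁ + x₂` -/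
  s : R
  /-- `p = x₁ x₂` -/
  p : R
  D0s : D 0 s = 1
  D0p : D 0 p = 0
  D1s : D 1 s = 0
  D1p : D 1 p = 1
  /-- substitution of the companion matrix -/
  α : S →ₐ[ℂ] Matrix (Fin 2) (Fin 2) R
  α_t : α t = comp s p
  /-- generators -/
  G : Set S
  G_top : Algebra.adjoin ℂ G = ⊤
  G_t : ∀ g ∈ G, g = t ∨ g * t = 1

variable (c : SymData d R)

/-- `P_f = f(x₁) + f(x₂)` -/
def SymData.P (f : S) : R := (c.α f).trace

/-- `Q_f = f(x₁) x₂ + f(x₂) x₁` -/
def SymData.Q (f : S) : R := c.s * c.P f - c.P (c.t * f)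

/-- The derivation `P_f ∂_s + Q_f ∂_p`. -/
def SymData.Δ (f : S) : Derivation ℂ R R := c.P f • c.D 0 + c.Q f • c.D 1

theorem SymData.Δ_apply (f : S) (r : R) : c.Δ f r = c.P f * c.D 0 r + c.Q f * c.D 1 r := rfl

theorem SymData.Δ_s (f : S) : c.Δ f c.s = c.P f := by
  rw [c.Δ_apply, c.D0s, c.D1s]; ring

theorem SymData.Δ_p (f : S) : c.Δ f c.p = c.Q f := by
  rw [c.Δ_apply, c.D0p, c.D1p]; ring

theorem SymData.P_add (f g : S) : c.P (f + g) = c.P f + c.P g := by
  simp only [SymData.P, map_add, Matrix.trace_add]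

theorem SymData.P_sub (f g : S) : c.P (f - g) = c.P f - c.P g := by
  simp only [SymData.P, map_sub, Matrix.trace_sub]

theorem SymData.P_smul (z : ℂ) (f : S) : c.P (z • f) = z • c.P f := by
  simp only [SymData.P, map_smul, Matrix.trace_smul]

theorem SymData.Q_add (f g : S) : c.Q (f + g) = c.Q f + c.Q g := by
  simp only [SymData.Q, mul_add, c.P_add]; ring

theorem SymData.Q_smul (z : ℂ) (f : S) : c.Q (z • f) = z • c.Q f := by
  simp only [SymData.Q, mul_smul_comm, c.P_smul, smul_sub]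

theorem map_mul_der (Δ : Derivation ℂ R R) (A B : Matrix (Fin 2) (Fin 2) R) :
    (A * B).map Δ = A.map Δ * B + A * B.map Δ := by
  ext i j
  simp only [Matrix.map_apply, Matrix.mul_apply, Matrix.add_apply, map_sum, Derivation.leibniz,
    smul_eq_mul, ← Finset.sum_add_distrib]
  apply Finset.sum_congr rfl
  intro k _
  ring

theorem trace_map_der (Δ : Derivation ℂ R R) (A : Matrix (Fin 2) (Fin 2) R) :
    (A.map Δ).trace = Δ A.trace := by
  simp [Matrix.trace]

/-- `tr(Δ(α(g)) α(h)) = tr(α(g' h) Δ(C))`. -/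
theorem SymData.claim (Δ : Derivation ℂ R R) (g : S) : ∀ h : S,
    ((c.α g).map Δ * c.α h).trace = (c.α (d g * h) * (comp c.s c.p).map Δ).trace := by
  have hg : g ∈ Algebra.adjoin ℂ c.G := by rw [c.G_top]; exact Algebra.mem_top
  induction hg using Algebra.adjoin_induction with
  | mem y hy =>
    rcases c.G_t y hy with rfl | hy1
    · intro h
      rw [c.α_t, c.d_t, one_mul, Matrix.trace_mul_comm]
    · intro h
      have e1 : (c.α y).map Δ * comp c.s c.p + c.α y * (comp c.s c.p).map Δ = 0 := by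
        have := map_mul_der Δ (c.α y) (c.α c.t)
        rw [← map_mul, hy1, map_one, c.α_t] at this
        rw [← this]
        ext i j
        by_cases hij : i = j
        · subst hij; simp
        · simp [Matrix.one_apply_ne hij]
      have e2 : comp c.s c.p * c.α y = 1 := by
        rw [← c.α_t, ← map_mul, mul_comm, hy1, map_one]
      have e3 : (c.α y).map Δ = -(c.α y * (comp c.s c.p).map Δ * c.α y) := by
        calc (c.α y).map Δ = (c.α y).map Δ * (comp c.s c.p * c.α y) := by rw [e2, mul_one]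
          _ = ((c.α y).map Δ * comp c.s c.p + c.α y * (comp c.s c.p).map Δ) * c.α y -
              c.α y * (comp c.s c.p).map Δ * c.α y := by noncomm_ring
          _ = _ := by rw [e1]; noncomm_ring
      have e4 : d y = -(y * y) := by
        have h1 : d (y * c.t) = 0 := by rw [hy1]; exact Derivation.map_one_eq_zero d
        rw [Derivation.leibniz, c.d_t, smul_eq_mul, smul_eq_mul, mul_one] at h1
        have h2 : d y = y * (c.t * d y) := by rw [← mul_assoc, hy1, one_mul]
        rw [h2]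
        linear_combination y * h1
      rw [e3, e4, neg_mul, Matrix.trace_neg]
      have e5 : c.α (-(y * y) * h) = -(c.α y * c.α h * c.α y) := by
        rw [← map_mul, ← map_mul, ← map_neg]
        congr 1
        ring
      rw [e5, neg_mul, Matrix.trace_neg]
      congr 1
      calc (c.α y * (comp c.s c.p).map Δ * c.α y * c.α h).trace
          = (c.α y * (comp c.s c.p).map Δ * (c.α y * c.α h)).trace := by rw [Matrix.mul_assoc]
        _ = ((c.α y * c.α h) * (c.α y * (comp c.s c.p).map Δ)).trace := Matrix.trace_mul_comm _ _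
        _ = _ := by simp only [Matrix.mul_assoc]
  | algebraMap z =>
    intro h
    have e1 : (c.α (algebraMap ℂ S z)).map Δ = 0 := by
      rw [AlgHom.commutes]
      ext i j
      by_cases hij : i = j
      · subst hij
        simp [Matrix.algebraMap_matrix_apply]
      · simp [Matrix.algebraMap_matrix_apply, hij]
    rw [e1, Derivation.map_algebraMap, zero_mul, zero_mul, map_zero, zero_mul]
  | add a b _ _ ha hb =>
    intro h
    have e1 : (c.α (a + b)).map Δ = (c.α a).map Δ + (c.α b).map Δ := by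
      ext i j
      simp [map_add]
    rw [e1, add_mul, Matrix.trace_add, ha, hb, map_add, add_mul, map_add, add_mul,
      Matrix.trace_add]
  | mul a b _ _ ha hb =>
    intro h
    rw [map_mul, map_mul_der, add_mul, Matrix.trace_add]
    have e1 : ((c.α a).map Δ * c.α b * c.α h).trace =
        (c.α (d a * (b * h)) * (comp c.s c.p).map Δ).trace := by
      rw [← ha (b * h), Matrix.mul_assoc, map_mul]
    have e2 : (c.α a * (c.α b).map Δ * c.α h).trace =
        (c.α (d b * (h * a)) * (comp c.s c.p).map Δ).trace := by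
      rw [← hb (h * a), map_mul, Matrix.mul_assoc, Matrix.trace_mul_comm, Matrix.mul_assoc]
    rw [e1, e2, ← Matrix.trace_add, ← add_mul, ← map_add]
    congr 3
    rw [Derivation.leibniz, smul_eq_mul, smul_eq_mul]
    ring

omit [Algebra ℂ R] in
theorem comm_entries {s p : R} {M : Matrix (Fin 2) (Fin 2) R}
    (h : M * comp s p = comp s p * M) : M 0 1 = -p * M 1 0 ∧ M 1 1 = M 0 0 + s * M 1 0 := by
  have h00 := congrFun (congrFun h 0) 0
  have h10 := congrFun (congrFun h 1) 0
  simp [comp, Matrix.mul_apply, Fin.sum_univ_two] at h00 h10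
  exact ⟨by rw [h00]; ring, h10⟩

theorem SymData.α_comm (f : S) : c.α f * comp c.s c.p = comp c.s c.p * c.α f := by
  rw [← c.α_t, ← map_mul, ← map_mul, mul_comm]

theorem SymData.P_sq (f : S) : c.P (c.t * (c.t * f)) = c.s * c.P (c.t * f) - c.p * c.P f := by
  simp only [SymData.P, map_mul, c.α_t, comp]
  simp only [Matrix.trace, Matrix.diag, Matrix.mul_apply, Fin.sum_univ_two, Matrix.cons_val',
    Matrix.cons_val_zero, Matrix.cons_val_one, Matrix.of_apply, Matrix.cons_val_fin_one]
  ring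

/-- `Δ_f(P_g) = P_{f g'}`. -/
theorem SymData.Δ_P (f g : S) : c.Δ f (c.P g) = c.P (f * d g) := by
  have h1 := c.claim (c.Δ f) g 1
  rw [map_one, mul_one, mul_one, trace_map_der] at h1
  rw [SymData.P, h1]
  have hC : (comp c.s c.p).map (c.Δ f) = !![0, -c.Q f; 0, c.P f] := by
    ext i j
    fin_cases i <;> fin_cases j
    · simp [comp]
    · simp [comp, c.Δ_p]
    · simp [comp]
    · simp [comp, c.Δ_s]
  rw [hC]
  obtain ⟨hM1, hM2⟩ := comm_entries (c.α_comm (d g))
  obtain ⟨hN1, hN2⟩ := comm_entries (c.α_comm f)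
  have hP : c.P f = c.α f 0 0 + c.α f 1 1 := by
    simp [SymData.P, Matrix.trace, Fin.sum_univ_two]
  have hQ : c.Q f = c.s * (c.α f 0 0 + c.α f 1 1) - (-c.p * c.α f 1 0 +
      (c.α f 0 1 + c.s * c.α f 1 1)) := by
    rw [SymData.Q, hP]
    congr 1
    simp only [SymData.P, map_mul, c.α_t, comp]
    simp only [Matrix.trace, Matrix.diag, Matrix.mul_apply, Fin.sum_univ_two, Matrix.cons_val',
      Matrix.cons_val_zero, Matrix.cons_val_one, Matrix.of_apply, Matrix.cons_val_fin_one]
    ring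
  have hR : c.P (f * d g) = (c.α f 0 0 * c.α (d g) 0 0 + c.α f 0 1 * c.α (d g) 1 0) +
      (c.α f 1 0 * c.α (d g) 0 1 + c.α f 1 1 * c.α (d g) 1 1) := by
    simp [SymData.P, map_mul, Matrix.trace, Matrix.mul_apply, Fin.sum_univ_two]
  have hL : (c.α (d g) * !![0, -c.Q f; 0, c.P f]).trace =
      c.α (d g) 1 0 * (-c.Q f) + c.α (d g) 1 1 * c.P f := by
    simp [Matrix.trace, Matrix.mul_apply, Fin.sum_univ_two]
  rw [hL, hR, hQ, hP, hM1, hM2, hN1, hN2]
  ring

theorem SymData.Δ_P_lie (f g : S) :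
    c.Δ f (c.P g) - c.Δ g (c.P f) = c.P (f * d g - d f * g) := by
  rw [c.Δ_P, c.Δ_P, c.P_sub, mul_comm g]

theorem SymData.Δ_Q_lie (f g : S) :
    c.Δ f (c.Q g) - c.Δ g (c.Q f) = c.Q (f * d g - d f * g) := by
  simp only [SymData.Q, map_sub, Derivation.leibniz, smul_eq_mul, c.Δ_P, c.Δ_s, c.d_t, mul_one]
  have e1 : f * (c.t * d g + g) = c.t * (f * d g) + f * g := by ring
  have e2 : g * (c.t * d f + f) = c.t * (d f * g) + f * g := by ring
  have e3 : c.t * (f * d g - d f * g) = c.t * (f * d g) - c.t * (d f * g) := by ring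
  have e4 : g * d f = d f * g := mul_comm _ _
  rw [e1, e2, e3, e4, c.P_add, c.P_add, c.P_sub, c.P_sub]
  ring

theorem SymData.Δ_lie (f g : S) (r : R) :
    c.Δ f (c.Δ g r) - c.Δ g (c.Δ f r) = c.Δ (f * d g - d f * g) r := by
  have h1 := c.Δ_P_lie f g
  have h2 := c.Δ_Q_lie f g
  have h3 := c.D_comm r
  rw [c.Δ_apply (f * d g - d f * g), ← h1, ← h2]
  have e1 : c.Δ f (c.Δ g r) = c.Δ f (c.P g) * c.D 0 r + c.P g * c.Δ f (c.D 0 r) +
      (c.Δ f (c.Q g) * c.D 1 r + c.Q g * c.Δ f (c.D 1 r)) := by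
    rw [c.Δ_apply g r, map_add, Derivation.leibniz, Derivation.leibniz]
    simp only [smul_eq_mul]
    ring
  have e2 : c.Δ g (c.Δ f r) = c.Δ g (c.P f) * c.D 0 r + c.P f * c.Δ g (c.D 0 r) +
      (c.Δ g (c.Q f) * c.D 1 r + c.Q f * c.Δ g (c.D 1 r)) := by
    rw [c.Δ_apply f r, map_add, Derivation.leibniz, Derivation.leibniz]
    simp only [smul_eq_mul]
    ring
  rw [e1, e2, c.Δ_apply f (c.D 0 r), c.Δ_apply f (c.D 1 r), c.Δ_apply g (c.D 0 r),
    c.Δ_apply g (c.D 1 r), h3]
  ring

/-- The element `P_f ∂_s + Q_f ∂_p` of the ring of differential operators. -/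
def SymData.op (f : S) : DOp R c.D := mulOp c.D (c.P f) * dOp c.D 0 + mulOp c.D (c.Q f) * dOp c.D 1

theorem SymData.op_apply (f : S) (r : R) : toEnd c.D (c.op f) r = c.Δ f r := by
  simp only [SymData.op, map_add, map_mul, LinearMap.add_apply, Module.End.mul_apply, mulOp_apply,
    dOp_apply, c.Δ_apply]

/-- The linear map `f∂ ↦ P_f ∂_s + Q_f ∂_p`. -/
def SymData.lin : VF d →ₗ[ℂ] DOp R c.D where
  toFun x := c.op x.coe
  map_add' x y := by
    apply diffOp_ext
    intro r
    rw [map_add, LinearMap.add_apply, c.op_apply, c.op_apply, c.op_apply, c.Δ_apply, c.Δ_apply,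
      c.Δ_apply, VF.coe_add, c.P_add, c.Q_add]
    ring
  map_smul' z x := by
    apply diffOp_ext
    intro r
    rw [map_smul, LinearMap.smul_apply, c.op_apply, c.op_apply, c.Δ_apply, c.Δ_apply,
      VF.coe_smul, c.P_smul, c.Q_smul, smul_add, smul_mul_assoc, smul_mul_assoc]
    rfl

theorem SymData.op_lie (f g : S) : c.op (f * d g - d f * g) = c.op f * c.op g - c.op g * c.op f := by
  apply diffOp_ext
  intro r
  rw [map_sub, map_mul, map_mul, LinearMap.sub_apply,
      Module.End.mul_apply, Module.End.mul_apply, c.op_apply, c.op_apply, c.op_apply,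
      c.op_apply, c.op_apply, c.Δ_lie]

/-- The algebra homomorphism from `U(S d)` to the differential operators in `s` and `p`. -/
def SymData.phi : UU (VF d) →ₐ[ℂ] DOp R c.D :=
  uuLift (VF d) (DOp R c.D) c.lin (fun x y => c.op_lie x.coe y.coe)

theorem SymData.phi_ι (x : VF d) : c.phi (uuι (VF d) x) = c.op x.coe :=
  uuLift_ι (VF d) (DOp R c.D) c.lin _ x

theorem SymData.Δ_rel (r : R) :
    c.Δ (c.t ^ 2) r = c.s * c.Δ (c.t ^ 1) r - c.p * c.Δ (c.t ^ 0) r := by
  have h1 := c.P_sq 1
  have h2 := c.P_sq c.t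
  simp only [mul_one] at h1
  simp only [c.Δ_apply, SymData.Q, pow_zero, pow_one, pow_two, mul_one]
  rw [h2, h1]
  ring

/-- The homomorphism `phi` does not factor through any `Ψ_n`. -/
theorem SymData.not_factor [IsDomain R]
    (hgen : ∀ L : Module.End ℂ R, adx c.s L = 0 → adx c.p L = 0 → ∀ r, L r = r * L 1)
    (hroot : ¬ ∃ τ : R, τ * τ = c.s * τ - c.p)
    {ℓ : ℕ} {R' : Type} [CommRing R'] [Algebra ℂ R'] (c' : Chart d R' ℓ) (n : Fin ℓ → ℕ)
    (φb : c'.Target n →+* DOp R c.D) :
    c.phi.toRingHom ≠ φb.comp (c'.Psi n).toRingHom := by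
  intro heq
  have hx : ∀ f : S, c.op f = φb (∑ a, c'.xOp n a f) := by
    intro f
    have := congrArg (fun F : _ →+* DOp R c.D => F (uuι (VF d) (⟨f⟩ : VF d))) heq
    have h2 : c.phi (uuι (VF d) (⟨f⟩ : VF d)) = φb (c'.Psi n (uuι (VF d) (⟨f⟩ : VF d))) := this
    rw [c.phi_ι, c'.Psi_ι] at h2
    exact h2
  rcases Nat.eq_zero_or_pos ℓ with rfl | hℓ
  · have h1 := hx 1
    rw [Finset.univ_eq_empty, Finset.sum_empty, map_zero] at h1
    have h2 := congrArg (fun X => toEnd c.D X c.s) h1
    simp only [c.op_apply, map_zero, LinearMap.zero_apply] at h2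
    rw [c.Δ_s] at h2
    have h3 : c.P 1 = 2 := by
      simp [SymData.P, map_one, Matrix.trace_one]
    rw [h3] at h2
    have h4 : (algebraMap ℂ R) 2 = 0 := by rw [map_ofNat]; exact h2
    exact two_ne_zero ((FaithfulSMul.algebraMap_injective ℂ R) (by rw [h4, map_zero]))
  · set a : Fin ℓ := ⟨0, hℓ⟩
    set T := φb (c'.mHom n a c.t) with hT
    apply hroot
    have hcomm : ∀ m : ℕ, c.op (c.t ^ m) * T - T * c.op (c.t ^ m) = T ^ m := by
      intro m
      rw [hx, hT, ← map_mul, ← map_mul, ← map_sub, c'.Psi_comm n a (c.t ^ m) c.t c.d_t, map_pow,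
        map_pow]
    refine exists_root c.D c.s c.p hgen (T := toEnd c.D T) (Subtype.property T)
      (fun m => c.Δ (c.t ^ m)) ?_ c.Δ_rel
    intro m
    have hop : toEnd c.D (c.op (c.t ^ m)) = ((c.Δ (c.t ^ m) : Derivation ℂ R R) : R →ₗ[ℂ] R) := by
      ext r
      rw [c.op_apply]
      rfl
    rw [← map_pow, ← hcomm m, map_sub, map_mul, map_mul, hop]

end Sym

end Pool.Agent.R864.WittW
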